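import Mathlib

namespace Pool.Agent.Lib.MP_8d00da_gt.h25
end Pool.Agent.Lib.MP_8d00da_gt.h25
namespace Pool.Agent.Lib.MP_8d00da_gt.h42
end Pool.Agent.Lib.MP_8d00da_gt.h42


/-!
# Bounded Lipschitz functions
-/

namespace Pool.Agent.Lib.MP_8d00da_gt.h42s

open MeasureTheory Set Filter
open Pool.Agent.Lib.MP_8d00da_gt.h25 Pool.Agent.Lib.MP_8d00da_gt.h42
open scoped Topology NNReal

/-- Bounded Lipschitz functions. -/
def BL {F : Type*} [PseudoMetricSpace F] (f : F → ℝ) : Prop :=
  (∃ L : ℝ≥0, LipschitzWith L f) ∧ ∃ A : ℝ, ∀ x, |f x| ≤ A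

section

variable {F : Type*} [PseudoMetricSpace F] {f g : F → ℝ}

lemma BL.const (c : ℝ) : BL (fun _ : F => c) := ⟨⟨0, LipschitzWith.const c⟩, |c|, fun _ => le_rfl⟩

lemma BL.add (hf : BL f) (hg : BL g) : BL (fun x => f x + g x) := by
  obtain ⟨⟨L, hL⟩, A, hA⟩ := hf
  obtain ⟨⟨L', hL'⟩, A', hA'⟩ := hg
  exact ⟨⟨L + L', hL.add hL'⟩, A + A', fun x => (abs_add_le _ _).trans (add_le_add (hA x) (hA' x))⟩

lemma BL.neg (hf : BL f) : BL (fun x => - f x) := by
  obtain ⟨⟨L, hL⟩, A, hA⟩ := hf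
  exact ⟨⟨L, hL.neg⟩, A, fun x => by rw [abs_neg]; exact hA x⟩

lemma BL.sub (hf : BL f) (hg : BL g) : BL (fun x => f x - g x) := by
  simp only [sub_eq_add_neg]
  exact hf.add hg.neg

lemma BL.mul (hf : BL f) (hg : BL g) : BL (fun x => f x * g x) := by
  obtain ⟨⟨L, hL⟩, A, hA⟩ := hf
  obtain ⟨⟨L', hL'⟩, A', hA'⟩ := hg
  refine ⟨⟨Real.toNNReal (L * |A'| + L' * |A|), ?_⟩, |A| * |A'|, fun x => ?_⟩
  · refine LipschitzWith.of_dist_le_mul fun x y => ?_
    rw [Real.coe_toNNReal _ (by positivity), Real.dist_eq]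
    have e : f x * g x - f y * g y = (f x - f y) * g x + f y * (g x - g y) := by ring
    rw [e]
    refine (abs_add_le _ _).trans ?_
    rw [abs_mul, abs_mul]
    have h1 := hL.dist_le_mul x y
    have h2 := hL'.dist_le_mul x y
    rw [Real.dist_eq] at h1 h2
    have h3 : |g x| ≤ |A'| := (hA' x).trans (le_abs_self _)
    have h4 : |f y| ≤ |A| := (hA y).trans (le_abs_self _)
    have h5 : |f x - f y| * |g x| ≤ (L * dist x y) * |A'| :=
      mul_le_mul h1 h3 (abs_nonneg _) (by positivity)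
    have h6 : |f y| * |g x - g y| ≤ |A| * (L' * dist x y) :=
      mul_le_mul h4 h2 (abs_nonneg _) (abs_nonneg _)
    calc _ ≤ (L * dist x y) * |A'| + |A| * (L' * dist x y) := add_le_add h5 h6
      _ = _ := by ring
  · rw [abs_mul]
    exact mul_le_mul ((hA x).trans (le_abs_self _)) ((hA' x).trans (le_abs_self _))
      (abs_nonneg _) (abs_nonneg _)

lemma BL.sum {ι : Type*} (s : Finset ι) {f : ι → F → ℝ} (hf : ∀ i ∈ s, BL (f i)) :
    BL (fun x => ∑ i ∈ s, f i x) := by
  classical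
  induction s using Finset.induction_on with
  | empty => simpa using BL.const 0
  | insert a s ha ih =>
    simp only [Finset.sum_insert ha]
    exact (hf a (Finset.mem_insert_self a s)).add (ih fun i hi => hf i (Finset.mem_insert_of_mem hi))

lemma BL.comp {G : Type*} [PseudoMetricSpace G] {φ : G → ℝ} (hφ : BL φ) {T : F → G} {L : ℝ≥0}
    (hT : LipschitzWith L T) : BL (fun x => φ (T x)) := by
  obtain ⟨⟨L', hL'⟩, A, hA⟩ := hφ
  exact ⟨⟨L' * L, hL'.comp hT⟩, A, fun x => hA _⟩

end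

/-- The tent function. -/
noncomputable def tent (R s : ℝ) : ℝ := max 0 (min s (R - s))

lemma tent_nonneg (R s : ℝ) : 0 ≤ tent R s := le_max_left _ _

lemma tent_le {R : ℝ} (hR : 0 < R) (s : ℝ) : tent R s ≤ R / 2 := by
  unfold tent
  refine max_le (by positivity) ?_
  rcases le_total s (R / 2) with h | h
  · exact (min_le_left _ _).trans h
  · exact (min_le_right _ _).trans (by linarith)

lemma tent_le_abs (R s : ℝ) : tent R s ≤ |s| :=
  max_le (abs_nonneg _) ((min_le_left _ _).trans (le_abs_self _))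

lemma tent_zero_of_le {R s : ℝ} (h : R ≤ s) : tent R s = 0 := by
  unfold tent
  exact max_eq_left ((min_le_right _ _).trans (by linarith))

lemma tent_zero_of_nonpos {R s : ℝ} (h : s ≤ 0) : tent R s = 0 := by
  unfold tent
  exact max_eq_left ((min_le_left _ _).trans h)

lemma tent_lip (R : ℝ) : LipschitzWith 1 (tent R) := by
  have h1 : LipschitzWith 1 (fun s : ℝ => min s (R - s)) := by
    have h2 : LipschitzWith 1 (fun s : ℝ => R - s) := by
      refine LipschitzWith.of_dist_le_mul fun x y => ?_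
      rw [Real.dist_eq, Real.dist_eq, sub_sub_sub_cancel_left, abs_sub_comm]
      simp
    simpa using LipschitzWith.id.min h2
  exact h1.const_max 0

lemma tent_BL {R : ℝ} (hR : 0 < R) : BL (tent R) :=
  ⟨⟨1, tent_lip R⟩, R / 2, fun s => by rw [abs_of_nonneg (tent_nonneg R s)]; exact tent_le hR s⟩

/-- The odd tent function. -/
noncomputable def bb (R s : ℝ) : ℝ := tent R s - tent R (-s)

lemma bb_abs (R s : ℝ) : |bb R s| = tent R s + tent R (-s) := by
  unfold bb
  rcases le_total s 0 with h | h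
  · rw [tent_zero_of_nonpos h, zero_sub, abs_neg, abs_of_nonneg (tent_nonneg _ _), zero_add]
  · rw [tent_zero_of_nonpos (s := -s) (by linarith), sub_zero, abs_of_nonneg (tent_nonneg _ _),
      add_zero]

lemma bb_abs_le (R s : ℝ) : |bb R s| ≤ |s| := by
  rw [bb_abs]
  rcases le_total s 0 with h | h
  · rw [tent_zero_of_nonpos h, zero_add, ← abs_neg s]; exact tent_le_abs _ _
  · rw [tent_zero_of_nonpos (s := -s) (by linarith), add_zero]; exact tent_le_abs _ _

lemma bb_abs_le' {R : ℝ} (hR : 0 < R) (s : ℝ) : |bb R s| ≤ R / 2 := by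
  rw [bb_abs]
  rcases le_total s 0 with h | h
  · rw [tent_zero_of_nonpos h, zero_add]; exact tent_le hR _
  · rw [tent_zero_of_nonpos (s := -s) (by linarith), add_zero]; exact tent_le hR _

/-- The derivative of the odd tent function. -/
lemma bb_deriv {R : ℝ} (hR : 0 < R) {s : ℝ} (h0 : s ≠ 0) (h1 : s ≠ R / 2) (h2 : s ≠ R)
    (h3 : s ≠ -(R / 2)) (h4 : s ≠ -R) :
    ∃ d, HasDerivAt (bb R) d s ∧ 1 - 4 * |s| / R ≤ d := by
  rcases lt_or_gt_of_ne h4 with hs | hs
  · refine ⟨0, ?_, ?_⟩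
    · refine (hasDerivAt_const s (0 : ℝ)).congr_of_eventuallyEq ?_
      filter_upwards [Iio_mem_nhds hs] with t ht
      have ht' : t < -R := ht
      unfold bb
      rw [tent_zero_of_nonpos (by linarith), tent_zero_of_le (by linarith), sub_zero]
    · have : 1 ≤ |s| / R := by
        rw [le_div_iff₀ hR, abs_of_neg (by linarith)]; linarith
      have e : 4 * |s| / R = 4 * (|s| / R) := by ring
      linarith
  rcases lt_or_gt_of_ne h3 with hs' | hs'
  · refine ⟨-1, ?_, ?_⟩
    · refine ((hasDerivAt_id s).const_sub (-R)).congr_of_eventuallyEq ?_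
      filter_upwards [Ioo_mem_nhds hs hs'] with t ht
      have ht1 : -R < t := ht.1
      have ht2 : t < -(R / 2) := ht.2
      unfold bb tent
      rw [max_eq_left ((min_le_left _ _).trans (by linarith)), min_eq_right (by linarith),
        max_eq_right (by linarith)]
      simp only [id]
      ring
    · have : 1 / 2 ≤ |s| / R := by
        rw [le_div_iff₀ hR, abs_of_neg (by linarith)]; linarith
      have e : 4 * |s| / R = 4 * (|s| / R) := by ring
      linarith
  rcases lt_or_gt_of_ne h0 with hs0 | hs0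
  · refine ⟨1, ?_, ?_⟩
    · refine (hasDerivAt_id s).congr_of_eventuallyEq ?_
      filter_upwards [Ioo_mem_nhds hs' hs0] with t ht
      have ht1 : -(R / 2) < t := ht.1
      have ht2 : t < 0 := ht.2
      unfold bb tent
      rw [max_eq_left ((min_le_left _ _).trans (by linarith)), min_eq_left (by linarith),
        max_eq_right (by linarith)]
      simp only [id]
      ring
    · have : 0 ≤ 4 * |s| / R := by positivity
      linarith
  rcases lt_or_gt_of_ne h1 with hs1 | hs1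
  · refine ⟨1, ?_, ?_⟩
    · refine (hasDerivAt_id s).congr_of_eventuallyEq ?_
      filter_upwards [Ioo_mem_nhds hs0 hs1] with t ht
      have ht1 : 0 < t := ht.1
      have ht2 : t < R / 2 := ht.2
      unfold bb tent
      rw [min_eq_left (by linarith), max_eq_right (by linarith),
        max_eq_left ((min_le_left _ _).trans (by linarith))]
      simp only [id]
      ring
    · have : 0 ≤ 4 * |s| / R := by positivity
      linarith
  rcases lt_or_gt_of_ne h2 with hs2 | hs2
  · refine ⟨-1, ?_, ?_⟩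
    · refine ((hasDerivAt_id s).const_sub R).congr_of_eventuallyEq ?_
      filter_upwards [Ioo_mem_nhds hs1 hs2] with t ht
      have ht1 : R / 2 < t := ht.1
      have ht2 : t < R := ht.2
      unfold bb tent
      rw [min_eq_right (by linarith), max_eq_right (by linarith),
        max_eq_left ((min_le_left _ _).trans (by linarith))]
      simp only [id]
      ring
    · have : 1 / 2 ≤ |s| / R := by
        rw [le_div_iff₀ hR, abs_of_pos (by linarith)]; linarith
      have e : 4 * |s| / R = 4 * (|s| / R) := by ring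
      linarith
  · refine ⟨0, ?_, ?_⟩
    · refine (hasDerivAt_const s (0 : ℝ)).congr_of_eventuallyEq ?_
      filter_upwards [Ioi_mem_nhds hs2] with t ht
      have ht' : R < t := ht
      unfold bb
      rw [tent_zero_of_le (by linarith), tent_zero_of_nonpos (by linarith), sub_zero]
    · have : 1 ≤ |s| / R := by
        rw [le_div_iff₀ hR, abs_of_pos (by linarith)]; linarith
      have e : 4 * |s| / R = 4 * (|s| / R) := by ring
      linarith

/-- The decreasing profile. -/
noncomputable def pp (ρ s : ℝ) : ℝ := 1 + max 0 (13 * ρ - max 0 s) / (6 * ρ)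

lemma pp_one_le {ρ : ℝ} (hρ : 0 < ρ) (s : ℝ) : 1 ≤ pp ρ s := by
  unfold pp
  have : 0 ≤ max 0 (13 * ρ - max 0 s) / (6 * ρ) := by positivity
  linarith

lemma pp_le {ρ : ℝ} (hρ : 0 < ρ) (s : ℝ) : pp ρ s ≤ 19 / 6 := by
  unfold pp
  have h1 : max 0 (13 * ρ - max 0 s) ≤ 13 * ρ :=
    max_le (by positivity) (by linarith [le_max_left 0 s])
  have h2 : max 0 (13 * ρ - max 0 s) / (6 * ρ) ≤ 13 / 6 := by
    rw [div_le_iff₀ (by positivity)]; linarith
  linarith

lemma pp_le' {ρ : ℝ} (hρ : 0 < ρ) {s : ℝ} (hs : 12 * ρ ≤ s) : pp ρ s ≤ 7 / 6 := by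
  unfold pp
  have h1 : max 0 (13 * ρ - max 0 s) ≤ ρ :=
    max_le hρ.le (by linarith [le_max_right 0 s])
  have h2 : max 0 (13 * ρ - max 0 s) / (6 * ρ) ≤ 1 / 6 := by
    rw [div_le_iff₀ (by positivity)]; linarith
  linarith

lemma pp_BL {ρ : ℝ} (hρ : 0 < ρ) : BL (pp ρ) := by
  have h1 : LipschitzWith 1 (fun s : ℝ => 13 * ρ - max 0 s) := by
    refine LipschitzWith.of_dist_le_mul fun x y => ?_
    have h2 := (LipschitzWith.id.const_max (0 : ℝ)).dist_le_mul x y
    rw [Real.dist_eq] at h2 ⊢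
    rw [sub_sub_sub_cancel_left, abs_sub_comm]
    exact h2
  have h2 : LipschitzWith 1 (fun s : ℝ => max 0 (13 * ρ - max 0 s)) := h1.const_max 0
  refine ⟨⟨Real.toNNReal (1 / (6 * ρ)), LipschitzWith.of_dist_le_mul fun x y => ?_⟩, 19 / 6,
    fun s => ?_⟩
  · rw [Real.coe_toNNReal _ (by positivity), Real.dist_eq]
    have h3 := h2.dist_le_mul x y
    rw [Real.dist_eq] at h3
    have e : pp ρ x - pp ρ y =
        (1 / (6 * ρ)) * (max 0 (13 * ρ - max 0 x) - max 0 (13 * ρ - max 0 y)) := by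
      unfold pp; ring
    rw [e, abs_mul, abs_of_pos (by positivity : (0 : ℝ) < 1 / (6 * ρ))]
    refine mul_le_mul_of_nonneg_left ?_ (by positivity)
    simpa using h3
  · rw [abs_of_pos (lt_of_lt_of_le one_pos (pp_one_le hρ s))]
    exact pp_le hρ s

lemma pp_deriv {ρ : ℝ} (hρ : 0 < ρ) {s : ℝ} (h0 : s ≠ 0) (h1 : s ≠ 13 * ρ) :
    ∃ d, HasDerivAt (pp ρ) d s ∧ d ≤ 0 ∧ (0 < s → s < 13 * ρ → d ≤ -(1 / (6 * ρ))) := by
  rcases lt_or_gt_of_ne h0 with hs | hs
  · refine ⟨0, ?_, le_rfl, fun h => absurd h (not_lt.2 hs.le)⟩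
    refine (hasDerivAt_const s (1 + 13 * ρ / (6 * ρ))).congr_of_eventuallyEq ?_
    filter_upwards [Iio_mem_nhds hs] with t ht
    have ht' : t < 0 := ht
    unfold pp
    rw [max_eq_left ht'.le, sub_zero, max_eq_right (by positivity)]
  rcases lt_or_gt_of_ne h1 with hs1 | hs1
  · refine ⟨-(1 / (6 * ρ)), ?_, ?_, fun _ _ => le_rfl⟩
    · have hd : HasDerivAt (fun t : ℝ => 1 + (13 * ρ - t) / (6 * ρ)) (-(1 / (6 * ρ))) s := by
        have := (((hasDerivAt_id s).const_sub (13 * ρ)).div_const (6 * ρ)).const_add 1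
        refine this.congr_deriv ?_
        ring
      refine hd.congr_of_eventuallyEq ?_
      filter_upwards [Ioo_mem_nhds hs hs1] with t ht
      have ht1 : 0 < t := ht.1
      have ht2 : t < 13 * ρ := ht.2
      unfold pp
      rw [max_eq_right ht1.le, max_eq_right (by linarith)]
    · have : 0 < 1 / (6 * ρ) := by positivity
      linarith
  · refine ⟨0, ?_, le_rfl, fun _ h => absurd h (not_lt.2 hs1.le)⟩
    refine (hasDerivAt_const s (1 : ℝ)).congr_of_eventuallyEq ?_
    filter_upwards [Ioi_mem_nhds hs1] with t ht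
    have ht' : 13 * ρ < t := ht
    unfold pp
    rw [max_eq_right (by linarith : (0:ℝ) ≤ t), max_eq_left (by linarith)]
    simp

/-- The cut-off. -/
noncomputable def cc (ρ s : ℝ) : ℝ := min 1 (max 0 ((s - 12 * ρ) / ρ))

lemma cc_nonneg (ρ s : ℝ) : 0 ≤ cc ρ s := le_min zero_le_one (le_max_left _ _)

lemma cc_le_one (ρ s : ℝ) : cc ρ s ≤ 1 := min_le_left _ _

lemma cc_zero {ρ : ℝ} (hρ : 0 < ρ) {s : ℝ} (hs : s ≤ 12 * ρ) : cc ρ s = 0 := by
  unfold cc
  rw [max_eq_left (div_nonpos_of_nonpos_of_nonneg (by linarith) hρ.le)]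
  exact min_eq_right zero_le_one

lemma cc_one {ρ : ℝ} (hρ : 0 < ρ) {s : ℝ} (hs : 13 * ρ ≤ s) : cc ρ s = 1 := by
  unfold cc
  have : 1 ≤ (s - 12 * ρ) / ρ := by rw [le_div_iff₀ hρ]; linarith
  exact min_eq_left (this.trans (le_max_right _ _))

lemma cc_BL {ρ : ℝ} (hρ : 0 < ρ) : BL (cc ρ) := by
  have h1 : LipschitzWith (Real.toNNReal (1 / ρ)) (fun s : ℝ => (s - 12 * ρ) / ρ) := by
    refine LipschitzWith.of_dist_le_mul fun x y => ?_
    rw [Real.coe_toNNReal _ (by positivity), Real.dist_eq, Real.dist_eq]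
    have e : (x - 12 * ρ) / ρ - (y - 12 * ρ) / ρ = (1 / ρ) * (x - y) := by ring
    rw [e, abs_mul, abs_of_pos (by positivity : (0 : ℝ) < 1 / ρ)]
  exact ⟨⟨_, (h1.const_max 0).const_min 1⟩, 1, fun s => by
    rw [abs_of_nonneg (cc_nonneg ρ s)]; exact cc_le_one ρ s⟩

end Pool.Agent.Lib.MP_8d00da_gt.h42s
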