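import Mathlib
import Pool.Agent.Lib.MP_8d00da_gt.h25.InvPart

/-!
# Poincaré inequality for functions which are even in all coordinates
-/

namespace Pool.Agent.Lib.MP_8d00da_gt.h42s

open MeasureTheory Set Filter
open Pool.Agent.Lib.MP_8d00da_gt.h25 Pool.Agent.Lib.MP_8d00da_gt.h42
open scoped Topology NNReal

variable {F : Type*} [NormedAddCommGroup F] [InnerProductSpace ℝ F]
    [FiniteDimensional ℝ F] [MeasurableSpace F] [BorelSpace F]

/-- Poincaré inequality for the functions which are odd under one of the isometries `S i`. -/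
def OddP {ι : Type*} (S : ι → F ≃ₗᵢ[ℝ] F) (h : F → ℝ) (K : ℝ) : Prop :=
  ∀ (i : ι) (q : F → ℝ) (L : ℝ≥0), LipschitzWith L q → ∀ A : ℝ, (∀ x, |q x| ≤ A) →
    (∀ x, q (S i x) = - q x) → ∫ x, q x ^ 2 * h x ≤ K * En h q

/-- The derivative of an invariant function in a direction which is reversed is odd. -/
lemma fderiv_odd (T : F ≃ₗᵢ[ℝ] F) {v : F} (hv : T v = - v) {φ : F → ℝ} (hd : Differentiable ℝ φ)
    (hT : ∀ x, φ (T x) = φ x) (x : F) : fderiv ℝ φ (T x) v = - fderiv ℝ φ x v := by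
  have h1 : HasFDerivAt (fun y => φ (T y))
      ((fderiv ℝ φ (T x)).comp (T.toContinuousLinearEquiv : F →L[ℝ] F)) x :=
    ((hd (T x)).hasFDerivAt).comp x T.toContinuousLinearEquiv.hasFDerivAt
  have h2 : (fun y => φ (T y)) = φ := funext hT
  rw [h2] at h1
  have h3 := congrArg (fun D : F →L[ℝ] ℝ => D v) h1.fderiv
  have h4 : (T.toContinuousLinearEquiv : F →L[ℝ] F) v = - v := hv
  simp only [ContinuousLinearMap.comp_apply] at h3
  rw [h4, map_neg] at h3
  linarith

theorem even_energy {h : F → ℝ} {B η A : ℝ} {f : F → ℝ} {L : ℝ≥0} (H : Wt h B) (hi : Integrable h)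
    (hη : 0 < η) (hf : LipschitzWith L f) (hA : ∀ x, |f x| ≤ A)
    {ι : Type*} [Fintype ι] (S : ι → F ≃ₗᵢ[ℝ] F) (w : ι → F) {c : ℝ} (hc : 0 < c)
    (hframe : ∀ D : F →L[ℝ] ℝ, ∑ i, (D (w i)) ^ 2 = c * ‖D‖ ^ 2)
    (hSw : ∀ i, S i (w i) = - w i) (hSh : ∀ i x, h (S i x) = h x)
    {K : ℝ} (hK : 0 ≤ K) (hO : OddP S h K) (hev : ∀ i x, f (S i x) = f x) :
    En h (RT h η f) ≤ (K / (η + K)) * En h f := by
  have hfm : Measurable f := hf.continuous.measurable
  have hA0 : 0 ≤ A := (abs_nonneg _).trans (hA 0)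
  set g := AA h η f with hg
  have hgL := H.AA_lip hη hfm hA0 hA
  rw [← hg] at hgL
  have hgA : ∀ y, |g y| ≤ A := H.AA_abs_le hη hfm hA
  have hgd : Differentiable ℝ g := H.AA_diff hη hfm hA
  have hgm : Measurable g := hgL.continuous.measurable
  set c0 : ℝ := ∫ z : F, ker η z with hc0d
  have hc0 : 0 < c0 := ker_int_pos hη
  set f1 := RT h η f with hf1
  have hf1d : Differentiable ℝ f1 := wt_one.AA_diff hη hgm hgA
  set L' : ℝ≥0 := Real.toNNReal (A * Real.sqrt (1 / η)) with hL'
  set u : ι → F → ℝ := fun i y => fderiv ℝ g y (w i) with hu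
  have hum : ∀ i, Measurable (u i) := fun i => measurable_fderiv_apply_const ℝ g (w i)
  have huL : ∀ i y, |u i y| ≤ L' * ‖w i‖ := by
    intro i y
    have h1 := (fderiv ℝ g y).le_opNorm (w i)
    rw [Real.norm_eq_abs] at h1
    exact h1.trans (mul_le_mul_of_nonneg_right (norm_fderiv_le_of_lipschitz ℝ hgL) (norm_nonneg _))
  have hM0 : ∀ i, 0 ≤ (L' : ℝ) * ‖w i‖ := fun i => by positivity
  have hfi : ∀ i, (fun x => fderiv ℝ f1 x (w i)) = SS η (u i) := by
    intro i; ext x
    exact SS_fderiv hη hgL hgA hgd x (w i)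
  have hinv : ∀ i x, f1 (S i x) = f1 x := by
    intro i x
    exact AA_comp (S i) (fun _ => rfl) (fun y => AA_comp (S i) (hSh i) (hev i) y) x
  -- the smoothed derivatives are odd
  have hodd : ∀ i x, SS η (u i) (S i x) = - SS η (u i) x := by
    intro i x
    rw [← hfi i]
    exact fderiv_odd (S i) (hSw i) hf1d (hinv i) x
  have hsA : ∀ i x, |SS η (u i) x| ≤ L' * ‖w i‖ := fun i => wt_one.AA_abs_le hη (hum i) (huL i)
  have hsm : ∀ i, Measurable (SS η (u i)) := fun i =>
    (wt_one.AA_diff hη (hum i) (huL i)).continuous.measurable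
  have hsL : ∀ i, LipschitzWith (Real.toNNReal (L' * ‖w i‖ * Real.sqrt (1 / η))) (SS η (u i)) :=
    fun i => wt_one.AA_lip hη (hum i) (hM0 i) (huL i)
  have hOi : ∀ i, ∫ x, SS η (u i) x ^ 2 * h x ≤ K * En h (SS η (u i)) := fun i =>
    hO i _ _ (hsL i) _ (hsA i) (hodd i)
  -- the conditional variances
  have hVe : ∀ i x, VV (fun _ => 1) η (u i) x =
      cv η (fun y => u i y ^ 2) x - c0 * SS η (u i) x ^ 2 := by
    intro i x
    have h1 := wt_one.VV_eq hη (hum i) (huL i) x
    simp only [mul_one] at h1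
    rw [cv_one, ← hc0d] at h1
    have h3 : AA (fun _ => 1) η (u i) x = SS η (u i) x := rfl
    rw [h3] at h1
    rw [h1]; ring
  have ia : ∀ i, Integrable fun x => h x * cv η (fun y => u i y ^ 2) x := fun i =>
    fub_int' hη hi H.meas ((hum i).pow_const 2) (Wt.sq_bdd (huL i))
  have ib : ∀ i, Integrable fun x => SS η (u i) x ^ 2 * h x := fun i =>
    bdd_int hi ((hsm i).pow_const 2) (Wt.sq_bdd (hsA i))
  have iV : ∀ i, Integrable fun x => VV (fun _ => 1) η (u i) x * h x := by
    intro i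
    refine ((ia i).sub ((ib i).const_mul c0)).congr (Eventually.of_forall fun x => ?_)
    simp only [Pi.sub_apply]
    rw [hVe i x]; ring
  have hEnV : ∀ i, c0 * En h (SS η (u i)) ≤ (1 / η) * ∫ x, VV (fun _ => 1) η (u i) x * h x := by
    intro i
    have ig : Integrable fun x => ‖fderiv ℝ (SS η (u i)) x‖ ^ 2 * h x :=
      bdd_int hi ((measurable_fderiv ℝ _).norm.pow_const 2) (sq_fderiv_bdd (hsL i))
    unfold En
    rw [← integral_const_mul, ← integral_const_mul]
    refine integral_mono (ig.const_mul _) ((iV i).const_mul _) fun x => ?_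
    have h1 := wt_one.grad_AA hη (hum i) (huL i) x
    rw [cv_one, ← hc0d] at h1
    have h2 := mul_le_mul_of_nonneg_right h1 (H.nonneg x)
    show c0 * (‖fderiv ℝ (AA (fun _ => 1) η (u i)) x‖ ^ 2 * h x) ≤
      1 / η * (VV (fun _ => 1) η (u i) x * h x)
    calc c0 * (‖fderiv ℝ (AA (fun _ => 1) η (u i)) x‖ ^ 2 * h x)
        = ‖fderiv ℝ (AA (fun _ => 1) η (u i)) x‖ ^ 2 * c0 * h x := by ring
      _ ≤ 1 / η * VV (fun _ => 1) η (u i) x * h x := h2
      _ = _ := by ring
  -- the energy of `f1`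
  have hE1 : c * En h f1 = ∑ i, ∫ x, SS η (u i) x ^ 2 * h x := by
    unfold En
    rw [← integral_const_mul, ← integral_finset_sum _ fun i _ => ib i]
    refine integral_congr_ae (Eventually.of_forall fun x => ?_)
    simp only
    rw [← Finset.sum_mul, ← mul_assoc, ← hframe]
    congr 1
    refine Finset.sum_congr rfl fun i _ => ?_
    rw [← congrFun (hfi i) x]
  have hG : c * ∫ x, h x * cv η (fun y => ‖fderiv ℝ g y‖ ^ 2) x =
      (∑ i, ∫ x, VV (fun _ => 1) η (u i) x * h x) + c0 * (c * En h f1) := by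
    rw [hE1, Finset.mul_sum, ← Finset.sum_add_distrib, ← integral_const_mul]
    have e0 : ∀ i, (∫ x, VV (fun _ => 1) η (u i) x * h x) + c0 * ∫ x, SS η (u i) x ^ 2 * h x =
        ∫ x, h x * cv η (fun y => u i y ^ 2) x := by
      intro i
      rw [← integral_const_mul, ← integral_add (iV i) ((ib i).const_mul _)]
      refine integral_congr_ae (Eventually.of_forall fun x => ?_)
      simp only
      rw [hVe i x]; ring
    rw [Finset.sum_congr rfl fun i _ => e0 i, ← integral_finset_sum _ fun i _ => ia i]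
    refine integral_congr_ae (Eventually.of_forall fun x => ?_)
    simp only
    rw [← Finset.mul_sum]
    have e1 : cv η (fun y => ∑ i, u i y ^ 2) x = ∑ i, cv η (fun y => u i y ^ 2) x := by
      unfold cv
      rw [← integral_finset_sum]
      · refine integral_congr_ae (Eventually.of_forall fun y => ?_)
        simp only
        rw [Finset.sum_mul]
      · intro i _
        exact cv_integrable hη ((hum i).pow_const 2) (Wt.sq_bdd (huL i)) x
    rw [← e1]
    have e2 : (fun y => ∑ i, u i y ^ 2) = fun y => c * ‖fderiv ℝ g y‖ ^ 2 := by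
      ext y; exact hframe _
    rw [e2]
    have e3 : cv η (fun y => c * ‖fderiv ℝ g y‖ ^ 2) x =
        c * cv η (fun y => ‖fderiv ℝ g y‖ ^ 2) x := by
      unfold cv
      rw [← integral_const_mul]
      refine integral_congr_ae (Eventually.of_forall fun y => ?_)
      simp only
      ring
    rw [e3]; ring
  set V : ℝ := ∑ i, ∫ x, VV (fun _ => 1) η (u i) x * h x with hV
  -- odd Poincaré summed over `i`
  have hsum : c0 * (c * En h f1) ≤ (K / η) * V := by
    rw [hE1, Finset.mul_sum, hV, Finset.mul_sum]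
    refine Finset.sum_le_sum fun i _ => ?_
    calc c0 * ∫ x, SS η (u i) x ^ 2 * h x ≤ c0 * (K * En h (SS η (u i))) :=
          mul_le_mul_of_nonneg_left (hOi i) hc0.le
      _ = K * (c0 * En h (SS η (u i))) := by ring
      _ ≤ K * ((1 / η) * ∫ x, VV (fun _ => 1) η (u i) x * h x) :=
          mul_le_mul_of_nonneg_left (hEnV i) hK
      _ = _ := by ring
  have hdm : Measurable fun x => ‖fderiv ℝ g x‖ ^ 2 := (measurable_fderiv ℝ _).norm.pow_const 2
  have hGle : ∫ x, h x * cv η (fun y => ‖fderiv ℝ g y‖ ^ 2) x ≤ c0 * En h f := by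
    rw [← fub_eq hη hi H.meas hdm (sq_fderiv_bdd hgL)]
    exact step_e' H hi hη hf hA
  have h7 : (1 + K / η) * (c0 * (c * En h f1)) ≤ (K / η) * (c * (c0 * En h f)) := by
    have h8 : (K / η) * (c * ∫ x, h x * cv η (fun y => ‖fderiv ℝ g y‖ ^ 2) x) ≤
        (K / η) * (c * (c0 * En h f)) :=
      mul_le_mul_of_nonneg_left (mul_le_mul_of_nonneg_left hGle hc.le) (by positivity)
    rw [hG] at h8
    linarith
  have h8 : (η + K) * En h f1 ≤ K * En h f := by
    have h9 : (c0 * c / η) * ((η + K) * En h f1) ≤ (c0 * c / η) * (K * En h f) := by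
      calc (c0 * c / η) * ((η + K) * En h f1) = (1 + K / η) * (c0 * (c * En h f1)) := by
            field_simp
        _ ≤ (K / η) * (c * (c0 * En h f)) := h7
        _ = (c0 * c / η) * (K * En h f) := by ring
    exact le_of_mul_le_mul_left h9 (by positivity)
  rw [div_mul_eq_mul_div, le_div_iff₀ (by positivity), mul_comm]
  exact h8

theorem even_poincare {h : F → ℝ} {B A : ℝ} {f : F → ℝ} {L : ℝ≥0} (H : Wt h B) (hi : Integrable h)
    {r : ℝ} (hr : ∀ x, r < ‖x‖ → h x = 0) (hf : LipschitzWith L f) (hA : ∀ x, |f x| ≤ A)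
    {ι : Type*} [Fintype ι] (S : ι → F ≃ₗᵢ[ℝ] F) (w : ι → F) {c : ℝ} (hc : 0 < c)
    (hframe : ∀ D : F →L[ℝ] ℝ, ∑ i, (D (w i)) ^ 2 = c * ‖D‖ ^ 2)
    (hSw : ∀ i, S i (w i) = - w i) (hSh : ∀ i x, h (S i x) = h x)
    {K : ℝ} (hK : 0 ≤ K) (hO : OddP S h K) (hev : ∀ i x, f (S i x) = f x)
    (hm : ∫ x, f x * h x = 0) :
    ∫ x, f x ^ 2 * h x ≤ 2 * K * En h f := by
  -- for every η
  have key : ∀ η : ℝ, 0 < η → ∫ x, f x ^ 2 * h x ≤ 2 * (η + K) * En h f := by
    intro η hη
    set θ : ℝ := K / (η + K) with hθ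
    have hθ0 : 0 ≤ θ := by positivity
    have hθ1 : θ < 1 := by
      rw [hθ, div_lt_one (by positivity)]; linarith
    have hθM : θ * (2 * (η + K)) = 2 * K := by rw [hθ]; field_simp
    set C0 : ℝ := Real.exp (r ^ 2 / 2) with hC0
    have it : ∀ k : ℕ, ∀ (f : F → ℝ) (L : ℝ≥0), LipschitzWith L f → ∀ A : ℝ, (∀ x, |f x| ≤ A) →
        (∀ i x, f (S i x) = f x) → ∫ x, f x * h x = 0 →
        ∫ x, f x ^ 2 * h x ≤ (2 * (η + K) + θ ^ k * (C0 - 2 * (η + K))) * En h f := by
      intro k
      induction k with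
      | zero =>
        intro f L hf A hA _ hm
        have := a_priori H hi hr hf hA hm
        rw [← hC0] at this
        simpa using this
      | succ k ih =>
        intro f L hf A hA hGf hm
        obtain ⟨hA', L', hL'⟩ := RT_props H hη hf hA
        have h1 := round_var H hi hη hf hA
        have h2 := even_energy H hi hη hf hA S w hc hframe hSw hSh hK hO hGf
        have hinv : ∀ i x, RT h η f (S i x) = RT h η f x := fun i x =>
          AA_comp (S i) (fun _ => rfl) (fun y => AA_comp (S i) (hSh i) (hGf i) y) x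
        have hm' : ∫ x, RT h η f x * h x = 0 := by
          rw [round_mean H hi hη hf hA, hm]
        have h3 := ih (RT h η f) L' hL' A hA' hinv hm'
        rw [← hθ] at h2
        have hM : 0 ≤ 2 * (η + K) + θ ^ k * (C0 - 2 * (η + K)) := by
          have h4 : 0 ≤ θ ^ k := pow_nonneg hθ0 k
          have h5 : θ ^ k ≤ 1 := pow_le_one₀ hθ0 hθ1.le
          have h6 : 0 ≤ C0 := (Real.exp_pos _).le
          have h7 : 0 ≤ 2 * (η + K) := by positivity
          nlinarith [mul_nonneg h4 h6, mul_nonneg (sub_nonneg.2 h5) h7]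
        have h4 := mul_le_mul_of_nonneg_left h2 hM
        calc ∫ x, f x ^ 2 * h x ≤ 2 * η * En h f + ∫ x, RT h η f x ^ 2 * h x := h1
          _ ≤ 2 * η * En h f + (2 * (η + K) + θ ^ k * (C0 - 2 * (η + K))) * (θ * En h f) := by
              linarith
          _ = (2 * η + θ * (2 * (η + K)) + θ ^ (k + 1) * (C0 - 2 * (η + K))) * En h f := by
              rw [pow_succ]; ring
          _ = _ := by rw [hθM]; ring
    have hlim : Tendsto (fun k : ℕ => (2 * (η + K) + θ ^ k * (C0 - 2 * (η + K))) * En h f) atTop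
        (𝓝 ((2 * (η + K) + 0 * (C0 - 2 * (η + K))) * En h f)) :=
      (((tendsto_pow_atTop_nhds_zero_of_lt_one hθ0 hθ1).mul_const _).const_add _).mul_const _
    have := ge_of_tendsto' hlim fun k => it k f L hf A hA hev hm
    simpa using this
  have hlim : Tendsto (fun n : ℕ => 2 * (1 / ((n : ℝ) + 1) + K) * En h f) atTop
      (𝓝 (2 * (0 + K) * En h f)) :=
    ((tendsto_one_div_add_atTop_nhds_zero_nat.add_const K).const_mul 2).mul_const _
  have := ge_of_tendsto' hlim fun n => key (1 / ((n : ℝ) + 1)) (by positivity)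
  simpa using this

end Pool.Agent.Lib.MP_8d00da_gt.h42s
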