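import Mathlib
import Pool.Agent.Lib.MP_8d00da_gt.h42s.BL
import Pool.Agent.Lib.MP_8d00da_gt.h42s.Defs
import Pool.Agent.Lib.MP_8d00da_gt.h25.Chain

/-!
# Log-concave weights which are invariant under permutations: definitions
-/

namespace Pool.Agent.Lib.MP_8d00da_gt.h42s

open MeasureTheory Set Filter
open Pool.Agent.Lib.MP_8d00da_gt.h25 Pool.Agent.Lib.MP_8d00da_gt.h42
open scoped Topology NNReal

section frame

variable {F : Type*} [NormedAddCommGroup F] [InnerProductSpace ℝ F] {n : ℕ}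

/-- `p` is a simplex frame: the vectors `p i` look like the orthogonal projections of an
orthonormal basis `e i` of `ℝⁿ` to the hyperplane of vectors with sum zero. -/
def Gram (p : Fin n → F) : Prop :=
  ∀ i j, (inner ℝ (p i) (p j) : ℝ) = (if i = j then (1 : ℝ) else 0) - 1 / n

/-- Invariance of `h` under the reflections in the vectors `p i - p j`. -/
def PInv (p : Fin n → F) (h : F → ℝ) : Prop :=
  ∀ i j x, h (x - (inner ℝ (p i - p j) x : ℝ) • (p i - p j)) = h x

/-- The `ℓ₁` norm of the centred vector. -/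
noncomputable def NP (p : Fin n → F) (x : F) : ℝ := ∑ i, |(inner ℝ (p i) x : ℝ)|

/-- The reflection in the hyperplane orthogonal to `p i - p j`. -/
noncomputable def rf (p : Fin n → F) (ij : Fin n × Fin n) : F ≃ₗᵢ[ℝ] F :=
  (ℝ ∙ (p ij.1 - p ij.2))ᗮ.reflection

variable {p : Fin n → F}

lemma Gram.sum_eq_zero (hp : Gram p) : ∑ i, p i = 0 := by
  have h1 : (inner ℝ (∑ i, p i) (∑ i, p i) : ℝ) = 0 := by
    rw [sum_inner]
    refine Finset.sum_eq_zero fun i _ => ?_
    rw [inner_sum]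
    simp only [hp i]
    rw [Finset.sum_sub_distrib, Finset.sum_ite_eq, Finset.sum_const, Finset.card_univ,
      Fintype.card_fin]
    have hn : (n : ℝ) ≠ 0 := Nat.cast_ne_zero.2 i.pos.ne'
    simp only [Finset.mem_univ, if_true, nsmul_eq_mul]
    field_simp
    simp
  exact inner_self_eq_zero.1 h1

lemma Gram.norm_sub (hp : Gram p) {i j : Fin n} (hij : i ≠ j) : ‖p i - p j‖ ^ 2 = 2 := by
  have h1 := hp i i
  have h2 := hp j j
  have h3 := hp i j
  rw [if_pos rfl] at h1 h2
  rw [if_neg hij] at h3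
  rw [real_inner_self_eq_norm_sq] at h1 h2
  rw [norm_sub_sq_real, h1, h2, h3]
  ring

lemma Gram.norm_sub_le (hp : Gram p) (i j : Fin n) : ‖p i - p j‖ ≤ 3 / 2 := by
  by_cases hij : i = j
  · subst hij; rw [sub_self, norm_zero]; norm_num
  · have h1 := hp.norm_sub hij
    have h2 : ‖p i - p j‖ ^ 2 ≤ (3 / 2) ^ 2 := by rw [h1]; norm_num
    exact (pow_le_pow_iff_left₀ (norm_nonneg _) (by norm_num) two_ne_zero).1 h2

lemma Gram.inner_w (hp : Gram p) (i j k : Fin n) :
    (inner ℝ (p k) (p i - p j) : ℝ) = (if k = i then (1 : ℝ) else 0) - (if k = j then (1 : ℝ) else 0) := by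
  rw [inner_sub_right, hp, hp]; ring

lemma Gram.norm_le (hp : Gram p) (i : Fin n) : ‖p i‖ ≤ 1 := by
  have h1 := hp i i
  rw [if_pos rfl, real_inner_self_eq_norm_sq] at h1
  have h2 : (0 : ℝ) ≤ 1 / n := by positivity
  have h3 : ‖p i‖ ^ 2 ≤ 1 ^ 2 := by linarith
  exact (pow_le_pow_iff_left₀ (norm_nonneg _) zero_le_one two_ne_zero).1 h3

lemma Gram.rf_apply (hp : Gram p) (i j : Fin n) (x : F) :
    rf p (i, j) x = x - (inner ℝ (p i - p j) x : ℝ) • (p i - p j) := by
  by_cases hij : i = j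
  · subst hij
    have e : rf p (i, i) x = (ℝ ∙ (p i - p i))ᗮ.reflection x := rfl
    rw [e, sub_self, Submodule.reflection_orthogonal_apply, Submodule.reflection_singleton_apply]
    simp
  · have h1 := hp.norm_sub hij
    have e : rf p (i, j) x = (ℝ ∙ (p i - p j))ᗮ.reflection x := rfl
    rw [e, Submodule.reflection_orthogonal_apply, Submodule.reflection_singleton_apply]
    have h2 : ((‖p i - p j‖ : ℝ) : ℝ) ^ 2 = 2 := h1
    simp only [RCLike.ofReal_real_eq_id, id, h2]
    rw [← Nat.cast_smul_eq_nsmul ℝ, smul_smul]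
    have : ((2 : ℕ) : ℝ) * ((inner ℝ (p i - p j) x : ℝ) / 2) = inner ℝ (p i - p j) x := by
      push_cast; ring
    rw [this]
    abel

lemma rf_rf (ij : Fin n × Fin n) (x : F) : rf p ij (rf p ij x) = x :=
  Submodule.reflection_reflection _ x

lemma Gram.rf_w (hp : Gram p) (ij : Fin n × Fin n) :
    rf p ij (p ij.1 - p ij.2) = -(p ij.1 - p ij.2) := by
  obtain ⟨i, j⟩ := ij
  rw [hp.rf_apply]
  by_cases hij : i = j
  · subst hij; simp
  · simp only [real_inner_self_eq_norm_sq, hp.norm_sub hij]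
    rw [two_smul]; abel

lemma PInv.rf {h : F → ℝ} (hp : Gram p) (hI : PInv p h) (ij : Fin n × Fin n) (x : F) :
    h (rf p ij x) = h x := by
  obtain ⟨i, j⟩ := ij
  rw [hp.rf_apply]
  exact hI i j x

lemma NP_nonneg (x : F) : 0 ≤ NP p x := Finset.sum_nonneg fun _ _ => abs_nonneg _

lemma abs_le_NP (i : Fin n) (x : F) : |(inner ℝ (p i) x : ℝ)| ≤ NP p x :=
  Finset.single_le_sum (f := fun j => |(inner ℝ (p j) x : ℝ)|) (fun _ _ => abs_nonneg _)
    (Finset.mem_univ i)

lemma NP_add (x y : F) : NP p (x + y) ≤ NP p x + NP p y := by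
  unfold NP
  rw [← Finset.sum_add_distrib]
  refine Finset.sum_le_sum fun i _ => ?_
  rw [inner_add_right]
  exact abs_add_le _ _

lemma NP_smul (c : ℝ) (x : F) : NP p (c • x) = |c| * NP p x := by
  unfold NP
  rw [Finset.mul_sum]
  refine Finset.sum_congr rfl fun i _ => ?_
  rw [inner_smul_right, abs_mul]

lemma NP_cont : Continuous (NP p) := by
  unfold NP
  fun_prop

lemma NP_convex (R : ℝ) : Convex ℝ {x : F | NP p x ≤ R} := by
  intro x hx y hy a b ha hb hab
  simp only [mem_ofPred_eq] at hx hy ⊢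
  have h1 := NP_add (p := p) (a • x) (b • y)
  rw [NP_smul, NP_smul, abs_of_nonneg ha, abs_of_nonneg hb] at h1
  have h4 : a * NP p x ≤ a * R := mul_le_mul_of_nonneg_left hx ha
  have h5 : b * NP p y ≤ b * R := mul_le_mul_of_nonneg_left hy hb
  have : a * R + b * R = R := by rw [← add_mul, hab, one_mul]
  linarith

omit [InnerProductSpace ℝ F] in
/-- the frame identity for the differences -/
lemma frame_diff {D : F → ℝ} (hD : ∀ i j, D (p i - p j) = D (p i) - D (p j))
    (h0 : ∑ i, D (p i) = 0) :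
    ∑ ij : Fin n × Fin n, (D (p ij.1 - p ij.2)) ^ 2 = 2 * n * ∑ i, (D (p i)) ^ 2 := by
  rw [Fintype.sum_prod_type]
  simp only [hD]
  have e : ∀ i j : Fin n, (D (p i) - D (p j)) ^ 2 =
      D (p i) ^ 2 + D (p j) ^ 2 - 2 * (D (p i) * D (p j)) := fun i j => by ring
  simp only [e, Finset.sum_sub_distrib, Finset.sum_add_distrib, ← Finset.mul_sum, h0, mul_zero,
    Finset.sum_const, Finset.card_univ, Fintype.card_fin, nsmul_eq_mul]
  ring

end frame

section coordinates

variable {n : ℕ}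

/-- The centred basis vectors. -/
noncomputable def pe (i : Fin n) : Vn n := WithLp.toLp 2 fun j => (if j = i then (1 : ℝ) else 0) - 1 / n

/-- The unit vector of the diagonal. -/
noncomputable def nu (n : ℕ) : Vn n := WithLp.toLp 2 fun _ => 1 / Real.sqrt n

lemma pe_apply (i j : Fin n) : pe i j = (if j = i then (1 : ℝ) else 0) - 1 / n := rfl

lemma nu_apply (j : Fin n) : nu n j = 1 / Real.sqrt n := rfl

lemma inner_Vn (w x : Vn n) : (inner ℝ w x : ℝ) = ∑ i, w i * x i := by
  rw [PiLp.inner_apply]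
  exact Finset.sum_congr rfl fun i _ => by simp [mul_comm]

lemma inner_pe (i : Fin n) (x : Vn n) : (inner ℝ (pe i) x : ℝ) = x i - (1 / n) * ∑ j, x j := by
  rw [inner_Vn]
  simp only [pe_apply, sub_mul, ite_mul, one_mul, zero_mul, Finset.sum_sub_distrib,
    Finset.sum_ite_eq', Finset.mem_univ, if_true, Finset.mul_sum]

lemma inner_nu (x : Vn n) : (inner ℝ (nu n) x : ℝ) = (1 / Real.sqrt n) * ∑ j, x j := by
  rw [inner_Vn, Finset.mul_sum]
  rfl

lemma nu_norm (hn : 0 < n) : ‖nu n‖ = 1 := by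
  have hn' : (0 : ℝ) < n := by exact_mod_cast hn
  have h1 : ‖nu n‖ ^ 2 = 1 := by
    rw [EuclideanSpace.norm_sq_eq]
    simp only [nu_apply, Real.norm_eq_abs, sq_abs, div_pow, one_pow, Real.sq_sqrt hn'.le,
      Finset.sum_const, Finset.card_univ, Fintype.card_fin, nsmul_eq_mul]
    field_simp
  exact (pow_eq_one_iff_of_nonneg (norm_nonneg _) two_ne_zero).1 h1

lemma gram_pe : Gram (pe : Fin n → Vn n) := by
  intro i j
  have hn : (n : ℝ) ≠ 0 := Nat.cast_ne_zero.2 i.pos.ne'
  rw [inner_pe]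
  simp only [pe_apply, Finset.sum_sub_distrib, Finset.sum_ite_eq', Finset.mem_univ, if_true,
    Finset.sum_const, Finset.card_univ, Fintype.card_fin, nsmul_eq_mul]
  field_simp
  simp

lemma inner_nu_pe (i : Fin n) : (inner ℝ (nu n) (pe i) : ℝ) = 0 := by
  have hn : (n : ℝ) ≠ 0 := Nat.cast_ne_zero.2 i.pos.ne'
  rw [inner_nu]
  simp only [pe_apply, Finset.sum_sub_distrib, Finset.sum_ite_eq', Finset.mem_univ, if_true,
    Finset.sum_const, Finset.card_univ, Fintype.card_fin, nsmul_eq_mul]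
  field_simp
  simp

lemma inner_pe_nu (i : Fin n) : (inner ℝ (pe i) (nu n) : ℝ) = 0 := by
  rw [real_inner_comm]; exact inner_nu_pe i

/-- Parseval. -/
lemma parseval_pe (hn : 0 < n) (x : Vn n) :
    ∑ i, (inner ℝ (pe i) x : ℝ) ^ 2 + (inner ℝ (nu n) x : ℝ) ^ 2 = ‖x‖ ^ 2 := by
  have hn' : (0 : ℝ) < n := by exact_mod_cast hn
  rw [EuclideanSpace.norm_sq_eq]
  simp only [inner_pe, inner_nu, Real.norm_eq_abs, sq_abs]
  set s : ℝ := ∑ j, x j with hs
  have e : ∀ i : Fin n, (x i - 1 / n * s) ^ 2 = x i ^ 2 - 2 * (s / n) * x i + (s / n) ^ 2 := fun i => by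
    ring
  simp only [e, Finset.sum_add_distrib, Finset.sum_sub_distrib, ← Finset.mul_sum, ← hs,
    Finset.sum_const, Finset.card_univ, Fintype.card_fin, nsmul_eq_mul, mul_pow, div_pow, one_pow,
    Real.sq_sqrt hn'.le]
  field_simp
  ring

lemma pe_sub (i j : Fin n) : pe i - pe j = ee i - ee j := by
  ext k
  simp only [PiLp.sub_apply, pe_apply, ee_apply]
  ring

/-- The swap of two coordinates is the reflection. -/
lemma sw_eq (i j : Fin n) (x : Vn n) :
    sw i j x = x - (inner ℝ (pe i - pe j) x : ℝ) • (pe i - pe j) := by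
  have e : (inner ℝ (pe i - pe j) x : ℝ) = x i - x j := by
    rw [inner_sub_left, inner_pe, inner_pe]; ring
  rw [e, pe_sub]
  ext k
  simp only [sw_apply, PiLp.sub_apply, PiLp.smul_apply, ee_apply, smul_eq_mul]
  by_cases hk : k = i
  · subst hk
    rw [Equiv.swap_apply_left]
    by_cases hj : k = j
    · subst hj; simp
    · simp [hj]
  · by_cases hk' : k = j
    · subst hk'
      rw [Equiv.swap_apply_right]
      simp [hk]
    · rw [Equiv.swap_apply_of_ne_of_ne hk hk']
      simp [hk, hk']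

/-- Invariance under the permutations of the coordinates. -/
def Exch (h : Vn n → ℝ) : Prop := ∀ i j x, h (sw i j x) = h x

lemma Exch.pinv {h : Vn n → ℝ} (hS : Exch h) : PInv pe h := by
  intro i j x
  rw [← sw_eq]
  exact hS i j x

/-- Parseval for functionals -/
lemma frame_pe (hn : 0 < n) (D : Vn n →L[ℝ] ℝ) :
    ∑ i, (D (pe i)) ^ 2 + (D (nu n)) ^ 2 = ‖D‖ ^ 2 := by
  set v := (InnerProductSpace.toDual ℝ (Vn n)).symm D with hv
  have h1 : ‖D‖ = ‖v‖ := ((InnerProductSpace.toDual ℝ (Vn n)).symm.norm_map D).symm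
  have h2 : ∀ w, D w = inner ℝ w v := fun w => by
    rw [real_inner_comm, hv, InnerProductSpace.toDual_symm_apply]
  rw [h1, ← parseval_pe hn v]
  simp only [h2]

end coordinates

/-- Admissible direction `ν` in the theorem on near-extremal functions: either it is `0`, or it is
a unit vector, the derivatives are close to functions of `⟨ν, x⟩` (Poincaré inequality on the
sections), and functions of `⟨ν, x⟩` satisfy a Poincaré inequality. -/
def NuP {F : Type*} [NormedAddCommGroup F] [InnerProductSpace ℝ F] [FiniteDimensional ℝ F]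
    [MeasurableSpace F] [BorelSpace F] (ν : F) (h : F → ℝ) (K' τ : ℝ) : Prop :=
  ν = 0 ∨ (‖ν‖ = 1 ∧
    (∀ q : F → ℝ, BL q → Differentiable ℝ q → ∀ δ : ℝ, 0 < δ →
      ∃ g : ℝ → ℝ, Continuous g ∧ HasCompactSupport g ∧
        ∫ x, (q x - g (inner ℝ ν x)) ^ 2 * h x ≤ K' * En h q + δ) ∧
    ∀ a g : ℝ → ℝ, Continuous g → HasCompactSupport g → (∀ s, HasDerivAt a (g s) s) →
      ∃ m : ℝ, ∫ x, (a (inner ℝ ν x) - m) ^ 2 * h x ≤ τ * ∫ x, g (inner ℝ ν x) ^ 2 * h x)

/-- A gauge. -/
structure Gauge {F : Type*} [NormedAddCommGroup F] [NormedSpace ℝ F] (N : F → ℝ) (n : ℕ) : Prop where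
  nonneg : ∀ x, 0 ≤ N x
  smul : ∀ t x, 0 ≤ t → N (t • x) = t * N x
  lip : ∀ x y, |N x - N y| ≤ Real.sqrt n * ‖x - y‖
  norm_le : ∀ x, ‖x‖ ≤ 2 * N x

/-- The gauge which controls the growth of permutation invariant weights. -/
noncomputable def NG (n : ℕ) (x : Vn n) : ℝ := max (NP pe x) |(inner ℝ (nu n) x : ℝ)|

/-- The marginal of `h` in the direction `ν`. -/
noncomputable def marg {F : Type*} [NormedAddCommGroup F] [InnerProductSpace ℝ F]
    [FiniteDimensional ℝ F] [MeasurableSpace F] [BorelSpace F] (ν : F) (h : F → ℝ) (s : ℝ) : ℝ :=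
  ∫ y : (ℝ ∙ ν)ᗮ, h (s • ν + (y : F))

end Pool.Agent.Lib.MP_8d00da_gt.h42s
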