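import Mathlib
import Pool.Agent.Lib.MP_8d00da_gt.h42s.PDefs
import Pool.Agent.Lib.MP_8d00da_gt.h25.Cls

/-!
# The derivative in the direction `ν` of near-extremal functions
-/

namespace Pool.Agent.Lib.MP_8d00da_gt.h42s

open MeasureTheory Set Filter
open Pool.Agent.Lib.MP_8d00da_gt.h25 Pool.Agent.Lib.MP_8d00da_gt.h42
open scoped Topology NNReal

variable {F : Type*} [NormedAddCommGroup F] [InnerProductSpace ℝ F]
    [FiniteDimensional ℝ F] [MeasurableSpace F] [BorelSpace F] {n : ℕ}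

omit [MeasurableSpace F] [BorelSpace F] in
/-- Pythagoras for functionals. -/
private lemma nb_norm (D : F →L[ℝ] ℝ) {ν : F} (hν : ‖ν‖ = 1) (c : ℝ) :
    ‖D + c • (innerSL ℝ ν)‖ ^ 2 = ‖D‖ ^ 2 + 2 * c * D ν + c ^ 2 := by
  set v := (InnerProductSpace.toDual ℝ F).symm D with hv
  have h1 : ‖D‖ = ‖v‖ := ((InnerProductSpace.toDual ℝ F).symm.norm_map D).symm
  have h2 : D ν = inner ℝ v ν := by
    rw [hv, InnerProductSpace.toDual_symm_apply]
  have h3 : D + c • (innerSL ℝ ν) = InnerProductSpace.toDual ℝ F (v + c • ν) := by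
    ext x
    rw [InnerProductSpace.toDual_apply_apply, inner_add_left, inner_smul_left, hv,
      InnerProductSpace.toDual_symm_apply]
    simp
  rw [h3, LinearIsometryEquiv.norm_map, h1, h2, norm_add_sq_real, norm_smul, inner_smul_right, hν,
    mul_one, Real.norm_eq_abs, sq_abs]
  ring

/-- The primitive of a compactly supported continuous function. -/
private lemma nb_prim {g : ℝ → ℝ} (hg : Continuous g) (hc : HasCompactSupport g) :
    ∃ a : ℝ → ℝ, BL a ∧ ∀ s, HasDerivAt a (g s) s := by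
  obtain ⟨G, hG⟩ := hc.exists_bound_of_continuous hg
  refine ⟨fun s => ∫ t in (0 : ℝ)..s, g t, ⟨⟨Real.toNNReal G, ?_⟩, ∫ t, ‖g t‖, ?_⟩, ?_⟩
  · refine LipschitzWith.of_dist_le_mul fun x y => ?_
    have hG0 : 0 ≤ G := (norm_nonneg _).trans (hG 0)
    rw [Real.coe_toNNReal _ hG0, Real.dist_eq, intervalIntegral.integral_interval_sub_left
      (hg.intervalIntegrable _ _) (hg.intervalIntegrable _ _), ← Real.norm_eq_abs]
    refine (intervalIntegral.norm_integral_le_of_norm_le_const fun t _ => hG t).trans ?_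
    rw [Real.dist_eq]
  · intro s
    rw [← Real.norm_eq_abs]
    refine intervalIntegral.norm_integral_le_integral_norm_uIoc.trans ?_
    exact setIntegral_le_integral (hg.integrable_of_hasCompactSupport hc).norm
      (Eventually.of_forall fun t => norm_nonneg _)
  · intro s
    exact intervalIntegral.integral_hasDerivAt_right (hg.intervalIntegrable _ _)
      (hg.stronglyMeasurableAtFilter _ _) hg.continuousAt

/-- The numerical part. -/
private lemma nb_num {Λ τ ε' E γ X Y K δ Q : ℝ} (hΛ : 0 < Λ) (hτ : 0 ≤ τ) (hε : 0 ≤ ε')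
    (hE : 0 ≤ E) (hγ : 0 ≤ γ) (h1 : (Λ * X - Y) ^ 2 ≤ Λ * ε' * E * (Λ * γ))
    (h2 : Y ^ 2 ≤ Λ * E * (τ * γ)) (h3 : Q ≤ K + δ + 2 * X - γ) :
    Q ≤ K + (Real.sqrt (τ / Λ) + Real.sqrt ε') ^ 2 * E + δ := by
  set e := Real.sqrt E with he
  set s := Real.sqrt γ with hs
  have hEe : E = e ^ 2 := (Real.sq_sqrt hE).symm
  have hγs : γ = s ^ 2 := (Real.sq_sqrt hγ).symm
  have he0 : 0 ≤ e := Real.sqrt_nonneg _
  have hs0 : 0 ≤ s := Real.sqrt_nonneg _
  set b := Real.sqrt ε' with hb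
  have hεb : ε' = b ^ 2 := (Real.sq_sqrt hε).symm
  have hb0 : 0 ≤ b := Real.sqrt_nonneg _
  set c := Real.sqrt (τ / Λ) with hcdef
  have hc0 : 0 ≤ c := Real.sqrt_nonneg _
  have hτc : τ = Λ * c ^ 2 := by
    rw [hcdef, Real.sq_sqrt (div_nonneg hτ hΛ.le)]
    field_simp
  have k1 : Λ * X - Y ≤ Λ * (b * e * s) := by
    refine abs_le_of_sq_le_sq' ?_ (by positivity) |>.2
    calc (Λ * X - Y) ^ 2 ≤ Λ * ε' * E * (Λ * γ) := h1
      _ = (Λ * (b * e * s)) ^ 2 := by rw [hEe, hγs, hεb]; ring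
  have k2 : Y ≤ Λ * (c * e * s) := by
    refine abs_le_of_sq_le_sq' ?_ (by positivity) |>.2
    calc Y ^ 2 ≤ Λ * E * (τ * γ) := h2
      _ = (Λ * (c * e * s)) ^ 2 := by rw [hEe, hγs, hτc]; ring
  have k3 : X ≤ (c + b) * e * s := by
    have : Λ * X ≤ Λ * ((c + b) * e * s) := by
      calc Λ * X ≤ Λ * (b * e * s) + Λ * (c * e * s) := by linarith
        _ = _ := by ring
    exact le_of_mul_le_mul_left this hΛ
  have k4 : 2 * ((c + b) * e * s) - s ^ 2 ≤ ((c + b) * e) ^ 2 := by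
    nlinarith [sq_nonneg ((c + b) * e - s)]
  calc Q ≤ K + δ + 2 * X - γ := h3
    _ ≤ K + δ + (2 * ((c + b) * e * s) - s ^ 2) := by rw [hγs]; linarith
    _ ≤ K + δ + ((c + b) * e) ^ 2 := by linarith
    _ = K + (c + b) ^ 2 * E + δ := by rw [hEe]; ring

theorem nu_bound {h : F → ℝ} {r B : ℝ} (H : LCW h r B) {ν : F} {K' τ Λ : ℝ} (hK' : 0 ≤ K')
    (hτ : 0 ≤ τ) (hΛ : 0 < Λ) (hν : NuP ν h K' τ)
    (hP : ∀ u : F → ℝ, BL u → ∫ x, u x * h x = 0 → ∫ x, u x ^ 2 * h x ≤ Λ * En h u)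
    {φ : F → ℝ} (hφ : BL φ) (hd : Differentiable ℝ φ) (hφ0 : ∫ x, φ x * h x = 0)
    (hg : BL (fun x => fderiv ℝ φ x ν)) (hgd : Differentiable ℝ (fun x => fderiv ℝ φ x ν))
    {E ε' : ℝ} (hε : 0 ≤ ε') (hE : En h φ ≤ E)
    (hv : (1 - ε') * Λ * E ≤ ∫ x, φ x ^ 2 * h x) :
    ∫ x, (fderiv ℝ φ x ν) ^ 2 * h x ≤
      K' * En h (fun x => fderiv ℝ φ x ν) + (Real.sqrt (τ / Λ) + Real.sqrt ε') ^ 2 * E := by
  have hE0 : 0 ≤ E := (En_nonneg H.wt).trans hE
  have hEq0 : 0 ≤ En h (fun x => fderiv ℝ φ x ν) := En_nonneg H.wt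
  have hR0 : 0 ≤ K' * En h (fun x => fderiv ℝ φ x ν) +
      (Real.sqrt (τ / Λ) + Real.sqrt ε') ^ 2 * E := by positivity
  rcases hν with hν | ⟨hν1, happ, h1d⟩
  · subst hν
    simp only [map_zero] at hR0 ⊢
    simpa using hR0
  refine le_of_forall_pos_le_add fun δ hδ => ?_
  obtain ⟨⟨Lφ, hLφ⟩, Aφ, hAφ⟩ := id hφ
  obtain ⟨⟨Lq, hLq⟩, Aq, hAq⟩ := id hg
  obtain ⟨g, hgc, hgs, hgδ⟩ := happ _ hg hgd δ hδ
  obtain ⟨a, haBL, had⟩ := nb_prim hgc hgs
  obtain ⟨m, hm⟩ := h1d a g hgc hgs had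
  obtain ⟨G, hG⟩ := hgs.exists_bound_of_continuous hgc
  have hG' : ∀ s, |g s| ≤ G := fun s => by rw [← Real.norm_eq_abs]; exact hG s
  have hlin : LipschitzWith 1 fun x : F => (inner ℝ ν x : ℝ) := by
    refine LipschitzWith.of_dist_le_mul fun x y => ?_
    rw [Real.dist_eq, ← inner_sub_right, dist_eq_norm, NNReal.coe_one, one_mul]
    refine (abs_real_inner_le_norm _ _).trans ?_
    rw [hν1, one_mul]
  have hlc : Continuous fun x : F => (inner ℝ ν x : ℝ) := hlin.continuous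
  have ha' : BL fun x : F => a (inner ℝ ν x) := haBL.comp hlin
  set M : ℝ := ∫ x, h x with hM
  have hM0 : 0 < M := H.mass
  set m' : ℝ := (∫ x, a (inner ℝ ν x) * h x) / M with hm'
  set ψ : F → ℝ := fun x => a (inner ℝ ν x) - m' with hψ
  have hψBL : BL ψ := ha'.sub (BL.const m')
  obtain ⟨⟨Lψ, hLψ⟩, Aψ, hAψ⟩ := id hψBL
  obtain ⟨⟨La, hLa⟩, Aa, hAa⟩ := id ha'
  have ham : Measurable fun x : F => a (inner ℝ ν x) := hLa.continuous.measurable
  have hgm : Measurable fun x : F => g (inner ℝ ν x) := (hgc.comp hlc).measurable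
  have hφm : Measurable φ := hLφ.continuous.measurable
  have hψm : Measurable ψ := hLψ.continuous.measurable
  have hqm : Measurable fun x => fderiv ℝ φ x ν := hLq.continuous.measurable
  have ia : Integrable fun x => a (inner ℝ ν x) * h x := bdd_int H.int ham hAa
  have ia2 : Integrable fun x => a (inner ℝ ν x) ^ 2 * h x :=
    bdd_int H.int (ham.pow_const 2) (Wt.sq_bdd hAa)
  have hψ0 : ∫ x, ψ x * h x = 0 := by
    have e : (fun x => ψ x * h x) = fun x => a (inner ℝ ν x) * h x - m' * h x := by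
      funext x; simp only [hψ]; ring
    rw [e, integral_sub ia (H.int.const_mul _), integral_const_mul, hm', ← hM,
      div_mul_cancel₀ _ hM0.ne', sub_self]
  set γ : ℝ := ∫ x, g (inner ℝ ν x) ^ 2 * h x with hγ
  have hγ0 : 0 ≤ γ := integral_nonneg fun x => mul_nonneg (sq_nonneg _) (H.nonneg x)
  -- the variance of `ψ`
  have hψ2 : ∫ x, ψ x ^ 2 * h x ≤ τ * γ := by
    refine le_trans ?_ hm
    have e : ∀ c : ℝ, ∫ x, (a (inner ℝ ν x) - c) ^ 2 * h x =
        (∫ x, a (inner ℝ ν x) ^ 2 * h x) - 2 * c * (∫ x, a (inner ℝ ν x) * h x) +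
          c ^ 2 * ∫ x, h x := by
      intro c
      have e1 : (fun x => (a (inner ℝ ν x) - c) ^ 2 * h x) =
          fun x => a (inner ℝ ν x) ^ 2 * h x - 2 * c * (a (inner ℝ ν x) * h x) + c ^ 2 * h x := by
        funext x; ring
      have i1 : Integrable fun x =>
          a (inner ℝ ν x) ^ 2 * h x - 2 * c * (a (inner ℝ ν x) * h x) := ia2.sub (ia.const_mul _)
      rw [e1, integral_add i1 (H.int.const_mul _), integral_sub ia2 (ia.const_mul _),
        integral_const_mul, integral_const_mul]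
    have e2 : ∫ x, a (inner ℝ ν x) * h x = m' * M := by
      rw [hm', div_mul_cancel₀ _ hM0.ne']
    change ∫ x, (a (inner ℝ ν x) - m') ^ 2 * h x ≤ _
    rw [e, e, e2, ← hM]
    nlinarith [mul_nonneg hM0.le (sq_nonneg (m - m'))]
  -- derivative
  have hψd : ∀ x, HasFDerivAt ψ (g (inner ℝ ν x) • innerSL ℝ ν) x := by
    intro x
    have h1 : HasFDerivAt (fun x : F => (inner ℝ ν x : ℝ)) (innerSL ℝ ν) x :=
      (innerSL ℝ ν).hasFDerivAt
    exact ((had (inner ℝ ν x)).comp_hasFDerivAt x h1).sub_const m'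
  set q : F → ℝ := fun x => fderiv ℝ φ x ν with hq
  set X : ℝ := ∫ x, q x * g (inner ℝ ν x) * h x with hX
  set Y : ℝ := ∫ x, φ x * ψ x * h x with hY
  set P2 : ℝ := ∫ x, φ x ^ 2 * h x with hP2
  set W : ℝ := ∫ x, ψ x ^ 2 * h x with hW
  have iD : Integrable fun x => ‖fderiv ℝ φ x‖ ^ 2 * h x :=
    bdd_int H.int ((measurable_fderiv ℝ φ).norm.pow_const 2) (sq_fderiv_bdd hLφ)
  have iqg : Integrable fun x => q x * g (inner ℝ ν x) * h x := by
    refine bdd_int H.int (hqm.mul hgm) (M := Aq * G) fun x => ?_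
    rw [abs_mul]
    exact mul_le_mul (hAq x) (hG' _) (abs_nonneg _) ((abs_nonneg _).trans (hAq x))
  have ig2 : Integrable fun x => g (inner ℝ ν x) ^ 2 * h x :=
    bdd_int H.int (hgm.pow_const 2) (Wt.sq_bdd (φ := fun x : F => g (inner ℝ ν x)) fun x => hG' _)
  have iq2 : Integrable fun x => q x ^ 2 * h x := bdd_int H.int (hqm.pow_const 2) (Wt.sq_bdd hAq)
  have iφ2 : Integrable fun x => φ x ^ 2 * h x := bdd_int H.int (hφm.pow_const 2) (Wt.sq_bdd hAφ)
  have iψ2 : Integrable fun x => ψ x ^ 2 * h x := bdd_int H.int (hψm.pow_const 2) (Wt.sq_bdd hAψ)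
  have iφψ : Integrable fun x => φ x * ψ x * h x := by
    refine bdd_int H.int (hφm.mul hψm) (M := Aφ * Aψ) fun x => ?_
    rw [abs_mul]
    exact mul_le_mul (hAφ x) (hAψ x) (abs_nonneg _) ((abs_nonneg _).trans (hAφ x))
  have iφ : Integrable fun x => φ x * h x := bdd_int H.int hφm hAφ
  have iψ : Integrable fun x => ψ x * h x := bdd_int H.int hψm hAψ
  -- the quadratic polynomial
  have key : ∀ t : ℝ, P2 + 2 * t * Y + t ^ 2 * W ≤ Λ * (En h φ + 2 * t * X + t ^ 2 * γ) := by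
    intro t
    have hu : BL fun x => φ x + t * ψ x := hφ.add ((BL.const t).mul hψBL)
    have hu0 : ∫ x, (φ x + t * ψ x) * h x = 0 := by
      have e : (fun x => (φ x + t * ψ x) * h x) = fun x => φ x * h x + t * (ψ x * h x) := by
        funext x; ring
      rw [e, integral_add iφ (iψ.const_mul _), integral_const_mul, hφ0, hψ0]; ring
    have h1 := hP _ hu hu0
    have e1 : ∫ x, (φ x + t * ψ x) ^ 2 * h x = P2 + 2 * t * Y + t ^ 2 * W := by
      have e : (fun x => (φ x + t * ψ x) ^ 2 * h x) = fun x =>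
          φ x ^ 2 * h x + 2 * t * (φ x * ψ x * h x) + t ^ 2 * (ψ x ^ 2 * h x) := by
        funext x; ring
      have i1 : Integrable fun x => φ x ^ 2 * h x + 2 * t * (φ x * ψ x * h x) :=
        iφ2.add (iφψ.const_mul _)
      rw [e, integral_add i1 (iψ2.const_mul _), integral_add iφ2 (iφψ.const_mul _),
        integral_const_mul, integral_const_mul]
    have e2 : En h (fun x => φ x + t * ψ x) = En h φ + 2 * t * X + t ^ 2 * γ := by
      have e : (fun x => ‖fderiv ℝ (fun x => φ x + t * ψ x) x‖ ^ 2 * h x) = fun x =>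
          ‖fderiv ℝ φ x‖ ^ 2 * h x + 2 * t * (q x * g (inner ℝ ν x) * h x) +
            t ^ 2 * (g (inner ℝ ν x) ^ 2 * h x) := by
        funext x
        have h2 : HasFDerivAt (fun x => φ x + t * ψ x)
            (fderiv ℝ φ x + (t * g (inner ℝ ν x)) • innerSL ℝ ν) x := by
          have := (hd x).hasFDerivAt.add ((hψd x).const_mul t)
          rw [smul_smul] at this
          exact this
        rw [h2.fderiv, nb_norm _ hν1]
        simp only [hq]
        ring
      have i1 : Integrable fun x =>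
          ‖fderiv ℝ φ x‖ ^ 2 * h x + 2 * t * (q x * g (inner ℝ ν x) * h x) :=
        iD.add (iqg.const_mul _)
      unfold En
      rw [e, integral_add i1 (ig2.const_mul _), integral_add iD (iqg.const_mul _),
        integral_const_mul, integral_const_mul]
    rwa [e1, e2] at h1
  have hPn : 0 ≤ Λ * En h φ - P2 := by
    have := hP φ hφ hφ0
    linarith
  have hPle : Λ * En h φ - P2 ≤ Λ * ε' * E := by
    have : Λ * En h φ ≤ Λ * E := mul_le_mul_of_nonneg_left hE hΛ.le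
    nlinarith
  have hW0 : 0 ≤ W := integral_nonneg fun x => mul_nonneg (sq_nonneg _) (H.nonneg x)
  have hdis : (Λ * X - Y) ^ 2 ≤ (Λ * En h φ - P2) * (Λ * γ - W) := by
    have h2 : ∀ t : ℝ, 0 ≤ (Λ * γ - W) * (t * t) + (2 * (Λ * X - Y)) * t + (Λ * En h φ - P2) := by
      intro t
      have := key t
      nlinarith
    have h3 := discrim_le_zero h2
    rw [discrim] at h3
    nlinarith
  have hRn : Λ * γ - W ≤ Λ * γ := by linarith
  have h1 : (Λ * X - Y) ^ 2 ≤ Λ * ε' * E * (Λ * γ) := by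
    refine hdis.trans ?_
    have hγΛ : 0 ≤ Λ * γ := by positivity
    calc (Λ * En h φ - P2) * (Λ * γ - W) ≤ (Λ * En h φ - P2) * (Λ * γ) :=
          mul_le_mul_of_nonneg_left hRn hPn
      _ ≤ Λ * ε' * E * (Λ * γ) := mul_le_mul_of_nonneg_right hPle hγΛ
  have h2 : Y ^ 2 ≤ Λ * E * (τ * γ) := by
    have hc : Y ^ 2 ≤ P2 * W := by
      have h2 : ∀ t : ℝ, 0 ≤ W * (t * t) + (2 * Y) * t + P2 := by
        intro t
        have e : (fun x => (φ x + t * ψ x) ^ 2 * h x) = fun x =>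
            φ x ^ 2 * h x + 2 * t * (φ x * ψ x * h x) + t ^ 2 * (ψ x ^ 2 * h x) := by
          funext x; ring
        have i1 : Integrable fun x => φ x ^ 2 * h x + 2 * t * (φ x * ψ x * h x) :=
          iφ2.add (iφψ.const_mul _)
        have h0 : 0 ≤ ∫ x, (φ x + t * ψ x) ^ 2 * h x :=
          integral_nonneg fun x => mul_nonneg (sq_nonneg _) (H.nonneg x)
        rw [e, integral_add i1 (iψ2.const_mul _), integral_add iφ2 (iφψ.const_mul _),
          integral_const_mul, integral_const_mul] at h0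
        linarith
      have h3 := discrim_le_zero h2
      rw [discrim] at h3
      nlinarith
    refine hc.trans ?_
    have hP2 : P2 ≤ Λ * E := by
      have : Λ * En h φ ≤ Λ * E := mul_le_mul_of_nonneg_left hE hΛ.le
      linarith
    exact mul_le_mul hP2 hψ2 hW0 (by positivity)
  have h3 : ∫ x, q x ^ 2 * h x ≤ K' * En h q + δ + 2 * X - γ := by
    have e : ∫ x, (q x - g (inner ℝ ν x)) ^ 2 * h x = (∫ x, q x ^ 2 * h x) - 2 * X + γ := by
      have e1 : (fun x => (q x - g (inner ℝ ν x)) ^ 2 * h x) = fun x =>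
          q x ^ 2 * h x - 2 * (q x * g (inner ℝ ν x) * h x) + g (inner ℝ ν x) ^ 2 * h x := by
        funext x; ring
      have i1 : Integrable fun x => q x ^ 2 * h x - 2 * (q x * g (inner ℝ ν x) * h x) :=
        iq2.sub (iqg.const_mul _)
      rw [e1, integral_add i1 ig2, integral_sub iq2 (iqg.const_mul _), integral_const_mul]
    rw [e] at hgδ
    linarith
  exact nb_num hΛ hτ hε hE0 hγ0 h1 h2 h3

end Pool.Agent.Lib.MP_8d00da_gt.h42s
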