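import Mathlib
import Pool.Agent.Lib.MP_8d00da_gt.h25.Chain
import Pool.Agent.Lib.MP_8d00da_gt.h97r.RDefs
import Pool.Agent.Lib.MP_8d00da_gt.h97r.ROm
import Pool.Agent.Lib.MP_8d00da_gt.h42s.BL
import Pool.Agent.Lib.MP_8d00da_gt.h25.Cls

section

/-!
# Splitting into the even and the odd part
-/

namespace Pool.Agent.Lib.MP_8d00da_gt.h42s

open MeasureTheory Set Filter
open Pool.Agent.Lib.MP_8d00da_gt.h25 Pool.Agent.Lib.MP_8d00da_gt.h42
open scoped Topology NNReal

variable {F : Type*} [NormedAddCommGroup F] [InnerProductSpace ℝ F]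
    [FiniteDimensional ℝ F] [MeasurableSpace F] [BorelSpace F]

private lemma integrable_bdd_mul {h : F → ℝ} (hi : Integrable h) {g : F → ℝ}
    (hg : Measurable g) {A : ℝ} (hA : ∀ x, |g x| ≤ A) : Integrable (fun x => g x * h x) :=
  hi.bdd_mul hg.aestronglyMeasurable (Eventually.of_forall fun x => by
    rw [Real.norm_eq_abs]; exact hA x)

theorem split_sq {h : F → ℝ} (hm : Measurable h) (hi : Integrable h) (T : F ≃ₗᵢ[ℝ] F)
    (hT : ∀ x, h (T x) = h x) {f : F → ℝ} (hf : Measurable f) {A : ℝ} (hA : ∀ x, |f x| ≤ A) :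
    ∫ x, f x ^ 2 * h x = (∫ x, ((f x + f (T x)) / 2) ^ 2 * h x) +
      ∫ x, ((f x - f (T x)) / 2) ^ 2 * h x := by
  have hA0 : 0 ≤ A := le_trans (abs_nonneg _) (hA 0)
  have hTm : Measurable fun x => f (T x) := hf.comp T.continuous.measurable
  have hI1 : Integrable fun x => ((f x + f (T x)) / 2) ^ 2 * h x := by
    refine integrable_bdd_mul hi (A := A ^ 2) (by fun_prop) fun x => ?_
    rw [abs_of_nonneg (sq_nonneg _)]
    have h1 := abs_le.1 (hA x)
    have h2 := abs_le.1 (hA (T x))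
    exact sq_le_sq' (by linarith) (by linarith)
  have hI2 : Integrable fun x => ((f x - f (T x)) / 2) ^ 2 * h x := by
    refine integrable_bdd_mul hi (A := A ^ 2) (by fun_prop) fun x => ?_
    rw [abs_of_nonneg (sq_nonneg _)]
    have h1 := abs_le.1 (hA x)
    have h2 := abs_le.1 (hA (T x))
    exact sq_le_sq' (by linarith) (by linarith)
  have hJ1 : Integrable fun x => f x ^ 2 * h x := by
    refine integrable_bdd_mul hi (A := A ^ 2) (by fun_prop) fun x => ?_
    rw [abs_of_nonneg (sq_nonneg _)]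
    have h1 := abs_le.1 (hA x)
    exact sq_le_sq' (by linarith) (by linarith)
  have hJ2 : Integrable fun x => f (T x) ^ 2 * h x := by
    refine integrable_bdd_mul hi (A := A ^ 2) (by fun_prop) fun x => ?_
    rw [abs_of_nonneg (sq_nonneg _)]
    have h1 := abs_le.1 (hA (T x))
    exact sq_le_sq' (by linarith) (by linarith)
  have hc : ∫ x, f (T x) ^ 2 * h x = ∫ x, f x ^ 2 * h x := by
    rw [← T.measurePreserving.integral_comp T.toHomeomorph.measurableEmbedding
      (fun x => f x ^ 2 * h x)]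
    refine integral_congr_ae (Eventually.of_forall fun x => ?_)
    simp only
    rw [hT]
  rw [← integral_add hI1 hI2]
  have h3 : (fun x => ((f x + f (T x)) / 2) ^ 2 * h x + ((f x - f (T x)) / 2) ^ 2 * h x) =
      fun x => (1 / 2) * (f x ^ 2 * h x) + (1 / 2) * (f (T x) ^ 2 * h x) := by
    ext x; ring
  rw [h3, integral_add (hJ1.const_mul _) (hJ2.const_mul _), integral_const_mul,
    integral_const_mul, hc]
  ring

private lemma parallelogram (D D' : F →L[ℝ] ℝ) :
    ‖(1 / 2 : ℝ) • (D + D')‖ ^ 2 + ‖(1 / 2 : ℝ) • (D - D')‖ ^ 2 = (‖D‖ ^ 2 + ‖D'‖ ^ 2) / 2 := by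
  have b := stdOrthonormalBasis ℝ F
  rw [norm_sq_fderiv b, norm_sq_fderiv b, norm_sq_fderiv b, norm_sq_fderiv b,
    ← Finset.sum_add_distrib, ← Finset.sum_add_distrib, Finset.sum_div]
  refine Finset.sum_congr rfl fun i _ => ?_
  simp only [smul_apply, add_apply,
    sub_apply, smul_eq_mul]
  ring

private lemma norm_comp_iso (D : F →L[ℝ] ℝ) (T : F ≃ₗᵢ[ℝ] F) :
    ‖D.comp (T.toContinuousLinearEquiv : F →L[ℝ] F)‖ = ‖D‖ := by
  refine le_antisymm ?_ ?_
  · refine ContinuousLinearMap.opNorm_le_bound _ (norm_nonneg _) fun x => ?_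
    have := D.le_opNorm (T x)
    rw [T.norm_map] at this
    simpa using this
  · refine ContinuousLinearMap.opNorm_le_bound _ (norm_nonneg _) fun x => ?_
    have := (D.comp (T.toContinuousLinearEquiv : F →L[ℝ] F)).le_opNorm (T.symm x)
    rw [T.symm.norm_map] at this
    simpa using this

theorem split_En {h : F → ℝ} (hm : Measurable h) (hi : Integrable h) (T : F ≃ₗᵢ[ℝ] F)
    (hT : ∀ x, h (T x) = h x) {f : F → ℝ} {L : ℝ≥0} (hf : LipschitzWith L f) :
    En h f = En h (fun x => (f x + f (T x)) / 2) + En h (fun x => (f x - f (T x)) / 2) := by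
  have hd : ∀ᵐ x, DifferentiableAt ℝ f x := hf.ae_differentiableAt
  have hdT : ∀ᵐ x, DifferentiableAt ℝ f (T x) :=
    T.measurePreserving.quasiMeasurePreserving.ae hd
  have hLT : LipschitzWith L fun x => f (T x) := by
    have := hf.comp T.lipschitz
    rwa [mul_one] at this
  have key : ∀ᵐ x, ‖fderiv ℝ (fun x => (f x + f (T x)) / 2) x‖ ^ 2 * h x +
      ‖fderiv ℝ (fun x => (f x - f (T x)) / 2) x‖ ^ 2 * h x =
      (1 / 2) * (‖fderiv ℝ f x‖ ^ 2 * h x) + (1 / 2) * (‖fderiv ℝ f (T x)‖ ^ 2 * h (T x)) := by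
    filter_upwards [hd, hdT] with x hx hTx
    have h1 : HasFDerivAt f (fderiv ℝ f x) x := hx.hasFDerivAt
    have h2 : HasFDerivAt (fun x => f (T x))
        ((fderiv ℝ f (T x)).comp (T.toContinuousLinearEquiv : F →L[ℝ] F)) x :=
      hTx.hasFDerivAt.comp x T.toContinuousLinearEquiv.hasFDerivAt
    have h3 : HasFDerivAt (fun x => (f x + f (T x)) / 2)
        ((1 / 2 : ℝ) • (fderiv ℝ f x +
          (fderiv ℝ f (T x)).comp (T.toContinuousLinearEquiv : F →L[ℝ] F))) x := by
      have := (h1.add h2).const_mul (1 / 2 : ℝ)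
      refine this.congr_of_eventuallyEq (Eventually.of_forall fun y => ?_)
      simp only [Pi.add_apply]
      ring
    have h4 : HasFDerivAt (fun x => (f x - f (T x)) / 2)
        ((1 / 2 : ℝ) • (fderiv ℝ f x -
          (fderiv ℝ f (T x)).comp (T.toContinuousLinearEquiv : F →L[ℝ] F))) x := by
      have := (h1.sub h2).const_mul (1 / 2 : ℝ)
      refine this.congr_of_eventuallyEq (Eventually.of_forall fun y => ?_)
      simp only [Pi.sub_apply]
      ring
    rw [h3.fderiv, h4.fderiv, ← add_mul, parallelogram, norm_comp_iso, hT]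
    ring
  have hmeas : ∀ {g : F → ℝ} {M : ℝ≥0}, LipschitzWith M g →
      Integrable fun x => ‖fderiv ℝ g x‖ ^ 2 * h x := fun {g M} hg =>
    integrable_bdd_mul hi (A := (M : ℝ) ^ 2)
      ((measurable_fderiv ℝ g).norm.pow_const 2) (sq_fderiv_bdd hg)
  have hL1 : LipschitzWith (L + L) fun x => (f x + f (T x)) / 2 := by
    refine LipschitzWith.of_dist_le_mul fun x y => ?_
    have a1 := hf.dist_le_mul x y
    have a2 := hLT.dist_le_mul x y
    rw [Real.dist_eq] at a1 a2 ⊢
    rw [abs_le] at a1 a2 ⊢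
    push_cast
    have : 0 ≤ (L : ℝ) * dist x y := by positivity
    constructor <;> linarith [a1.1, a1.2, a2.1, a2.2]
  have hL2 : LipschitzWith (L + L) fun x => (f x - f (T x)) / 2 := by
    refine LipschitzWith.of_dist_le_mul fun x y => ?_
    have a1 := hf.dist_le_mul x y
    have a2 := hLT.dist_le_mul x y
    rw [Real.dist_eq] at a1 a2 ⊢
    rw [abs_le] at a1 a2 ⊢
    push_cast
    have : 0 ≤ (L : ℝ) * dist x y := by positivity
    constructor <;> linarith [a1.1, a1.2, a2.1, a2.2]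
  have hJ2 : Integrable fun x => ‖fderiv ℝ f (T x)‖ ^ 2 * h (T x) :=
    (T.measurePreserving.integrable_comp_emb T.toHomeomorph.measurableEmbedding).2 (hmeas hf)
  have hc : ∫ x, ‖fderiv ℝ f (T x)‖ ^ 2 * h (T x) = ∫ x, ‖fderiv ℝ f x‖ ^ 2 * h x :=
    T.measurePreserving.integral_comp T.toHomeomorph.measurableEmbedding
      (fun x => ‖fderiv ℝ f x‖ ^ 2 * h x)
  unfold En
  rw [← integral_add (hmeas hL1) (hmeas hL2), integral_congr_ae key,
    integral_add ((hmeas hf).const_mul _) (hJ2.const_mul _), integral_const_mul,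
    integral_const_mul, hc]
  ring

private lemma parity_aux {n : ℕ} {h : F → ℝ} (hm : Measurable h) (hi : Integrable h)
    (S : Fin n → F ≃ₗᵢ[ℝ] F) (hSS : ∀ i x, S i (S i x) = x)
    (hcomm : ∀ i j x, S i (S j x) = S j (S i x)) (hSh : ∀ i x, h (S i x) = h x)
    {K : ℝ}
    (hO : ∀ (i : Fin n) (q : F → ℝ) (L : ℝ≥0), LipschitzWith L q → ∀ A : ℝ, (∀ x, |q x| ≤ A) →
      (∀ x, q (S i x) = - q x) → ∫ x, q x ^ 2 * h x ≤ K * En h q)
    (hE : ∀ (f : F → ℝ) (L : ℝ≥0), LipschitzWith L f → ∀ A : ℝ, (∀ x, |f x| ≤ A) →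
      (∀ i x, f (S i x) = f x) → ∫ x, f x * h x = 0 → ∫ x, f x ^ 2 * h x ≤ K * En h f) (m : ℕ) :
    ∀ (f : F → ℝ) (L : ℝ≥0), LipschitzWith L f → ∀ A : ℝ, (∀ x, |f x| ≤ A) →
      (∀ i : Fin n, m ≤ (i : ℕ) → ∀ x, f (S i x) = f x) → ∫ x, f x * h x = 0 →
      ∫ x, f x ^ 2 * h x ≤ K * En h f := by
  induction m with
  | zero =>
    intro f L hf A hA hev hf0
    exact hE f L hf A hA (fun i x => hev i (Nat.zero_le _) x) hf0
  | succ m ih =>
    intro f L hf A hA hev hf0
    by_cases hmn : m < n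
    · set T := S ⟨m, hmn⟩ with hTdef
      have hTT : ∀ x, T (T x) = x := hSS _
      have hTh : ∀ x, h (T x) = h x := hSh _
      have hLT : LipschitzWith L fun x => f (T x) := by
        have := hf.comp T.lipschitz
        rwa [mul_one] at this
      have hL1 : LipschitzWith (L + L) fun x => (f x + f (T x)) / 2 := by
        refine LipschitzWith.of_dist_le_mul fun x y => ?_
        have a1 := hf.dist_le_mul x y
        have a2 := hLT.dist_le_mul x y
        rw [Real.dist_eq] at a1 a2 ⊢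
        rw [abs_le] at a1 a2 ⊢
        push_cast
        have : 0 ≤ (L : ℝ) * dist x y := by positivity
        constructor <;> linarith [a1.1, a1.2, a2.1, a2.2]
      have hL2 : LipschitzWith (L + L) fun x => (f x - f (T x)) / 2 := by
        refine LipschitzWith.of_dist_le_mul fun x y => ?_
        have a1 := hf.dist_le_mul x y
        have a2 := hLT.dist_le_mul x y
        rw [Real.dist_eq] at a1 a2 ⊢
        rw [abs_le] at a1 a2 ⊢
        push_cast
        have : 0 ≤ (L : ℝ) * dist x y := by positivity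
        constructor <;> linarith [a1.1, a1.2, a2.1, a2.2]
      rw [split_sq hm hi T hTh hf.continuous.measurable hA, split_En hm hi T hTh hf, mul_add]
      have hI1 : Integrable fun x => f x * h x :=
        integrable_bdd_mul hi hf.continuous.measurable hA
      have hI2 : Integrable fun x => f (T x) * h x :=
        integrable_bdd_mul hi hLT.continuous.measurable (fun x => hA (T x))
      have hc : ∫ x, f (T x) * h x = ∫ x, f x * h x := by
        rw [← T.measurePreserving.integral_comp T.toHomeomorph.measurableEmbedding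
          (fun x => f x * h x)]
        refine integral_congr_ae (Eventually.of_forall fun x => ?_)
        simp only
        rw [hTh]
      refine add_le_add ?_ ?_
      · refine ih _ (L + L) hL1 A (fun x => ?_) (fun i hmi x => ?_) ?_
        · have h1 := abs_le.1 (hA x)
          have h2 := abs_le.1 (hA (T x))
          exact abs_le.2 ⟨by linarith, by linarith⟩
        · rcases Nat.lt_or_ge m (i : ℕ) with hlt | hge
          · have e1 := hev i hlt x
            have e2 := hev i hlt (T x)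
            have e3 : T (S i x) = S i (T x) := hcomm _ _ _
            rw [e1, e3, e2]
          · have hi' : i = ⟨m, hmn⟩ := Fin.ext (le_antisymm hge hmi)
            subst hi'
            have e4 : S ⟨m, hmn⟩ x = T x := rfl
            rw [e4, hTT, add_comm]
        · have h3 : (fun x => (f x + f (T x)) / 2 * h x) =
              fun x => (1 / 2) * (f x * h x) + (1 / 2) * (f (T x) * h x) := by
            ext x; ring
          rw [h3, integral_add (hI1.const_mul _) (hI2.const_mul _), integral_const_mul,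
            integral_const_mul, hc, hf0]
          simp
      · refine hO ⟨m, hmn⟩ _ (L + L) hL2 A (fun x => ?_) (fun x => ?_)
        · have h1 := abs_le.1 (hA x)
          have h2 := abs_le.1 (hA (T x))
          exact abs_le.2 ⟨by linarith, by linarith⟩
        · have : S ⟨m, hmn⟩ x = T x := rfl
          rw [this, hTT]
          ring
    · refine ih f L hf A hA (fun i hmi x => ?_) hf0
      exact absurd (lt_of_le_of_lt hmi i.2) hmn

/-- From the even and the odd classes to all functions, for commuting involutions. The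
hypothesis `hO` is `OddP S h K` written out. -/
theorem parity {n : ℕ} {h : F → ℝ} (hm : Measurable h) (h0 : ∀ x, 0 ≤ h x) (hi : Integrable h)
    (S : Fin n → F ≃ₗᵢ[ℝ] F) (hSS : ∀ i x, S i (S i x) = x)
    (hcomm : ∀ i j x, S i (S j x) = S j (S i x)) (hSh : ∀ i x, h (S i x) = h x)
    {K : ℝ}
    (hO : ∀ (i : Fin n) (q : F → ℝ) (L : ℝ≥0), LipschitzWith L q → ∀ A : ℝ, (∀ x, |q x| ≤ A) →
      (∀ x, q (S i x) = - q x) → ∫ x, q x ^ 2 * h x ≤ K * En h q)
    (hE : ∀ (f : F → ℝ) (L : ℝ≥0), LipschitzWith L f → ∀ A : ℝ, (∀ x, |f x| ≤ A) →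
      (∀ i x, f (S i x) = f x) → ∫ x, f x * h x = 0 → ∫ x, f x ^ 2 * h x ≤ K * En h f)
    {f : F → ℝ} {L : ℝ≥0} (hf : LipschitzWith L f) {A : ℝ} (hA : ∀ x, |f x| ≤ A)
    (hf0 : ∫ x, f x * h x = 0) :
    ∫ x, f x ^ 2 * h x ≤ K * En h f :=
  parity_aux hm hi S hSS hcomm hSh hO hE n f L hf A hA
    (fun i hni _ => absurd (lt_of_lt_of_le i.2 hni) (lt_irrefl _)) hf0

end Pool.Agent.Lib.MP_8d00da_gt.h42s
end

section

/-!
# Tightness
-/

namespace Pool.Agent.Lib.MP_8d00da_gt.h97r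

open MeasureTheory Set Filter
open Pool.Agent.Lib.MP_8d00da_gt.h25 Pool.Agent.Lib.MP_8d00da_gt.h42
open Pool.Agent.Lib.MP_8d00da_gt.h42s Pool.Agent.Lib.MP_8d00da_gt.h42o
open scoped Topology NNReal

variable {F : Type*} [NormedAddCommGroup F] [InnerProductSpace ℝ F]
    [FiniteDimensional ℝ F] [MeasurableSpace F] [BorelSpace F]

variable {δ L : ℝ} {h : F → ℝ}

/-- `h = exp (-W)`. By `smid` with `y = 0` and `max0`: `W ((1/2) x) ≤ ...`; the function
`φ t = W (t x)` is convex, `φ 0 ≤ φ t`, and strong convexity gives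
`fderiv W x x = φ' 1 ≥ φ 1 - φ 0 ≥ δ ‖x‖² / 4` (`GW.gauss`). -/
theorem radW (H : GW δ L h) {W : F → ℝ} (hW : ∀ x, h x = Real.exp (-W x))
    (hWd : Differentiable ℝ W) (x : F) : δ * ‖x‖ ^ 2 / 4 ≤ fderiv ℝ W x x := by
  have hmid : ∀ y z, W ((1 / 2 : ℝ) • (y + z)) ≤ (W y + W z) / 2 - δ * ‖y - z‖ ^ 2 / 8 := by
    intro y z
    have h1 := H.smid y z
    rw [hW, hW, hW, ← Real.exp_add, ← Real.exp_add, ← Real.exp_nat_mul] at h1
    have h2 := Real.exp_le_exp.mp h1
    push_cast at h2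
    linarith
  have hmin : W 0 ≤ W x := by
    have h1 := H.max0 x
    rw [hW, hW] at h1
    have h2 := Real.exp_le_exp.mp h1
    linarith
  set w : ℝ → ℝ := fun s => W (s • x) - δ * ‖x‖ ^ 2 / 2 * s ^ 2 with hw
  have hwm : ∀ s t, 2 * w ((s + t) / 2) ≤ w s + w t := by
    intro s t
    have h1 := hmid (s • x) (t • x)
    have e1 : (1 / 2 : ℝ) • (s • x + t • x) = ((s + t) / 2) • x := by
      rw [← add_smul, smul_smul]
      congr 1
      ring
    have e2 : ‖s • x - t • x‖ ^ 2 = (s - t) ^ 2 * ‖x‖ ^ 2 := by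
      rw [← sub_smul, norm_smul, mul_pow, Real.norm_eq_abs, sq_abs]
    rw [e1, e2] at h1
    simp only [hw]
    nlinarith
  have hinc : ∀ (e : ℝ) (k : ℕ), w (k * e) - w 0 ≤ k * (w ((k + 1) * e) - w (k * e)) := by
    intro e k
    induction k with
    | zero => simp
    | succ k ih =>
      have h1 := hwm (k * e) ((k + 2) * e)
      have e1 : ((k : ℝ) * e + (k + 2) * e) / 2 = (k + 1) * e := by ring
      rw [e1] at h1
      push_cast
      have e2 : ((k : ℝ) + 1 + 1) * e = (k + 2) * e := by ring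
      rw [e2]
      have hk : (0 : ℝ) ≤ k := Nat.cast_nonneg k
      have h2 : w ((k + 1) * e) - w 0 ≤ (k + 1) * (w ((k + 1) * e) - w (k * e)) := by
        linarith
      refine h2.trans ?_
      refine mul_le_mul_of_nonneg_left ?_ (by linarith)
      linarith
  have hder : HasDerivAt w (fderiv ℝ W x x - δ * ‖x‖ ^ 2) 1 := by
    have h1 : HasDerivAt (fun s : ℝ => s • x) x 1 := by
      simpa using (hasDerivAt_id (1 : ℝ)).smul_const x
    have h2 : HasFDerivAt W (fderiv ℝ W x) ((1 : ℝ) • x) := by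
      rw [one_smul]
      exact (hWd x).hasFDerivAt
    have h3 := h2.comp_hasDerivAt (1 : ℝ) h1
    have h4 : HasDerivAt (fun s : ℝ => δ * ‖x‖ ^ 2 / 2 * s ^ 2) (δ * ‖x‖ ^ 2) 1 := by
      have := ((hasDerivAt_pow 2 (1 : ℝ)).const_mul (δ * ‖x‖ ^ 2 / 2))
      refine this.congr_deriv ?_
      norm_num
    exact h3.sub h4
  have hslope := hasDerivAt_iff_tendsto_slope.mp hder
  have hseq : Tendsto (fun k : ℕ => 1 + 1 / ((k : ℝ) + 1)) atTop (𝓝[≠] 1) := by
    rw [tendsto_nhdsWithin_iff]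
    constructor
    · have := (tendsto_one_div_add_atTop_nhds_zero_nat (𝕜 := ℝ)).const_add 1
      simpa using this
    · refine Eventually.of_forall fun k => ?_
      simp only [mem_compl_iff, mem_singleton_iff, add_eq_left]
      positivity
  have hlim := hslope.comp hseq
  have hge : -(δ * ‖x‖ ^ 2 / 2) ≤ fderiv ℝ W x x - δ * ‖x‖ ^ 2 := by
    refine ge_of_tendsto' hlim fun k => ?_
    simp only [Function.comp_apply, slope_def_field]
    have h1 := hinc (1 / ((k : ℝ) + 1)) (k + 1)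
    have hk : (0 : ℝ) < (k : ℝ) + 1 := by positivity
    have e1 : ((k + 1 : ℕ) : ℝ) * (1 / ((k : ℝ) + 1)) = 1 := by
      push_cast
      field_simp
    have e2 : (((k + 1 : ℕ) : ℝ) + 1) * (1 / ((k : ℝ) + 1)) = 1 + 1 / ((k : ℝ) + 1) := by
      push_cast
      field_simp
    rw [e1, e2] at h1
    have h2 : -(δ * ‖x‖ ^ 2 / 2) ≤ w 1 - w 0 := by
      simp only [hw]
      rw [one_smul, zero_smul]
      linarith
    have e3 : 1 + 1 / ((k : ℝ) + 1) - 1 = 1 / ((k : ℝ) + 1) := by ring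
    rw [e3, div_div_eq_mul_div, div_one]
    push_cast at h1
    linarith
  have hδ := H.dpos
  have h9 : 0 ≤ δ * ‖x‖ ^ 2 := by positivity
  linarith

/-- Integration by parts: with `n = finrank F`, `(δ/4) ∫ ‖x‖² q² h ≤ ∫ (fderiv W x x) q² h =
∫ div (q² x) h = n ∫ q² h + 2 ∫ q (fderiv q x x) h ≤ n ∫ q² h + (δ/8) ∫ ‖x‖² q² h +
(8/δ) En q`. (Sum over the standard orthonormal basis `e_i` of the integrations by parts of
`q² ⟨e_i, x⟩ h` in direction `e_i`; all functions are integrable by `GW.int_exp`; compare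
`h42u/UFar.lean`.) -/
theorem second_q (H : GW δ L h) : ∃ A : ℝ, 0 < A ∧ ∀ q : F → ℝ, BL q → Differentiable ℝ q →
    ∫ x, ‖x‖ ^ 2 * (q x ^ 2 * h x) ≤ A * ((∫ x, q x ^ 2 * h x) + En h q) := by
  have hδ := H.dpos
  obtain ⟨W, hW, hWd, hWL⟩ := H.reg
  set B := stdOrthonormalBasis ℝ F with hB
  set m : ℕ := Module.finrank ℝ F with hm
  set Q : ℝ := (8 / δ) * m + 64 / δ ^ 2 with hQ
  have hQ0 : 0 < Q := by positivity
  refine ⟨Q, hQ0, fun f hf hfd => ?_⟩
  obtain ⟨⟨K, hK⟩, A, hA⟩ := hf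
  have hA0 : 0 ≤ A := (abs_nonneg _).trans (hA 0)
  have hfm : Measurable f := hK.continuous.measurable
  have hfK : ∀ x, ‖fderiv ℝ f x‖ ≤ K := fun x => norm_fderiv_le_of_lipschitz ℝ hK
  have hK0 : (0 : ℝ) ≤ K := K.2
  have hf2 : ∀ x, f x ^ 2 ≤ A ^ 2 := fun x => by
    rw [← sq_abs]
    exact pow_le_pow_left₀ (abs_nonneg _) (hA x) 2
  have hgr1 : ∀ x : F, 1 + ‖x‖ ≤ 2 * (1 + ‖x‖ ^ 2) := by
    intro x
    nlinarith [sq_nonneg (‖x‖ - 1), norm_nonneg x]
  have hgr2 : ∀ x : F, (1 + ‖x‖) * ‖x‖ ≤ 2 * (1 + ‖x‖ ^ 2) := by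
    intro x
    nlinarith [sq_nonneg (‖x‖ - 1), norm_nonneg x]
  set D : ℝ := ‖fderiv ℝ W 0‖ + |L| with hD
  have hD0 : 0 ≤ D := by positivity
  have hgrW : ∀ x, ‖fderiv ℝ W x‖ ≤ D * (1 + ‖x‖) := by
    intro x
    have h2 : ‖fderiv ℝ W x‖ ≤ ‖fderiv ℝ W x - fderiv ℝ W 0‖ + ‖fderiv ℝ W 0‖ := by
      have := norm_add_le (fderiv ℝ W x - fderiv ℝ W 0) (fderiv ℝ W 0)
      rwa [sub_add_cancel] at this
    have h3 := hWL x 0
    rw [sub_zero] at h3
    have h4 : L * ‖x‖ ≤ |L| * ‖x‖ := mul_le_mul_of_nonneg_right (le_abs_self L) (norm_nonneg x)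
    have h5 := norm_nonneg x
    have h6 := norm_nonneg (fderiv ℝ W 0)
    have h7 := abs_nonneg L
    rw [hD]
    nlinarith
  have hee : ∀ i, ‖B i‖ = 1 := fun i => B.orthonormal.1 i
  have hcoord : ∀ (x : F) i, |inner ℝ (B i) x| ≤ ‖x‖ := fun x i => by
    have := abs_real_inner_le_norm (B i) x
    rwa [hee, one_mul] at this
  -- the derivative of the weight
  have hhd : ∀ x, HasFDerivAt h (Real.exp (-W x) • (-fderiv ℝ W x)) x := by
    intro x
    have h2 := ((hWd x).hasFDerivAt.neg).exp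
    exact h2.congr_of_eventuallyEq (Eventually.of_forall fun z => hW z)
  have hhf : ∀ x v, fderiv ℝ h x v = -(h x * fderiv ℝ W x v) := by
    intro x v
    rw [(hhd x).fderiv]
    simp only [smul_apply, neg_apply, smul_eq_mul]
    rw [hW x]
    ring
  -- integration by parts
  have hWm : ∀ v, Measurable fun x => fderiv ℝ W x v := fun v => measurable_fderiv_apply_const ℝ W v
  have hfdm : ∀ v, Measurable fun x => fderiv ℝ f x v := fun v => measurable_fderiv_apply_const ℝ f v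
  have hui : ∀ (i : Fin m) (x : F), HasFDerivAt (fun z : F => inner ℝ (B i) z * f z ^ 2)
      ((inner ℝ (B i) x) • ((2 * f x) • fderiv ℝ f x) + (f x ^ 2) • (innerSL ℝ (B i))) x := by
    intro i x
    have h1 : HasFDerivAt (fun z : F => inner ℝ (B i) z) (innerSL ℝ (B i)) x :=
      (innerSL ℝ (B i)).hasFDerivAt
    have h2 : HasFDerivAt (fun z : F => f z ^ 2) ((2 * f x) • fderiv ℝ f x) x := by
      have := (hfd x).hasFDerivAt.pow 2
      refine this.congr_fderiv ?_
      ext v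
      simp
    exact h1.mul h2
  have hibp : ∀ i : Fin m,
      Integrable (fun x : F => (inner ℝ (B i) x * f x ^ 2 * fderiv ℝ W x (B i)) * h x) ∧
      Integrable (fun x : F => (2 * f x * (inner ℝ (B i) x * fderiv ℝ f x (B i)) + f x ^ 2) * h x) ∧
      ∫ x : F, (inner ℝ (B i) x * f x ^ 2 * fderiv ℝ W x (B i)) * h x =
        ∫ x : F, (2 * f x * (inner ℝ (B i) x * fderiv ℝ f x (B i)) + f x ^ 2) * h x := by
    intro i
    have hxm : Measurable fun x : F => (inner ℝ (B i) x : ℝ) :=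
      (continuous_const.inner continuous_id).measurable
    have j1 : Integrable
        (fun x : F => (inner ℝ (B i) x * f x ^ 2 * fderiv ℝ W x (B i)) * h x) := by
      refine H.int_poly ((hxm.mul (hfm.pow_const 2)).mul (hWm _)) (C := 2 * (A ^ 2 * D)) fun x => ?_
      have h1 : |fderiv ℝ W x (B i)| ≤ D * (1 + ‖x‖) := by
        have := (fderiv ℝ W x).le_opNorm (B i)
        rw [Real.norm_eq_abs, hee, mul_one] at this
        exact this.trans (hgrW x)
      rw [abs_mul, abs_mul, abs_of_nonneg (sq_nonneg (f x))]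
      calc |inner ℝ (B i) x| * f x ^ 2 * |fderiv ℝ W x (B i)|
          ≤ ‖x‖ * A ^ 2 * (D * (1 + ‖x‖)) := by
            have := hcoord x i
            have := hf2 x
            gcongr
        _ = (A ^ 2 * D) * ((1 + ‖x‖) * ‖x‖) := by ring
        _ ≤ (A ^ 2 * D) * (2 * (1 + ‖x‖ ^ 2)) :=
            mul_le_mul_of_nonneg_left (hgr2 x) (by positivity)
        _ = _ := by ring
    have j2 : Integrable
        (fun x : F => (2 * f x * (inner ℝ (B i) x * fderiv ℝ f x (B i)) + f x ^ 2) * h x) := by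
      refine H.int_poly (((hfm.const_mul 2).mul (hxm.mul (hfdm _))).add (hfm.pow_const 2))
        (C := 2 * A * K * 2 + A ^ 2) fun x => ?_
      have h1 : |fderiv ℝ f x (B i)| ≤ K := by
        have := (fderiv ℝ f x).le_opNorm (B i)
        rw [Real.norm_eq_abs, hee, mul_one] at this
        exact this.trans (hfK x)
      have h2 : |2 * f x * (inner ℝ (B i) x * fderiv ℝ f x (B i))| ≤ 2 * A * (‖x‖ * K) := by
        rw [abs_mul, abs_mul, abs_mul, abs_two]
        have := hcoord x i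
        have := hA x
        gcongr
      have h3 : ‖x‖ ≤ 2 * (1 + ‖x‖ ^ 2) := by
        have := hgr1 x
        linarith
      calc |2 * f x * (inner ℝ (B i) x * fderiv ℝ f x (B i)) + f x ^ 2|
          ≤ |2 * f x * (inner ℝ (B i) x * fderiv ℝ f x (B i))| + |f x ^ 2| := abs_add_le _ _
        _ ≤ 2 * A * (‖x‖ * K) + A ^ 2 := by
            rw [abs_of_nonneg (sq_nonneg (f x))]
            exact add_le_add h2 (hf2 x)
        _ ≤ 2 * A * ((2 * (1 + ‖x‖ ^ 2)) * K) + A ^ 2 * (1 + ‖x‖ ^ 2) := by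
            have h4 : A ^ 2 ≤ A ^ 2 * (1 + ‖x‖ ^ 2) :=
              le_mul_of_one_le_right (by positivity) (by nlinarith [sq_nonneg ‖x‖])
            have h5 : 2 * A * (‖x‖ * K) ≤ 2 * A * ((2 * (1 + ‖x‖ ^ 2)) * K) := by gcongr
            linarith
        _ = _ := by ring
    have j3 : Integrable (fun x : F => (inner ℝ (B i) x * f x ^ 2) * h x) := by
      refine H.int_poly (hxm.mul (hfm.pow_const 2)) (C := 2 * A ^ 2) fun x => ?_
      rw [abs_mul, abs_of_nonneg (sq_nonneg (f x))]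
      have h3 : ‖x‖ ≤ 2 * (1 + ‖x‖ ^ 2) := by
        have := hgr1 x
        linarith
      calc |inner ℝ (B i) x| * f x ^ 2 ≤ (2 * (1 + ‖x‖ ^ 2)) * A ^ 2 := by
            have := (hcoord x i).trans h3
            have := hf2 x
            gcongr
        _ = _ := by ring
    refine ⟨j1, j2, ?_⟩
    have hfdu : ∀ x : F, fderiv ℝ (fun z : F => inner ℝ (B i) z * f z ^ 2) x (B i) =
        2 * f x * (inner ℝ (B i) x * fderiv ℝ f x (B i)) + f x ^ 2 := by
      intro x
      rw [(hui i x).fderiv]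
      simp only [add_apply, smul_apply, smul_eq_mul]
      have h1 : (innerSL ℝ (B i)) (B i) = (1 : ℝ) := by
        rw [innerSL_apply_apply, real_inner_self_eq_norm_sq, hee]
        norm_num
      rw [h1]
      ring
    have i2 : Integrable fun x : F =>
        fderiv ℝ (fun z : F => inner ℝ (B i) z * f z ^ 2) x (B i) * h x := by
      refine j2.congr (Eventually.of_forall fun x => ?_)
      simp only
      rw [hfdu x]
    have i4 : Integrable fun x : F => (inner ℝ (B i) x * f x ^ 2) * fderiv ℝ h x (B i) := by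
      refine j1.neg.congr (Eventually.of_forall fun x => ?_)
      simp only [Pi.neg_apply]
      rw [hhf x]
      ring
    have key := integral_mul_fderiv_eq_neg_fderiv_mul_of_integrable (μ := (volume : Measure F))
      (f := fun z : F => inner ℝ (B i) z * f z ^ 2) (g := h) (v := B i) i2 i4 j3
      (fun x _ => (hui i x).differentiableAt) (fun x _ => (hhd x).differentiableAt)
    have e1 : ∫ x : F, (inner ℝ (B i) x * f x ^ 2) * fderiv ℝ h x (B i) =
        -∫ x : F, (inner ℝ (B i) x * f x ^ 2 * fderiv ℝ W x (B i)) * h x := by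
      rw [← integral_neg]
      refine integral_congr_ae (Eventually.of_forall fun x => ?_)
      show (inner ℝ (B i) x * f x ^ 2) * fderiv ℝ h x (B i) =
        -((inner ℝ (B i) x * f x ^ 2 * fderiv ℝ W x (B i)) * h x)
      rw [hhf x]
      ring
    have e2 : ∫ x : F, fderiv ℝ (fun z : F => inner ℝ (B i) z * f z ^ 2) x (B i) * h x =
        ∫ x : F, (2 * f x * (inner ℝ (B i) x * fderiv ℝ f x (B i)) + f x ^ 2) * h x := by
      refine integral_congr_ae (Eventually.of_forall fun x => ?_)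
      show fderiv ℝ (fun z : F => inner ℝ (B i) z * f z ^ 2) x (B i) * h x = _
      rw [hfdu x]
    rw [e1, e2] at key
    linarith
  -- summation
  have hsumL : ∀ (G : F →L[ℝ] ℝ) (x : F), ∑ i, inner ℝ (B i) x * G (B i) = G x := by
    intro G x
    conv_rhs => rw [← B.sum_repr' x, map_sum]
    refine Finset.sum_congr rfl fun i _ => ?_
    rw [map_smul, smul_eq_mul]
  have k1 : Integrable fun x : F => (f x ^ 2 * fderiv ℝ W x x) * h x := by
    have h1 := integrable_finsetSum Finset.univ (fun i (_ : i ∈ Finset.univ) => (hibp i).1)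
    refine h1.congr (Eventually.of_forall fun x => ?_)
    simp only
    rw [← hsumL, Finset.mul_sum, Finset.sum_mul]
    exact Finset.sum_congr rfl fun i _ => by ring
  have k2 : Integrable fun x : F => (2 * f x * fderiv ℝ f x x + m * f x ^ 2) * h x := by
    have h1 := integrable_finsetSum Finset.univ (fun i (_ : i ∈ Finset.univ) => (hibp i).2.1)
    refine h1.congr (Eventually.of_forall fun x => ?_)
    simp only
    rw [← hsumL, ← Finset.sum_mul, Finset.sum_add_distrib, ← Finset.mul_sum, Finset.sum_const,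
      Finset.card_univ, Fintype.card_fin, nsmul_eq_mul]
  have k3 : ∫ x : F, (f x ^ 2 * fderiv ℝ W x x) * h x =
      ∫ x : F, (2 * f x * fderiv ℝ f x x + m * f x ^ 2) * h x := by
    have e1 : ∫ x : F, (f x ^ 2 * fderiv ℝ W x x) * h x =
        ∑ i, ∫ x : F, (inner ℝ (B i) x * f x ^ 2 * fderiv ℝ W x (B i)) * h x := by
      rw [← integral_finsetSum _ fun i _ => (hibp i).1]
      refine integral_congr_ae (Eventually.of_forall fun x => ?_)
      simp only
      rw [← hsumL, Finset.mul_sum, Finset.sum_mul]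
      exact Finset.sum_congr rfl fun i _ => by ring
    have e2 : ∫ x : F, (2 * f x * fderiv ℝ f x x + m * f x ^ 2) * h x =
        ∑ i, ∫ x : F, (2 * f x * (inner ℝ (B i) x * fderiv ℝ f x (B i)) + f x ^ 2) * h x := by
      rw [← integral_finsetSum _ fun i _ => (hibp i).2.1]
      refine integral_congr_ae (Eventually.of_forall fun x => ?_)
      simp only
      rw [← hsumL, ← Finset.sum_mul, Finset.sum_add_distrib, ← Finset.mul_sum, Finset.sum_const,
        Finset.card_univ, Fintype.card_fin, nsmul_eq_mul]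
    rw [e1, e2]
    exact Finset.sum_congr rfl fun i _ => (hibp i).2.2
  have k4 : Integrable fun x : F => (‖x‖ ^ 2 * f x ^ 2) * h x := by
    refine H.int_poly ((measurable_norm.pow_const 2).mul (hfm.pow_const 2)) (C := A ^ 2) fun x => ?_
    rw [abs_of_nonneg (by positivity)]
    have := hf2 x
    calc ‖x‖ ^ 2 * f x ^ 2 ≤ (1 + ‖x‖ ^ 2) * A ^ 2 := by gcongr; linarith
      _ = _ := by ring
  have k5 : Integrable fun x : F => f x ^ 2 * h x := by
    refine H.int_poly (hfm.pow_const 2) (C := A ^ 2) fun x => ?_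
    rw [abs_of_nonneg (by positivity)]
    have := hf2 x
    calc f x ^ 2 ≤ A ^ 2 := this
      _ ≤ A ^ 2 * (1 + ‖x‖ ^ 2) :=
        le_mul_of_one_le_right (by positivity) (by nlinarith [sq_nonneg ‖x‖])
  have k6 : Integrable fun x : F => ‖fderiv ℝ f x‖ ^ 2 * h x := by
    refine H.int_poly ((measurable_fderiv ℝ f).norm.pow_const 2) (C := (K : ℝ) ^ 2) fun x => ?_
    rw [abs_of_nonneg (by positivity)]
    calc ‖fderiv ℝ f x‖ ^ 2 ≤ (K : ℝ) ^ 2 := pow_le_pow_left₀ (norm_nonneg _) (hfK x) 2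
      _ ≤ (K : ℝ) ^ 2 * (1 + ‖x‖ ^ 2) :=
        le_mul_of_one_le_right (by positivity) (by nlinarith [sq_nonneg ‖x‖])
  have m1 : (δ / 4) * ∫ x : F, (‖x‖ ^ 2 * f x ^ 2) * h x ≤
      ∫ x : F, (f x ^ 2 * fderiv ℝ W x x) * h x := by
    rw [← integral_const_mul]
    refine integral_mono (k4.const_mul _) k1 fun x => ?_
    have h1 := radW H hW hWd x
    have h2 := (H.pos x).le
    have h3 : f x ^ 2 * (δ * ‖x‖ ^ 2 / 4) ≤ f x ^ 2 * fderiv ℝ W x x :=
      mul_le_mul_of_nonneg_left h1 (sq_nonneg _)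
    calc δ / 4 * (‖x‖ ^ 2 * f x ^ 2 * h x) = f x ^ 2 * (δ * ‖x‖ ^ 2 / 4) * h x := by ring
      _ ≤ f x ^ 2 * fderiv ℝ W x x * h x := mul_le_mul_of_nonneg_right h3 h2
  have m2 : ∫ x : F, (2 * f x * fderiv ℝ f x x + m * f x ^ 2) * h x ≤
      (δ / 8) * (∫ x : F, (‖x‖ ^ 2 * f x ^ 2) * h x) + (8 / δ) * En h f +
        m * ∫ x, f x ^ 2 * h x := by
    unfold En
    have k46 : Integrable fun x : F => δ / 8 * (‖x‖ ^ 2 * f x ^ 2 * h x) +
        8 / δ * (‖fderiv ℝ f x‖ ^ 2 * h x) := (k4.const_mul _).add (k6.const_mul _)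
    have k7 : Integrable fun x : F => (m : ℝ) * (f x ^ 2 * h x) := k5.const_mul _
    rw [← integral_const_mul, ← integral_const_mul, ← integral_const_mul,
      ← integral_add (k4.const_mul _) (k6.const_mul _), ← integral_add k46 k7]
    refine integral_mono k2 (k46.add k7) fun x => ?_
    have h2 := (H.pos x).le
    have h3 : |fderiv ℝ f x x| ≤ ‖fderiv ℝ f x‖ * ‖x‖ := by
      have := (fderiv ℝ f x).le_opNorm x
      rwa [Real.norm_eq_abs] at this
    have h4 : 2 * f x * fderiv ℝ f x x ≤ 2 * (|f x| * (‖fderiv ℝ f x‖ * ‖x‖)) := by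
      have h5 : f x * fderiv ℝ f x x ≤ |f x| * |fderiv ℝ f x x| := by
        rw [← abs_mul]
        exact le_abs_self _
      have h6 : |f x| * |fderiv ℝ f x x| ≤ |f x| * (‖fderiv ℝ f x‖ * ‖x‖) :=
        mul_le_mul_of_nonneg_left h3 (abs_nonneg _)
      linarith
    have h7 : 2 * (|f x| * (‖fderiv ℝ f x‖ * ‖x‖)) ≤
        (δ / 8) * (‖x‖ ^ 2 * f x ^ 2) + (8 / δ) * ‖fderiv ℝ f x‖ ^ 2 := by
      have h8 : 0 ≤ (δ / 8) * (‖x‖ * |f x| - (8 / δ) * ‖fderiv ℝ f x‖) ^ 2 := by positivity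
      have h9 : (δ / 8) * (‖x‖ * |f x| - (8 / δ) * ‖fderiv ℝ f x‖) ^ 2 =
          (δ / 8) * (‖x‖ ^ 2 * f x ^ 2) + (8 / δ) * ‖fderiv ℝ f x‖ ^ 2 -
            2 * (|f x| * (‖fderiv ℝ f x‖ * ‖x‖)) := by
        rw [← sq_abs (f x)]
        field_simp
        ring
      linarith
    have h10 : 2 * f x * fderiv ℝ f x x + m * f x ^ 2 ≤
        (δ / 8) * (‖x‖ ^ 2 * f x ^ 2) + (8 / δ) * ‖fderiv ℝ f x‖ ^ 2 + m * f x ^ 2 := by linarith
    calc (2 * f x * fderiv ℝ f x x + m * f x ^ 2) * h x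
        ≤ ((δ / 8) * (‖x‖ ^ 2 * f x ^ 2) + (8 / δ) * ‖fderiv ℝ f x‖ ^ 2 + m * f x ^ 2) * h x :=
          mul_le_mul_of_nonneg_right h10 h2
      _ = _ := by ring
  set V := ∫ x, f x ^ 2 * h x with hV
  have hV0 : 0 ≤ V := integral_nonneg fun x => mul_nonneg (sq_nonneg _) (H.pos x).le
  set E := En h f with hE
  have hE0 : 0 ≤ E := by
    rw [hE]
    unfold En
    exact integral_nonneg fun x => mul_nonneg (sq_nonneg _) (H.pos x).le
  set I := ∫ x : F, (‖x‖ ^ 2 * f x ^ 2) * h x with hI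
  have e0 : ∫ x, ‖x‖ ^ 2 * (f x ^ 2 * h x) = I := by
    rw [hI]
    congr 1
    funext x
    ring
  rw [e0]
  have h1 : (δ / 8) * I ≤ (8 / δ) * E + m * V := by
    rw [k3] at m1
    have := m1.trans m2
    linarith
  have h2 : I ≤ (8 / δ) * ((8 / δ) * E + m * V) := by
    calc I = (8 / δ) * ((δ / 8) * I) := by field_simp
      _ ≤ _ := mul_le_mul_of_nonneg_left h1 (by positivity)
  refine h2.trans ?_
  have e3 : Q * (V + E) = (8 / δ) * ((8 / δ) * E + m * V) + (64 / δ ^ 2 * V + (8 / δ) * m * E) := by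
    rw [hQ]
    field_simp
    ring
  rw [e3]
  have : 0 ≤ 64 / δ ^ 2 * V + (8 / δ) * m * E := by positivity
  linarith

end Pool.Agent.Lib.MP_8d00da_gt.h97r
end

section

/-!
# Tightness
-/

namespace Pool.Agent.Lib.MP_8d00da_gt.h97r

open MeasureTheory Set Filter
open Pool.Agent.Lib.MP_8d00da_gt.h25 Pool.Agent.Lib.MP_8d00da_gt.h42
open Pool.Agent.Lib.MP_8d00da_gt.h42s Pool.Agent.Lib.MP_8d00da_gt.h42o
open scoped Topology NNReal

variable {F : Type*} [NormedAddCommGroup F] [InnerProductSpace ℝ F]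
    [FiniteDimensional ℝ F] [MeasurableSpace F] [BorelSpace F]

variable {δ L : ℝ} {h : F → ℝ}

/-- From `second_q`: `∫_{‖x‖ ≥ R} q² h ≤ (A (1 + K) / R²) ∫ q² h ≤ (1/2) ∫ q² h` for large `R`,
and `om b x ≥ exp (-(1 + R) / (12 d))` on `‖x‖ < R` (`rho_le`). -/
theorem tight (H : GW δ L h) {d e : ℕ} (b : OrthonormalBasis (Fin d ⊕ Fin e) ℝ F) (K : ℝ) :
    ∃ κ : ℝ, 0 < κ ∧ ∀ q : F → ℝ, BL q → Differentiable ℝ q →
      En h q ≤ K * (∫ x, q x ^ 2 * h x) →
      κ * (∫ x, q x ^ 2 * h x) ≤ ∫ x, q x ^ 2 * (om b x * h x) := by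
  obtain ⟨A, hA, hsec⟩ := second_q H
  set M : ℝ := A * (1 + |K|) with hM
  have hM0 : 0 ≤ M := by positivity
  set R : ℝ := Real.sqrt (2 * M) + 1 with hR
  have hR1 : 0 < R := by positivity
  have hR2 : 2 * M ≤ R ^ 2 := by
    have h1 := Real.sq_sqrt (show 0 ≤ 2 * M by positivity)
    have h2 := Real.sqrt_nonneg (2 * M)
    rw [hR]
    nlinarith
  set E : ℝ := Real.exp ((1 + R) / (12 * d)) with hE
  have hEp : 0 < E := Real.exp_pos _
  refine ⟨1 / (2 * E), by positivity, ?_⟩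
  rintro q ⟨⟨Kq, hKq⟩, B, hB⟩ hqd hEn
  have hq : BL q := ⟨⟨Kq, hKq⟩, B, hB⟩
  have hqm : Measurable q := hKq.continuous.measurable
  have hB2 : ∀ x, q x ^ 2 ≤ B ^ 2 := fun x => by
    have h1 := hB x
    rw [← sq_abs (q x)]
    exact pow_le_pow_left₀ (abs_nonneg _) h1 2
  have i1 : Integrable fun x => q x ^ 2 * h x := H.bdd_int (hqm.pow_const 2) (M := B ^ 2)
    (fun x => by rw [abs_of_nonneg (sq_nonneg _)]; exact hB2 x)
  have i2' : Integrable fun x => (‖x‖ ^ 2 * q x ^ 2) * h x :=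
    H.int_poly ((measurable_norm.pow_const 2).mul (hqm.pow_const 2)) (C := B ^ 2) (fun x => by
      rw [abs_of_nonneg (by positivity)]
      have h1 := hB2 x
      have h2 : 0 ≤ ‖x‖ ^ 2 := sq_nonneg _
      have h3 : 0 ≤ B ^ 2 := sq_nonneg _
      nlinarith)
  have i2 : Integrable fun x => ‖x‖ ^ 2 * (q x ^ 2 * h x) := by
    refine i2'.congr (Eventually.of_forall fun x => ?_)
    ring
  have i3' : Integrable fun x => (q x ^ 2 * om b x) * h x :=
    H.bdd_int ((hqm.pow_const 2).mul (om_cont b).measurable) (M := B ^ 2) (fun x => by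
      have h1 := hB2 x
      have h2 := om_pos b x
      have h3 := om_le_one b x
      rw [abs_of_nonneg (by positivity)]
      have h4 : 0 ≤ q x ^ 2 := sq_nonneg _
      nlinarith)
  have i3 : Integrable fun x => q x ^ 2 * (om b x * h x) := by
    refine i3'.congr (Eventually.of_forall fun x => ?_)
    ring
  have hQ0 : 0 ≤ ∫ x, q x ^ 2 * h x :=
    integral_nonneg fun x => mul_nonneg (sq_nonneg _) (H.pos x).le
  have h1 := hsec q hq hqd
  have h2 : ∫ x, ‖x‖ ^ 2 * (q x ^ 2 * h x) ≤ M * ∫ x, q x ^ 2 * h x := by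
    refine h1.trans ?_
    have h3 : En h q ≤ |K| * ∫ x, q x ^ 2 * h x :=
      hEn.trans (mul_le_mul_of_nonneg_right (le_abs_self K) hQ0)
    rw [hM]
    nlinarith
  have hpt : ∀ x, q x ^ 2 * h x ≤ E * (q x ^ 2 * (om b x * h x)) +
      (1 / R ^ 2) * (‖x‖ ^ 2 * (q x ^ 2 * h x)) := by
    intro x
    have hqh : 0 ≤ q x ^ 2 * h x := mul_nonneg (sq_nonneg _) (H.pos x).le
    have hom := om_pos b x
    by_cases hx : ‖x‖ ≤ R
    · have h3 : 1 ≤ E * om b x := by
        rw [hE]
        unfold om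
        rw [← Real.exp_add]
        apply Real.one_le_exp
        have h4 : rho b x / (12 * d) ≤ (1 + R) / (12 * d) :=
          div_le_div_of_nonneg_right ((rho_le b x).trans (by linarith)) (by positivity)
        linarith
      have h5 : 0 ≤ (1 / R ^ 2) * (‖x‖ ^ 2 * (q x ^ 2 * h x)) := by positivity
      have h6 : q x ^ 2 * h x ≤ (E * om b x) * (q x ^ 2 * h x) := by nlinarith
      calc q x ^ 2 * h x ≤ (E * om b x) * (q x ^ 2 * h x) := h6
        _ = E * (q x ^ 2 * (om b x * h x)) := by ring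
        _ ≤ _ := by linarith
    · rw [not_le] at hx
      have h3 : 1 ≤ (1 / R ^ 2) * ‖x‖ ^ 2 := by
        rw [one_div, ← div_eq_inv_mul, le_div_iff₀ (by positivity), one_mul]
        exact pow_le_pow_left₀ hR1.le hx.le 2
      have hhx := H.pos x
      have h5 : 0 ≤ E * (q x ^ 2 * (om b x * h x)) := by positivity
      have h6 : q x ^ 2 * h x ≤ ((1 / R ^ 2) * ‖x‖ ^ 2) * (q x ^ 2 * h x) := by nlinarith
      calc q x ^ 2 * h x ≤ ((1 / R ^ 2) * ‖x‖ ^ 2) * (q x ^ 2 * h x) := h6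
        _ = (1 / R ^ 2) * (‖x‖ ^ 2 * (q x ^ 2 * h x)) := by ring
        _ ≤ _ := by linarith
  have h3 := integral_mono i1 ((i3.const_mul E).add (i2.const_mul (1 / R ^ 2))) hpt
  simp only [Pi.add_apply] at h3
  rw [integral_add (i3.const_mul E) (i2.const_mul (1 / R ^ 2)), integral_const_mul,
    integral_const_mul] at h3
  have h4 : (1 / R ^ 2) * ∫ x, ‖x‖ ^ 2 * (q x ^ 2 * h x) ≤ (1 / 2) * ∫ x, q x ^ 2 * h x := by
    have h5 : (1 / R ^ 2) * ∫ x, ‖x‖ ^ 2 * (q x ^ 2 * h x) ≤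
        (1 / R ^ 2) * (M * ∫ x, q x ^ 2 * h x) := by gcongr
    refine h5.trans ?_
    rw [← mul_assoc]
    refine mul_le_mul_of_nonneg_right ?_ hQ0
    rw [one_div, ← div_eq_inv_mul, div_le_iff₀ (by positivity)]
    linarith
  rw [div_mul_eq_mul_div, one_mul, div_le_iff₀ (by positivity)]
  linarith

end Pool.Agent.Lib.MP_8d00da_gt.h97r
end

section

/-!
# The optimal constant, derivatives of near-extremal functions in reversed directions
-/

namespace Pool.Agent.Lib.MP_8d00da_gt.h42s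

open MeasureTheory Set Filter
open Pool.Agent.Lib.MP_8d00da_gt.h25 Pool.Agent.Lib.MP_8d00da_gt.h42
open scoped Topology NNReal

theorem opt_const {T : Type*} (V E : T → ℝ) (hE : ∀ t, 0 ≤ E t) {C0 C1 : ℝ} (h0 : 0 ≤ C0)
    (hC1 : ∀ t, V t ≤ C1 * E t)
    (step : ∀ Λ, C0 < Λ → (∀ t, V t ≤ Λ * E t) → ∃ ε, 0 < ε ∧ ∀ t, V t ≤ (1 - ε) * Λ * E t) :
    ∀ t, V t ≤ C0 * E t := by
  intro t0
  by_contra hcon
  rw [not_le] at hcon
  set X : Set ℝ := {C | 0 ≤ C ∧ ∀ t, V t ≤ C * E t} with hX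
  have hX0 : ∀ C ∈ X, C0 < C := by
    intro C hC
    by_contra hcc
    rw [not_lt] at hcc
    have h1 := hC.2 t0
    have h2 := mul_le_mul_of_nonneg_right hcc (hE t0)
    linarith
  have hne : X.Nonempty := by
    refine ⟨max C1 0, le_max_right _ _, fun t => (hC1 t).trans ?_⟩
    exact mul_le_mul_of_nonneg_right (le_max_left _ _) (hE t)
  have hbd : BddBelow X := ⟨0, fun C hC => hC.1⟩
  set L := sInf X with hL
  have hLX : L ∈ X := by
    refine ⟨le_csInf hne fun C hC => hC.1, fun t => ?_⟩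
    refine le_of_forall_pos_le_add fun ε hε => ?_
    have h1 : 0 < ε / (E t + 1) := div_pos hε (by linarith [hE t])
    obtain ⟨C, hC, hCL⟩ := exists_lt_of_csInf_lt hne (show sInf X < L + ε / (E t + 1) by
      rw [← hL]; linarith)
    refine (hC.2 t).trans ?_
    have h2 : C * E t ≤ (L + ε / (E t + 1)) * E t := mul_le_mul_of_nonneg_right hCL.le (hE t)
    have h3 : ε / (E t + 1) * E t ≤ ε := by
      rw [div_mul_eq_mul_div, div_le_iff₀ (by linarith [hE t])]
      nlinarith [hE t]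
    linarith
  have hC0L : C0 < L := hX0 L hLX
  obtain ⟨ε, hε, hstep⟩ := step L hC0L hLX.2
  have hL0 : 0 < L := lt_of_le_of_lt h0 hC0L
  have hmem : max ((1 - ε) * L) 0 ∈ X := by
    refine ⟨le_max_right _ _, fun t => (hstep t).trans ?_⟩
    exact mul_le_mul_of_nonneg_right (le_max_left _ _) (hE t)
  have h1 : L ≤ max ((1 - ε) * L) 0 := csInf_le hbd hmem
  have h2 : max ((1 - ε) * L) 0 < L := max_lt (by nlinarith) hL0
  linarith

variable {F : Type*} [NormedAddCommGroup F] [InnerProductSpace ℝ F]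
    [FiniteDimensional ℝ F] [MeasurableSpace F] [BorelSpace F]

theorem dir_bound {h : F → ℝ} {r B : ℝ} (H : LCW h r B) (T : F ≃ₗᵢ[ℝ] F) {w : F}
    (hTT : ∀ x, T (T x) = x) (hTw : T w = - w) (hTh : ∀ x, h (T x) = h x) {K Λ : ℝ} (hK : 0 ≤ K)
    (hΛ : 0 < Λ) (hKΛ : 2 * K ≤ Λ)
    (hodd : ∀ q : F → ℝ, BL q → (∀ x, q (T x) = - q x) → ∫ x, q x ^ 2 * h x ≤ K * En h q)
    (hP : ∀ u : F → ℝ, BL u → ∫ x, u x * h x = 0 → ∫ x, u x ^ 2 * h x ≤ Λ * En h u)
    {φ : F → ℝ} (hφ : BL φ) (hd : Differentiable ℝ φ) (hφ0 : ∫ x, φ x * h x = 0)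
    (hg : BL (fun x => fderiv ℝ φ x w)) {E ε' : ℝ} (hE : En h φ ≤ E)
    (hv : (1 - ε') * Λ * E ≤ ∫ x, φ x ^ 2 * h x) :
    ∫ x, (fderiv ℝ φ x w) ^ 2 * h x ≤
      K * En h (fun x => fderiv ℝ φ x w) + ‖w‖ ^ 2 * (2 * ε' * E) := by
  obtain ⟨⟨Lφ, hLφ⟩, Aφ, hAφ⟩ := id hφ
  obtain ⟨⟨Lg, hLg⟩, Ag, hAg⟩ := id hg
  have hφm : Measurable φ := hLφ.continuous.measurable
  have hgm : Measurable fun x => fderiv ℝ φ x w := hLg.continuous.measurable
  have hTL : LipschitzWith 1 T := T.lipschitz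
  have hφT : BL fun x => φ (T x) := hφ.comp hTL
  have hgT : BL fun x => fderiv ℝ φ (T x) w := hg.comp (T := T) hTL
  have half : ∀ {u : F → ℝ}, BL u → BL fun x => u x / 2 := by
    intro u hu
    have := hu.mul (BL.const (1 / 2 : ℝ))
    refine (show (fun x => u x / 2) = fun x => u x * (1 / 2) from ?_) ▸ this
    funext x; ring
  have haBL : BL fun x => (φ x + φ (T x)) / 2 := half (hφ.add hφT)
  have hbBL : BL fun x => (φ x - φ (T x)) / 2 := half (hφ.sub hφT)
  have hoBL : BL fun x => (fderiv ℝ φ x w - fderiv ℝ φ (T x) w) / 2 := half (hg.sub hgT)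
  -- the mean of the even part
  have ha0 : ∫ x, (φ x + φ (T x)) / 2 * h x = 0 := by
    have i1 : Integrable fun x => φ x * h x := bdd_int H.int hφm hAφ
    have i2 : Integrable fun x => φ (T x) * h x :=
      bdd_int H.int (hφm.comp T.continuous.measurable) (fun x => hAφ (T x))
    have hc : ∫ x, φ (T x) * h x = ∫ x, φ x * h x := by
      rw [← T.measurePreserving.integral_comp T.toHomeomorph.measurableEmbedding
        (fun x => φ x * h x)]
      refine integral_congr_ae (Eventually.of_forall fun x => ?_)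
      simp only
      rw [hTh]
    have e : (fun x => (φ x + φ (T x)) / 2 * h x) =
        fun x => (1 / 2) * (φ x * h x) + (1 / 2) * (φ (T x) * h x) := by funext x; ring
    rw [e, integral_add (i1.const_mul _) (i2.const_mul _), integral_const_mul, integral_const_mul,
      hc, hφ0]
    ring
  have hsq := split_sq H.meas H.int T hTh hφm hAφ
  have hen := split_En H.meas H.int T hTh hLφ
  have h1 := hP _ haBL ha0
  have h2 := hodd _ hbBL (fun x => by simp only [hTT]; ring)
  set ea := En h (fun x => (φ x + φ (T x)) / 2) with hea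
  set eb := En h (fun x => (φ x - φ (T x)) / 2) with heb
  have heb0 : 0 ≤ eb := En_nonneg H.wt
  have hbE : eb ≤ 2 * ε' * E := by
    have h3 : (1 - ε') * Λ * E ≤ Λ * ea + K * eb := by
      rw [hsq] at hv
      linarith
    have h4 : Λ * ea = Λ * En h φ - Λ * eb := by rw [hen]; ring
    have h5 : Λ * En h φ ≤ Λ * E := mul_le_mul_of_nonneg_left hE hΛ.le
    have h6 : 2 * K * eb ≤ Λ * eb := mul_le_mul_of_nonneg_right hKΛ heb0
    have h7 : Λ * eb ≤ Λ * (2 * ε' * E) := by nlinarith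
    exact le_of_mul_le_mul_left h7 hΛ
  -- the derivative of the odd part
  have hbd : ∀ x, fderiv ℝ (fun x => (φ x - φ (T x)) / 2) x w =
      (fderiv ℝ φ x w + fderiv ℝ φ (T x) w) / 2 := by
    intro x
    have k1 : HasFDerivAt φ (fderiv ℝ φ x) x := (hd x).hasFDerivAt
    have k2 : HasFDerivAt (fun x => φ (T x))
        ((fderiv ℝ φ (T x)).comp (T.toContinuousLinearEquiv : F →L[ℝ] F)) x :=
      (hd (T x)).hasFDerivAt.comp x T.toContinuousLinearEquiv.hasFDerivAt
    have k3 : HasFDerivAt (fun x => (φ x - φ (T x)) / 2)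
        ((1 / 2 : ℝ) • (fderiv ℝ φ x -
          (fderiv ℝ φ (T x)).comp (T.toContinuousLinearEquiv : F →L[ℝ] F))) x := by
      have := (k1.sub k2).const_mul (1 / 2 : ℝ)
      refine this.congr_of_eventuallyEq (Eventually.of_forall fun y => ?_)
      simp only [Pi.sub_apply]
      ring
    rw [k3.fderiv]
    have k4 : ((fderiv ℝ φ (T x)).comp (T.toContinuousLinearEquiv : F →L[ℝ] F)) w =
        - fderiv ℝ φ (T x) w := by
      rw [ContinuousLinearMap.comp_apply]
      have : (T.toContinuousLinearEquiv : F →L[ℝ] F) w = - w := hTw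
      rw [this, map_neg]
    simp only [smul_apply, sub_apply, smul_eq_mul, k4]
    ring
  have heven : ∫ x, ((fderiv ℝ φ x w + fderiv ℝ φ (T x) w) / 2) ^ 2 * h x ≤ ‖w‖ ^ 2 * eb := by
    obtain ⟨⟨Lb, hLb⟩, Ab, hAb⟩ := id hbBL
    have i1 : Integrable fun x => ‖fderiv ℝ (fun x => (φ x - φ (T x)) / 2) x‖ ^ 2 * h x :=
      bdd_int H.int ((measurable_fderiv ℝ _).norm.pow_const 2) (sq_fderiv_bdd hLb)
    obtain ⟨⟨Ls, hLs⟩, As, hAs⟩ := half (hg.add hgT)
    have i2 : Integrable fun x => ((fderiv ℝ φ x w + fderiv ℝ φ (T x) w) / 2) ^ 2 * h x :=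
      bdd_int H.int (hLs.continuous.measurable.pow_const 2) (Wt.sq_bdd hAs)
    rw [heb, En, ← integral_const_mul]
    refine integral_mono i2 (i1.const_mul _) fun x => ?_
    simp only
    rw [← mul_assoc, ← hbd x]
    refine mul_le_mul_of_nonneg_right ?_ (H.nonneg x)
    have k1 := (fderiv ℝ (fun x => (φ x - φ (T x)) / 2) x).le_opNorm w
    rw [Real.norm_eq_abs] at k1
    rw [← sq_abs, ← mul_pow, mul_comm ‖w‖]
    exact pow_le_pow_left₀ (abs_nonneg _) k1 2
  have hoddp : ∫ x, ((fderiv ℝ φ x w - fderiv ℝ φ (T x) w) / 2) ^ 2 * h x ≤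
      K * En h (fun x => fderiv ℝ φ x w) := by
    have k1 := hodd _ hoBL (fun x => by simp only [hTT]; ring)
    have k2 := split_En H.meas H.int T hTh hLg
    have k3 : 0 ≤ En h (fun x => (fderiv ℝ φ x w + fderiv ℝ φ (T x) w) / 2) := En_nonneg H.wt
    refine k1.trans (mul_le_mul_of_nonneg_left ?_ hK)
    linarith
  have hsg := split_sq H.meas H.int T hTh hgm hAg
  have h8 : ‖w‖ ^ 2 * eb ≤ ‖w‖ ^ 2 * (2 * ε' * E) := mul_le_mul_of_nonneg_left hbE (sq_nonneg _)
  rw [hsg]
  linarith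

end Pool.Agent.Lib.MP_8d00da_gt.h42s
end
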