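import Mathlib
import Pool.Agent.Lib.MP_8d00da_gt.h42s.Hess
import Pool.Agent.Lib.MP_8d00da_gt.h42s.Even
import Pool.Agent.Lib.MP_8d00da_gt.h42s.NuBound
import Pool.Agent.Lib.MP_8d00da_gt.h42s.OptDir

/-!
# Near-extremal functions of the Poincaré quotient
-/

namespace Pool.Agent.Lib.MP_8d00da_gt.h42s

open MeasureTheory Set Filter
open Pool.Agent.Lib.MP_8d00da_gt.h25 Pool.Agent.Lib.MP_8d00da_gt.h42
open scoped Topology NNReal

variable {F : Type*} [NormedAddCommGroup F] [InnerProductSpace ℝ F]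
    [FiniteDimensional ℝ F] [MeasurableSpace F] [BorelSpace F] {n : ℕ}

/-- choice of the smoothing parameter -/
lemma choose_eta {M W c τ Λ : ℝ} (hτ : 0 ≤ τ) (hΛ0 : 0 < Λ) (hΛ : 2 * M + τ < Λ) :
    ∃ η : ℝ, 0 < η ∧ M * (η + 2 / Λ) + 2 * (η ^ 2 + 2 * η / Λ) * W / c +
      (Real.sqrt (τ / Λ) + Real.sqrt (η ^ 2 + 2 * η / Λ)) ^ 2 + (η ^ 2 + 2 * η / Λ) < 1 := by
  set g : ℝ → ℝ := fun η => M * (η + 2 / Λ) + 2 * (η ^ 2 + 2 * η / Λ) * W / c +
      (Real.sqrt (τ / Λ) + Real.sqrt (η ^ 2 + 2 * η / Λ)) ^ 2 + (η ^ 2 + 2 * η / Λ) with hg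
  have hgc : Continuous g := by
    rw [hg]; fun_prop
  have h0 : g 0 < 1 := by
    rw [hg]
    simp only [zero_add, ne_eq, OfNat.ofNat_ne_zero, not_false_eq_true, zero_pow, mul_zero,
      zero_div, add_zero, Real.sqrt_zero, zero_mul]
    rw [Real.sq_sqrt (by positivity)]
    have : M * (2 / Λ) + τ / Λ = (2 * M + τ) / Λ := by ring
    rw [this, div_lt_one hΛ0]
    exact hΛ
  have h1 : ∀ᶠ η in 𝓝 (0 : ℝ), g η < 1 := hgc.continuousAt.eventually (gt_mem_nhds h0)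
  have h2 : ∀ᶠ η in 𝓝[>] (0 : ℝ), g η < 1 := h1.filter_mono nhdsWithin_le_nhds
  obtain ⟨η, hη1, hη2⟩ := (h2.and self_mem_nhdsWithin).exists
  exact ⟨η, hη2, hη1⟩

lemma En_smul_dir {h : F → ℝ} {φ : F → ℝ} (ν : F) (s : ℝ) :
    En h (fun x => fderiv ℝ φ x (s • ν)) = s ^ 2 * En h (fun x => fderiv ℝ φ x ν) := by
  unfold En
  rw [← integral_const_mul]
  refine integral_congr_ae (Eventually.of_forall fun x => ?_)
  simp only
  have e : (fun x => fderiv ℝ φ x (s • ν)) = fun x => s • fderiv ℝ φ x ν := by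
    funext y; simp
  rw [e]
  have h2 : fderiv ℝ (fun x => s • fderiv ℝ φ x ν) x = s • fderiv ℝ (fun x => fderiv ℝ φ x ν) x :=
    congrFun (fderiv_const_smul_field (𝕜 := ℝ) (f := fun x => fderiv ℝ φ x ν) s) x
  rw [h2, norm_smul, mul_pow, Real.norm_eq_abs, sq_abs]
  ring

theorem near_extremal {h : F → ℝ} {r B : ℝ} (H : LCW h r B) {ι : Type*} [Fintype ι]
    (S : ι → F ≃ₗᵢ[ℝ] F) (w : ι → F) (ν : F) {c : ℝ} (hc : 0 < c)
    (hframe : ∀ D : F →L[ℝ] ℝ, ∑ i, (D (w i)) ^ 2 + c * (D ν) ^ 2 = c * ‖D‖ ^ 2)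
    (hSS : ∀ i x, S i (S i x) = x) (hSw : ∀ i, S i (w i) = - w i) (hSh : ∀ i x, h (S i x) = h x)
    {K K' τ : ℝ} (hK : 0 ≤ K) (hK' : 0 ≤ K') (hτ : 0 ≤ τ) (hO : OddP S h K) (hν : NuP ν h K' τ)
    {f : F → ℝ} (hf : BL f) (hm : ∫ x, f x * h x = 0) :
    ∫ x, f x ^ 2 * h x ≤ (2 * max K K' + τ) * En h f := by
  set M : ℝ := max K K' with hM
  have hM0 : 0 ≤ M := hK.trans (le_max_left _ _)
  set W : ℝ := ∑ i, ‖w i‖ ^ 2 with hW
  have hW0 : 0 ≤ W := Finset.sum_nonneg fun i _ => sq_nonneg _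
  let T : Type _ := {u : F → ℝ // BL u ∧ ∫ x, u x * h x = 0}
  have key := opt_const (T := T) (fun u => ∫ x, u.1 x ^ 2 * h x) (fun u => En h u.1)
    (fun u => En_nonneg H.wt) (C0 := 2 * M + τ) (C1 := Real.exp (r ^ 2 / 2)) (by positivity)
    (fun u => by
      obtain ⟨⟨⟨L, hL⟩, A, hA⟩, hu0⟩ := u.2
      exact a_priori H.wt H.int H.supp hL hA hu0) ?_
  · exact key ⟨f, hf, hm⟩
  intro Λ hΛ hval
  have hΛ0 : 0 < Λ := lt_of_le_of_lt (by positivity) hΛ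
  have hP : ∀ u : F → ℝ, BL u → ∫ x, u x * h x = 0 → ∫ x, u x ^ 2 * h x ≤ Λ * En h u :=
    fun u hu hu0 => hval ⟨u, hu, hu0⟩
  obtain ⟨η, hη, hcond⟩ := choose_eta (W := W) (c := c) hτ hΛ0 hΛ
  refine ⟨η ^ 2, by positivity, ?_⟩
  rintro ⟨f, hfB, hf0⟩
  simp only
  by_contra hcon
  rw [not_le] at hcon
  obtain ⟨E, hE⟩ : ∃ E : ℝ, E = En h f := ⟨_, rfl⟩
  rw [← hE] at hcon
  have hE0 : 0 < E := by
    rcases (En_nonneg H.wt (f := f)).eq_or_lt with h1 | h1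
    · exfalso
      have h2 := hP f hfB hf0
      rw [← h1, mul_zero] at h2
      rw [hE, ← h1, mul_zero] at hcon
      linarith
    · rw [hE]; exact h1
  obtain ⟨⟨L, hL⟩, A, hA⟩ := hfB
  obtain ⟨f1, hf1⟩ : ∃ f1 : F → ℝ, f1 = RT h η f := ⟨_, rfl⟩
  obtain ⟨ε', hε'⟩ : ∃ ε' : ℝ, ε' = η ^ 2 + 2 * η / Λ := ⟨_, rfl⟩
  have hε0 : 0 ≤ ε' := by rw [hε']; positivity
  rw [← hε'] at hcond
  have hr := RT_dir H.wt hη hL hA ν
  rw [← hf1] at hr
  have hf1d : Differentiable ℝ f1 := hr.1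
  have hf1B : BL f1 := hr.2.1
  have hf10 : ∫ x, f1 x * h x = 0 := by
    rw [hf1, round_mean H.wt H.int hη hL hA]; exact hf0
  have hvar : ∫ x, f x ^ 2 * h x ≤ 2 * η * E + ∫ x, f1 x ^ 2 * h x := by
    rw [hf1, hE]; exact round_var H.wt H.int hη hL hA
  have hv1 : (1 - ε') * Λ * E ≤ ∫ x, f1 x ^ 2 * h x := by
    have e : (1 - ε') * Λ * E = (1 - η ^ 2) * Λ * E - 2 * η * E := by
      rw [hε']; field_simp; ring
    rw [e]; linarith
  have hv2 : (1 - ε') * E ≤ En h f1 := by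
    have h1 := hv1.trans (hP f1 hf1B hf10)
    have h2 : Λ * ((1 - ε') * E) ≤ Λ * En h f1 := by linarith
    exact le_of_mul_le_mul_left h2 hΛ0
  -- the Hessian bound with the frame including `ν`
  set w' : Option ι → F := fun o => o.elim (Real.sqrt c • ν) w with hw'
  have hframe' : ∀ D : F →L[ℝ] ℝ, ∑ o, (D (w' o)) ^ 2 = c * ‖D‖ ^ 2 := by
    intro D
    rw [Fintype.sum_option, ← hframe D]
    simp only [hw', Option.elim, map_smul, smul_eq_mul, mul_pow, Real.sq_sqrt hc.le]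
    ring
  have hhess := hess_bound H.wt H.int hη hL hA w' hc hframe'
  rw [Fintype.sum_option] at hhess
  rw [← hf1, ← hE] at hhess
  have hnone : En h (fun x => fderiv ℝ f1 x (w' none)) =
      c * En h (fun x => fderiv ℝ f1 x ν) := by
    have e : w' none = Real.sqrt c • ν := rfl
    rw [e, En_smul_dir, Real.sq_sqrt hc.le]
  rw [hnone] at hhess
  have hsome : ∀ i, w' (some i) = w i := fun i => rfl
  simp only [hsome] at hhess
  obtain ⟨Dn, hDn⟩ : ∃ Dn : ℝ, Dn = En h (fun x => fderiv ℝ f1 x ν) := ⟨_, rfl⟩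
  obtain ⟨Di, hDi⟩ : ∃ Di : ι → ℝ, ∀ i, Di i = En h (fun x => fderiv ℝ f1 x (w i)) :=
    ⟨_, fun i => rfl⟩
  simp only [← hDn, ← hDi] at hhess
  have hDn0 : 0 ≤ Dn := by rw [hDn]; exact En_nonneg H.wt
  have hDi0 : ∀ i, 0 ≤ Di i := fun i => by rw [hDi]; exact En_nonneg H.wt
  have hDs0 : 0 ≤ ∑ i, Di i := Finset.sum_nonneg fun i _ => hDi0 i
  have hE1 : En h f1 ≤ E := by
    have h1 : 0 ≤ (c / η) * (E - En h f1) := le_trans (by positivity) hhess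
    have h2 : 0 < c / η := by positivity
    have h3 := nonneg_of_mul_nonneg_right h1 h2
    linarith
  have hD : c * Dn + ∑ i, Di i ≤ (c / η) * (ε' * E) := by
    refine hhess.trans (mul_le_mul_of_nonneg_left ?_ (by positivity))
    linarith
  -- the directions `w i`
  have h2K : 2 * K ≤ Λ := by
    have : K ≤ M := le_max_left _ _
    linarith
  have hdir : ∀ i, ∫ x, (fderiv ℝ f1 x (w i)) ^ 2 * h x ≤
      K * Di i + ‖w i‖ ^ 2 * (2 * ε' * E) := by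
    intro i
    have hri := RT_dir H.wt hη hL hA (w i)
    rw [← hf1] at hri
    rw [hDi]
    have hO' : ∀ q : F → ℝ, BL q → (∀ x, q (S i x) = - q x) → ∫ x, q x ^ 2 * h x ≤ K * En h q := by
      rintro q ⟨⟨L', hL'⟩, A', hA'⟩ hodd
      exact hO i q L' hL' A' hA' hodd
    exact dir_bound H (S i) (hSS i) (hSw i) (hSh i) hK hΛ0 h2K hO' hP hf1B hf1d hf10 hri.2.2.1
      hE1 hv1
  have hnu := nu_bound H hK' hτ hΛ0 hν hP hf1B hf1d hf10 hr.2.2.1 hr.2.2.2 hε0 hE1 hv1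
  rw [← hDn] at hnu
  -- the energy of `f1`
  obtain ⟨⟨L1, hL1⟩, -⟩ := hf1B
  have hbd : ∀ v : F, Integrable fun x => (fderiv ℝ f1 x v) ^ 2 * h x := by
    intro v
    refine bdd_int H.int ((measurable_fderiv_apply_const ℝ f1 v).pow_const 2)
      (M := (L1 * ‖v‖) ^ 2) fun x => ?_
    refine Wt.sq_bdd (φ := fun x => fderiv ℝ f1 x v) (M := L1 * ‖v‖) (fun x => ?_) x
    rw [← Real.norm_eq_abs]
    exact (ContinuousLinearMap.le_opNorm _ _).trans
      (mul_le_mul_of_nonneg_right (norm_fderiv_le_of_lipschitz ℝ hL1) (norm_nonneg _))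
  have hsum : c * En h f1 = (∑ i, ∫ x, (fderiv ℝ f1 x (w i)) ^ 2 * h x) +
      c * ∫ x, (fderiv ℝ f1 x ν) ^ 2 * h x := by
    unfold En
    rw [← integral_const_mul, ← integral_const_mul, ← integral_finsetSum _ fun i _ => hbd (w i),
      ← integral_add (integrable_finsetSum _ fun i _ => hbd (w i)) ((hbd ν).const_mul c)]
    refine integral_congr_ae (Eventually.of_forall fun x => ?_)
    simp only
    rw [← Finset.sum_mul, ← mul_assoc, ← hframe]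
    ring
  set θ : ℝ := Real.sqrt (τ / Λ) + Real.sqrt ε' with hθ
  have h1 : c * ((1 - ε') * E) ≤ M * ((c / η) * (ε' * E)) + W * (2 * ε' * E) + c * (θ ^ 2 * E) := by
    have hs1 : ∑ i, ∫ x, (fderiv ℝ f1 x (w i)) ^ 2 * h x ≤ K * (∑ i, Di i) + W * (2 * ε' * E) := by
      refine (Finset.sum_le_sum fun i _ => hdir i).trans (le_of_eq ?_)
      rw [Finset.sum_add_distrib, ← Finset.mul_sum, ← Finset.sum_mul]
    have hs2 : K * (∑ i, Di i) + c * (K' * Dn) ≤ M * ((c / η) * (ε' * E)) := by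
      have a1 : K * (∑ i, Di i) ≤ M * (∑ i, Di i) :=
        mul_le_mul_of_nonneg_right (le_max_left _ _) hDs0
      have a2 : K' * Dn ≤ M * Dn := mul_le_mul_of_nonneg_right (le_max_right _ _) hDn0
      have a3 : c * (K' * Dn) ≤ c * (M * Dn) := mul_le_mul_of_nonneg_left a2 hc.le
      have a4 := mul_le_mul_of_nonneg_left hD hM0
      calc _ ≤ M * (∑ i, Di i) + c * (M * Dn) := add_le_add a1 a3
        _ = M * (c * Dn + ∑ i, Di i) := by ring
        _ ≤ _ := a4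
    have hs3 : c * ∫ x, (fderiv ℝ f1 x ν) ^ 2 * h x ≤ c * (K' * Dn + θ ^ 2 * E) :=
      mul_le_mul_of_nonneg_left hnu hc.le
    have hs4 : c * ((1 - ε') * E) ≤ c * En h f1 := mul_le_mul_of_nonneg_left hv2 hc.le
    rw [hsum] at hs4
    linarith
  have h2 : (c * E) * (1 - ε') ≤ (c * E) * (M * (η + 2 / Λ) + 2 * ε' * W / c + θ ^ 2) := by
    have e1 : (c * E) * (M * (η + 2 / Λ) + 2 * ε' * W / c + θ ^ 2) =
        M * ((c / η) * (ε' * E)) + W * (2 * ε' * E) + c * (θ ^ 2 * E) := by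
      have e2 : ε' / η = η + 2 / Λ := by rw [hε']; field_simp
      rw [← e2]; field_simp
    rw [e1]
    linarith
  have h3 := le_of_mul_le_mul_left h2 (by positivity)
  linarith

end Pool.Agent.Lib.MP_8d00da_gt.h42s
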