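import Mathlib
import Pool.Agent.Lib.MP_8d00da_gt.h42s.FinalG

/-!
# From weights of bounded support to probability measures: linear images
-/

namespace Pool.Agent.Lib.MP_8d00da_gt.h42s

open MeasureTheory Set Filter
open Pool.Agent.Lib.MP_8d00da_gt.h42
open Pool.Agent.Lib.MP_8d00da_gt.h25 (LCW Wt En PoincareWith LinPoincareWith logConc_bdd)
open scoped Topology NNReal

variable {F : Type*} [NormedAddCommGroup F] [InnerProductSpace ℝ F]
    [FiniteDimensional ℝ F] [MeasurableSpace F] [BorelSpace F]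

variable {G : Type*} [NormedAddCommGroup G] [InnerProductSpace ℝ G]
    [FiniteDimensional ℝ G] [MeasurableSpace G] [BorelSpace G]

/-- The inequality for linear images of the weights of bounded support in the class `P`. -/
def CoreT (P : (F → ℝ) → Prop) (K : ℝ) (T : F →L[ℝ] G) : Prop :=
  ∀ (h : F → ℝ) (r B : ℝ), LCW h r B → P h → ∀ (b : G) (σ : ℝ), 0 < σ →
    (∀ θ : G, ∫ x, (inner ℝ θ (T x - b)) ^ 2 * h x ≤ σ ^ 2 * ‖θ‖ ^ 2 * ∫ x, h x) →
    ∀ (f : G → ℝ) (L : ℝ≥0), LipschitzWith L f → ∀ m : ℝ, ∫ x, f (T x) * h x = m * ∫ x, h x →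
      ∫ x, (f (T x) - m) ^ 2 * h x ≤ (K * σ) ^ 2 * ∫ x, ‖fderiv ℝ f (T x)‖ ^ 2 * h x

theorem var_of_coreT {P : (F → ℝ) → Prop} {K : ℝ} (T : F →L[ℝ] G)
    (hP : ∀ h R, P h → P ((Metric.closedBall (0 : F) R).indicator h)) (core : CoreT P K T)
    (h : F → ℝ) (h0 : ∀ x, 0 ≤ h x) (hm : Measurable h) (hLC : LogConc h) (hPh : P h)
    (μ : Measure F) (hμ : μ = volume.withDensity fun x => ENNReal.ofReal (h x))
    [IsProbabilityMeasure μ] (b : G) {D' : ℝ} (hD'0 : 0 ≤ D')
    (hlin : ∀ v : G, MemLp (fun x => inner ℝ v (T x - b)) 2 μ ∧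
      ∫ x, (inner ℝ v (T x - b)) ^ 2 ∂μ ≤ D' ^ 2 * ‖v‖ ^ 2)
    {f : G → ℝ} {L : ℝ≥0} (hf : LipschitzWith L f) :
    MemLp (fun x => f (T x)) 2 μ ∧ ∫ x, (f (T x) - ∫ y, f (T y) ∂μ) ^ 2 ∂μ ≤
      (K * D') ^ 2 * ∫ x, ‖fderiv ℝ f (T x)‖ ^ 2 ∂μ := by
  have hIm : ∀ g : F → ℝ, ∫ x, g x ∂μ = ∫ x, g x * h x := integral_mu h0 hm hμ
  have hii : ∀ {g : F → ℝ}, Integrable g μ ↔ Integrable fun x => g x * h x :=
    integrable_mu h0 hm hμ
  have hi : Integrable h := by
    have h1 : Integrable (fun _ : F => (1 : ℝ)) μ := integrable_const 1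
    rw [hii] at h1
    simpa using h1
  have hI1 : ∫ x, h x = 1 := by
    have h1 := hIm fun _ => 1
    simp only [one_mul, integral_const, probReal_univ, smul_eq_mul, mul_one] at h1
    exact h1.symm
  obtain ⟨B, hB⟩ := logConc_bdd h0 hm hi (by rw [hI1]; norm_num) hLC
  have hnorm2b : Integrable (fun x : F => ‖T x - b‖ ^ 2) μ := by
    have h1 : (fun x : F => ‖T x - b‖ ^ 2) =
        fun x => ∑ i, (inner ℝ (stdOrthonormalBasis ℝ G i) (T x - b)) ^ 2 := by
      funext x
      rw [← (stdOrthonormalBasis ℝ G).sum_sq_norm_inner_right (T x - b)]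
      refine Finset.sum_congr rfl fun i _ => ?_
      rw [Real.norm_eq_abs, sq_abs]
    rw [h1]
    exact integrable_finsetSum _ fun i _ => (hlin _).1.integrable_sq
  have hnormb : MemLp (fun x : F => ‖T x - b‖) 2 μ :=
    (memLp_two_iff_integrable_sq (T.continuous.sub continuous_const).norm.aestronglyMeasurable).2
      hnorm2b
  -- the test function
  have hfc : Continuous fun x => f (T x) := hf.continuous.comp T.continuous
  have hfm : AEStronglyMeasurable (fun x => f (T x)) μ := hfc.aestronglyMeasurable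
  have hf2 : MemLp (fun x => f (T x)) 2 μ := by
    have h0a : MemLp (fun _ : F => |f b|) 2 μ := memLp_const _
    have h0b : MemLp (fun x : F => (L : ℝ) * ‖T x - b‖) 2 μ := hnormb.const_mul (L : ℝ)
    have h1 : MemLp (fun x : F => |f b| + L * ‖T x - b‖) 2 μ := h0a.add h0b
    refine h1.mono hfm (Eventually.of_forall fun x => ?_)
    have h2 := hf.dist_le_mul (T x) b
    rw [Real.dist_eq, dist_eq_norm] at h2
    have h3 : |f (T x)| ≤ |f b| + |f (T x) - f b| := by
      have := abs_add_le (f b) (f (T x) - f b)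
      rwa [add_sub_cancel] at this
    rw [Real.norm_eq_abs, Real.norm_eq_abs]
    refine (h3.trans (add_le_add_right h2 _)).trans (le_abs_self _)
  refine ⟨hf2, ?_⟩
  have hfi : Integrable (fun x => f (T x)) μ := hf2.integrable (by norm_num)
  have hf2i : Integrable (fun x => f (T x) ^ 2) μ := hf2.integrable_sq
  have hgm : Measurable fun x : F => ‖fderiv ℝ f (T x)‖ :=
    (measurable_fderiv ℝ f).norm.comp T.measurable
  have hgb : ∀ x, ‖fderiv ℝ f (T x)‖ ≤ L := fun x => norm_fderiv_le_of_lipschitz ℝ hf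
  have hg2 : MemLp (fun x => ‖fderiv ℝ f (T x)‖) 2 μ :=
    MemLp.of_bound hgm.aestronglyMeasurable L (Eventually.of_forall fun x => by
      rw [norm_norm]; exact hgb x)
  have hg2i : Integrable (fun x => ‖fderiv ℝ f (T x)‖ ^ 2) μ := hg2.integrable_sq
  set m := ∫ y, f (T y) ∂μ with hmdef
  set G' := ∫ x, ‖fderiv ℝ f (T x)‖ ^ 2 ∂μ with hG
  have hG0 : 0 ≤ G' := integral_nonneg fun x => sq_nonneg _
  have key : ∫ x, (f (T x) - m) ^ 2 ∂μ ≤ (K * D') ^ 2 * G' := by
    set hT : ℕ → F → ℝ := fun n => (Metric.closedBall (0 : F) n).indicator h with hhT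
    have hT0 : ∀ n x, 0 ≤ hT n x := fun n x => indicator_nonneg (fun x _ => h0 x) x
    have hTm : ∀ n, Measurable (hT n) := fun n =>
      hm.indicator Metric.isClosed_closedBall.measurableSet
    have hTle : ∀ n x, hT n x ≤ h x := fun n x => indicator_le_self' (fun x _ => h0 x) x
    have hTi : ∀ n, Integrable (hT n) := fun n =>
      hi.indicator Metric.isClosed_closedBall.measurableSet
    have hgT : ∀ {g : F → ℝ}, Measurable g → Integrable g μ → ∀ n,
        Integrable fun x => g x * hT n x := by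
      intro g hgm' hg n
      refine (hii.1 hg).mono (hgm'.mul (hTm n)).aestronglyMeasurable
        (Eventually.of_forall fun x => ?_)
      rw [norm_mul, norm_mul]
      refine mul_le_mul_of_nonneg_left ?_ (norm_nonneg _)
      rw [Real.norm_eq_abs, Real.norm_eq_abs, abs_of_nonneg (hT0 n x), abs_of_nonneg (h0 x)]
      exact hTle n x
    set M : ℕ → ℝ := fun n => ∫ x, hT n x with hM
    set A1 : ℕ → ℝ := fun n => ∫ x, f (T x) * hT n x with hA1
    set A2 : ℕ → ℝ := fun n => ∫ x, f (T x) ^ 2 * hT n x with hA2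
    set Gn : ℕ → ℝ := fun n => ∫ x, ‖fderiv ℝ f (T x)‖ ^ 2 * hT n x with hGn
    have hMlim : Tendsto M atTop (𝓝 1) := by
      have h1 := trunc_lim h0 hm hμ (integrable_const (1 : ℝ))
      simp only [one_mul, integral_const, probReal_univ, smul_eq_mul, mul_one] at h1
      exact h1
    have hA1lim : Tendsto A1 atTop (𝓝 m) := trunc_lim h0 hm hμ hfi
    have hA2lim : Tendsto A2 atTop (𝓝 (∫ x, f (T x) ^ 2 ∂μ)) := trunc_lim h0 hm hμ hf2i
    have hGlim : Tendsto Gn atTop (𝓝 G') := trunc_lim h0 hm hμ hg2i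
    have hev : ∀ᶠ n : ℕ in atTop, 0 < M n := hMlim.eventually_const_lt (by norm_num)
    have hineq : ∀ᶠ n : ℕ in atTop, A2 n - A1 n ^ 2 / M n ≤
        K ^ 2 * (D' + 1 / ((n : ℝ) + 1)) ^ 2 / M n * Gn n := by
      filter_upwards [hev] with n hn
      have hW : LCW (hT n) n B := trunc_LCW h0 hm hLC hB hn
      set s : ℝ := D' + 1 / ((n : ℝ) + 1) with hs
      have hs0 : 0 < s := by positivity
      have hsD : D' ≤ s := by rw [hs]; have : (0 : ℝ) < 1 / ((n : ℝ) + 1) := by positivity
                              linarith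
      set σ : ℝ := s / Real.sqrt (M n) with hσ
      have hsq : 0 < Real.sqrt (M n) := Real.sqrt_pos.2 hn
      have hσ0 : 0 < σ := div_pos hs0 hsq
      have hσ2 : σ ^ 2 = s ^ 2 / M n := by rw [hσ, div_pow, Real.sq_sqrt hn.le]
      have hTP : P (hT n) := hP h n hPh
      have hTlin : ∀ θ : G, ∫ x, (inner ℝ θ (T x - b)) ^ 2 * hT n x ≤
          σ ^ 2 * ‖θ‖ ^ 2 * ∫ x, hT n x := by
        intro θ
        have hsqi : Integrable (fun x => (inner ℝ θ (T x - b)) ^ 2) μ := (hlin θ).1.integrable_sq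
        have hsm : Measurable fun x : F => (inner ℝ θ (T x - b) : ℝ) ^ 2 :=
          ((continuous_const.inner (T.continuous.sub continuous_const)).pow 2).measurable
        have h1 : ∫ x, (inner ℝ θ (T x - b)) ^ 2 * hT n x ≤ ∫ x, (inner ℝ θ (T x - b)) ^ 2 ∂μ := by
          rw [hIm]
          refine integral_mono (hgT hsm hsqi n) (hii.1 hsqi) fun x => ?_
          exact mul_le_mul_of_nonneg_left (hTle n x) (sq_nonneg _)
        have h2 : σ ^ 2 * ‖θ‖ ^ 2 * ∫ x, hT n x = s ^ 2 * ‖θ‖ ^ 2 := by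
          rw [hσ2]
          change s ^ 2 / M n * ‖θ‖ ^ 2 * M n = _
          field_simp
        rw [h2]
        refine (h1.trans (hlin θ).2).trans (mul_le_mul_of_nonneg_right ?_ (sq_nonneg _))
        exact pow_le_pow_left₀ hD'0 hsD 2
      have hm' : ∫ x, f (T x) * hT n x = (A1 n / M n) * ∫ x, hT n x := by
        change A1 n = A1 n / M n * M n
        field_simp
      have hcore := core (hT n) n B hW hTP b σ hσ0 hTlin f L hf (A1 n / M n) hm'
      have hexp : ∫ x, (f (T x) - A1 n / M n) ^ 2 * hT n x = A2 n - A1 n ^ 2 / M n := by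
        set c := A1 n / M n with hc
        have h1 : ∀ x, (f (T x) - c) ^ 2 * hT n x =
            f (T x) ^ 2 * hT n x - 2 * c * (f (T x) * hT n x) + c ^ 2 * hT n x := fun x => by ring
        have hi1 : Integrable fun x => f (T x) ^ 2 * hT n x :=
          hgT (hfc.pow 2).measurable hf2i n
        have hi2 : Integrable fun x => 2 * c * (f (T x) * hT n x) :=
          (hgT hfc.measurable hfi n).const_mul _
        have hi3 : Integrable fun x => c ^ 2 * hT n x := (hTi n).const_mul _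
        simp only [h1]
        have hi12 : Integrable fun x => f (T x) ^ 2 * hT n x - 2 * c * (f (T x) * hT n x) := hi1.sub hi2
        rw [integral_add hi12 hi3, integral_sub hi1 hi2, integral_const_mul, integral_const_mul]
        change A2 n - 2 * c * A1 n + c ^ 2 * M n = _
        rw [hc]
        field_simp
        ring
      rw [hexp] at hcore
      refine hcore.trans (le_of_eq ?_)
      change (K * σ) ^ 2 * Gn n = _
      rw [mul_pow, hσ2]
      ring
    have hsmall : Tendsto (fun n : ℕ => D' + 1 / ((n : ℝ) + 1)) atTop (𝓝 (D' + 0)) :=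
      tendsto_const_nhds.add tendsto_one_div_add_atTop_nhds_zero_nat
    have hL : Tendsto (fun n => A2 n - A1 n ^ 2 / M n) atTop
        (𝓝 ((∫ x, f (T x) ^ 2 ∂μ) - m ^ 2 / 1)) :=
      hA2lim.sub ((hA1lim.pow 2).div hMlim one_ne_zero)
    have hR : Tendsto (fun n : ℕ => K ^ 2 * (D' + 1 / ((n : ℝ) + 1)) ^ 2 / M n * Gn n) atTop
        (𝓝 (K ^ 2 * (D' + 0) ^ 2 / 1 * G')) :=
      (((tendsto_const_nhds.mul (hsmall.pow 2)).div hMlim one_ne_zero)).mul hGlim
    have hfin := le_of_tendsto_of_tendsto hL hR hineq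
    have hvar : ∫ x, (f (T x) - m) ^ 2 ∂μ = (∫ x, f (T x) ^ 2 ∂μ) - m ^ 2 := by
      have h1 : ∀ x, (f (T x) - m) ^ 2 = f (T x) ^ 2 - 2 * m * f (T x) + m ^ 2 := fun x => by ring
      simp only [h1]
      have hi12 : Integrable (fun x => f (T x) ^ 2 - 2 * m * f (T x)) μ := hf2i.sub (hfi.const_mul _)
      rw [integral_add hi12 (integrable_const _), integral_sub hf2i (hfi.const_mul _),
        integral_const_mul, integral_const, probReal_univ, ← hmdef]
      simp only [smul_eq_mul, one_mul]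
      ring
    rw [hvar]
    rw [add_zero, div_one, div_one] at hfin
    rw [mul_pow]
    exact hfin
  exact key


end Pool.Agent.Lib.MP_8d00da_gt.h42s
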