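import Mathlib
import Pool.Agent.Lib.MP_8d00da_gt.h42.Supergrad
import Pool.Agent.Lib.MP_8d00da_gt.h42s.Defs

namespace Pool.Agent.Lib.MP_8d00da_gt.h25
end Pool.Agent.Lib.MP_8d00da_gt.h25


/-!
# Quasi-concavity of log-concave weights invariant under signed permutations
-/

namespace Pool.Agent.Lib.MP_8d00da_gt.h42s

open MeasureTheory Set Filter
open Pool.Agent.Lib.MP_8d00da_gt.h25 Pool.Agent.Lib.MP_8d00da_gt.h42
open scoped Topology NNReal

variable {n : ℕ}

/-- The superlevel sets of a log-concave function are convex. -/
lemma convex_super {F : Type*} [AddCommGroup F] [Module ℝ F] {h : F → ℝ} (h0 : ∀ x, 0 ≤ h x)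
    (hc : LogConc h) (c : ℝ) : Convex ℝ {y | c ≤ h y} := by
  intro x hx y hy a b ha hb hab
  simp only [mem_ofPred_eq] at hx hy ⊢
  rcases eq_or_lt_of_le ha with h1 | ha
  · have : b = 1 := by linarith
    subst this
    rw [← h1]
    simpa using hy
  rcases eq_or_lt_of_le hb with h1 | hb
  · have : a = 1 := by linarith
    subst this
    rw [← h1]
    simpa using hx
  have ha' : a = 1 - b := by linarith
  have h1 := hc b hb (by linarith) x y
  rw [← ha'] at h1
  refine le_trans ?_ h1
  rcases le_or_gt c 0 with hc0 | hc0
  · exact le_trans hc0 (mul_nonneg (Real.rpow_nonneg (h0 x) _) (Real.rpow_nonneg (h0 y) _))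
  · calc c = c ^ (a + b) := by rw [hab, Real.rpow_one]
      _ = c ^ a * c ^ b := Real.rpow_add hc0 _ _
      _ ≤ h x ^ a * h y ^ b :=
        mul_le_mul (Real.rpow_le_rpow hc0.le hx ha.le) (Real.rpow_le_rpow hc0.le hy hb.le)
          (Real.rpow_nonneg hc0.le _) (Real.rpow_nonneg (h0 x) _)

/-- Invariance under all permutations. -/
lemma perm_inv {h : Vn n → ℝ} (hS : SymW h) (π : Equiv.Perm (Fin n)) :
    ∀ x : Vn n, h (WithLp.toLp 2 fun i => x (π i)) = h x := by
  induction π using Equiv.Perm.swap_induction_on with
  | one => intro x; rfl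
  | swap_mul π a b hab ih =>
    intro x
    have h1 : (WithLp.toLp 2 fun i => x ((Equiv.swap a b * π) i) : Vn n) =
        WithLp.toLp 2 fun i => (sw a b x) (π i) := by
      ext i
      simp [sw_apply]
    rw [h1, ih, hS.swap]

/-- Invariance under all sign changes. -/
lemma sign_inv {h : Vn n → ℝ} (hS : SymW h) (s : Finset (Fin n)) :
    ∀ x : Vn n, h (WithLp.toLp 2 fun i => if i ∈ s then - x i else x i) = h x := by
  induction s using Finset.induction_on with
  | empty => intro x; simp
  | insert a s ha ih =>
    intro x
    have h1 : (WithLp.toLp 2 fun i => if i ∈ insert a s then - x i else x i : Vn n) =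
        WithLp.toLp 2 fun i => if i ∈ s then - (fl a x) i else (fl a x) i := by
      ext i
      simp only [Finset.mem_insert, fl_apply]
      by_cases hi : i = a
      · subst hi; simp [ha]
      · simp [hi]
    rw [h1, ih, hS.flip]

lemma abs_inv {h : Vn n → ℝ} (hS : SymW h) (x : Vn n) :
    h (WithLp.toLp 2 fun i => |x i|) = h x := by
  classical
  rw [← sign_inv hS (Finset.univ.filter fun i => x i < 0) x]
  congr 1
  ext i
  simp only [Finset.mem_filter, Finset.mem_univ, true_and]
  split_ifs with h1
  · exact abs_of_neg h1
  · exact abs_of_nonneg (not_lt.mp h1)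

/-- quasi-concavity at the average of the signed permutations -/
theorem le_diag {h : Vn n → ℝ} (h0 : ∀ x, 0 ≤ h x) (hc : LogConc h) (hS : SymW h) (hn : 0 < n)
    (x : Vn n) : h x ≤ h (WithLp.toLp 2 fun _ => N1 x / n) := by
  have : NeZero n := ⟨hn.ne'⟩
  have hn' : (n : ℝ) ≠ 0 := Nat.cast_ne_zero.mpr hn.ne'
  set z : Fin n → Vn n := fun k => WithLp.toLp 2 fun i => |x (i + k)| with hz
  have h1 : ∀ k, h (z k) = h x := by
    intro k
    have := perm_inv hS (Equiv.addRight k) (WithLp.toLp 2 fun i => |x i|)
    rw [abs_inv hS] at this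
    rw [← this]
    rfl
  have h2 := (convex_super h0 hc (h x)).sum_mem (t := Finset.univ) (w := fun _ : Fin n => 1 / (n : ℝ))
    (z := z) (fun _ _ => by positivity) (by simp [hn']) (fun k _ => (h1 k).ge)
  have h3 : (∑ k : Fin n, (1 / (n : ℝ)) • z k) = WithLp.toLp 2 fun _ => N1 x / n := by
    ext i
    simp only [hz, N1, WithLp.ofLp_sum, Finset.sum_apply, WithLp.ofLp_smul,
      Pi.smul_apply, smul_eq_mul]
    have h4 : ∑ k : Fin n, |x (i + k)| = ∑ j, |x j| :=
      Equiv.sum_comp (Equiv.addLeft i) fun j => |x j|
    rw [← Finset.mul_sum, h4]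
    ring
  rw [h3] at h2
  exact h2

/-- quasi-concavity: the values on a cube are at least the value at its vertices -/
theorem cube_ge {h : Vn n → ℝ} (h0 : ∀ x, 0 ≤ h x) (hc : LogConc h) (hS : SymW h)
    {s : ℝ} {x : Vn n} (hx : ∀ i, |x i| ≤ s) : h (WithLp.toLp 2 fun _ => s) ≤ h x := by
  classical
  have key : ∀ t : Finset (Fin n), h (WithLp.toLp 2 fun _ => s) ≤
      h (WithLp.toLp 2 fun i => if i ∈ t then x i else s) := by
    intro t
    induction t using Finset.induction_on with
    | empty => simp
    | insert a t ha ih =>
      refine le_trans ih ?_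
      set y : Vn n := WithLp.toLp 2 fun i => if i ∈ t then x i else s with hy
      have hs0 : 0 ≤ s := le_trans (abs_nonneg _) (hx a)
      rcases eq_or_lt_of_le hs0 with hs | hs
      · have hxa : x a = 0 := by
          have := hx a
          rw [← hs] at this
          exact abs_nonpos_iff.mp this
        have : (WithLp.toLp 2 fun i => if i ∈ insert a t then x i else s : Vn n) = y := by
          ext i
          simp only [hy, Finset.mem_insert]
          by_cases hi : i = a
          · subst hi; simp [ha, hxa, hs]
          · simp [hi]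
        rw [this]
      · have hxa := abs_le.mp (hx a)
        have hy1 : y ∈ {z | h y ≤ h z} := le_refl (h y)
        have hy2 : fl a y ∈ {z | h y ≤ h z} := (hS.flip a y).ge
        have h1 := convex_super h0 hc (h y) hy1 hy2
          (a := (1 + x a / s) / 2) (b := (1 - x a / s) / 2)
          (by
            have : -1 ≤ x a / s := by rw [le_div_iff₀ hs]; linarith
            linarith)
          (by
            have : x a / s ≤ 1 := by rw [div_le_one hs]; linarith
            linarith)
          (by ring)
        have h2 : ((1 + x a / s) / 2) • y + ((1 - x a / s) / 2) • fl a y =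
            WithLp.toLp 2 fun i => if i ∈ insert a t then x i else s := by
          ext i
          simp only [PiLp.add_apply, PiLp.smul_apply, fl_apply, smul_eq_mul, hy,
            Finset.mem_insert]
          by_cases hi : i = a
          · subst hi
            simp only [ha, if_false, if_true, true_or]
            field_simp
            ring
          · simp only [hi, if_false, false_or]
            ring
        rw [h2] at h1
        exact h1
  have := key Finset.univ
  simpa using this

end Pool.Agent.Lib.MP_8d00da_gt.h42s
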