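import Pool.Agent.Lib.MP_8d00da_gt.h42s.Defs
import Pool.Agent.Lib.MP_8d00da_gt.h25.Far

/-!
# The far region
-/

namespace Pool.Agent.Lib.MP_8d00da_gt.h42s

open MeasureTheory Set Filter
open Pool.Agent.Lib.MP_8d00da_gt.h25 Pool.Agent.Lib.MP_8d00da_gt.h42
open scoped Topology NNReal

variable {n : ℕ}

lemma LL_wf1 {R : ℝ} (hR : 0 < R) {x : Vn n} (hx : R ≤ N1 x) :
    LL (fun y => wf R (N1 y)) x (Real.sqrt n / N1 x ^ 2) := by
  intro ε hε
  have hN0 : 0 < N1 x := lt_of_lt_of_le hR hx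
  have hcont : Continuous (N1 : Vn n → ℝ) := N1_cont
  have h1 : ∀ᶠ y in 𝓝 x, Real.sqrt n / (max (N1 y) R * max (N1 x) R) <
      Real.sqrt n / N1 x ^ 2 + ε := by
    have t : Tendsto (fun y => Real.sqrt n / (max (N1 y) R * max (N1 x) R)) (𝓝 x)
        (𝓝 (Real.sqrt n / (max (N1 x) R * max (N1 x) R))) := by
      refine Tendsto.div tendsto_const_nhds ?_ ?_
      · exact (Continuous.tendsto (by fun_prop) x)
      · have : 0 < max (N1 x) R := lt_max_of_lt_right hR
        positivity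
    refine t.eventually (gt_mem_nhds ?_)
    rw [max_eq_left hx, ← sq]
    linarith
  filter_upwards [h1] with y hy
  have h2 := wf_sub hR (N1 y) (N1 x)
  have h3 := N1_sub y x
  have h4 : 0 < max (N1 y) R * max (N1 x) R :=
    mul_pos (lt_max_of_lt_right hR) (lt_max_of_lt_right hR)
  calc |wf R (N1 y) - wf R (N1 x)| ≤ |N1 y - N1 x| / (max (N1 y) R * max (N1 x) R) := h2
    _ ≤ (Real.sqrt n * ‖y - x‖) / (max (N1 y) R * max (N1 x) R) :=
        div_le_div_of_nonneg_right h3 h4.le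
    _ = (Real.sqrt n / (max (N1 y) R * max (N1 x) R)) * ‖y - x‖ := by ring
    _ ≤ (Real.sqrt n / N1 x ^ 2 + ε) * ‖y - x‖ :=
        mul_le_mul_of_nonneg_right hy.le (norm_nonneg _)

/-- The test function. -/
noncomputable def p1 (R : ℝ) (u : Vn n → ℝ) (x : Vn n) : ℝ := u x ^ 2 * wf R (N1 x)

lemma p1_nonneg {R : ℝ} (hR : 0 < R) (u : Vn n → ℝ) (x : Vn n) : 0 ≤ p1 R u x :=
  mul_nonneg (sq_nonneg _) (wf_nonneg hR _)

lemma p1_lip {R : ℝ} (hR : 0 < R) {u : Vn n → ℝ} {L : ℝ≥0} (hu : LipschitzWith L u) {A : ℝ}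
    (hA : ∀ x, |u x| ≤ A) : ∃ L' : ℝ≥0, LipschitzWith L' (p1 R u) := by
  have hA0 : 0 ≤ A := (abs_nonneg _).trans (hA 0)
  refine ⟨.mk (2 * A * L * (1 / R) + A ^ 2 * (1 / R ^ 2 * Real.sqrt n)) (by positivity), ?_⟩
  refine LipschitzWith.of_dist_le_mul fun x y => ?_
  rw [Real.dist_eq, NNReal.coe_mk, dist_eq_norm]
  unfold p1
  have e : u x ^ 2 * wf R (N1 x) - u y ^ 2 * wf R (N1 y) =
      (u x - u y) * (u x + u y) * wf R (N1 x) + u y ^ 2 * (wf R (N1 x) - wf R (N1 y)) := by ring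
  rw [e]
  refine (abs_add_le _ _).trans ?_
  have h1 : |u x - u y| ≤ L * ‖x - y‖ := by
    have := hu.dist_le_mul x y
    rwa [Real.dist_eq, dist_eq_norm] at this
  have h2 : |u x + u y| ≤ 2 * A := (abs_add_le _ _).trans (by linarith [hA x, hA y])
  have h3 : |wf R (N1 x) - wf R (N1 y)| ≤ 1 / R ^ 2 * (Real.sqrt n * ‖x - y‖) :=
    (wf_lip hR _ _).trans (mul_le_mul_of_nonneg_left (N1_sub x y) (by positivity))
  have h4 : |wf R (N1 x)| ≤ 1 / R := by
    rw [abs_of_nonneg (wf_nonneg hR _)]; exact wf_le hR _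
  have h5 : u y ^ 2 ≤ A ^ 2 := by
    rw [← sq_abs]; exact pow_le_pow_left₀ (abs_nonneg _) (hA y) 2
  rw [abs_mul, abs_mul, abs_mul, abs_of_nonneg (sq_nonneg (u y))]
  have h6 : |u x - u y| * |u x + u y| * |wf R (N1 x)| ≤ (L * ‖x - y‖) * (2 * A) * (1 / R) := by
    gcongr
  have h7 : u y ^ 2 * |wf R (N1 x) - wf R (N1 y)| ≤
      A ^ 2 * (1 / R ^ 2 * (Real.sqrt n * ‖x - y‖)) := by
    gcongr
  calc _ ≤ (L * ‖x - y‖) * (2 * A) * (1 / R) + A ^ 2 * (1 / R ^ 2 * (Real.sqrt n * ‖x - y‖)) :=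
        add_le_add h6 h7
    _ = _ := by ring

lemma p1_fderiv_zero {R : ℝ} (hR : 0 < R) {u : Vn n → ℝ} {x : Vn n} (hx : N1 x < R) :
    fderiv ℝ (p1 R u) x = 0 := by
  have h1 : p1 R u =ᶠ[𝓝 x] fun _ => 0 := by
    have h2 : {y : Vn n | N1 y < R} ∈ 𝓝 x :=
      (isOpen_lt N1_cont continuous_const).mem_nhds hx
    filter_upwards [h2] with y hy
    unfold p1
    rw [wf_zero hR (le_of_lt hy), mul_zero]
  rw [h1.fderiv_eq]
  simp

lemma p1_fderiv_le {R : ℝ} (hR : 0 < R) {u : Vn n → ℝ} {x : Vn n} (hx : R ≤ N1 x)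
    (hu : DifferentiableAt ℝ u x) :
    ‖fderiv ℝ (p1 R u) x‖ ≤ 2 * |u x| * ‖fderiv ℝ u x‖ * wf R (N1 x) +
      u x ^ 2 * (Real.sqrt n / N1 x ^ 2) := by
  have h1 := LL.of_diff hu
  have h2 := LL.mul (norm_nonneg _) h1 h1
  have h3 := LL.mul (by positivity : (0 : ℝ) ≤ Real.sqrt n / N1 x ^ 2) h2 (LL_wf1 hR hx)
  have h4 : (fun y => u y * u y * wf R (N1 y)) = p1 R u := by
    ext y; unfold p1; ring
  rw [h4] at h3
  have h5 := h3.fderiv_le (by have := wf_nonneg hR (N1 x); positivity)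
  refine h5.trans (le_of_eq ?_)
  rw [abs_of_nonneg (wf_nonneg hR _), abs_mul_self]
  ring

/-- The far region, from the radial entropy inequality. -/
theorem far_region_of {h : Vn n → ℝ} {r B : ℝ} (H : LCW h r B) (hn : 0 < n) {β : ℝ} (hβ : 0 < β)
    (hent : ∀ (φ : Vn n → ℝ) (L : ℝ≥0), LipschitzWith L φ → (∀ x, 0 ≤ φ x) →
      ∀ A : ℝ, (∀ x, φ x ≤ A) → (∀ x, N1 x < β * n → φ x = 0) →
      ∫ x, φ x * (N1 x / β) * h x ≤ ∫ x, ‖x‖ * ‖fderiv ℝ φ x‖ * h x)
    {u : Vn n → ℝ} {L : ℝ≥0} (hu : LipschitzWith L u) {A : ℝ} (hA : ∀ x, |u x| ≤ A) :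
    ∫ x, u x ^ 2 * h x ≤ 8 * β ^ 2 * En h u +
      2 * ∫ x, u x ^ 2 * {x | N1 x ≤ 8 * β * n}.indicator h x := by
  have hA0 : 0 ≤ A := (abs_nonneg _).trans (hA 0)
  have hn1 : (1 : ℝ) ≤ n := by exact_mod_cast hn
  have hn0 : (0 : ℝ) < n := by linarith
  obtain ⟨R, hRdef⟩ : ∃ R : ℝ, R = 4 * β * n := ⟨_, rfl⟩
  have hR : 0 < R := by rw [hRdef]; positivity
  have hβR : β * n ≤ R := by
    rw [hRdef]
    have : 0 < β * n := by positivity
    linarith
  obtain ⟨L', hL'⟩ := p1_lip hR hu hA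
  have husq : ∀ x, u x ^ 2 ≤ A ^ 2 := fun x => by
    rw [← sq_abs]; exact pow_le_pow_left₀ (abs_nonneg _) (hA x) 2
  have hφb : ∀ x, |p1 R u x| ≤ A ^ 2 * (1 / R) := by
    intro x
    unfold p1
    rw [abs_mul, abs_of_nonneg (sq_nonneg _), abs_of_nonneg (wf_nonneg hR _)]
    exact mul_le_mul (husq x) (wf_le hR _) (wf_nonneg hR _) (by positivity)
  have h1 := hent (p1 R u) L' hL' (p1_nonneg hR u) (A ^ 2 * (1 / R))
    (fun x => (le_abs_self _).trans (hφb x)) (fun x hx => by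
      unfold p1; rw [wf_zero hR (by linarith), mul_zero])
  have hφm : Measurable (p1 R u) := hL'.continuous.measurable
  have hum : Measurable u := hu.continuous.measurable
  have hNm : Measurable (N1 : Vn n → ℝ) := N1_cont.measurable
  have hsup : ∀ x, h x ≠ 0 → ‖x‖ ≤ r := fun x hx => by
    by_contra hc
    exact hx (H.supp x (not_le.1 hc))
  -- integrability of products with a function bounded on the support
  have hint : ∀ {g : Vn n → ℝ}, Measurable g → ∀ M : ℝ, (∀ x, ‖x‖ ≤ r → |g x| ≤ M) →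
      Integrable fun x => g x * h x := by
    intro g hg M hM
    refine (H.int.const_mul M).mono' (hg.mul H.meas).aestronglyMeasurable
      (Eventually.of_forall fun x => ?_)
    by_cases hx : h x = 0
    · simp [hx]
    · rw [norm_mul, Real.norm_eq_abs, Real.norm_eq_abs, abs_of_nonneg (H.nonneg x)]
      exact mul_le_mul_of_nonneg_right (hM x (hsup x hx)) (H.nonneg x)
  have hNb : ∀ x : Vn n, ‖x‖ ≤ r → |N1 x| ≤ Real.sqrt n * r := fun x hx => by
    rw [abs_of_nonneg (N1_nonneg x)]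
    exact (N1_le_norm x).trans (mul_le_mul_of_nonneg_left hx (Real.sqrt_nonneg _))
  have hubd : ∀ x, ‖fderiv ℝ u x‖ ≤ L := fun x => norm_fderiv_le_of_lipschitz ℝ hu
  have hφbd : ∀ x, ‖fderiv ℝ (p1 R u) x‖ ≤ L' := fun x => norm_fderiv_le_of_lipschitz ℝ hL'
  have i1 : Integrable fun x => p1 R u x * (N1 x / β) * h x := by
    refine hint (hφm.mul (hNm.div_const β)) (A ^ 2 * (1 / R) * (Real.sqrt n * r / β))
      fun x hx => ?_
    rw [abs_mul, abs_div, abs_of_pos hβ]
    exact mul_le_mul (hφb x) (div_le_div_of_nonneg_right (hNb x hx) hβ.le) (by positivity)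
      (by positivity)
  have i3 : Integrable fun x => ‖x‖ * ‖fderiv ℝ (p1 R u) x‖ * h x := by
    refine hint (measurable_norm.mul (measurable_fderiv ℝ _).norm) (r * L')
      fun x hx => ?_
    rw [abs_mul, abs_norm, abs_norm]
    exact mul_le_mul hx (hφbd x) (norm_nonneg _) ((norm_nonneg x).trans hx)
  have iu : Integrable fun x => u x ^ 2 * h x := by
    refine hint (hum.pow_const 2) (A ^ 2) fun x _ => ?_
    rw [abs_of_nonneg (sq_nonneg _)]; exact husq x
  have iE : Integrable fun x => ‖fderiv ℝ u x‖ ^ 2 * h x := by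
    refine hint ((measurable_fderiv ℝ _).norm.pow_const 2) ((L : ℝ) ^ 2) fun x _ => ?_
    rw [abs_of_nonneg (sq_nonneg _)]
    exact pow_le_pow_left₀ (norm_nonneg _) (hubd x) 2
  -- the far and the near part
  obtain ⟨S, hS⟩ : ∃ S : Set (Vn n), S = {x | 2 * R ≤ N1 x} := ⟨_, rfl⟩
  have hSm : MeasurableSet S := by rw [hS]; exact measurableSet_le measurable_const hNm
  have iF : Integrable (S.indicator fun x => u x ^ 2 * h x) := iu.indicator hSm
  have iN : Integrable (Sᶜ.indicator fun x => u x ^ 2 * h x) := iu.indicator hSm.compl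
  have hsplit : ∫ x, u x ^ 2 * h x = (∫ x, S.indicator (fun x => u x ^ 2 * h x) x) +
      ∫ x, Sᶜ.indicator (fun x => u x ^ 2 * h x) x := by
    rw [← integral_add iF iN]
    refine integral_congr_ae (Eventually.of_forall fun x => ?_)
    simp only
    exact (congrFun (indicator_self_add_compl S (fun x => u x ^ 2 * h x)) x).symm
  -- the right-hand side
  have h2 : ∫ x, ‖x‖ * ‖fderiv ℝ (p1 R u) x‖ * h x ≤
      ∫ x, (1 / (2 * β) * (u x ^ 2 * h x) + 4 * β * (‖fderiv ℝ u x‖ ^ 2 * h x)) := by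
    refine integral_mono_ae i3 ((iu.const_mul _).add (iE.const_mul _)) ?_
    filter_upwards [hu.ae_differentiableAt] with x hx
    have hh := H.nonneg x
    rcases lt_or_ge (N1 x) R with hlt | hge
    · rw [p1_fderiv_zero hR hlt, norm_zero, mul_zero, zero_mul]
      positivity
    · have hN0 : 0 < N1 x := lt_of_lt_of_le hR hge
      have h3 := p1_fderiv_le hR hge hx
      have h4 : ‖x‖ ≤ N1 x := norm_le_N1 x
      have hw := wf_nonneg hR (N1 x)
      have hsn : Real.sqrt n ≤ n := by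
        rw [Real.sqrt_le_left hn0.le]
        nlinarith
      have h6 : ‖x‖ * ‖fderiv ℝ (p1 R u) x‖ ≤
          1 / (2 * β) * u x ^ 2 + 4 * β * ‖fderiv ℝ u x‖ ^ 2 := by
        calc ‖x‖ * ‖fderiv ℝ (p1 R u) x‖ ≤ N1 x *
              (2 * |u x| * ‖fderiv ℝ u x‖ * wf R (N1 x) + u x ^ 2 * (Real.sqrt n / N1 x ^ 2)) :=
              mul_le_mul h4 h3 (norm_nonneg _) hN0.le
          _ = 2 * |u x| * ‖fderiv ℝ u x‖ * (N1 x * wf R (N1 x)) +
              u x ^ 2 * (Real.sqrt n / N1 x) := by field_simp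
          _ ≤ 2 * |u x| * ‖fderiv ℝ u x‖ * 1 + u x ^ 2 * (1 / (4 * β)) := by
              refine add_le_add ?_ ?_
              · exact mul_le_mul_of_nonneg_left (wf_mul_le hR hN0.le) (by positivity)
              · refine mul_le_mul_of_nonneg_left ?_ (sq_nonneg _)
                rw [div_le_div_iff₀ hN0 (by positivity)]
                calc Real.sqrt n * (4 * β) ≤ n * (4 * β) :=
                      mul_le_mul_of_nonneg_right hsn (by positivity)
                  _ = R := by rw [hRdef]; ring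
                  _ ≤ 1 * N1 x := by rw [one_mul]; exact hge
          _ ≤ (1 / (4 * β) * u x ^ 2 + 4 * β * ‖fderiv ℝ u x‖ ^ 2) + u x ^ 2 * (1 / (4 * β)) := by
              refine add_le_add ?_ le_rfl
              have e1 : 1 / (4 * β) * u x ^ 2 + 4 * β * ‖fderiv ℝ u x‖ ^ 2 -
                  2 * |u x| * ‖fderiv ℝ u x‖ * 1 =
                  1 / (4 * β) * (|u x| - 4 * β * ‖fderiv ℝ u x‖) ^ 2 := by
                rw [← sq_abs (u x)]
                field_simp
                ring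
              have e2 : 0 ≤ 1 / (4 * β) * (|u x| - 4 * β * ‖fderiv ℝ u x‖) ^ 2 := by positivity
              linarith
          _ = _ := by field_simp; ring
      calc ‖x‖ * ‖fderiv ℝ (p1 R u) x‖ * h x ≤
          (1 / (2 * β) * u x ^ 2 + 4 * β * ‖fderiv ℝ u x‖ ^ 2) * h x :=
            mul_le_mul_of_nonneg_right h6 hh
        _ = _ := by ring
  -- the left-hand side
  have h3 : 1 / β * ∫ x, S.indicator (fun x => u x ^ 2 * h x) x ≤
      ∫ x, p1 R u x * (N1 x / β) * h x := by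
    rw [← integral_const_mul]
    refine integral_mono (iF.const_mul _) i1 fun x => ?_
    simp only
    have hh := H.nonneg x
    by_cases hmem : x ∈ S
    · rw [indicator_of_mem hmem]
      rw [hS] at hmem
      have h5 := wf_far hR hmem
      have e : p1 R u x * (N1 x / β) * h x = u x ^ 2 * (N1 x * wf R (N1 x)) / β * h x := by
        unfold p1; ring
      rw [e, h5]
      exact le_of_eq (by ring)
    · rw [indicator_of_notMem hmem, mul_zero]
      have h7 := p1_nonneg hR u x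
      have := N1_nonneg x
      positivity
  -- the near part
  have h5 : ∫ x, Sᶜ.indicator (fun x => u x ^ 2 * h x) x ≤
      ∫ x, u x ^ 2 * {x | N1 x ≤ 8 * β * n}.indicator h x := by
    have hm : MeasurableSet {x : Vn n | N1 x ≤ 8 * β * n} := measurableSet_le hNm measurable_const
    refine integral_mono iN ?_ fun x => ?_
    · have e : (fun x => u x ^ 2 * {x : Vn n | N1 x ≤ 8 * β * n}.indicator h x) =
          {x : Vn n | N1 x ≤ 8 * β * n}.indicator (fun x => u x ^ 2 * h x) := by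
        ext x
        by_cases hx : x ∈ {x : Vn n | N1 x ≤ 8 * β * n}
        · rw [indicator_of_mem hx, indicator_of_mem hx]
        · rw [indicator_of_notMem hx, indicator_of_notMem hx, mul_zero]
      rw [e]
      exact iu.indicator hm
    · have hh := H.nonneg x
      by_cases hx : x ∈ S
      · rw [indicator_of_notMem (by simpa using hx)]
        exact mul_nonneg (sq_nonneg _) (indicator_nonneg (fun x _ => H.nonneg x) x)
      · rw [indicator_of_mem (by simpa using hx), indicator_of_mem]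
        rw [hS, mem_ofPred_eq, not_le] at hx
        rw [mem_ofPred_eq]
        rw [hRdef] at hx
        linarith
  rw [integral_add (iu.const_mul _) (iE.const_mul _), integral_const_mul, integral_const_mul] at h2
  have hE : ∫ x, ‖fderiv ℝ u x‖ ^ 2 * h x = En h u := rfl
  rw [hE] at h2
  have h6 := h3.trans (h1.trans h2)
  rw [hsplit] at h6 ⊢
  have h7 : ∫ x, S.indicator (fun x => u x ^ 2 * h x) x ≤
      1 / 2 * ((∫ x, S.indicator (fun x => u x ^ 2 * h x) x) +
        ∫ x, Sᶜ.indicator (fun x => u x ^ 2 * h x) x) + 4 * β ^ 2 * En h u := by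
    have := mul_le_mul_of_nonneg_left h6 hβ.le
    calc _ = β * (1 / β * ∫ x, S.indicator (fun x => u x ^ 2 * h x) x) := by field_simp
      _ ≤ _ := this
      _ = _ := by field_simp
  linarith

end Pool.Agent.Lib.MP_8d00da_gt.h42s
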