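import Pool.Agent.Lib.MP_8d00da_gt.h42s.Diag

/-!
# The growth of `-log h` for weights invariant under signed permutations
-/

namespace Pool.Agent.Lib.MP_8d00da_gt.h42s

open MeasureTheory Set Filter
open Pool.Agent.Lib.MP_8d00da_gt.h25 Pool.Agent.Lib.MP_8d00da_gt.h42
open scoped Topology NNReal

variable {n : ℕ}

lemma le_zero_val {h : Vn n → ℝ} (h0 : ∀ x, 0 ≤ h x) (hc : LogConc h) (hS : SymW h)
    (x : Vn n) : h x ≤ h 0 := by
  rcases Nat.eq_zero_or_pos n with hn | hn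
  · subst hn
    have : x = 0 := by ext i; exact i.elim0
    rw [this]
  · refine (le_diag h0 hc hS hn x).trans (cube_ge h0 hc hS (x := 0) ?_)
    intro i
    simp only [PiLp.zero_apply, abs_zero]
    exact div_nonneg (N1_nonneg x) (Nat.cast_nonneg n)

/-- functions bounded on the support are integrable against the weight -/
lemma LCW_int_mul {h : Vn n → ℝ} {r B : ℝ} (H : LCW h r B) {g : Vn n → ℝ} (hg : Measurable g)
    {C : ℝ} (hC : ∀ x, ‖x‖ ≤ r → |g x| ≤ C) : Integrable (fun x => g x * h x) := by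
  refine Integrable.mono' (H.int.const_mul C) (hg.mul H.meas).aestronglyMeasurable ?_
  refine Eventually.of_forall fun x => ?_
  rw [Real.norm_eq_abs, abs_mul, abs_of_nonneg (H.nonneg x)]
  rcases le_or_gt ‖x‖ r with hx | hx
  · exact mul_le_mul_of_nonneg_right (hC x hx) (H.nonneg x)
  · rw [H.supp x hx]; simp

theorem entropy_bound {h : Vn n → ℝ} {r B : ℝ} (H : LCW h r B) (hS : SymW h) {σ : ℝ} (hσ : 0 < σ)
    (hlin : ∀ θ : Vn n, ∫ x, (inner ℝ θ x) ^ 2 * h x ≤ σ ^ 2 * ‖θ‖ ^ 2 * ∫ x, h x) :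
    Real.exp (-((n : ℝ) / 2)) * (∫ x, h x) ≤ h 0 * Real.sqrt (2 * Real.pi * σ ^ 2) ^ n := by
  set M := ∫ x, h x with hM
  have hc2 : (0 : ℝ) < 2 * σ ^ 2 := by positivity
  -- integrability
  have hcoord : ∀ i : Fin n, Integrable (fun x : Vn n => (x i) ^ 2 * h x) := by
    intro i
    refine LCW_int_mul H (g := fun x : Vn n => (x i) ^ 2) (by fun_prop) (C := r ^ 2) ?_
    intro x hx
    rw [abs_of_nonneg (sq_nonneg _), ← sq_abs]
    have h1 : |x i| ≤ ‖x‖ := by
      have := PiLp.norm_apply_le x i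
      simpa using this
    exact pow_le_pow_left₀ (abs_nonneg _) (h1.trans hx) 2
  have hQint : Integrable (fun x : Vn n => ‖x‖ ^ 2 * h x) := by
    refine LCW_int_mul H (g := fun x : Vn n => ‖x‖ ^ 2) (by fun_prop) (C := r ^ 2) ?_
    intro x hx
    rw [abs_of_nonneg (sq_nonneg _)]
    exact pow_le_pow_left₀ (norm_nonneg _) hx 2
  have hQ : ∫ x : Vn n, ‖x‖ ^ 2 * h x ≤ n * σ ^ 2 * M := by
    have e1 : (fun x : Vn n => ‖x‖ ^ 2 * h x) = fun x => ∑ i, (x i) ^ 2 * h x := by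
      funext x
      rw [EuclideanSpace.norm_sq_eq, Finset.sum_mul]
      exact Finset.sum_congr rfl fun i _ => by rw [Real.norm_eq_abs, sq_abs]
    rw [e1, integral_finsetSum _ fun i _ => hcoord i]
    have h2 : ∀ i : Fin n, ∫ x : Vn n, (x i) ^ 2 * h x ≤ σ ^ 2 * M := by
      intro i
      have h3 := hlin (ee i)
      have h4 : ‖(ee i : Vn n)‖ = 1 := by simp [ee]
      rw [h4] at h3
      have h5 : ∀ x : Vn n, inner ℝ (ee i) x = x i := fun x => by
        rw [real_inner_comm, inner_ee]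
      simp only [h5] at h3
      linarith
    calc ∑ i : Fin n, ∫ x : Vn n, (x i) ^ 2 * h x ≤ ∑ _i : Fin n, σ ^ 2 * M :=
          Finset.sum_le_sum fun i _ => h2 i
      _ = n * σ ^ 2 * M := by
          rw [Finset.sum_const, Finset.card_univ, Fintype.card_fin, nsmul_eq_mul]; ring
  -- the Gaussian factor
  have hgint : Integrable (fun x : Vn n => Real.exp (-(1 / (2 * σ ^ 2)) * ‖x‖ ^ 2)) := by
    have := GaussianFourier.integrable_cexp_neg_mul_sq_norm_add (V := Vn n)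
      (b := ((1 / (2 * σ ^ 2) : ℝ) : ℂ)) (by rw [Complex.ofReal_re]; positivity) 0 0
    refine (this.norm).congr ?_
    refine Eventually.of_forall fun x => ?_
    simp only [Complex.norm_exp]
    congr 1
    simp only [zero_mul, add_zero]
    rw [← Complex.ofReal_neg, ← Complex.ofReal_pow, ← Complex.ofReal_mul, Complex.ofReal_re]
  have hg := GaussianFourier.integral_rexp_neg_mul_sq_norm (V := Vn n)
    (b := 1 / (2 * σ ^ 2)) (by positivity)
  have hval : (Real.pi / (1 / (2 * σ ^ 2))) ^ (Module.finrank ℝ (Vn n) / 2 : ℝ) =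
      Real.sqrt (2 * Real.pi * σ ^ 2) ^ n := by
    have e1 : Real.pi / (1 / (2 * σ ^ 2)) = 2 * Real.pi * σ ^ 2 := by
      field_simp
    rw [e1, finrank_euclideanSpace_fin, Real.sqrt_eq_rpow,
      ← Real.rpow_natCast ((2 * Real.pi * σ ^ 2) ^ (1 / 2 : ℝ)) n,
      ← Real.rpow_mul (by positivity)]
    congr 1
    ring
  rw [hval] at hg
  -- upper bound
  have hint1 : Integrable (fun x : Vn n => Real.exp (-(1 / (2 * σ ^ 2)) * ‖x‖ ^ 2) * h x) := by
    refine LCW_int_mul H (g := fun x : Vn n => Real.exp (-(1 / (2 * σ ^ 2)) * ‖x‖ ^ 2))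
      (by fun_prop) (C := 1) ?_
    intro x _
    rw [abs_of_pos (Real.exp_pos _)]
    refine Real.exp_le_one_iff.2 ?_
    have : 0 ≤ 1 / (2 * σ ^ 2) * ‖x‖ ^ 2 := by positivity
    linarith
  have hup : ∫ x : Vn n, Real.exp (-(1 / (2 * σ ^ 2)) * ‖x‖ ^ 2) * h x ≤
      h 0 * Real.sqrt (2 * Real.pi * σ ^ 2) ^ n := by
    rw [← hg, ← integral_const_mul]
    refine integral_mono hint1 (hgint.const_mul _) fun x => ?_
    have := le_zero_val H.nonneg H.conc hS x
    simp only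
    rw [mul_comm (h 0)]
    exact mul_le_mul_of_nonneg_left this (Real.exp_pos _).le
  -- lower bound
  have hlow : Real.exp (-((n : ℝ) / 2)) * M ≤
      ∫ x : Vn n, Real.exp (-(1 / (2 * σ ^ 2)) * ‖x‖ ^ 2) * h x := by
    have h1 : ∀ x : Vn n, Real.exp (-((n : ℝ) / 2)) *
        ((1 + n / 2) * h x - (1 / (2 * σ ^ 2)) * (‖x‖ ^ 2 * h x)) ≤
        Real.exp (-(1 / (2 * σ ^ 2)) * ‖x‖ ^ 2) * h x := by
      intro x
      have h2 := Real.add_one_le_exp (-(1 / (2 * σ ^ 2)) * ‖x‖ ^ 2 + n / 2)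
      have h3 : Real.exp (-(1 / (2 * σ ^ 2)) * ‖x‖ ^ 2) =
          Real.exp (-((n : ℝ) / 2)) * Real.exp (-(1 / (2 * σ ^ 2)) * ‖x‖ ^ 2 + n / 2) := by
        rw [← Real.exp_add]; congr 1; ring
      rw [h3, mul_assoc]
      refine mul_le_mul_of_nonneg_left ?_ (Real.exp_pos _).le
      have h4 := mul_le_mul_of_nonneg_right h2 (H.nonneg x)
      linarith
    have h5 : ∫ x : Vn n, Real.exp (-((n : ℝ) / 2)) *
        ((1 + n / 2) * h x - (1 / (2 * σ ^ 2)) * (‖x‖ ^ 2 * h x)) ≤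
        ∫ x : Vn n, Real.exp (-(1 / (2 * σ ^ 2)) * ‖x‖ ^ 2) * h x := by
      refine integral_mono ?_ hint1 h1
      exact ((H.int.const_mul _).sub (hQint.const_mul _)).const_mul _
    refine le_trans ?_ h5
    rw [integral_const_mul, integral_sub (H.int.const_mul _) (hQint.const_mul _),
      integral_const_mul, integral_const_mul]
    refine mul_le_mul_of_nonneg_left ?_ (Real.exp_pos _).le
    have h6 : 1 / (2 * σ ^ 2) * ∫ x : Vn n, ‖x‖ ^ 2 * h x ≤ 1 / (2 * σ ^ 2) * (n * σ ^ 2 * M) :=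
      mul_le_mul_of_nonneg_left hQ (by positivity)
    have h7 : 1 / (2 * σ ^ 2) * (n * σ ^ 2 * M) = n / 2 * M := by
      field_simp
    rw [h7] at h6
    rw [← hM]
    linarith
  exact hlow.trans hup

/-- the volume of a cube -/
lemma cube_volume (s : ℝ) (hs : 0 ≤ s) :
    (volume {x : Vn n | ∀ i, |x i| ≤ s}).toReal = (2 * s) ^ n := by
  have e1 : {x : Vn n | ∀ i, |x i| ≤ s} =
      (MeasurableEquiv.toLp 2 (Fin n → ℝ)).symm ⁻¹' (Set.pi univ fun _ => Icc (-s) s) := by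
    ext x
    simp only [Set.mem_ofPred_eq, mem_preimage, Set.mem_pi, mem_univ, forall_true_left, mem_Icc,
      abs_le]
    rfl
  have e2 : volume {x : Vn n | ∀ i, |x i| ≤ s} = volume (Set.pi univ fun _ : Fin n => Icc (-s) s) := by
    rw [e1]
    exact (EuclideanSpace.volume_preserving_symm_measurableEquiv_toLp (Fin n)).measure_preimage
      (MeasurableSet.univ_pi fun _ => measurableSet_Icc).nullMeasurableSet
  rw [e2, volume_pi_pi]
  simp only [Real.volume_Icc, Finset.prod_const, Finset.card_univ, Fintype.card_fin]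
  rw [ENNReal.toReal_pow, ENNReal.toReal_ofReal (by linarith)]
  congr 1
  ring

lemma num_bound : Real.exp (1 / 2) * Real.sqrt (2 * Real.pi) * Real.exp 2 ≤ 32 := by
  have h1 : (Real.exp (1 / 2) * Real.sqrt (2 * Real.pi) * Real.exp 2) ^ 2 ≤ 32 ^ 2 := by
    rw [mul_pow, mul_pow, Real.sq_sqrt (by positivity)]
    have e1 : Real.exp (1 / 2) ^ 2 = Real.exp 1 := by
      rw [← Real.exp_nat_mul]; norm_num
    have e2 : Real.exp 2 ^ 2 = Real.exp 1 ^ 4 := by
      rw [← Real.exp_nat_mul, ← Real.exp_nat_mul]; norm_num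
    rw [e1, e2]
    have h2 := Real.exp_one_lt_d9
    have h3 := Real.pi_lt_d4
    have h4 : Real.exp 1 * (2 * Real.pi) * Real.exp 1 ^ 4 = Real.exp 1 ^ 5 * (2 * Real.pi) := by ring
    rw [h4]
    have h5 : Real.exp 1 ^ 5 ≤ 2.7182818286 ^ 5 := pow_le_pow_left₀ (Real.exp_pos _).le h2.le 5
    have h6 : 2 * Real.pi ≤ 6.2832 := by linarith
    calc Real.exp 1 ^ 5 * (2 * Real.pi) ≤ 2.7182818286 ^ 5 * 6.2832 :=
          mul_le_mul h5 h6 (by positivity) (by positivity)
      _ ≤ 32 ^ 2 := by norm_num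
  exact (pow_le_pow_iff_left₀ (by positivity) (by norm_num) two_ne_zero).1 h1

lemma diag_bound {h : Vn n → ℝ} {r B : ℝ} (H : LCW h r B) (hS : SymW h) {σ : ℝ} (hσ : 0 < σ)
    (hlin : ∀ θ : Vn n, ∫ x, (inner ℝ θ x) ^ 2 * h x ≤ σ ^ 2 * ‖θ‖ ^ 2 * ∫ x, h x) :
    h (WithLp.toLp 2 fun _ => 16 * σ) ≤ h 0 * Real.exp (-(2 * n)) := by
  have hs : 0 ≤ 16 * σ := by positivity
  set v : Vn n := WithLp.toLp 2 fun _ => 16 * σ with hv
  set C : Set (Vn n) := {x : Vn n | ∀ i, |x i| ≤ 16 * σ} with hC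
  have hCm : MeasurableSet C := by
    have : C = ⋂ i, {x : Vn n | |x i| ≤ 16 * σ} := by
      ext x; simp [hC]
    rw [this]
    refine MeasurableSet.iInter fun i => ?_
    exact measurableSet_le (by fun_prop) measurable_const
  have hfin : volume C ≠ ⊤ := by
    have hsub : C ⊆ Metric.closedBall 0 (n * (16 * σ)) := by
      intro x hx
      rw [mem_closedBall_zero_iff]
      refine (norm_le_N1 x).trans ?_
      unfold N1
      calc ∑ i, |x i| ≤ ∑ _i : Fin n, 16 * σ := Finset.sum_le_sum fun i _ => hx i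
        _ = n * (16 * σ) := by simp
    exact ((measure_mono hsub).trans_lt measure_closedBall_lt_top).ne
  have h1 : h v * (2 * (16 * σ)) ^ n ≤ ∫ x, h x := by
    have h2 : ∫ x in C, h v ≤ ∫ x in C, h x := by
      refine setIntegral_mono_on (integrableOn_const hfin) H.int.integrableOn hCm ?_
      intro x hx
      exact cube_ge H.nonneg H.conc hS hx
    have h3 : ∫ x in C, h x ≤ ∫ x, h x :=
      setIntegral_le_integral H.int (Eventually.of_forall H.nonneg)
    have h4 : ∫ x in C, h v = h v * (2 * (16 * σ)) ^ n := by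
      rw [setIntegral_const, smul_eq_mul, mul_comm, ← cube_volume (n := n) _ hs]
      rfl
    linarith
  have h5 := entropy_bound H hS hσ hlin
  have hpow : 0 < (2 * (16 * σ)) ^ n := by positivity
  have e3 : Real.sqrt (2 * Real.pi * σ ^ 2) = Real.sqrt (2 * Real.pi) * σ := by
    rw [Real.sqrt_mul (by positivity), Real.sqrt_sq hσ.le]
  have h6 : h v * (2 * (16 * σ)) ^ n ≤ h 0 * (Real.exp (1 / 2) * Real.sqrt (2 * Real.pi) * σ) ^ n := by
    have h7 : Real.exp ((n : ℝ) / 2) * (Real.exp (-((n : ℝ) / 2)) * ∫ x, h x) ≤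
        Real.exp ((n : ℝ) / 2) * (h 0 * Real.sqrt (2 * Real.pi * σ ^ 2) ^ n) :=
      mul_le_mul_of_nonneg_left h5 (Real.exp_pos _).le
    have h8 : Real.exp ((n : ℝ) / 2) * (Real.exp (-((n : ℝ) / 2)) * ∫ x, h x) = ∫ x, h x := by
      rw [← mul_assoc, ← Real.exp_add]; simp
    rw [h8] at h7
    refine h1.trans (h7.trans (le_of_eq ?_))
    rw [e3]
    have e4 : Real.exp ((n : ℝ) / 2) = Real.exp (1 / 2) ^ n := by
      rw [← Real.exp_nat_mul]; congr 1; ring
    rw [e4]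
    simp only [mul_pow]
    ring
  have h9 : (Real.exp (1 / 2) * Real.sqrt (2 * Real.pi) * σ) ^ n ≤
      Real.exp (-(2 * n)) * (2 * (16 * σ)) ^ n := by
    have e5 : Real.exp (-(2 * (n : ℝ))) = Real.exp (-2) ^ n := by
      rw [← Real.exp_nat_mul]; congr 1; ring
    rw [e5, ← mul_pow]
    refine pow_le_pow_left₀ (by positivity) ?_ n
    have h10 := num_bound
    have h11 : Real.exp (1 / 2) * Real.sqrt (2 * Real.pi) ≤ 32 * Real.exp (-2) := by
      have h12 := mul_le_mul_of_nonneg_right h10 (Real.exp_pos (-2)).le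
      have h13 : Real.exp (1 / 2) * Real.sqrt (2 * Real.pi) * Real.exp 2 * Real.exp (-2) =
          Real.exp (1 / 2) * Real.sqrt (2 * Real.pi) := by
        rw [mul_assoc, ← Real.exp_add]; simp
      linarith
    calc Real.exp (1 / 2) * Real.sqrt (2 * Real.pi) * σ ≤ 32 * Real.exp (-2) * σ :=
          mul_le_mul_of_nonneg_right h11 hσ.le
      _ = Real.exp (-2) * (2 * (16 * σ)) := by ring
  have h10 : h v * (2 * (16 * σ)) ^ n ≤ (h 0 * Real.exp (-(2 * n))) * (2 * (16 * σ)) ^ n := by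
    calc h v * (2 * (16 * σ)) ^ n ≤ h 0 * (Real.exp (1 / 2) * Real.sqrt (2 * Real.pi) * σ) ^ n := h6
      _ ≤ h 0 * (Real.exp (-(2 * n)) * (2 * (16 * σ)) ^ n) :=
          mul_le_mul_of_nonneg_left h9 (H.nonneg 0)
      _ = _ := by ring
  exact le_of_mul_le_mul_right h10 hpow

theorem growth {h : Vn n → ℝ} {r B : ℝ} (H : LCW h r B) (hS : SymW h) {σ : ℝ} (hσ : 0 < σ)
    (hlin : ∀ θ : Vn n, ∫ x, (inner ℝ θ x) ^ 2 * h x ≤ σ ^ 2 * ‖θ‖ ^ 2 * ∫ x, h x) (hn : 0 < n)
    {x : Vn n} (hx : 16 * σ * n ≤ N1 x) :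
    h x ≤ h 0 * Real.exp (-(2 * N1 x / (16 * σ))) := by
  have hn' : (0 : ℝ) < n := by exact_mod_cast hn
  have hs : 0 < 16 * σ := by positivity
  have hdb := diag_bound H hS hσ hlin
  have h00 : 0 < h 0 := by
    by_contra hc
    have hz : h = 0 := by
      funext y
      exact le_antisymm ((le_zero_val H.nonneg H.conc hS y).trans (not_lt.1 hc)) (H.nonneg y)
    have := H.mass
    rw [hz] at this
    simp at this
  set s' := N1 x / n with hs'
  have hss : 16 * σ ≤ s' := by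
    rw [hs', le_div_iff₀ hn']; exact hx
  refine (le_diag H.nonneg H.conc hS hn x).trans ?_
  have hN : N1 x = s' * n := by rw [hs']; field_simp
  rcases hss.eq_or_lt with heq | hlt
  · change h (WithLp.toLp 2 fun _ => s') ≤ _
    rw [hN, ← heq]
    have : -(2 * (16 * σ * n) / (16 * σ)) = -(2 * (n : ℝ)) := by field_simp
    rw [this]
    exact hdb
  · have hs'0 : 0 < s' := hs.trans hlt
    set a := 16 * σ / s' with ha
    have ha0 : 0 < a := div_pos hs hs'0
    have ha1 : a < 1 := (div_lt_one hs'0).2 hlt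
    set v' : Vn n := WithLp.toLp 2 fun _ => s' with hv'
    have hconc := H.conc a ha0 ha1 0 v'
    have hpt : (1 - a) • (0 : Vn n) + a • v' = WithLp.toLp 2 fun _ => 16 * σ := by
      ext i
      simp only [smul_zero, zero_add, PiLp.smul_apply, smul_eq_mul, hv', ha]
      field_simp
    rw [hpt] at hconc
    have h1 : h 0 ^ (1 - a) * h v' ^ a ≤ h 0 * Real.exp (-(2 * n)) := hconc.trans hdb
    have h2 : h 0 = h 0 ^ (1 - a) * h 0 ^ a := by
      rw [← Real.rpow_add h00]; simp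
    have h3 : h v' ^ a ≤ h 0 ^ a * Real.exp (-(2 * n)) := by
      have h4 : 0 < h 0 ^ (1 - a) := Real.rpow_pos_of_pos h00 _
      have h5 : h 0 ^ (1 - a) * h v' ^ a ≤ h 0 ^ (1 - a) * (h 0 ^ a * Real.exp (-(2 * n))) := by
        rw [← mul_assoc, ← h2]; exact h1
      exact le_of_mul_le_mul_left h5 h4
    have h6 : h 0 ^ a * Real.exp (-(2 * (n : ℝ))) =
        (h 0 * Real.exp (-(2 * N1 x / (16 * σ)))) ^ a := by
      rw [Real.mul_rpow h00.le (Real.exp_pos _).le, ← Real.exp_mul]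
      congr 2
      rw [ha, hN]
      field_simp
    rw [h6] at h3
    exact (Real.rpow_le_rpow_iff (H.nonneg _) (by positivity) ha0).1 h3

end Pool.Agent.Lib.MP_8d00da_gt.h42s
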