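import Pool.Agent.Lib.MP_8d00da_gt.h42s.Defs
import Pool.Agent.Lib.MP_8d00da_gt.h25.Ent

/-!
# The radial entropy inequality
-/

namespace Pool.Agent.Lib.MP_8d00da_gt.h42s

open MeasureTheory Set Filter
open Pool.Agent.Lib.MP_8d00da_gt.h25 Pool.Agent.Lib.MP_8d00da_gt.h42
open scoped Topology NNReal

variable {n : ℕ}

/-- The pointwise inequality on a ray. -/
lemma radial_pt {h : Vn n → ℝ} {r B : ℝ} (H : LCW h r B) {β : ℝ}
    (hg : ∀ x, β * n ≤ N1 x → h x ≤ h 0 * Real.exp (-(2 * N1 x / β)))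
    {φ : Vn n → ℝ} (hφ0 : ∀ x, 0 ≤ φ x) (hφs : ∀ x, N1 x < β * n → φ x = 0)
    {t : ℝ} (ht0 : 0 < t) (ht1 : t < 1) (x : Vn n) :
    φ x * h x + (1 - t) * (2 * (φ x * (N1 x / β) * h x)) ≤ φ x * h (t • x) := by
  rcases lt_or_ge (N1 x) (β * n) with hN | hN
  · rw [hφs x hN]; simp
  have hx0 := H.nonneg x
  rcases eq_or_lt_of_le hx0 with h00 | hpos
  · rw [← h00]
    simp only [mul_zero, add_zero]
    exact mul_nonneg (hφ0 x) (H.nonneg _)
  have h1 := hg x hN
  set N := N1 x with hNdef
  have hN0 : 0 ≤ N := N1_nonneg x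
  have h2 : h x * Real.exp (2 * N / β) ≤ h 0 := by
    have e1 : h x * Real.exp (2 * N / β) ≤
        h 0 * Real.exp (-(2 * N / β)) * Real.exp (2 * N / β) :=
      mul_le_mul_of_nonneg_right h1 (Real.exp_pos _).le
    rw [mul_assoc, ← Real.exp_add, neg_add_cancel, Real.exp_zero, mul_one] at e1
    exact e1
  have h3 := H.conc t ht0 ht1 0 x
  rw [smul_zero, zero_add] at h3
  have h4 : h x * Real.exp ((1 - t) * (2 * N / β)) ≤ h 0 ^ (1 - t) * h x ^ t := by
    have e1 : (h x * Real.exp (2 * N / β)) ^ (1 - t) ≤ h 0 ^ (1 - t) :=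
      Real.rpow_le_rpow (by positivity) h2 (by linarith)
    have e2 : (h x * Real.exp (2 * N / β)) ^ (1 - t) =
        h x ^ (1 - t) * Real.exp ((1 - t) * (2 * N / β)) := by
      rw [Real.mul_rpow hx0 (Real.exp_pos _).le, ← Real.exp_mul, mul_comm (2 * N / β)]
    have e3 : h x = h x ^ (1 - t) * h x ^ t := by
      rw [← Real.rpow_add hpos]
      simp
    calc h x * Real.exp ((1 - t) * (2 * N / β))
        = (h x ^ (1 - t) * Real.exp ((1 - t) * (2 * N / β))) * h x ^ t := by
          nth_rewrite 1 [e3]; ring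
      _ ≤ h 0 ^ (1 - t) * h x ^ t := by
          rw [← e2]
          exact mul_le_mul_of_nonneg_right e1 (Real.rpow_nonneg hx0 _)
  have h5 : h x * (1 + (1 - t) * (2 * N / β)) ≤ h (t • x) := by
    refine le_trans ?_ (h4.trans h3)
    refine mul_le_mul_of_nonneg_left ?_ hx0
    have := Real.add_one_le_exp ((1 - t) * (2 * N / β))
    linarith
  calc φ x * h x + (1 - t) * (2 * (φ x * (N / β) * h x))
      = φ x * (h x * (1 + (1 - t) * (2 * N / β))) := by ring
    _ ≤ φ x * h (t • x) := mul_le_mul_of_nonneg_left h5 (hφ0 x)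

/-- the radial entropy inequality -/
theorem radial_ent {h : Vn n → ℝ} {r B : ℝ} (H : LCW h r B) {β : ℝ} (hβ : 0 < β)
    (hg : ∀ x, β * n ≤ N1 x → h x ≤ h 0 * Real.exp (-(2 * N1 x / β)))
    {φ : Vn n → ℝ} {L : ℝ≥0} (hφ : LipschitzWith L φ) (hφ0 : ∀ x, 0 ≤ φ x) {A : ℝ}
    (hφA : ∀ x, φ x ≤ A) (hφs : ∀ x, N1 x < β * n → φ x = 0) :
    ∫ x, φ x * (N1 x / β) * h x ≤ ∫ x, ‖x‖ * ‖fderiv ℝ φ x‖ * h x := by
  have hφc := hφ.continuous
  have hr0 := H.r_nonneg
  have hfdL : ∀ x, ‖fderiv ℝ φ x‖ ≤ L := fun x => norm_fderiv_le_of_lipschitz ℝ hφ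
  have hfdm : Measurable fun x => ‖fderiv ℝ φ x‖ := (measurable_fderiv ℝ φ).norm
  have hIi : Integrable fun x => φ x * (N1 x / β) * h x :=
    H.int_mul_cont (g := fun x => φ x * (N1 x / β)) (hφc.mul (N1_cont.div_const β))
  have hJi : Integrable fun x => φ x * h x := H.int_mul_cont hφc
  -- the inequality for a fixed dilation `s > 1`
  have hdil : ∀ s : ℝ, 1 < s →
      (∫ x, φ x * h x) + (1 - s⁻¹) * (2 * ∫ x, φ x * (N1 x / β) * h x) ≤
        s ^ n * ∫ x, φ (s • x) * h x := by
    intro s hs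
    have hs0 : 0 < s := by linarith
    have hti : s⁻¹ < 1 := inv_lt_one_of_one_lt₀ hs
    have hcomp : Integrable fun x : Vn n => h (s⁻¹ • x) :=
      H.int.comp_smul (inv_ne_zero hs0.ne')
    have hFi : Integrable fun x : Vn n => φ x * h (s⁻¹ • x) := by
      refine hcomp.bdd_mul hφc.aestronglyMeasurable (c := A) (Eventually.of_forall fun x => ?_)
      rw [Real.norm_eq_abs, abs_of_nonneg (hφ0 x)]
      exact hφA x
    have e1 : (∫ x, φ x * h x) + (1 - s⁻¹) * (2 * ∫ x, φ x * (N1 x / β) * h x) =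
        ∫ x, (φ x * h x + (1 - s⁻¹) * (2 * (φ x * (N1 x / β) * h x))) := by
      rw [integral_add hJi ((hIi.const_mul _).const_mul _), integral_const_mul,
        integral_const_mul]
    have e2 : ∫ x, φ (s • x) * h x = (s ^ n)⁻¹ * ∫ x, φ x * h (s⁻¹ • x) := by
      have := Measure.integral_comp_smul (volume : Measure (Vn n))
        (fun x => φ x * h (s⁻¹ • x)) s
      rw [finrank_euclideanSpace_fin, smul_eq_mul, abs_of_pos (by positivity)] at this
      rw [← this]
      refine integral_congr_ae (Eventually.of_forall fun x => ?_)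
      simp only [smul_smul, inv_mul_cancel₀ hs0.ne', one_smul]
    rw [e1, e2, ← mul_assoc, mul_inv_cancel₀ (by positivity), one_mul]
    exact integral_mono (hJi.add ((hIi.const_mul _).const_mul _)) hFi
      fun x => radial_pt H hg hφ0 hφs (inv_pos.2 hs0) hti x
  -- the sequence of dilations
  set ε : ℕ → ℝ := fun k => 1 / ((k : ℝ) + 1) with hε
  have hε0 : ∀ k, 0 < ε k := fun k => by positivity
  have hεlim : Tendsto ε atTop (𝓝 0) := tendsto_one_div_add_atTop_nhds_zero_nat
  set P : ℕ → ℝ := fun k => ∫ x, φ ((1 + ε k) • x) * h x with hP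
  set D : ℕ → ℝ := fun k => ∫ x, (φ ((1 + ε k) • x) - φ x) / ε k * h x with hD
  have hcont : ∀ k, Continuous fun x : Vn n => φ ((1 + ε k) • x) := fun k =>
    hφc.comp (continuous_const_smul _)
  have hPi : ∀ k, Integrable fun x => φ ((1 + ε k) • x) * h x := fun k =>
    H.int_mul_cont (hcont k)
  have hmain : ∀ k, (1 + ε k)⁻¹ * (2 * ∫ x, φ x * (N1 x / β) * h x) ≤
      ((1 + ε k) ^ n - 1) / ε k * P k + D k := by
    intro k
    have hk := hε0 k
    have e1 := hdil (1 + ε k) (by linarith)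
    have e2 : D k = (P k - ∫ x, φ x * h x) / ε k := by
      rw [hD, hP]
      simp only
      rw [← integral_sub (hPi k) hJi, ← integral_div]
      refine integral_congr_ae (Eventually.of_forall fun x => ?_)
      simp only
      ring
    have e3 : 1 - (1 + ε k)⁻¹ = ε k * (1 + ε k)⁻¹ := by
      have : (1 + ε k) ≠ 0 := by positivity
      field_simp
      ring
    rw [e3] at e1
    rw [e2]
    have e4 : ((1 + ε k) ^ n - 1) / ε k * P k + (P k - ∫ x, φ x * h x) / ε k =
        ((1 + ε k) ^ n * P k - ∫ x, φ x * h x) / ε k := by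
      ring
    rw [e4, le_div_iff₀ hk]
    have e5 : (1 + ε k)⁻¹ * (2 * ∫ x, φ x * (N1 x / β) * h x) * ε k =
        ε k * (1 + ε k)⁻¹ * (2 * ∫ x, φ x * (N1 x / β) * h x) := by ring
    rw [e5]
    change _ ≤ (1 + ε k) ^ n * (∫ x, φ ((1 + ε k) • x) * h x) - _
    linarith
  -- limits
  have hPlim : Tendsto P atTop (𝓝 (∫ x, φ x * h x)) := by
    refine tendsto_integral_of_dominated_convergence (fun x => A * h x)
      (fun k => (hPi k).aestronglyMeasurable) (H.int.const_mul _) ?_ ?_
    · intro k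
      refine Eventually.of_forall fun x => ?_
      rw [norm_mul, Real.norm_eq_abs, Real.norm_eq_abs, abs_of_nonneg (H.nonneg x),
        abs_of_nonneg (hφ0 _)]
      exact mul_le_mul_of_nonneg_right (hφA _) (H.nonneg x)
    · refine Eventually.of_forall fun x => ?_
      have e1 : Tendsto (fun k => (1 + ε k) • x) atTop (𝓝 x) := by
        have := (hεlim.const_add 1).smul_const x
        simpa using this
      exact ((hφc.tendsto x).comp e1).mul_const (h x)
  have hDlim : Tendsto D atTop (𝓝 (∫ x, fderiv ℝ φ x x * h x)) := by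
    refine tendsto_integral_of_dominated_convergence (fun x => (L * r) * h x)
      (fun k => ?_) (H.int.const_mul _) ?_ ?_
    · exact ((((hcont k).sub hφc).div_const _).measurable.mul H.meas).aestronglyMeasurable
    · intro k
      refine Eventually.of_forall fun x => ?_
      have hk := hε0 k
      rw [norm_mul, Real.norm_eq_abs, Real.norm_eq_abs, abs_of_nonneg (H.nonneg x)]
      refine H.mul_le_mul (f := fun x => |(φ ((1 + ε k) • x) - φ x) / ε k|)
        (g := fun _ => L * r) (fun x hx => ?_) x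
      rw [abs_div, abs_of_pos hk, div_le_iff₀ hk]
      have e1 := hφ.dist_le_mul ((1 + ε k) • x) x
      rw [Real.dist_eq, dist_eq_norm] at e1
      have e2 : (1 + ε k) • x - x = ε k • x := by
        rw [add_smul, one_smul, add_sub_cancel_left]
      rw [e2, norm_smul, Real.norm_eq_abs, abs_of_pos hk] at e1
      have e3 : (L : ℝ) * (ε k * ‖x‖) ≤ L * r * ε k := by
        have e4 : ε k * ‖x‖ ≤ ε k * r := mul_le_mul_of_nonneg_left hx hk.le
        have e5 := mul_le_mul_of_nonneg_left e4 L.coe_nonneg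
        linarith
      linarith
    · filter_upwards [hφ.ae_differentiableAt (μ := (volume : Measure (Vn n)))] with x hx
      refine Tendsto.mul_const (h x) ?_
      have e1 : HasDerivAt (fun t : ℝ => φ (x + t • x)) (fderiv ℝ φ x x) 0 := by
        have h1 : HasFDerivAt φ (fderiv ℝ φ x) (x + (0 : ℝ) • x) := by
          rw [zero_smul, add_zero]; exact hx.hasFDerivAt
        have h2 : HasDerivAt (fun t : ℝ => x + t • x) x 0 := by
          have := ((hasDerivAt_id (0 : ℝ)).smul_const x).const_add x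
          simpa using this
        exact h1.comp_hasDerivAt (0 : ℝ) h2
      have e2 := e1.tendsto_slope_zero
      have e3 : Tendsto ε atTop (𝓝[≠] 0) :=
        tendsto_nhdsWithin_of_tendsto_nhds_of_eventually_within _ hεlim
          (Eventually.of_forall fun k => (hε0 k).ne')
      have e4 := e2.comp e3
      refine e4.congr fun k => ?_
      simp only [Function.comp, zero_add, zero_smul, add_zero, smul_eq_mul]
      rw [add_smul, one_smul, div_eq_inv_mul]
  have hcoef : Tendsto (fun k => ((1 + ε k) ^ n - 1) / ε k) atTop (𝓝 (n : ℝ)) := by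
    have e1 : HasDerivAt (fun t : ℝ => t ^ n) ((n : ℝ) * 1 ^ (n - 1)) 1 := hasDerivAt_pow n 1
    rw [one_pow, mul_one] at e1
    have e2 := e1.tendsto_slope_zero
    have e3 : Tendsto ε atTop (𝓝[≠] 0) :=
      tendsto_nhdsWithin_of_tendsto_nhds_of_eventually_within _ hεlim
        (Eventually.of_forall fun k => (hε0 k).ne')
    have e4 := e2.comp e3
    refine e4.congr fun k => ?_
    simp only [Function.comp, one_pow, smul_eq_mul]
    rw [div_eq_inv_mul]
  have hinv : Tendsto (fun k => (1 + ε k)⁻¹) atTop (𝓝 1) := by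
    have := (hεlim.const_add 1).inv₀ (by norm_num)
    simpa using this
  have hlim1 : Tendsto (fun k => (1 + ε k)⁻¹ * (2 * ∫ x, φ x * (N1 x / β) * h x)) atTop
      (𝓝 (1 * (2 * ∫ x, φ x * (N1 x / β) * h x))) := hinv.mul_const _
  have hlim2 : Tendsto (fun k => ((1 + ε k) ^ n - 1) / ε k * P k + D k) atTop
      (𝓝 ((n : ℝ) * (∫ x, φ x * h x) + ∫ x, fderiv ℝ φ x x * h x)) :=
    (hcoef.mul hPlim).add hDlim
  have hfin := le_of_tendsto_of_tendsto' hlim1 hlim2 hmain
  -- the two terms on the right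
  have h1 : (n : ℝ) * (∫ x, φ x * h x) ≤ ∫ x, φ x * (N1 x / β) * h x := by
    rw [← integral_const_mul]
    refine integral_mono (hJi.const_mul _) hIi fun x => ?_
    simp only
    rcases lt_or_ge (N1 x) (β * n) with hN | hN
    · rw [hφs x hN]; simp
    · have e1 : (n : ℝ) ≤ N1 x / β := by
        rw [le_div_iff₀ hβ]; linarith
      have e2 := mul_le_mul_of_nonneg_right e1 (mul_nonneg (hφ0 x) (H.nonneg x))
      linarith
  have hGi : Integrable fun x => ‖x‖ * ‖fderiv ℝ φ x‖ * h x := by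
    refine H.int_mul (g := fun x => ‖x‖ * ‖fderiv ℝ φ x‖) (M := r * L)
      (continuous_norm.measurable.mul hfdm) fun x hx => ?_
    rw [abs_of_nonneg (by positivity)]
    exact mul_le_mul hx (hfdL x) (norm_nonneg _) hr0
  have hDi : Integrable fun x => fderiv ℝ φ x x * h x := by
    have hm : Measurable fun x => fderiv ℝ φ x x := by
      have h1 := measurable_fderiv ℝ φ
      exact (ContinuousLinearMap.measurable_apply₂).comp (h1.prodMk measurable_id)
    refine H.int_mul (g := fun x => fderiv ℝ φ x x) (M := L * r) hm fun x hx => ?_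
    rw [← Real.norm_eq_abs]
    exact ((fderiv ℝ φ x).le_opNorm x).trans
      (mul_le_mul (hfdL x) hx (norm_nonneg _) L.coe_nonneg)
  have h2 : ∫ x, fderiv ℝ φ x x * h x ≤ ∫ x, ‖x‖ * ‖fderiv ℝ φ x‖ * h x := by
    refine integral_mono hDi hGi fun x => ?_
    simp only
    refine mul_le_mul_of_nonneg_right ?_ (H.nonneg x)
    have := (fderiv ℝ φ x).le_opNorm x
    rw [Real.norm_eq_abs] at this
    have := (abs_le.1 this).2
    linarith
  linarith

end Pool.Agent.Lib.MP_8d00da_gt.h42s
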