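import Pool.Agent.Lib.MP_8d00da_gt.h42s.Odd
import Pool.Agent.Lib.MP_8d00da_gt.h42s.FarReg
import Pool.Agent.Lib.MP_8d00da_gt.h42s.Radial
import Pool.Agent.Lib.MP_8d00da_gt.h42s.Growth

/-!
# The Poincaré inequality for 1-symmetric weights of bounded support
-/

namespace Pool.Agent.Lib.MP_8d00da_gt.h42s

open MeasureTheory Set Filter
open Pool.Agent.Lib.MP_8d00da_gt.h25 Pool.Agent.Lib.MP_8d00da_gt.h42
open scoped Topology NNReal

variable {n : ℕ}

lemma N1_convex (R : ℝ) : Convex ℝ {x : Vn n | N1 x ≤ R} := by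
  intro x hx y hy a b ha hb hab
  simp only [mem_ofPred_eq] at hx hy ⊢
  have h1 := N1_add (a • x) (b • y)
  rw [N1_smul, N1_smul, abs_of_nonneg ha, abs_of_nonneg hb] at h1
  have h4 : a * N1 x ≤ a * R := mul_le_mul_of_nonneg_left hx ha
  have h5 : b * N1 y ≤ b * R := mul_le_mul_of_nonneg_left hy hb
  have : a * R + b * R = R := by rw [← add_mul, hab, one_mul]
  linarith

lemma SymW.indicator {h : Vn n → ℝ} (hS : SymW h) (R : ℝ) :
    SymW ({x | N1 x ≤ R}.indicator h) where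
  flip := by
    intro i x
    by_cases hx : x ∈ {x : Vn n | N1 x ≤ R}
    · have hx' : fl i x ∈ {x : Vn n | N1 x ≤ R} := by
        simp only [mem_ofPred_eq, N1_fl] at hx ⊢; exact hx
      rw [indicator_of_mem hx, indicator_of_mem hx', hS.flip]
    · have hx' : fl i x ∉ {x : Vn n | N1 x ≤ R} := by
        simp only [mem_ofPred_eq, N1_fl] at hx ⊢; exact hx
      rw [indicator_of_notMem hx, indicator_of_notMem hx']
  swap := by
    intro i j x
    by_cases hx : x ∈ {x : Vn n | N1 x ≤ R}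
    · have hx' : sw i j x ∈ {x : Vn n | N1 x ≤ R} := by
        simp only [mem_ofPred_eq, N1_sw] at hx ⊢; exact hx
      rw [indicator_of_mem hx, indicator_of_mem hx', hS.swap]
    · have hx' : sw i j x ∉ {x : Vn n | N1 x ≤ R} := by
        simp only [mem_ofPred_eq, N1_sw] at hx ⊢; exact hx
      rw [indicator_of_notMem hx, indicator_of_notMem hx']

/-- the variance is at most the second moment around any constant -/
lemma var_le {h g : Vn n → ℝ} (hi : Integrable h) (hg : Integrable fun x => g x * h x)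
    (hg2 : Integrable fun x => g x ^ 2 * h x) (hM : 0 ≤ ∫ x, h x) {m : ℝ}
    (hm : ∫ x, g x * h x = m * ∫ x, h x) (m' : ℝ) :
    ∫ x, (g x - m) ^ 2 * h x ≤ ∫ x, (g x - m') ^ 2 * h x := by
  have e : ∀ c : ℝ, ∫ x, (g x - c) ^ 2 * h x =
      (∫ x, g x ^ 2 * h x) - 2 * c * (∫ x, g x * h x) + c ^ 2 * ∫ x, h x := by
    intro c
    have e1 : (fun x => (g x - c) ^ 2 * h x) =
        fun x => g x ^ 2 * h x - 2 * c * (g x * h x) + c ^ 2 * h x := by funext x; ring
    have i1 : Integrable fun x => g x ^ 2 * h x - 2 * c * (g x * h x) := hg2.sub (hg.const_mul _)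
    rw [e1, integral_add i1 (hi.const_mul _), integral_sub hg2 (hg.const_mul _),
      integral_const_mul, integral_const_mul]
  rw [e, e, hm]
  nlinarith [mul_nonneg hM (sq_nonneg (m - m'))]

theorem core_bdd {h : Vn n → ℝ} {r B : ℝ} (H : LCW h r B) (hS : SymW h) (hn : 0 < n)
    {σ : ℝ} (hσ : 0 < σ)
    (hlin : ∀ θ : Vn n, ∫ x, (inner ℝ θ x) ^ 2 * h x ≤ σ ^ 2 * ‖θ‖ ^ 2 * ∫ x, h x)
    {f : Vn n → ℝ} {L : ℝ≥0} (hf : LipschitzWith L f) {A : ℝ} (hA : ∀ x, |f x| ≤ A) {m : ℝ}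
    (hm : ∫ x, f x * h x = m * ∫ x, h x) :
    ∫ x, (f x - m) ^ 2 * h x ≤ (10 ^ 4 * σ) ^ 2 * En h f := by
  set β : ℝ := 16 * σ with hβ
  have hβ0 : 0 < β := by positivity
  have hn0 : (0 : ℝ) < n := by exact_mod_cast hn
  have hg : ∀ x, β * n ≤ N1 x → h x ≤ h 0 * Real.exp (-(2 * N1 x / β)) := fun x hx =>
    growth H hS hσ hlin hn hx
  have hfar : ∀ {u : Vn n → ℝ} {L : ℝ≥0}, LipschitzWith L u → ∀ {A : ℝ}, (∀ x, |u x| ≤ A) →
      ∫ x, u x ^ 2 * h x ≤ 8 * β ^ 2 * En h u +
        2 * ∫ x, u x ^ 2 * {x | N1 x ≤ 8 * β * n}.indicator h x := fun hu _ hA =>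
    far_region_of H hn hβ0 (fun φ L' h1 h2 A' h3 h4 => radial_ent H hβ0 hg h1 h2 h3 h4) hu hA
  set S : Set (Vn n) := {x | N1 x ≤ 8 * β * n} with hSdef
  have hSm : MeasurableSet S := (isClosed_le N1_cont continuous_const).measurableSet
  set h1 : Vn n → ℝ := S.indicator h with hh1
  have hpos : 0 < ∫ x in S, h x := by
    have h2 := hfar (LipschitzWith.const (1 : ℝ)) (A := 1) (fun x => by simp)
    have h3 : En h (fun _ : Vn n => (1 : ℝ)) = 0 := by
      unfold En; simp
    rw [h3] at h2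
    simp only [one_pow, one_mul, mul_zero, zero_add] at h2
    rw [integral_indicator hSm] at h2
    have := H.mass
    linarith
  have H1 : LCW h1 r B := H.restrict (N1_convex _) hSm hpos
  have hS1 : SymW h1 := hS.indicator _
  have hM1 : 0 < ∫ x, h1 x := H1.mass
  set m1 : ℝ := (∫ x, f x * h1 x) / ∫ x, h1 x with hm1
  have hfm : Measurable f := hf.continuous.measurable
  set u : Vn n → ℝ := fun x => f x - m1 with hu
  have huL : LipschitzWith L u := by
    refine LipschitzWith.of_dist_le_mul fun x y => ?_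
    have := hf.dist_le_mul x y
    rw [Real.dist_eq] at this ⊢
    simp only [hu]
    rwa [sub_sub_sub_cancel_right]
  have huA : ∀ x, |u x| ≤ A + |m1| := Wt.sub_bdd hA
  have hu0 : ∫ x, u x * h1 x = 0 := by
    have i1 : Integrable fun x => f x * h1 x := bdd_int H1.int hfm hA
    have e : (fun x => u x * h1 x) = fun x => f x * h1 x - m1 * h1 x := by funext x; ring
    rw [e, integral_sub i1 (H1.int.const_mul _), integral_const_mul, hm1,
      div_mul_cancel₀ _ hM1.ne', sub_self]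
  have hdu : ∀ x, fderiv ℝ u x = fderiv ℝ f x := fun x => by
    simp only [hu]
    exact fderiv_sub_const _
  have hEu : En h u = En h f := by
    unfold En; simp only [hdu]
  have hE1 : En h1 u ≤ En h f := by
    unfold En
    refine integral_mono (bdd_int H1.int ((measurable_fderiv ℝ _).norm.pow_const 2)
      (sq_fderiv_bdd huL)) (bdd_int H.int ((measurable_fderiv ℝ _).norm.pow_const 2)
      (sq_fderiv_bdd hf)) fun x => ?_
    simp only [hdu]
    exact mul_le_mul_of_nonneg_left (indicator_le_self' (fun y _ => H.nonneg y) x) (sq_nonneg _)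
  have hsmall := small_support H1 hS1 (ρ := 8 * β) (by positivity) (fun x hx => by
    refine indicator_of_notMem (fun hc => ?_) _
    simp only [hSdef, mem_ofPred_eq] at hc
    linarith) huL huA hu0
  have hfin := hfar huL huA
  have hv : ∫ x, (f x - m) ^ 2 * h x ≤ ∫ x, u x ^ 2 * h x :=
    var_le H.int (bdd_int H.int hfm hA) (bdd_int H.int (hfm.pow_const 2) (Wt.sq_bdd hA))
      H.mass.le hm m1
  have hE0 : 0 ≤ En h f := En_nonneg H.wt
  rw [hEu] at hfin
  have h5 : 2 * (38 * (8 * β)) ^ 2 * En h1 u ≤ 2 * (38 * (8 * β)) ^ 2 * En h f :=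
    mul_le_mul_of_nonneg_left hE1 (by positivity)
  calc ∫ x, (f x - m) ^ 2 * h x ≤ ∫ x, u x ^ 2 * h x := hv
    _ ≤ 8 * β ^ 2 * En h f + 2 * ∫ x, u x ^ 2 * h1 x := hfin
    _ ≤ 8 * β ^ 2 * En h f + 2 * (2 * (38 * (8 * β)) ^ 2 * En h f) := by linarith
    _ = (8 * 16 ^ 2 + 4 * (38 * 8 * 16) ^ 2) * σ ^ 2 * En h f := by rw [hβ]; ring
    _ ≤ (10 ^ 4 * σ) ^ 2 * En h f := by
      refine mul_le_mul_of_nonneg_right ?_ hE0
      have h6 := sq_nonneg σ
      nlinarith

/-- Truncation of Lipschitz functions. -/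
theorem core_sym {h : Vn n → ℝ} {r B : ℝ} (H : LCW h r B) (hS : SymW h) (hn : 0 < n)
    {σ : ℝ} (hσ : 0 < σ)
    (hlin : ∀ θ : Vn n, ∫ x, (inner ℝ θ x) ^ 2 * h x ≤ σ ^ 2 * ‖θ‖ ^ 2 * ∫ x, h x)
    {f : Vn n → ℝ} {L : ℝ≥0} (hf : LipschitzWith L f) {m : ℝ}
    (hm : ∫ x, f x * h x = m * ∫ x, h x) :
    ∫ x, (f x - m) ^ 2 * h x ≤ (10 ^ 4 * σ) ^ 2 * En h f := by
  obtain ⟨A, hA⟩ : ∃ A : ℝ, ∀ x : Vn n, ‖x‖ ≤ r + 1 → |f x| ≤ A := by
    obtain ⟨A, hA⟩ := (isCompact_closedBall (0 : Vn n) (r + 1)).exists_bound_of_continuousOn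
      hf.continuous.continuousOn
    exact ⟨A, fun x hx => hA x (by rwa [mem_closedBall_zero_iff])⟩
  set g : Vn n → ℝ := fun x => max (-A) (min (f x) A) with hg
  have hgL : LipschitzWith L g := ((hf.min_const A).const_max (-A))
  have hfg : ∀ x : Vn n, ‖x‖ ≤ r + 1 → g x = f x := by
    intro x hx
    have h1 := abs_le.1 (hA x hx)
    simp only [hg]
    rw [min_eq_left h1.2, max_eq_right h1.1]
  have hgA : ∀ x, |g x| ≤ |A| := by
    intro x
    rw [abs_le]
    refine ⟨?_, ?_⟩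
    · have h1 : -A ≤ g x := le_max_left _ _
      linarith [le_abs_self A]
    · exact max_le (neg_le_abs A) ((min_le_right _ _).trans (le_abs_self A))
  have hsup : ∀ x, h x ≠ 0 → ‖x‖ ≤ r := fun x hx => by
    by_contra hc
    exact hx (H.supp x (not_le.1 hc))
  have e1 : ∀ φ : ℝ → ℝ, ∀ x, φ (g x) * h x = φ (f x) * h x := by
    intro φ x
    by_cases hx : h x = 0
    · simp [hx]
    · rw [hfg x ((hsup x hx).trans (by linarith))]
  have e2 : En h g = En h f := by
    unfold En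
    refine integral_congr_ae (Eventually.of_forall fun x => ?_)
    simp only
    by_cases hx : h x = 0
    · simp [hx]
    · have h1 : g =ᶠ[𝓝 x] f := by
        have h2 : {y : Vn n | ‖y‖ < r + 1} ∈ 𝓝 x :=
          (isOpen_lt continuous_norm continuous_const).mem_nhds
            (lt_of_le_of_lt (hsup x hx) (by linarith))
        filter_upwards [h2] with y hy
        exact hfg y (le_of_lt hy)
      rw [h1.fderiv_eq]
  have h1 := core_bdd H hS hn hσ hlin hgL hgA (m := m) (by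
    rw [← hm]
    exact integral_congr_ae (Eventually.of_forall fun x => e1 id x))
  rw [e2] at h1
  refine le_trans (le_of_eq ?_) h1
  exact integral_congr_ae (Eventually.of_forall fun x => (e1 (fun t => (t - m) ^ 2) x).symm)

end Pool.Agent.Lib.MP_8d00da_gt.h42s
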