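import Pool.Agent.Lib.MP_8d00da_gt.h42s.Defs

/-!
# OS-1 : monotone directions and the divergence inequality
-/

namespace Pool.Agent.Lib.MP_8d00da_gt.h42s

open MeasureTheory Set Filter
open Pool.Agent.Lib.MP_8d00da_gt.h25 Pool.Agent.Lib.MP_8d00da_gt.h42
open scoped Topology NNReal

section OS1

variable {F : Type*} [NormedAddCommGroup F] [InnerProductSpace ℝ F]
    [FiniteDimensional ℝ F] [MeasurableSpace F] [BorelSpace F]

theorem div_mono {h : F → ℝ} {r B : ℝ} (H : LCW h r B) {w : F} {ℓ : F →L[ℝ] ℝ} (hℓ : ℓ w = 2)
    (hmono : ∀ x δ, 0 ≤ δ → δ ≤ ℓ x → h x ≤ h (x - δ • w))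
    {u : F → ℝ} {L : ℝ≥0} (hu : LipschitzWith L u) {A : ℝ} (hA : ∀ x, |u x| ≤ A)
    (h0 : ∀ x, 0 ≤ u x) (hz : ∀ x, ℓ x ≤ 0 → u x = 0) :
    0 ≤ ∫ x, fderiv ℝ u x w * h x := by
  have hint : Integrable h := H.int
  have hum : Measurable u := hu.continuous.measurable
  have hL0 : (0 : ℝ) ≤ L := L.2
  set M : ℝ := L * ‖w‖ with hM
  have hM0 : 0 ≤ M := by positivity
  -- the sequence of steps
  let d : ℕ → ℝ := fun k => 1 / ((k : ℝ) + 1)
  have hd : ∀ k, 0 < d k := fun k => by positivity
  have hdt : Tendsto d atTop (𝓝 0) := tendsto_one_div_add_atTop_nhds_zero_nat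
  -- pointwise Lipschitz bound
  have hlip : ∀ x (t : ℝ), 0 ≤ t → |u (x + t • w) - u x| ≤ M * t := by
    intro x t ht
    have h1 := hu.dist_le_mul (x + t • w) x
    rw [Real.dist_eq, dist_eq_norm, add_sub_cancel_left, norm_smul, Real.norm_eq_abs,
      abs_of_nonneg ht] at h1
    calc |u (x + t • w) - u x| ≤ L * (t * ‖w‖) := h1
      _ = M * t := by rw [hM]; ring
  -- the difference quotients
  have hGm : ∀ k, AEStronglyMeasurable (fun x => (u (x + d k • w) - u x) / d k * h x) volume := by
    intro k
    refine Measurable.aestronglyMeasurable ?_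
    have h1 : Measurable fun x => u (x + d k • w) := hum.comp (measurable_id.add_const _)
    exact ((h1.sub hum).div_const _).mul H.meas
  have hGb : ∀ k, ∀ x, ‖(u (x + d k • w) - u x) / d k * h x‖ ≤ M * h x := by
    intro k x
    rw [norm_mul, Real.norm_eq_abs, Real.norm_eq_abs, abs_of_nonneg (H.nonneg x), abs_div,
      abs_of_pos (hd k)]
    refine mul_le_mul_of_nonneg_right ?_ (H.nonneg x)
    rw [div_le_iff₀ (hd k)]
    exact hlip x _ (hd k).le
  have hlim1 : Tendsto (fun k => ∫ x, (u (x + d k • w) - u x) / d k * h x) atTop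
      (𝓝 (∫ x, fderiv ℝ u x w * h x)) := by
    refine tendsto_integral_of_dominated_convergence (fun x => M * h x) hGm
      (hint.const_mul M) (fun k => Eventually.of_forall (hGb k)) ?_
    filter_upwards [hu.ae_differentiableAt (μ := (volume : Measure F))] with x hx
    have h1 : HasDerivAt (fun t : ℝ => u (x + t • w)) (fderiv ℝ u x w) 0 := by
      have h2 : HasFDerivAt u (fderiv ℝ u x) (x + (0 : ℝ) • w) := by
        rw [zero_smul, add_zero]; exact hx.hasFDerivAt
      have h3 : HasDerivAt (fun t : ℝ => x + t • w) w 0 := by
        have := ((hasDerivAt_id (0 : ℝ)).smul_const w).const_add x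
        simpa using this
      exact h2.comp_hasDerivAt (0 : ℝ) h3
    have h4 := h1.tendsto_slope
    have h5 : Tendsto d atTop (𝓝[≠] 0) := by
      rw [tendsto_nhdsWithin_iff]
      exact ⟨hdt, Eventually.of_forall fun k => (hd k).ne'⟩
    have h6 := (h4.comp h5).mul_const (h x)
    refine h6.congr fun k => ?_
    simp only [Function.comp, slope_def_field, zero_smul, add_zero, sub_zero]
  -- the integrated lower bound
  have hJm : ∀ k, MeasurableSet {x : F | 0 < ℓ x ∧ ℓ x < d k} := by
    intro k
    exact (measurableSet_lt measurable_const ℓ.measurable).inter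
      (measurableSet_lt ℓ.measurable measurable_const)
  have hlow : ∀ k, -(M / 2) * ∫ x, {x : F | 0 < ℓ x ∧ ℓ x < d k}.indicator h x ≤
      ∫ x, (u (x + d k • w) - u x) / d k * h x := by
    intro k
    have hui : Integrable fun x => u x * h x := by
      refine Integrable.bdd_mul (c := A) hint hum.aestronglyMeasurable
        (Eventually.of_forall fun x => ?_)
      rw [Real.norm_eq_abs]; exact hA x
    have hui' : Integrable fun x => u (x + d k • w) * h x := by
      refine Integrable.bdd_mul (c := A) hint
        (hum.comp (measurable_id.add_const _)).aestronglyMeasurable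
        (Eventually.of_forall fun x => ?_)
      rw [Real.norm_eq_abs]; exact hA _
    have hinth : Integrable fun x => h (x - d k • w) := hint.comp_sub_right _
    have hui'' : Integrable fun x => u x * h (x - d k • w) := by
      refine Integrable.bdd_mul (c := A) hinth hum.aestronglyMeasurable
        (Eventually.of_forall fun x => ?_)
      rw [Real.norm_eq_abs]; exact hA x
    have hshift : ∫ x, u (x + d k • w) * h x = ∫ x, u x * h (x - d k • w) := by
      have := integral_add_right_eq_self (μ := (volume : Measure F))
        (fun x => u x * h (x - d k • w)) (d k • w)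
      rw [← this]
      refine integral_congr_ae (Eventually.of_forall fun x => ?_)
      simp only [add_sub_cancel_right]
    have e1 : ∫ x, (u (x + d k • w) - u x) / d k * h x =
        (1 / d k) * ∫ x, u x * (h (x - d k • w) - h x) := by
      have e2 : ∫ x, (u (x + d k • w) - u x) / d k * h x =
          (1 / d k) * ∫ x, (u (x + d k • w) * h x - u x * h x) := by
        rw [← integral_const_mul]
        refine integral_congr_ae (Eventually.of_forall fun x => ?_)
        simp only
        ring
      have e3 : ∫ x, u x * (h (x - d k • w) - h x) =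
          ∫ x, (u x * h (x - d k • w) - u x * h x) := by
        refine integral_congr_ae (Eventually.of_forall fun x => ?_)
        simp only
        ring
      rw [e2, e3, integral_sub hui' hui, integral_sub hui'' hui, hshift]
    have hpt : ∀ x, -(M / 2) * d k * {x : F | 0 < ℓ x ∧ ℓ x < d k}.indicator h x ≤
        u x * (h (x - d k • w) - h x) := by
      intro x
      by_cases h1 : ℓ x ≤ 0
      · rw [hz x h1, zero_mul, indicator_of_notMem, mul_zero]
        rintro ⟨h2, -⟩
        exact absurd h2 (not_lt.mpr h1)
      · rw [not_le] at h1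
        by_cases h2 : ℓ x < d k
        · rw [indicator_of_mem (show x ∈ {x : F | 0 < ℓ x ∧ ℓ x < d k} from ⟨h1, h2⟩)]
          have h3 : u (x - (ℓ x / 2) • w) = 0 := by
            apply hz
            rw [map_sub, map_smul, hℓ, smul_eq_mul]
            linarith
          have h4 := hlip (x - (ℓ x / 2) • w) (ℓ x / 2) (by linarith)
          rw [sub_add_cancel, h3, sub_zero] at h4
          have h5 : u x ≤ M / 2 * d k := by
            have h6 := le_abs_self (u x)
            have h7 : M * (ℓ x / 2) ≤ M * (d k / 2) :=
              mul_le_mul_of_nonneg_left (by linarith) hM0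
            linarith
          have h8 := mul_le_mul_of_nonneg_right h5 (H.nonneg x)
          have h9 := mul_nonneg (h0 x) (H.nonneg (x - d k • w))
          nlinarith
        · rw [not_lt] at h2
          rw [indicator_of_notMem, mul_zero]
          · exact mul_nonneg (h0 x) (sub_nonneg.mpr (hmono x _ (hd k).le h2))
          · rintro ⟨-, h3⟩
            exact absurd h3 (not_lt.mpr h2)
    have hI : Integrable fun x => u x * (h (x - d k • w) - h x) := by
      have := hui''.sub hui
      refine this.congr (Eventually.of_forall fun x => ?_)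
      simp only [Pi.sub_apply]
      ring
    have hJ : Integrable fun x => -(M / 2) * d k * {x : F | 0 < ℓ x ∧ ℓ x < d k}.indicator h x :=
      (hint.indicator (hJm k)).const_mul _
    have e4 := integral_mono hJ hI hpt
    rw [integral_const_mul] at e4
    rw [e1]
    have e5 := mul_le_mul_of_nonneg_left e4 (one_div_nonneg.mpr (hd k).le)
    refine le_trans (le_of_eq ?_) e5
    have := (hd k).ne'
    field_simp
  have hlim2 : Tendsto (fun k => ∫ x, {x : F | 0 < ℓ x ∧ ℓ x < d k}.indicator h x) atTop
      (𝓝 (∫ _ : F, (0 : ℝ))) := by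
    refine tendsto_integral_of_dominated_convergence h
      (fun k => (H.meas.indicator (hJm k)).aestronglyMeasurable) hint
      (fun k => Eventually.of_forall fun x => ?_) (Eventually.of_forall fun x => ?_)
    · rw [Real.norm_eq_abs]
      by_cases hx : x ∈ {x : F | 0 < ℓ x ∧ ℓ x < d k}
      · rw [indicator_of_mem hx, abs_of_nonneg (H.nonneg x)]
      · rw [indicator_of_notMem hx, abs_zero]; exact H.nonneg x
    · by_cases hx : 0 < ℓ x
      · refine tendsto_const_nhds.congr' ?_
        have := hdt.eventually (gt_mem_nhds hx)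
        filter_upwards [this] with k hk
        rw [indicator_of_notMem]
        rintro ⟨-, h2⟩
        exact absurd h2 (not_lt.mpr hk.le)
      · refine tendsto_const_nhds.congr fun k => ?_
        rw [indicator_of_notMem]
        rintro ⟨h2, -⟩
        exact hx h2
  rw [integral_zero] at hlim2
  have hlim3 := hlim2.const_mul (-(M / 2))
  rw [mul_zero] at hlim3
  exact le_of_tendsto_of_tendsto' hlim3 hlim1 hlow

end OS1

end Pool.Agent.Lib.MP_8d00da_gt.h42s
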