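import Pool.Agent.Lib.MP_8d00da_gt.h42s.FinalG

/-!
# Linear images
-/

namespace Pool.Agent.Lib.MP_8d00da_gt.h42s

open MeasureTheory Set Filter
open Pool.Agent.Lib.MP_8d00da_gt.h42
open Pool.Agent.Lib.MP_8d00da_gt.h25 (LCW Wt En PoincareWith LinPoincareWith logConc_bdd)
open scoped Topology NNReal

variable {F : Type*} [NormedAddCommGroup F] [InnerProductSpace ℝ F]
    [FiniteDimensional ℝ F] [MeasurableSpace F] [BorelSpace F]
    {G : Type*} [NormedAddCommGroup G] [InnerProductSpace ℝ G]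
    [FiniteDimensional ℝ G] [MeasurableSpace G] [BorelSpace G]

/-- Surjective affine images. -/
theorem var_image {μ : Measure F} [IsProbabilityMeasure μ] (hac : μ ≪ volume) {C : ℝ}
    (hv : ∀ (f : F → ℝ) (L : ℝ≥0), LipschitzWith L f → MemLp f 2 μ ∧
      ∫ x, (f x - ∫ y, f y ∂μ) ^ 2 ∂μ ≤ C ^ 2 * ∫ x, ‖fderiv ℝ f x‖ ^ 2 ∂μ)
    (T : F →L[ℝ] G) (hT : Function.Surjective T) (b : G)
    {f : G → ℝ} {L : ℝ≥0} (hf : LipschitzWith L f) :
    MemLp f 2 (μ.map fun x => T x + b) ∧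
      ∫ x, (f x - ∫ y, f y ∂(μ.map fun x => T x + b)) ^ 2 ∂(μ.map fun x => T x + b) ≤
        (C * ‖T‖) ^ 2 * ∫ x, ‖fderiv ℝ f x‖ ^ 2 ∂(μ.map fun x => T x + b) := by
  have hcont : Continuous fun x => T x + b := T.continuous.add continuous_const
  have hme : AEMeasurable (fun x => T x + b) μ := hcont.measurable.aemeasurable
  set g : F → ℝ := fun x => f (T x + b) with hg
  have hgL : LipschitzWith (L * ‖T‖₊) g := by
    refine LipschitzWith.of_dist_le_mul fun x y => ?_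
    have h1 := hf.dist_le_mul (T x + b) (T y + b)
    rw [dist_add_right, dist_eq_norm (T x), ← map_sub] at h1
    refine h1.trans ?_
    rw [NNReal.coe_mul, coe_nnnorm, mul_assoc, dist_eq_norm]
    exact mul_le_mul_of_nonneg_left (T.le_opNorm _) L.2
  obtain ⟨h1, h2⟩ := hv g _ hgL
  have i1 : ∀ {φ : G → ℝ}, Measurable φ →
      ∫ y, φ y ∂(μ.map fun x => T x + b) = ∫ x, φ (T x + b) ∂μ := fun hφ =>
    integral_map hme hφ.aestronglyMeasurable
  have hfm : Measurable f := hf.continuous.measurable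
  refine ⟨(memLp_map_measure_iff hfm.aestronglyMeasurable hme).2 h1, ?_⟩
  rw [i1 hfm, i1 ((hfm.sub_const _).pow_const 2), i1 ((measurable_fderiv ℝ f).norm.pow_const 2)]
  refine h2.trans ?_
  rw [mul_pow, mul_assoc, ← integral_const_mul (‖T‖ ^ 2)]
  refine mul_le_mul_of_nonneg_left ?_ (sq_nonneg C)
  have hbd : ∀ y, ‖fderiv ℝ f y‖ ≤ L := fun y => norm_fderiv_le_of_lipschitz ℝ hf
  have hbg : ∀ x, ‖fderiv ℝ g x‖ ≤ (L * ‖T‖₊ : ℝ≥0) := fun x => norm_fderiv_le_of_lipschitz ℝ hgL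
  refine integral_mono_ae ?_ ?_ ?_
  · refine Integrable.of_bound ((measurable_fderiv ℝ g).norm.pow_const 2).aestronglyMeasurable
      (((L * ‖T‖₊ : ℝ≥0) : ℝ) ^ 2) (Eventually.of_forall fun x => ?_)
    rw [Real.norm_eq_abs, abs_of_nonneg (sq_nonneg _)]
    exact pow_le_pow_left₀ (norm_nonneg _) (hbg x) 2
  · refine Integrable.of_bound ((((measurable_fderiv ℝ f).norm.pow_const 2).comp
      hcont.measurable).const_mul _).aestronglyMeasurable (‖T‖ ^ 2 * (L : ℝ) ^ 2)
      (Eventually.of_forall fun x => ?_)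
    rw [Real.norm_eq_abs, abs_of_nonneg (by positivity)]
    exact mul_le_mul_of_nonneg_left (pow_le_pow_left₀ (norm_nonneg _) (hbd _) 2) (sq_nonneg ‖T‖)
  · have hD : ∀ᵐ x ∂μ, DifferentiableAt ℝ f (T x + b) := by
      have h3 : ∀ᵐ y : G, DifferentiableAt ℝ f y := hf.ae_differentiableAt
      have h4 : ∀ᵐ y : G, DifferentiableAt ℝ f (y + b) :=
        (measurePreserving_add_right (volume : Measure G) b).quasiMeasurePreserving.ae h3
      have hms : MeasurableSet {y : G | DifferentiableAt ℝ f (y + b)} :=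
        (measurableSet_of_differentiableAt ℝ f).preimage (measurable_id.add_const b)
      have h5 : ∀ᵐ x : F, T x ∈ {y : G | DifferentiableAt ℝ f (y + b)} :=
        (ae_comp_linearMap_mem_iff (L := (T : F →ₗ[ℝ] G)) (μ := volume) (ν := volume) hT hms).2 h4
      exact hac.ae_le h5
    filter_upwards [hD] with x hx
    have h6 : HasFDerivAt g ((fderiv ℝ f (T x + b)).comp T) x :=
      hx.hasFDerivAt.comp x (T.hasFDerivAt.add_const b)
    rw [h6.fderiv]
    have h7 := ContinuousLinearMap.opNorm_comp_le (fderiv ℝ f (T x + b)) T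
    calc ‖(fderiv ℝ f (T x + b)).comp T‖ ^ 2 ≤ (‖fderiv ℝ f (T x + b)‖ * ‖T‖) ^ 2 :=
          pow_le_pow_left₀ (norm_nonneg _) h7 2
      _ = _ := by rw [mul_pow]; ring

end Pool.Agent.Lib.MP_8d00da_gt.h42s
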