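import Pool.Agent.Lib.MP_8d00da_gt.h42s.Core
import Pool.Agent.Lib.MP_8d00da_gt.h42s.LinIm

/-!
# The KLS inequality for linear images of 1-symmetric log-concave probability measures
-/

namespace Pool.Agent.Lib.MP_8d00da_gt.h42s

open MeasureTheory Set Filter
open Pool.Agent.Lib.MP_8d00da_gt.h42
open Pool.Agent.Lib.MP_8d00da_gt.h25 (LCW Wt En PoincareWith LinPoincareWith logConc_bdd)
open scoped Topology NNReal

variable {n : ℕ}

lemma SymW.closedBall {h : Vn n → ℝ} (hS : SymW h) (R : ℝ) :
    SymW ((Metric.closedBall (0 : Vn n) R).indicator h) where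
  flip := by
    intro i x
    by_cases hx : x ∈ Metric.closedBall (0 : Vn n) R
    · have hx' : fl i x ∈ Metric.closedBall (0 : Vn n) R := by
        rw [mem_closedBall_zero_iff] at hx ⊢
        rwa [LinearIsometryEquiv.norm_map]
      rw [indicator_of_mem hx, indicator_of_mem hx', hS.flip]
    · have hx' : fl i x ∉ Metric.closedBall (0 : Vn n) R := by
        rw [mem_closedBall_zero_iff] at hx ⊢
        rwa [LinearIsometryEquiv.norm_map]
      rw [indicator_of_notMem hx, indicator_of_notMem hx']
  swap := by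
    intro i j x
    by_cases hx : x ∈ Metric.closedBall (0 : Vn n) R
    · have hx' : sw i j x ∈ Metric.closedBall (0 : Vn n) R := by
        rw [mem_closedBall_zero_iff] at hx ⊢
        rwa [LinearIsometryEquiv.norm_map]
      rw [indicator_of_mem hx, indicator_of_mem hx', hS.swap]
    · have hx' : sw i j x ∉ Metric.closedBall (0 : Vn n) R := by
        rw [mem_closedBall_zero_iff] at hx ⊢
        rwa [LinearIsometryEquiv.norm_map]
      rw [indicator_of_notMem hx, indicator_of_notMem hx']

lemma SymW.even {h : Vn n → ℝ} (hS : SymW h) (x : Vn n) : h (-x) = h x := by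
  classical
  rw [← sign_inv hS Finset.univ x]
  congr 1
  ext i
  simp

lemma inner_bdd_supp (θ : Vn n) {r : ℝ} (x : Vn n) (hx : ‖x‖ ≤ r) :
    |(inner ℝ θ x : ℝ)| ≤ ‖θ‖ * r :=
  (abs_real_inner_le_norm θ x).trans (mul_le_mul_of_nonneg_left hx (norm_nonneg _))

theorem coreS_sym (hn : 0 < n) : CoreS (fun h : Vn n → ℝ => SymW h) (10 ^ 4) := by
  intro h r B H hS b σ hσ hlin f L hf m hm
  refine core_sym H hS hn hσ (fun θ => ?_) hf hm
  refine le_trans ?_ (hlin θ)
  have hmeas : Measurable fun x : Vn n => (inner ℝ θ x : ℝ) :=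
    (continuous_const.inner continuous_id).measurable
  have i1 : Integrable fun x => (inner ℝ θ x : ℝ) * h x :=
    LCW_int_mul H hmeas (C := ‖θ‖ * r) fun x hx => inner_bdd_supp θ x hx
  have i2 : Integrable fun x => (inner ℝ θ x : ℝ) ^ 2 * h x := by
    refine LCW_int_mul H (hmeas.pow_const 2) (C := (‖θ‖ * r) ^ 2) fun x hx => ?_
    rw [abs_pow]
    exact pow_le_pow_left₀ (abs_nonneg _) (inner_bdd_supp θ x hx) 2
  have h0 : ∫ x, (inner ℝ θ x : ℝ) * h x = 0 * ∫ x, h x := by
    have h1 := integral_neg_eq_self (fun x => (inner ℝ θ x : ℝ) * h x) (volume : Measure (Vn n))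
    simp only [inner_neg_right, hS.even, neg_mul, integral_neg] at h1
    linarith
  have h2 := var_le H.int i1 i2 H.mass.le h0 (inner ℝ θ b)
  simp only [sub_zero] at h2
  refine h2.trans (le_of_eq ?_)
  refine integral_congr_ae (Eventually.of_forall fun x => ?_)
  simp only [inner_sub_right]

section image

variable {G : Type*} [NormedAddCommGroup G] [InnerProductSpace ℝ G]
    [FiniteDimensional ℝ G] [MeasurableSpace G] [BorelSpace G]

/-- isometries which preserve `h` preserve the measure -/
lemma map_iso {F : Type*} [NormedAddCommGroup F] [InnerProductSpace ℝ F]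
    [FiniteDimensional ℝ F] [MeasurableSpace F] [BorelSpace F]
    {h : F → ℝ} (hm : Measurable h) {μ : Measure F}
    (hμ : μ = volume.withDensity fun x => ENNReal.ofReal (h x)) (S : F ≃ₗᵢ[ℝ] F)
    (hS : ∀ x, h (S x) = h x) : MeasurePreserving S μ μ := by
  have hv := S.measurePreserving
  refine ⟨S.continuous.measurable, ?_⟩
  ext s hs
  rw [Measure.map_apply S.continuous.measurable hs, hμ,
    withDensity_apply _ (S.continuous.measurable hs), withDensity_apply _ hs,
    ← hv.setLIntegral_comp_preimage hs hm.ennreal_ofReal]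
  simp only [hS]

theorem one_symmetric {h : Vn n → ℝ} (h0 : ∀ x, 0 ≤ h x) (hm : Measurable h) (hLC : LogConc h)
    (hS : SymW h) {μ : Measure (Vn n)}
    (hμ : μ = volume.withDensity fun x => ENNReal.ofReal (h x)) [IsProbabilityMeasure μ]
    (T : Vn n →L[ℝ] G) (hT : Function.Surjective T) (b : G) {D : ℝ}
    (hD : LinPoincareWith (μ.map fun x => T x + b) D) :
    PoincareWith (μ.map fun x => T x + b) (10 ^ 4 * D) := by
  have hcont : Continuous fun x => T x + b := T.continuous.add continuous_const
  have hme : AEMeasurable (fun x => T x + b) μ := hcont.measurable.aemeasurable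
  have hprob : IsProbabilityMeasure (μ.map fun x => T x + b) :=
    Measure.isProbabilityMeasure_map hme
  obtain ⟨c, -, hlin⟩ := lin_props hD
  set D' : ℝ := max D 0 with hD'
  have hD'0 : 0 ≤ D' := le_max_right _ _
  -- the trivial case
  by_cases hT0 : ∀ v : G, ContinuousLinearMap.adjoint T v = 0
  · have hT1 : ∀ y : G, y = 0 := by
      intro y
      obtain ⟨x, hx⟩ := hT y
      have h1 : inner ℝ y y = (0 : ℝ) := by
        nth_rewrite 2 [← hx]
        rw [← ContinuousLinearMap.adjoint_inner_left, hT0 y, inner_zero_left]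
      exact inner_self_eq_zero.1 h1
    rintro f ⟨L, hf⟩
    have h2 : ∀ y, f y = f 0 := fun y => by rw [hT1 y]
    have h3 : (fun x => f x - ∫ y, f y ∂(μ.map fun x => T x + b)) = fun _ => 0 := by
      funext x
      simp only [h2 x, h2, integral_const, probReal_univ, smul_eq_mul, one_mul, sub_self]
    rw [h3]
    simp
  push Not at hT0
  obtain ⟨v0, hv0⟩ := hT0
  have hn : 0 < n := by
    rcases Nat.eq_zero_or_pos n with hn | hn
    · subst hn
      exfalso
      apply hv0
      ext i; exact i.elim0
    · exact hn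
  have hfl : ∀ i, MeasurePreserving (fl i) μ μ := fun i => map_iso hm hμ (fl i) (hS.flip i)
  have hsw : ∀ i j, MeasurePreserving (sw i j) μ μ := fun i j =>
    map_iso hm hμ (sw i j) (hS.swap i j)
  -- the moments of the linear functions
  have hpull : ∀ v : G, MemLp (fun x => inner ℝ (ContinuousLinearMap.adjoint T v) x +
      inner ℝ v (b - c)) 2 μ ∧ ∫ x, (inner ℝ (ContinuousLinearMap.adjoint T v) x +
      inner ℝ v (b - c)) ^ 2 ∂μ ≤ D' ^ 2 * ‖v‖ ^ 2 := by
    intro v
    obtain ⟨h1, h2⟩ := hlin v
    have hvm : Measurable fun y : G => (inner ℝ v (y - c) : ℝ) :=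
      (continuous_const.inner (continuous_id.sub continuous_const)).measurable
    have e : ∀ x, inner ℝ v (T x + b - c) = inner ℝ (ContinuousLinearMap.adjoint T v) x +
        inner ℝ v (b - c) := fun x => by
      rw [ContinuousLinearMap.adjoint_inner_left, ← inner_add_right, add_sub_assoc]
    have h3 := (memLp_map_measure_iff hvm.aestronglyMeasurable hme).1 h1
    rw [integral_map hme (hvm.pow_const 2).aestronglyMeasurable] at h2
    simp only [e] at h2
    refine ⟨?_, h2⟩
    refine (memLp_congr_ae (Eventually.of_forall fun x => ?_)).1 h3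
    exact e x
  have hL2 : ∀ v : G, MemLp (fun x => inner ℝ (ContinuousLinearMap.adjoint T v) x) 2 μ := by
    intro v
    have h1 := (hpull v).1.sub (memLp_const (inner ℝ v (b - c)))
    refine (memLp_congr_ae (Eventually.of_forall fun x => ?_)).1 h1
    simp
  -- every coordinate is square integrable
  have hco : ∀ i : Fin n, MemLp (fun x : Vn n => x i) 2 μ := by
    set w := ContinuousLinearMap.adjoint T v0 with hw
    obtain ⟨j, hj⟩ : ∃ j, w j ≠ 0 := by
      by_contra hc
      push Not at hc
      exact hv0 (by ext j; exact hc j)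
    have h1 := hL2 v0
    have h2 := h1.comp_measurePreserving (hfl j)
    have h3 := (h1.sub h2).const_mul (1 / (2 * w j))
    have h4 : MemLp (fun x : Vn n => x j) 2 μ := by
      refine (memLp_congr_ae (Eventually.of_forall fun x => ?_)).1 h3
      simp only [Pi.sub_apply, Function.comp_apply, ← hw]
      have e1 : x - fl j x = (2 * x j) • ee j := by
        ext k
        simp only [PiLp.sub_apply, PiLp.smul_apply, fl_apply, ee_apply, smul_eq_mul]
        split_ifs with hk
        · subst hk; ring
        · ring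
      rw [← inner_sub_right, e1, inner_smul_right, inner_ee]
      field_simp
    intro i
    have h5 := h4.comp_measurePreserving (hsw i j)
    refine (memLp_congr_ae (Eventually.of_forall fun x => ?_)).1 h5
    simp only [Function.comp_apply, sw_apply, Equiv.swap_apply_right]
  have hprod : ∀ i j : Fin n, Integrable (fun x : Vn n => x i * x j) μ := fun i j =>
    (hco i).integrable_mul (hco j)
  have hcoi : ∀ i : Fin n, Integrable (fun x : Vn n => x i) μ := fun i =>
    (hco i).integrable (by norm_num)
  have hmean : ∀ i : Fin n, ∫ x : Vn n, x i ∂μ = 0 := by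
    intro i
    have h1 := (hfl i).integral_comp (fl i).toHomeomorph.measurableEmbedding (fun x : Vn n => x i)
    simp only [fl_apply, if_true, integral_neg] at h1
    linarith
  have hcross : ∀ i j : Fin n, i ≠ j → ∫ x : Vn n, x i * x j ∂μ = 0 := by
    intro i j hij
    have h1 := (hfl i).integral_comp (fl i).toHomeomorph.measurableEmbedding
      (fun x : Vn n => x i * x j)
    simp only [fl_apply, if_true, if_neg hij.symm, neg_mul, integral_neg] at h1
    linarith
  set s2 : ℝ := ∫ x : Vn n, x ⟨0, hn⟩ * x ⟨0, hn⟩ ∂μ with hs2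
  have hs20 : 0 ≤ s2 := integral_nonneg fun x => mul_self_nonneg _
  have hdiag : ∀ i : Fin n, ∫ x : Vn n, x i * x i ∂μ = s2 := by
    intro i
    have h1 := (hsw i ⟨0, hn⟩).integral_comp (sw i ⟨0, hn⟩).toHomeomorph.measurableEmbedding
      (fun x : Vn n => x i * x i)
    simp only [sw_apply, Equiv.swap_apply_left] at h1
    exact h1.symm
  have hinner : ∀ w x : Vn n, (inner ℝ w x : ℝ) = ∑ i, w i * x i := by
    intro w x
    rw [PiLp.inner_apply]
    exact Finset.sum_congr rfl fun i _ => by simp [mul_comm]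
  have hsq : ∀ w : Vn n, Integrable (fun x : Vn n => (inner ℝ w x : ℝ) ^ 2) μ ∧
      ∫ x : Vn n, (inner ℝ w x : ℝ) ^ 2 ∂μ = s2 * ‖w‖ ^ 2 := by
    intro w
    have e : (fun x : Vn n => (inner ℝ w x : ℝ) ^ 2) =
        fun x => ∑ i, ∑ j, (w i * w j) * (x i * x j) := by
      funext x
      rw [hinner, sq, Finset.sum_mul_sum]
      exact Finset.sum_congr rfl fun i _ => Finset.sum_congr rfl fun j _ => by ring
    have ii : ∀ i, Integrable (fun x : Vn n => ∑ j, (w i * w j) * (x i * x j)) μ := fun i =>
      integrable_finsetSum _ fun j _ => (hprod i j).const_mul _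
    refine ⟨by rw [e]; exact integrable_finsetSum _ fun i _ => ii i, ?_⟩
    rw [e, integral_finsetSum _ fun i _ => ii i, EuclideanSpace.norm_sq_eq, Finset.mul_sum]
    refine Finset.sum_congr rfl fun i _ => ?_
    rw [integral_finsetSum _ fun j _ => (hprod i j).const_mul _]
    rw [Finset.sum_eq_single i]
    · rw [integral_const_mul, hdiag, Real.norm_eq_abs, sq_abs]; ring
    · intro j _ hj
      rw [integral_const_mul, hcross i j (Ne.symm hj), mul_zero]
    · intro hc; exact absurd (Finset.mem_univ i) hc
  have hmean' : ∀ w : Vn n, ∫ x : Vn n, (inner ℝ w x : ℝ) ∂μ = 0 := by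
    intro w
    simp only [hinner]
    rw [integral_finsetSum _ fun i _ => (hcoi i).const_mul _]
    refine Finset.sum_eq_zero fun i _ => ?_
    rw [integral_const_mul, hmean, mul_zero]
  have hinti : ∀ w : Vn n, Integrable (fun x : Vn n => (inner ℝ w x : ℝ)) μ := by
    intro w
    simp only [hinner]
    exact integrable_finsetSum _ fun i _ => (hcoi i).const_mul _
  -- the operator norm
  set σ : ℝ := Real.sqrt s2 with hσ
  have hσ0 : 0 ≤ σ := Real.sqrt_nonneg _
  have hσ2 : σ ^ 2 = s2 := Real.sq_sqrt hs20
  have hnorm : σ * ‖T‖ ≤ D' := by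
    have h1 : ∀ v : G, σ * ‖ContinuousLinearMap.adjoint T v‖ ≤ D' * ‖v‖ := by
      intro v
      set w := ContinuousLinearMap.adjoint T v with hw
      set k : ℝ := inner ℝ v (b - c) with hk
      have h2 := (hpull v).2
      rw [← hw, ← hk] at h2
      have h3 : ∫ x, (inner ℝ w x + k) ^ 2 ∂μ = s2 * ‖w‖ ^ 2 + k ^ 2 := by
        have e : (fun x : Vn n => (inner ℝ w x + k) ^ 2) =
            fun x => (inner ℝ w x : ℝ) ^ 2 + 2 * k * inner ℝ w x + k ^ 2 := by
          funext x; ring
        have i1 : Integrable (fun x : Vn n => (inner ℝ w x : ℝ) ^ 2 + 2 * k * inner ℝ w x) μ :=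
          (hsq w).1.add ((hinti w).const_mul _)
        rw [e, integral_add i1 (integrable_const _), integral_add (hsq w).1
          ((hinti w).const_mul _), integral_const_mul, hmean', (hsq w).2, integral_const,
          probReal_univ]
        simp
      rw [h3] at h2
      have h4 : (σ * ‖w‖) ^ 2 ≤ (D' * ‖v‖) ^ 2 := by
        rw [mul_pow, mul_pow, hσ2]
        nlinarith [sq_nonneg k]
      exact (pow_le_pow_iff_left₀ (by positivity) (by positivity) two_ne_zero).1 h4
    have h5 : ‖σ • ContinuousLinearMap.adjoint T‖ ≤ D' := by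
      refine ContinuousLinearMap.opNorm_le_bound _ hD'0 fun v => ?_
      rw [smul_apply, norm_smul, Real.norm_eq_abs, abs_of_nonneg hσ0]
      exact h1 v
    rw [norm_smul, Real.norm_eq_abs, abs_of_nonneg hσ0, LinearIsometryEquiv.norm_map] at h5
    exact h5
  have hac : μ ≪ volume := by
    rw [hμ]; exact withDensity_absolutelyContinuous _ _
  have hvar : ∀ (f : Vn n → ℝ) (L : ℝ≥0), LipschitzWith L f → MemLp f 2 μ ∧
      ∫ x, (f x - ∫ y, f y ∂μ) ^ 2 ∂μ ≤ (10 ^ 4 * σ) ^ 2 * ∫ x, ‖fderiv ℝ f x‖ ^ 2 ∂μ := by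
    intro f L hf
    refine var_of_core (P := fun h : Vn n → ℝ => SymW h) (fun h R hh => hh.closedBall R)
      (coreS_sym hn) h h0 hm hLC hS μ hμ 0 hσ0 (fun w => ?_) hf
    simp only [sub_zero]
    refine ⟨(memLp_two_iff_integrable_sq
      (continuous_const.inner continuous_id).aestronglyMeasurable).2 (hsq w).1, ?_⟩
    rw [(hsq w).2, hσ2]
  refine poincare_of_var (by norm_num) fun f L hf => ?_
  obtain ⟨h1, h2⟩ := var_image hac hvar T hT b hf
  refine ⟨h1, h2.trans (mul_le_mul_of_nonneg_right ?_ (integral_nonneg fun x => sq_nonneg _))⟩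
  refine pow_le_pow_left₀ (by positivity) ?_ 2
  rw [mul_assoc]
  exact mul_le_mul_of_nonneg_left hnorm (by norm_num)

end image

end Pool.Agent.Lib.MP_8d00da_gt.h42s
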