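import Pool.Agent.Lib.MP_8d00da_gt.h42s.BL
import Pool.Agent.Lib.MP_8d00da_gt.h42s.Div

/-!
# A Hardy inequality on half spaces for 1-symmetric weights
-/

namespace Pool.Agent.Lib.MP_8d00da_gt.h42s

open MeasureTheory Set Filter
open Pool.Agent.Lib.MP_8d00da_gt.h25 Pool.Agent.Lib.MP_8d00da_gt.h42
open scoped Topology NNReal

section refl

variable {F : Type*} [NormedAddCommGroup F] [InnerProductSpace ℝ F]

lemma mono_refl {h : F → ℝ} (h0 : ∀ x, 0 ≤ h x) (hc : LogConc h) {w : F} {ℓ : F →L[ℝ] ℝ}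
    (hT : ∀ x, h (x - ℓ x • w) = h x) (x : F) (δ : ℝ) (hδ : 0 ≤ δ) (hδ' : δ ≤ ℓ x) :
    h x ≤ h (x - δ • w) := by
  rcases eq_or_lt_of_le hδ with h1 | h1
  · rw [← h1]; simp
  rcases eq_or_lt_of_le hδ' with h2 | h2
  · rw [h2, hT]
  have hℓ : 0 < ℓ x := h1.trans h2
  have ha0 : 0 < δ / ℓ x := div_pos h1 hℓ
  have ha1 : δ / ℓ x < 1 := (div_lt_one hℓ).2 h2
  have h3 := hc (δ / ℓ x) ha0 ha1 x (x - ℓ x • w)
  rw [hT, ← Real.rpow_add_of_nonneg (h0 x) (by linarith) ha0.le] at h3
  have h4 : (1 - δ / ℓ x) • x + (δ / ℓ x) • (x - ℓ x • w) = x - δ • w := by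
    rw [smul_sub, smul_smul, div_mul_cancel₀ _ hℓ.ne', sub_smul, one_smul]
    abel
  rw [h4] at h3
  simpa using h3

end refl

variable {n : ℕ}

lemma ae_ne (i : Fin n) (c : ℝ) : ∀ᵐ x : Vn n, x i ≠ c := by
  have h1 : ∀ᵐ f : Fin n → ℝ, f i ≠ c := by
    rw [ae_iff]
    simp only [not_not, volume_pi]
    exact Measure.pi_hyperplane (fun _ => (volume : Measure ℝ)) i c
  exact (EuclideanSpace.volume_preserving_symm_measurableEquiv_toLp
    (Fin n)).quasiMeasurePreserving.ae h1

/-- coordinates -/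
noncomputable def co (i : Fin n) : Vn n →L[ℝ] ℝ := EuclideanSpace.proj i

lemma co_apply (i : Fin n) (x : Vn n) : co i x = x i := rfl

lemma co_lip (i : Fin n) : LipschitzWith 1 (fun x : Vn n => x i) := by
  refine LipschitzWith.of_dist_le_mul fun x y => ?_
  rw [Real.dist_eq, dist_eq_norm, NNReal.coe_one, one_mul, ← Real.norm_eq_abs]
  exact PiLp.norm_apply_le (x - y) i

lemma BL.co {φ : ℝ → ℝ} (hφ : BL φ) (i : Fin n) : BL (fun x : Vn n => φ (x i)) :=
  hφ.comp (co_lip i)

lemma BL.co_neg {φ : ℝ → ℝ} (hφ : BL φ) (i : Fin n) : BL (fun x : Vn n => φ (- x i)) := by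
  refine hφ.comp (L := 1) (T := fun x : Vn n => - x i) ?_
  exact (co_lip i).neg

/-- A function which does not depend on the direction `w` has no derivative in this direction. -/
lemma fderiv_zero_of_const {F : Type*} [NormedAddCommGroup F] [NormedSpace ℝ F] {f : F → ℝ}
    {x w : F} (hf : DifferentiableAt ℝ f x) (hc : ∀ t : ℝ, f (x + t • w) = f x) :
    fderiv ℝ f x w = 0 := by
  have h1 : HasDerivAt (fun t : ℝ => f (x + t • w)) (fderiv ℝ f x w) 0 := by
    have h2 : HasDerivAt (fun t : ℝ => x + t • w) w 0 := by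
      have := ((hasDerivAt_id (0 : ℝ)).smul_const w).const_add x
      simpa using this
    have h3 : HasFDerivAt f (fderiv ℝ f x) (x + (0 : ℝ) • w) := by
      simpa using hf.hasFDerivAt
    exact h3.comp_hasDerivAt (0 : ℝ) h2
  have h4 : HasDerivAt (fun t : ℝ => f (x + t • w)) 0 0 := by
    have : (fun t : ℝ => f (x + t • w)) = fun _ => f x := funext hc
    rw [this]
    exact hasDerivAt_const _ _
  exact h1.unique h4

lemma swap_vec {h : Vn n → ℝ} (hS : SymW h) {i j : Fin n} (x : Vn n) :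
    h (x - ((co i - co j) x) • (ee i - ee j)) = h x := by
  rw [← hS.swap i j x]
  congr 1
  ext k
  rw [sw_apply]
  simp only [PiLp.sub_apply, PiLp.smul_apply, ee_apply, sub_apply, co_apply,
    smul_eq_mul]
  by_cases hk : k = i
  · subst hk
    rw [Equiv.swap_apply_left]
    by_cases hj : k = j
    · subst hj; simp
    · simp [hj]
  · by_cases hk' : k = j
    · subst hk'
      rw [Equiv.swap_apply_right]
      simp [hk]
    · rw [Equiv.swap_apply_of_ne_of_ne hk hk']
      simp [hk, hk']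

lemma swap_vec' {h : Vn n → ℝ} (hS : SymW h) {i j : Fin n} (hij : j ≠ i) (x : Vn n) :
    h (x - ((co i + co j) x) • (ee i + ee j)) = h x := by
  rw [← hS.flip j x, ← hS.flip j, ← swap_vec hS (i := i) (j := j) (fl j x)]
  congr 1
  ext k
  rw [fl_apply]
  simp only [PiLp.sub_apply, PiLp.add_apply, PiLp.smul_apply, ee_apply,
    sub_apply, add_apply, co_apply,
    smul_eq_mul, fl_apply]
  rcases eq_or_ne k j with rfl | hk
  · simp [hij, hij.symm]
  · simp [hk, hij.symm]

lemma flip_vec {h : Vn n → ℝ} (hS : SymW h) {i : Fin n} (x : Vn n) :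
    h (x - (((2 : ℝ) • co i) x) • ee i) = h x := by
  rw [← hS.flip i x]
  congr 1
  ext k
  rw [fl_apply]
  simp only [PiLp.sub_apply, PiLp.smul_apply, ee_apply, smul_apply, co_apply,
    smul_eq_mul]
  rcases eq_or_ne k i with rfl | hk
  · simp; ring
  · simp [hk]


/-- **Hardy inequality on a half space.** -/
theorem half_space {h : Vn n → ℝ} {r B : ℝ} (H : LCW h r B) (hS : SymW h) {ρ : ℝ} (hρ : 0 < ρ)
    (hsup : ∀ x, ρ * n < N1 x → h x = 0) (i : Fin n) {F0 : Vn n → ℝ} (hF : BL F0)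
    (hz : ∀ x : Vn n, x i ≤ 0 → F0 x = 0) :
    ∫ x, F0 x ^ 2 * h x ≤ (38 * ρ) ^ 2 * En h F0 := by
  classical
  have hn : 0 < n := i.pos
  have hn' : (0 : ℝ) < n := by exact_mod_cast hn
  have hn1 : (1 : ℝ) ≤ n := by exact_mod_cast hn
  set a : ℝ := 1 / (ρ * n) with ha
  have ha0 : 0 < a := by positivity
  set s : Finset (Fin n) := Finset.univ.erase i with hs
  set G : Vn n → ℝ := fun x => F0 x * F0 x with hG
  set P : Vn n → ℝ := fun x => pp ρ (x i) with hP
  set χ : Vn n → ℝ := fun x => cc ρ (x i) with hχ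
  set tp : Fin n → Vn n → ℝ := fun j x => tent (12 * ρ) (x j) with htp
  set tm : Fin n → Vn n → ℝ := fun j x => tent (12 * ρ) (- x j) with htm
  set Q : Vn n → ℝ := fun x => P x - χ x * (a * ∑ j ∈ s, (tp j x + tm j x)) with hQ
  set v0 : Vn n → ℝ := fun x => G x * Q x with hv0
  set u0 : Vn n → ℝ := fun x => G x * max 0 (Q x) with hu0
  set up : Fin n → Vn n → ℝ := fun j x => G x * (χ x * (a * tp j x)) with hup
  set um : Fin n → Vn n → ℝ := fun j x => G x * (χ x * (a * tm j x)) with hum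
  have hGB : BL G := hF.mul hF
  have hPB : BL P := (pp_BL hρ).co i
  have hχB : BL χ := (cc_BL hρ).co i
  have h12 : 0 < 12 * ρ := by positivity
  have htpB : ∀ j, BL (tp j) := fun j => (tent_BL h12).co j
  have htmB : ∀ j, BL (tm j) := fun j => (tent_BL h12).co_neg j
  have hQB : BL Q := hPB.sub (hχB.mul ((BL.const a).mul (BL.sum s fun j _ => (htpB j).add (htmB j))))
  have hv0B : BL v0 := hGB.mul hQB
  have hu0B : BL u0 := hGB.mul (by
    obtain ⟨⟨L, hL⟩, A, hA⟩ := hQB
    refine ⟨⟨L, hL.const_max 0⟩, A, fun x => ?_⟩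
    rw [abs_of_nonneg (le_max_left _ _)]
    exact max_le ((abs_nonneg _).trans (hA x)) ((le_abs_self _).trans (hA x)))
  have hupB : ∀ j, BL (up j) := fun j => hGB.mul (hχB.mul ((BL.const a).mul (htpB j)))
  have humB : ∀ j, BL (um j) := fun j => hGB.mul (hχB.mul ((BL.const a).mul (htmB j)))
  have hG0 : ∀ x, 0 ≤ G x := fun x => mul_self_nonneg _
  have hGz : ∀ x : Vn n, x i ≤ 0 → G x = 0 := fun x hx => by simp only [hG, hz x hx, mul_zero]
  -- the three kinds of directions
  have d0 : 0 ≤ ∫ x, fderiv ℝ u0 x (ee i) * h x := by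
    obtain ⟨⟨L, hL⟩, A, hA⟩ := hu0B
    refine div_mono H (ℓ := (2 : ℝ) • co i) (by simp [co_apply, ee_apply])
      (mono_refl H.nonneg H.conc (flip_vec hS)) hL hA
      (fun x => mul_nonneg (hG0 x) (le_max_left _ _)) fun x hx => ?_
    have : x i ≤ 0 := by
      simp only [smul_apply, co_apply, smul_eq_mul] at hx
      linarith
    simp only [hu0, hGz x this, zero_mul]
  have dp : ∀ j ∈ s, 0 ≤ ∫ x, fderiv ℝ (up j) x (ee i - ee j) * h x := by
    intro j hj
    have hji : j ≠ i := Finset.ne_of_mem_erase hj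
    obtain ⟨⟨L, hL⟩, A, hA⟩ := hupB j
    refine div_mono H (ℓ := co i - co j) (by simp [co_apply, ee_apply, hji, hji.symm]; norm_num)
      (mono_refl H.nonneg H.conc (swap_vec hS)) hL hA
      (fun x => mul_nonneg (hG0 x) (mul_nonneg (cc_nonneg _ _)
        (mul_nonneg ha0.le (tent_nonneg _ _)))) fun x hx => ?_
    have hx' : x i ≤ x j := by
      simp only [sub_apply, co_apply] at hx
      linarith
    rcases le_total (x i) (12 * ρ) with h1 | h1
    · simp only [hup, hχ, cc_zero hρ h1, zero_mul, mul_zero]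
    · simp only [hup, htp, tent_zero_of_le (h1.trans hx'), mul_zero]
  have dm : ∀ j ∈ s, 0 ≤ ∫ x, fderiv ℝ (um j) x (ee i + ee j) * h x := by
    intro j hj
    have hji : j ≠ i := Finset.ne_of_mem_erase hj
    obtain ⟨⟨L, hL⟩, A, hA⟩ := humB j
    refine div_mono H (ℓ := co i + co j) (by simp [co_apply, ee_apply, hji, hji.symm]; norm_num)
      (mono_refl H.nonneg H.conc (swap_vec' hS hji)) hL hA
      (fun x => mul_nonneg (hG0 x) (mul_nonneg (cc_nonneg _ _)
        (mul_nonneg ha0.le (tent_nonneg _ _)))) fun x hx => ?_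
    have hx' : x i ≤ - x j := by
      simp only [add_apply, co_apply] at hx
      linarith
    rcases le_total (x i) (12 * ρ) with h1 | h1
    · simp only [hum, hχ, cc_zero hρ h1, zero_mul, mul_zero]
    · simp only [hum, htm, tent_zero_of_le (h1.trans hx'), mul_zero]
  -- integrability
  have hint : ∀ {u : Vn n → ℝ}, BL u → ∀ w, Integrable fun x => fderiv ℝ u x w * h x := by
    intro u hu w
    obtain ⟨⟨L, hL⟩, A, hA⟩ := hu
    refine bdd_int H.int (measurable_fderiv_apply_const ℝ u w) (M := L * ‖w‖) fun x => ?_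
    rw [← Real.norm_eq_abs]
    exact (ContinuousLinearMap.le_opNorm _ _).trans
      (mul_le_mul_of_nonneg_right (norm_fderiv_le_of_lipschitz ℝ hL) (norm_nonneg _))
  have hFm : Measurable F0 := by
    obtain ⟨⟨L, hL⟩, -⟩ := hF
    exact hL.continuous.measurable
  have hF2i : Integrable fun x => F0 x ^ 2 * h x := by
    obtain ⟨-, A, hA⟩ := hF
    exact bdd_int H.int (hFm.pow_const 2) (Wt.sq_bdd hA)
  have hDi : Integrable fun x => ‖fderiv ℝ F0 x‖ ^ 2 * h x := by
    obtain ⟨⟨L, hL⟩, -⟩ := hF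
    exact bdd_int H.int ((measurable_fderiv ℝ _).norm.pow_const 2) (sq_fderiv_bdd hL)
  -- the pointwise inequality
  have key : ∀ᵐ x : Vn n, fderiv ℝ u0 x (ee i) * h x +
      ∑ j ∈ s, (fderiv ℝ (up j) x (ee i - ee j) * h x + fderiv ℝ (um j) x (ee i + ee j) * h x) ≤
      361 / 3 * ρ * (‖fderiv ℝ F0 x‖ ^ 2 * h x) - 1 / (12 * ρ) * (F0 x ^ 2 * h x) := by
    have diff : ∀ {u : Vn n → ℝ}, BL u → ∀ᵐ x : Vn n, DifferentiableAt ℝ u x := by
      rintro u ⟨⟨L, hL⟩, -⟩
      exact hL.ae_differentiableAt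
    have diffs : ∀ {u : Fin n → Vn n → ℝ}, (∀ j, BL (u j)) →
        ∀ᵐ x : Vn n, ∀ j, DifferentiableAt ℝ (u j) x := fun hu => ae_all_iff.2 fun j => diff (hu j)
    have kink : ∀ c : ℝ, ∀ᵐ x : Vn n, ∀ j, x j ≠ c := fun c => ae_all_iff.2 fun j => ae_ne j c
    filter_upwards [diff hF, diff hv0B, diffs hupB, diffs humB, diff hχB, kink 0, kink (12 * ρ / 2),
      kink (12 * ρ), kink (-(12 * ρ / 2)), kink (-(12 * ρ)), kink (13 * ρ)]
      with x hxF hxv hxp hxm hxχ k0 k1 k2 k3 k4 k5
    by_cases hx0 : h x = 0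
    · simp [hx0]
    have hxN : N1 x ≤ ρ * n := by
      by_contra hc
      exact hx0 (hsup x (not_le.1 hc))
    have hsumabs : |x i| + ∑ j ∈ s, |x j| = N1 x := by
      rw [hs, N1]
      exact Finset.add_sum_erase Finset.univ (fun j => |x j|) (Finset.mem_univ i)
    -- the coefficient `Q` is positive at `x`
    have hQpos : 0 < Q x := by
      have h1 : ∑ j ∈ s, (tp j x + tm j x) ≤ ∑ j ∈ s, |x j| := by
        refine Finset.sum_le_sum fun j _ => ?_
        simp only [htp, htm]
        rw [← bb_abs]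
        exact bb_abs_le _ _
      have h2 : 1 ≤ P x := pp_one_le hρ _
      rcases le_or_gt (x i) (12 * ρ) with h3 | h3
      · simp only [hQ, hχ, cc_zero hρ h3, zero_mul, sub_zero]
        linarith
      · have h4 : 0 < |x i| := by
          rw [abs_of_pos (by linarith)]; linarith
        have h5 : a * ∑ j ∈ s, (tp j x + tm j x) < 1 := by
          calc a * ∑ j ∈ s, (tp j x + tm j x) ≤ a * ∑ j ∈ s, |x j| :=
                mul_le_mul_of_nonneg_left h1 ha0.le
            _ < a * (ρ * n) := mul_lt_mul_of_pos_left (by linarith) ha0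
            _ = 1 := by rw [ha]; field_simp
        have h6 : 0 ≤ a * ∑ j ∈ s, (tp j x + tm j x) :=
          mul_nonneg ha0.le (Finset.sum_nonneg fun j _ =>
            add_nonneg (tent_nonneg _ _) (tent_nonneg _ _))
        have h7 : χ x * (a * ∑ j ∈ s, (tp j x + tm j x)) ≤
            1 * (a * ∑ j ∈ s, (tp j x + tm j x)) :=
          mul_le_mul_of_nonneg_right (cc_le_one _ _) h6
        simp only [hQ]
        linarith
    have hu0v : fderiv ℝ u0 x = fderiv ℝ v0 x := by
      refine Filter.EventuallyEq.fderiv_eq ?_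
      have hQc : Continuous Q := by
        obtain ⟨⟨L, hL⟩, -⟩ := hQB
        exact hL.continuous
      filter_upwards [hQc.continuousAt.eventually (lt_mem_nhds hQpos)] with y hy
      simp only [hu0, hv0, max_eq_right (le_of_lt hy)]
    rw [hu0v]
    -- linear combinations
    set D := fderiv ℝ F0 x with hD
    set W : Fin n → Vn n → ℝ := fun j y => G y * (χ y * (a * bb (12 * ρ) (y j))) with hW
    have hGd : HasFDerivAt G ((2 * F0 x) • D) x := by
      have := hxF.hasFDerivAt.mul hxF.hasFDerivAt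
      refine this.congr_fderiv ?_
      rw [← hD, ← add_smul]; congr 1; ring
    obtain ⟨dP, hdP, hdP0, hdP1⟩ := pp_deriv hρ (k0 i) (k5 i)
    have hPd : HasFDerivAt P (dP • (co i : Vn n →L[ℝ] ℝ)) x := by
      have h1 : HasDerivAt (pp ρ) dP (co i x) := hdP
      exact h1.comp_hasFDerivAt x (co i).hasFDerivAt
    have hVd : HasFDerivAt (fun y => G y * P y) (G x • (dP • (co i : Vn n →L[ℝ] ℝ)) +
        P x • ((2 * F0 x) • D)) x := hGd.mul hPd
    choose dd hdd hdd' using fun j => bb_deriv h12 (k0 j) (k1 j) (k2 j) (k3 j) (k4 j)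
    have hWd : ∀ j, HasFDerivAt (W j) (G x • (χ x • (a • (dd j • (co j : Vn n →L[ℝ] ℝ))) +
        (a * bb (12 * ρ) (x j)) • fderiv ℝ χ x) +
        (χ x * (a * bb (12 * ρ) (x j))) • ((2 * F0 x) • D)) x := by
      intro j
      have h1 : HasFDerivAt (fun y : Vn n => bb (12 * ρ) (y j)) (dd j • (co j : Vn n →L[ℝ] ℝ)) x := by
        have h2 : HasDerivAt (bb (12 * ρ)) (dd j) (co j x) := hdd j
        exact h2.comp_hasFDerivAt x (co j).hasFDerivAt
      exact hGd.mul (hxχ.hasFDerivAt.mul (h1.const_mul a))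
    have e1 : fderiv ℝ v0 x (ee i) + ∑ j ∈ s, (fderiv ℝ (up j) x (ee i - ee j) +
        fderiv ℝ (um j) x (ee i + ee j)) = fderiv ℝ (fun y => G y * P y) x (ee i) -
          ∑ j ∈ s, fderiv ℝ (W j) x (ee j) := by
      have c1 : (fun y => G y * P y) = fun y => v0 y + ∑ j ∈ s, (up j y + um j y) := by
        funext y
        simp only [hv0, hup, hum, hQ]
        rw [Finset.mul_sum, Finset.mul_sum, mul_sub, Finset.mul_sum]
        have : ∑ j ∈ s, G y * (χ y * (a * (tp j y + tm j y))) =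
            ∑ j ∈ s, (G y * (χ y * (a * tp j y)) + G y * (χ y * (a * tm j y))) :=
          Finset.sum_congr rfl fun j _ => by ring
        rw [this]; ring
      have c2 : ∀ j, W j = fun y => up j y - um j y := by
        intro j
        funext y
        simp only [hW, hup, hum, htp, htm, bb]
        ring
      have c3 : HasFDerivAt (fun y => G y * P y) (fderiv ℝ v0 x + ∑ j ∈ s,
          (fderiv ℝ (up j) x + fderiv ℝ (um j) x)) x := by
        rw [c1]
        exact hxv.hasFDerivAt.add (HasFDerivAt.fun_sum fun j _ =>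
          (hxp j).hasFDerivAt.add (hxm j).hasFDerivAt)
      have c4 : ∀ j, fderiv ℝ (W j) x = fderiv ℝ (up j) x - fderiv ℝ (um j) x := by
        intro j
        rw [c2 j]
        exact ((hxp j).hasFDerivAt.sub (hxm j).hasFDerivAt).fderiv
      rw [c3.fderiv]
      simp only [c4, add_apply, sub_apply, sum_apply, map_sub, map_add,
        Finset.sum_add_distrib, Finset.sum_sub_distrib]
      ring
    have hχd : ∀ j ∈ s, fderiv ℝ χ x (ee j) = 0 := by
      intro j hj
      refine fderiv_zero_of_const hxχ fun t => ?_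
      simp only [hχ, PiLp.add_apply, PiLp.smul_apply, ee_apply, if_neg (Finset.ne_of_mem_erase hj).symm,
        smul_zero, add_zero]
    have e2 : fderiv ℝ (fun y => G y * P y) x (ee i) - ∑ j ∈ s, fderiv ℝ (W j) x (ee j) =
        G x * (dP - χ x * (a * ∑ j ∈ s, dd j)) + (2 * F0 x) * (P x * D (ee i) -
          ∑ j ∈ s, (χ x * (a * bb (12 * ρ) (x j))) * D (ee j)) := by
      rw [hVd.fderiv]
      have c1 : ∀ j ∈ s, fderiv ℝ (W j) x (ee j) = G x * (χ x * (a * dd j)) +
          (2 * F0 x) * ((χ x * (a * bb (12 * ρ) (x j))) * D (ee j)) := by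
        intro j hj
        rw [(hWd j).fderiv]
        simp only [add_apply, smul_apply, smul_eq_mul, co_apply, ee_apply, if_true, hχd j hj]
        ring
      rw [Finset.sum_congr rfl c1, Finset.sum_add_distrib, ← Finset.mul_sum, ← Finset.mul_sum,
        ← Finset.mul_sum, ← Finset.mul_sum]
      simp only [add_apply, smul_apply, smul_eq_mul, co_apply, ee_apply, if_true]
      ring
    have e3 : fderiv ℝ v0 x (ee i) * h x +
        ∑ j ∈ s, (fderiv ℝ (up j) x (ee i - ee j) * h x + fderiv ℝ (um j) x (ee i + ee j) * h x) =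
        (G x * (dP - χ x * (a * ∑ j ∈ s, dd j)) + (2 * F0 x) * (P x * D (ee i) -
          ∑ j ∈ s, (χ x * (a * bb (12 * ρ) (x j))) * D (ee j))) * h x := by
      rw [← e2, ← e1, add_mul, Finset.sum_mul]
      congr 1
      exact Finset.sum_congr rfl fun j _ => by ring
    rw [e3]
    have hh := H.nonneg x
    by_cases hF0 : F0 x = 0
    · have : G x = 0 := by simp only [hG, hF0, mul_zero]
      rw [this, hF0]
      have h1 : 0 ≤ 361 / 3 * ρ * (‖D‖ ^ 2 * h x) := by positivity
      simpa using h1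
    have hxi : 0 < x i := by
      by_contra hc
      exact hF0 (hz x (not_lt.1 hc))
    -- the divergence
    have hcard : (s.card : ℝ) = n - 1 := by
      rw [hs, Finset.card_erase_of_mem (Finset.mem_univ i), Finset.card_univ, Fintype.card_fin,
        Nat.cast_sub hn]
      simp
    have hdsum : (2 / 3 : ℝ) * n - 1 ≤ ∑ j ∈ s, dd j := by
      have h1 : ∑ j ∈ s, (1 - 4 * |x j| / (12 * ρ)) ≤ ∑ j ∈ s, dd j :=
        Finset.sum_le_sum fun j _ => hdd' j
      have h2 : ∑ j ∈ s, (1 - 4 * |x j| / (12 * ρ)) = (n - 1) - (∑ j ∈ s, |x j|) / (3 * ρ) := by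
        rw [Finset.sum_sub_distrib, Finset.sum_const, nsmul_eq_mul, mul_one, hcard, Finset.sum_div]
        congr 1
        exact Finset.sum_congr rfl fun j _ => by field_simp; ring
      have h3 : (∑ j ∈ s, |x j|) / (3 * ρ) ≤ n / 3 := by
        rw [div_le_div_iff₀ (by positivity) (by norm_num)]
        have := abs_nonneg (x i)
        nlinarith
      linarith
    have hdsum0 : 0 ≤ ∑ j ∈ s, dd j := by
      rcases Nat.lt_or_ge n 2 with hn2 | hn2
      · have : s = ∅ := by
          have hc0 : s.card = 0 := by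
            rw [hs, Finset.card_erase_of_mem (Finset.mem_univ i), Finset.card_univ, Fintype.card_fin]
            omega
          exact Finset.card_eq_zero.1 hc0
        rw [this]; simp
      · have : (2 : ℝ) ≤ n := by exact_mod_cast hn2
        linarith
    have hdiv : dP - χ x * (a * ∑ j ∈ s, dd j) ≤ -(1 / (6 * ρ)) := by
      have hχ0 : 0 ≤ χ x := cc_nonneg _ _
      rcases lt_or_gt_of_ne (k5 i) with h1 | h1
      · have h2 := hdP1 hxi h1
        have h3 : 0 ≤ χ x * (a * ∑ j ∈ s, dd j) := mul_nonneg hχ0 (mul_nonneg ha0.le hdsum0)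
        linarith
      · have hχ1 : χ x = 1 := cc_one hρ h1.le
        have hn2 : 2 ≤ n := by
          by_contra hc
          have : n = 1 := by omega
          have h2 : (n : ℝ) = 1 := by exact_mod_cast this
          have h3 := abs_le_N1 i x
          rw [abs_of_pos hxi] at h3
          rw [h2] at hxN
          linarith
        have hn2' : (2 : ℝ) ≤ n := by exact_mod_cast hn2
        have h3 : 1 / (6 * ρ) ≤ a * ∑ j ∈ s, dd j := by
          calc 1 / (6 * ρ) = a * (n / 6) := by rw [ha]; field_simp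
            _ ≤ a * ∑ j ∈ s, dd j := mul_le_mul_of_nonneg_left (by linarith) ha0.le
        rw [hχ1, one_mul]
        linarith
    -- the norm of the field
    set X : Vn n := WithLp.toLp 2 fun k => if k = i then P x else
      - (χ x * (a * bb (12 * ρ) (x k))) with hX
    have hDX : D X = P x * D (ee i) - ∑ j ∈ s, (χ x * (a * bb (12 * ρ) (x j))) * D (ee j) := by
      have h1 : X = ∑ k, X k • ee k := by
        ext k
        simp [ee_apply]
      rw [h1, map_sum, ← Finset.add_sum_erase Finset.univ _ (Finset.mem_univ i)]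
      simp only [map_smul, smul_eq_mul]
      rw [sub_eq_add_neg, ← Finset.sum_neg_distrib]
      congr 1
      · simp [hX]
      · refine Finset.sum_congr rfl fun j hj => ?_
        have : j ≠ i := Finset.ne_of_mem_erase hj
        simp [hX, this]
    have hXn : ‖X‖ ≤ 19 / 6 := by
      have h1 : ‖X‖ ^ 2 = P x ^ 2 + ∑ j ∈ s, (χ x * (a * bb (12 * ρ) (x j))) ^ 2 := by
        rw [EuclideanSpace.norm_sq_eq, ← Finset.add_sum_erase Finset.univ _ (Finset.mem_univ i)]
        congr 1
        · simp [hX]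
        · refine Finset.sum_congr rfl fun j hj => ?_
          have : j ≠ i := Finset.ne_of_mem_erase hj
          simp [hX, this, mul_pow, sq_abs]
      have h2 : ‖X‖ ^ 2 ≤ (19 / 6) ^ 2 := by
        rw [h1]
        have hP1 : 1 ≤ P x := pp_one_le hρ _
        have hP2 : P x ≤ 19 / 6 := pp_le hρ _
        rcases le_or_gt (x i) (12 * ρ) with h3 | h3
        · have : χ x = 0 := cc_zero hρ h3
          rw [this]
          simp only [zero_mul, ne_eq, OfNat.ofNat_ne_zero, not_false_eq_true, zero_pow,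
            Finset.sum_const_zero, add_zero]
          exact pow_le_pow_left₀ (by linarith) hP2 2
        · have hP3 : P x ≤ 7 / 6 := pp_le' hρ h3.le
          have h4 : ∀ j ∈ s, (χ x * (a * bb (12 * ρ) (x j))) ^ 2 ≤ a ^ 2 * (6 * ρ) * |x j| := by
            intro j _
            have h5 : χ x ^ 2 ≤ 1 := by
              have := cc_le_one ρ (x i)
              have := cc_nonneg ρ (x i)
              exact pow_le_one₀ (cc_nonneg _ _) (cc_le_one _ _)
            have h6 : bb (12 * ρ) (x j) ^ 2 ≤ (6 * ρ) * |x j| := by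
              rw [← sq_abs, sq]
              exact mul_le_mul ((bb_abs_le' h12 _).trans (by linarith)) (bb_abs_le _ _)
                (abs_nonneg _) (by positivity)
            calc (χ x * (a * bb (12 * ρ) (x j))) ^ 2
                = χ x ^ 2 * (a ^ 2 * bb (12 * ρ) (x j) ^ 2) := by ring
              _ ≤ 1 * (a ^ 2 * bb (12 * ρ) (x j) ^ 2) :=
                mul_le_mul_of_nonneg_right h5 (by positivity)
              _ ≤ 1 * (a ^ 2 * ((6 * ρ) * |x j|)) := by gcongr
              _ = _ := by ring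
          have h7 : ∑ j ∈ s, (χ x * (a * bb (12 * ρ) (x j))) ^ 2 ≤ 6 := by
            calc ∑ j ∈ s, (χ x * (a * bb (12 * ρ) (x j))) ^ 2
                ≤ ∑ j ∈ s, a ^ 2 * (6 * ρ) * |x j| := Finset.sum_le_sum h4
              _ = a ^ 2 * (6 * ρ) * ∑ j ∈ s, |x j| := by rw [Finset.mul_sum]
              _ ≤ a ^ 2 * (6 * ρ) * (ρ * n) := by
                refine mul_le_mul_of_nonneg_left ?_ (by positivity)
                have := abs_nonneg (x i)
                linarith
              _ = 6 / n := by rw [ha]; field_simp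
              _ ≤ 6 := by rw [div_le_iff₀ hn']; linarith
          nlinarith
      exact (pow_le_pow_iff_left₀ (norm_nonneg _) (by norm_num) two_ne_zero).1 h2
    have hDX' : |D X| ≤ 19 / 6 * ‖D‖ := by
      rw [← Real.norm_eq_abs]
      refine (D.le_opNorm X).trans ?_
      rw [mul_comm]
      exact mul_le_mul_of_nonneg_right hXn (norm_nonneg _)
    rw [← hDX]
    have f1 : G x * (dP - χ x * (a * ∑ j ∈ s, dd j)) ≤ F0 x ^ 2 * (-(1 / (6 * ρ))) := by
      have : G x = F0 x ^ 2 := by simp only [hG]; ring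
      rw [this]
      exact mul_le_mul_of_nonneg_left hdiv (sq_nonneg _)
    have f2 : (2 * F0 x) * D X ≤ 2 * |F0 x| * (19 / 6 * ‖D‖) := by
      calc (2 * F0 x) * D X ≤ |(2 * F0 x) * D X| := le_abs_self _
        _ = 2 * |F0 x| * |D X| := by rw [abs_mul, abs_mul]; simp
        _ ≤ _ := mul_le_mul_of_nonneg_left hDX' (by positivity)
    have f3 : 2 * |F0 x| * (19 / 6 * ‖D‖) ≤ 1 / (12 * ρ) * F0 x ^ 2 + 361 / 3 * ρ * ‖D‖ ^ 2 := by
      have h1 : 0 ≤ (1 / (12 * ρ)) * (|F0 x| - 38 * ρ * ‖D‖) ^ 2 := by positivity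
      have h2 : (1 / (12 * ρ)) * (|F0 x| - 38 * ρ * ‖D‖) ^ 2 =
          1 / (12 * ρ) * F0 x ^ 2 - 2 * |F0 x| * (19 / 6 * ‖D‖) + 361 / 3 * ρ * ‖D‖ ^ 2 := by
        rw [← sq_abs (F0 x)]
        field_simp
        ring
      linarith
    have f4 : F0 x ^ 2 * (-(1 / (6 * ρ))) = - (2 * (1 / (12 * ρ) * F0 x ^ 2)) := by
      field_simp; ring
    have f5 : G x * (dP - χ x * (a * ∑ j ∈ s, dd j)) + (2 * F0 x) * D X ≤
        361 / 3 * ρ * ‖D‖ ^ 2 - 1 / (12 * ρ) * F0 x ^ 2 := by linarith
    calc (G x * (dP - χ x * (a * ∑ j ∈ s, dd j)) + (2 * F0 x) * D X) * h x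
        ≤ (361 / 3 * ρ * ‖D‖ ^ 2 - 1 / (12 * ρ) * F0 x ^ 2) * h x :=
          mul_le_mul_of_nonneg_right f5 hh
      _ = _ := by ring
  have hsum : ∫ x, (fderiv ℝ u0 x (ee i) * h x + ∑ j ∈ s, (fderiv ℝ (up j) x (ee i - ee j) * h x +
      fderiv ℝ (um j) x (ee i + ee j) * h x)) ≤
      ∫ x, (361 / 3 * ρ * (‖fderiv ℝ F0 x‖ ^ 2 * h x) - 1 / (12 * ρ) * (F0 x ^ 2 * h x)) :=
    integral_mono_ae ((hint hu0B (ee i)).add (integrable_finsetSum s fun j _ =>
      (hint (hupB j) (ee i - ee j)).add (hint (humB j) (ee i + ee j))))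
      ((hDi.const_mul (361 / 3 * ρ)).sub (hF2i.const_mul (1 / (12 * ρ)))) key
  have hL : 0 ≤ ∫ x, (fderiv ℝ u0 x (ee i) * h x + ∑ j ∈ s, (fderiv ℝ (up j) x (ee i - ee j) * h x +
      fderiv ℝ (um j) x (ee i + ee j) * h x)) := by
    have I1 : ∀ j, Integrable fun x => fderiv ℝ (up j) x (ee i - ee j) * h x +
        fderiv ℝ (um j) x (ee i + ee j) * h x := fun j =>
      (hint (hupB j) (ee i - ee j)).add (hint (humB j) (ee i + ee j))
    rw [integral_add (hint hu0B (ee i)) (integrable_finsetSum s fun j _ => I1 j),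
      integral_finsetSum s fun j _ => I1 j]
    refine add_nonneg d0 (Finset.sum_nonneg fun j hj => ?_)
    rw [integral_add (hint (hupB j) (ee i - ee j)) (hint (humB j) (ee i + ee j))]
    exact add_nonneg (dp j hj) (dm j hj)
  have hR : ∫ x, (361 / 3 * ρ * (‖fderiv ℝ F0 x‖ ^ 2 * h x) - 1 / (12 * ρ) * (F0 x ^ 2 * h x)) =
      361 / 3 * ρ * En h F0 - 1 / (12 * ρ) * ∫ x, F0 x ^ 2 * h x := by
    rw [integral_sub (hDi.const_mul _) (hF2i.const_mul _), integral_const_mul, integral_const_mul]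
    rfl
  have hfin : 0 ≤ 361 / 3 * ρ * En h F0 - 1 / (12 * ρ) * ∫ x, F0 x ^ 2 * h x := by
    rw [← hR]
    exact hL.trans hsum
  have h1 : (12 * ρ) * (1 / (12 * ρ) * ∫ x, F0 x ^ 2 * h x) ≤ (12 * ρ) * (361 / 3 * ρ * En h F0) :=
    mul_le_mul_of_nonneg_left (by linarith) h12.le
  calc ∫ x, F0 x ^ 2 * h x = (12 * ρ) * (1 / (12 * ρ) * ∫ x, F0 x ^ 2 * h x) := by field_simp
    _ ≤ (12 * ρ) * (361 / 3 * ρ * En h F0) := h1
    _ = _ := by ring

end Pool.Agent.Lib.MP_8d00da_gt.h42s
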