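import Pool.Agent.Lib.MP_8d00da_gt.h42s.PDefs
import Pool.Agent.Lib.MP_8d00da_gt.h42s.Hardy

/-!
# A Hardy inequality on half spaces for permutation invariant weights
-/

namespace Pool.Agent.Lib.MP_8d00da_gt.h42s

open MeasureTheory Set Filter
open Pool.Agent.Lib.MP_8d00da_gt.h25 Pool.Agent.Lib.MP_8d00da_gt.h42
open scoped Topology NNReal

/-! ### Profiles -/

/-- The shifted tent. -/
noncomputable def tA (ρ s : ℝ) : ℝ := tent (12 * ρ) (s + 2 * ρ)

lemma tA_nonneg (ρ s : ℝ) : 0 ≤ tA ρ s := tent_nonneg _ _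

lemma tA_le {ρ : ℝ} (hρ : 0 < ρ) (s : ℝ) : tA ρ s ≤ |s| + 2 * ρ := by
  refine (tent_le_abs _ _).trans ((abs_add_le _ _).trans ?_)
  rw [abs_of_pos (by positivity : (0 : ℝ) < 2 * ρ)]

lemma tA_zero {ρ : ℝ} {s : ℝ} (h : 10 * ρ ≤ s) : tA ρ s = 0 := by
  unfold tA
  exact tent_zero_of_le (by linarith)

lemma tA_BL {ρ : ℝ} (hρ : 0 < ρ) : BL (tA ρ) :=
  (tent_BL (by positivity : 0 < 12 * ρ)).comp (T := fun s : ℝ => s + 2 * ρ) (L := 1) (by
    refine LipschitzWith.of_dist_le_mul fun x y => ?_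
    rw [dist_add_right]; simp)

lemma tA_deriv {ρ : ℝ} (hρ : 0 < ρ) {s : ℝ} (h0 : s ≠ -(2 * ρ)) (h1 : s ≠ 4 * ρ) (h2 : s ≠ 10 * ρ) :
    ∃ d, HasDerivAt (tA ρ) d s ∧ 1 - |s| / (2 * ρ) ≤ d := by
  have h2ρ : 0 < 2 * ρ := by positivity
  rcases lt_or_gt_of_ne h0 with hs | hs
  · refine ⟨0, ?_, ?_⟩
    · refine (hasDerivAt_const s (0 : ℝ)).congr_of_eventuallyEq ?_
      filter_upwards [Iio_mem_nhds hs] with t ht
      have ht' : t < -(2 * ρ) := ht
      unfold tA
      rw [tent_zero_of_nonpos (by linarith)]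
    · have : 1 ≤ |s| / (2 * ρ) := by
        rw [le_div_iff₀ h2ρ, abs_of_neg (by linarith)]; linarith
      linarith
  rcases lt_or_gt_of_ne h1 with hs1 | hs1
  · refine ⟨1, ?_, ?_⟩
    · refine ((hasDerivAt_id s).add_const (2 * ρ)).congr_of_eventuallyEq ?_
      filter_upwards [Ioo_mem_nhds hs hs1] with t ht
      have ht1 : -(2 * ρ) < t := ht.1
      have ht2 : t < 4 * ρ := ht.2
      unfold tA tent
      rw [min_eq_left (by linarith), max_eq_right (by linarith)]
      simp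
    · have : 0 ≤ |s| / (2 * ρ) := by positivity
      linarith
  rcases lt_or_gt_of_ne h2 with hs2 | hs2
  · refine ⟨-1, ?_, ?_⟩
    · refine ((hasDerivAt_id s).const_sub (10 * ρ)).congr_of_eventuallyEq ?_
      filter_upwards [Ioo_mem_nhds hs1 hs2] with t ht
      have ht1 : 4 * ρ < t := ht.1
      have ht2 : t < 10 * ρ := ht.2
      unfold tA tent
      rw [min_eq_right (by linarith), max_eq_right (by linarith)]
      simp only [id]
      ring
    · have : 2 ≤ |s| / (2 * ρ) := by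
        rw [le_div_iff₀ h2ρ, abs_of_pos (by linarith)]; linarith
      linarith
  · refine ⟨0, ?_, ?_⟩
    · refine (hasDerivAt_const s (0 : ℝ)).congr_of_eventuallyEq ?_
      filter_upwards [Ioi_mem_nhds hs2] with t ht
      have ht' : 10 * ρ < t := ht
      rw [tA_zero ht'.le]
    · have : 1 ≤ |s| / (2 * ρ) := by
        rw [le_div_iff₀ h2ρ, abs_of_pos (by linarith)]; linarith
      linarith

/-- The cut-off. -/
noncomputable def cA (ρ s : ℝ) : ℝ := cc ρ (s + 2 * ρ)

lemma cA_nonneg (ρ s : ℝ) : 0 ≤ cA ρ s := cc_nonneg _ _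

lemma cA_le_one (ρ s : ℝ) : cA ρ s ≤ 1 := cc_le_one _ _

lemma cA_zero {ρ : ℝ} (hρ : 0 < ρ) {s : ℝ} (hs : s ≤ 10 * ρ) : cA ρ s = 0 :=
  cc_zero hρ (by linarith)

lemma cA_one {ρ : ℝ} (hρ : 0 < ρ) {s : ℝ} (hs : 11 * ρ ≤ s) : cA ρ s = 1 :=
  cc_one hρ (by linarith)

lemma cA_BL {ρ : ℝ} (hρ : 0 < ρ) : BL (cA ρ) :=
  (cc_BL hρ).comp (T := fun s : ℝ => s + 2 * ρ) (L := 1) (by
    refine LipschitzWith.of_dist_le_mul fun x y => ?_
    rw [dist_add_right]; simp)

/-- The decreasing profile. -/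
noncomputable def pA (ρ s : ℝ) : ℝ := 1 + max 0 (11 * ρ - max s (-(11 * ρ))) / (6 * ρ)

lemma pA_one_le {ρ : ℝ} (hρ : 0 < ρ) (s : ℝ) : 1 ≤ pA ρ s := by
  unfold pA
  have : 0 ≤ max 0 (11 * ρ - max s (-(11 * ρ))) / (6 * ρ) := by positivity
  linarith

lemma pA_le {ρ : ℝ} (hρ : 0 < ρ) (s : ℝ) : pA ρ s ≤ 1 + 22 / 6 := by
  unfold pA
  have h1 : max 0 (11 * ρ - max s (-(11 * ρ))) ≤ 22 * ρ :=
    max_le (by positivity) (by linarith [le_max_right s (-(11 * ρ))])
  have h2 : max 0 (11 * ρ - max s (-(11 * ρ))) / (6 * ρ) ≤ 22 / 6 := by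
    rw [div_le_iff₀ (by positivity)]; linarith
  linarith

lemma pA_add_le {ρ : ℝ} (hρ : 0 < ρ) {s t : ℝ} (hst : 0 ≤ s + t) : pA ρ s + pA ρ t ≤ 2 + 22 / 6 := by
  unfold pA
  have h1 : max 0 (11 * ρ - max s (-(11 * ρ))) + max 0 (11 * ρ - max t (-(11 * ρ))) ≤ 22 * ρ := by
    rcases max_cases 0 (11 * ρ - max s (-(11 * ρ))) with h | h <;>
    rcases max_cases 0 (11 * ρ - max t (-(11 * ρ))) with h' | h' <;>
    rcases max_cases s (-(11 * ρ)) with g | g <;>
    rcases max_cases t (-(11 * ρ)) with g' | g' <;>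
    rw [h.1, h'.1] <;> linarith [h.2, h'.2, g.1, g.2, g'.1, g'.2]
  have h2 : max 0 (11 * ρ - max s (-(11 * ρ))) / (6 * ρ) +
      max 0 (11 * ρ - max t (-(11 * ρ))) / (6 * ρ) ≤ 22 / 6 := by
    rw [← add_div, div_le_iff₀ (by positivity)]; linarith
  linarith

lemma pA_BL {ρ : ℝ} (hρ : 0 < ρ) : BL (pA ρ) := by
  have h1 : LipschitzWith 1 (fun s : ℝ => 11 * ρ - max s (-(11 * ρ))) := by
    refine LipschitzWith.of_dist_le_mul fun x y => ?_
    have h2 := (LipschitzWith.id.max_const (-(11 * ρ))).dist_le_mul x y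
    rw [Real.dist_eq] at h2 ⊢
    rw [sub_sub_sub_cancel_left, abs_sub_comm]
    exact h2
  have h2 : LipschitzWith 1 (fun s : ℝ => max 0 (11 * ρ - max s (-(11 * ρ)))) := h1.const_max 0
  refine ⟨⟨Real.toNNReal (1 / (6 * ρ)), LipschitzWith.of_dist_le_mul fun x y => ?_⟩, 1 + 22 / 6,
    fun s => ?_⟩
  · rw [Real.coe_toNNReal _ (by positivity), Real.dist_eq]
    have h3 := h2.dist_le_mul x y
    rw [Real.dist_eq] at h3
    have e : pA ρ x - pA ρ y = (1 / (6 * ρ)) * (max 0 (11 * ρ - max x (-(11 * ρ))) -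
        max 0 (11 * ρ - max y (-(11 * ρ)))) := by
      unfold pA; ring
    rw [e, abs_mul, abs_of_pos (by positivity : (0 : ℝ) < 1 / (6 * ρ))]
    refine mul_le_mul_of_nonneg_left ?_ (by positivity)
    simpa using h3
  · rw [abs_of_pos (lt_of_lt_of_le one_pos (pA_one_le hρ s))]
    exact pA_le hρ s

lemma pA_deriv {ρ : ℝ} (hρ : 0 < ρ) {s : ℝ} (h0 : s ≠ -(11 * ρ)) (h1 : s ≠ 11 * ρ) :
    ∃ d, HasDerivAt (pA ρ) d s ∧ d ≤ 0 ∧ (-(11 * ρ) < s → s < 11 * ρ → d ≤ -(1 / (6 * ρ))) := by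
  rcases lt_or_gt_of_ne h0 with hs | hs
  · refine ⟨0, ?_, le_rfl, fun h => absurd h (not_lt.2 hs.le)⟩
    refine (hasDerivAt_const s (1 + 22 * ρ / (6 * ρ))).congr_of_eventuallyEq ?_
    filter_upwards [Iio_mem_nhds hs] with t ht
    have ht' : t < -(11 * ρ) := ht
    unfold pA
    rw [max_eq_right ht'.le, max_eq_right (by linarith)]
    congr 2
    ring
  rcases lt_or_gt_of_ne h1 with hs1 | hs1
  · refine ⟨-(1 / (6 * ρ)), ?_, ?_, fun _ _ => le_rfl⟩
    · have hd : HasDerivAt (fun t : ℝ => 1 + (11 * ρ - t) / (6 * ρ)) (-(1 / (6 * ρ))) s := by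
        have := (((hasDerivAt_id s).const_sub (11 * ρ)).div_const (6 * ρ)).const_add 1
        refine this.congr_deriv ?_
        ring
      refine hd.congr_of_eventuallyEq ?_
      filter_upwards [Ioo_mem_nhds hs hs1] with t ht
      have ht1 : -(11 * ρ) < t := ht.1
      have ht2 : t < 11 * ρ := ht.2
      unfold pA
      rw [max_eq_left ht1.le, max_eq_right (by linarith)]
    · have : 0 < 1 / (6 * ρ) := by positivity
      linarith
  · refine ⟨0, ?_, le_rfl, fun _ h => absurd h (not_lt.2 hs1.le)⟩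
    refine (hasDerivAt_const s (1 : ℝ)).congr_of_eventuallyEq ?_
    filter_upwards [Ioi_mem_nhds hs1] with t ht
    have ht' : 11 * ρ < t := ht
    unfold pA
    rw [max_eq_left (by linarith : -(11 * ρ) ≤ t), max_eq_left (by linarith)]
    simp

section

variable {F : Type*} [NormedAddCommGroup F] [InnerProductSpace ℝ F]
    [FiniteDimensional ℝ F] [MeasurableSpace F] [BorelSpace F] {n : ℕ}

lemma ae_ne_clm {ℓ : F →L[ℝ] ℝ} {v : F} (hv : ℓ v ≠ 0) (c : ℝ) : ∀ᵐ x : F, ℓ x ≠ c := by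
  let s : AffineSubspace ℝ F :=
    { carrier := {x | ℓ x = c}
      smul_vsub_vadd_mem' := by
        intro t a b d ha hb hd
        simp only [mem_ofPred_eq, vsub_eq_sub, vadd_eq_add, map_add, map_smul, map_sub,
          smul_eq_mul] at *
        rw [ha, hb, hd]; ring }
  have hs : s ≠ ⊤ := by
    intro h
    have h0 : (0 : F) ∈ s := by rw [h]; exact AffineSubspace.mem_top ℝ F _
    have h1 : v ∈ s := by rw [h]; exact AffineSubspace.mem_top ℝ F _
    have h0' : ℓ (0 : F) = c := h0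
    have h1' : ℓ v = c := h1
    rw [map_zero] at h0'
    exact hv (h1'.trans h0'.symm)
  have := Measure.addHaar_affineSubspace (volume : Measure F) s hs
  rw [ae_iff]
  simp only [not_not]
  exact this

omit [FiniteDimensional ℝ F] [MeasurableSpace F] [BorelSpace F] in
lemma BL.clm {φ : ℝ → ℝ} (hφ : BL φ) (ℓ : F →L[ℝ] ℝ) : BL (fun x : F => φ (ℓ x)) :=
  hφ.comp ℓ.lipschitz

/-- **Hardy inequality on a half space.** -/
theorem half_space_A {h : F → ℝ} {r B : ℝ} (H : LCW h r B) {p : Fin n → F} (hp : Gram p)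
    (hI : PInv p h) {ρ : ℝ} (hρ : 0 < ρ) (hsup : ∀ x, ρ * n < NP p x → h x = 0) {i j : Fin n}
    (hij : i ≠ j) {F0 : F → ℝ} (hF : BL F0)
    (hz : ∀ x : F, (inner ℝ (p i - p j) x : ℝ) ≤ 0 → F0 x = 0) :
    ∫ x, F0 x ^ 2 * h x ≤ (138 * ρ) ^ 2 * En h F0 := by
  classical
  have hn : 0 < n := i.pos
  have hn2 : 2 ≤ n := by
    have h1 : (i : ℕ) ≠ j := fun e => hij (Fin.ext e)
    have := i.2
    have := j.2
    omega
  have hn' : (0 : ℝ) < n := by exact_mod_cast hn
  have hn2' : (2 : ℝ) ≤ n := by exact_mod_cast hn2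
  set y : Fin n → F →L[ℝ] ℝ := fun k => innerSL ℝ (p k) with hy
  have hya : ∀ k x, y k x = inner ℝ (p k) x := fun k x => rfl
  have hyw : ∀ a b k, y k (p a - p b) = (if k = a then (1 : ℝ) else 0) - (if k = b then (1 : ℝ) else 0) :=
    fun a b k => hp.inner_w a b k
  set a : ℝ := 1 / (3 * ρ * n) with ha
  have ha0 : 0 < a := by positivity
  set G : F → ℝ := fun x => F0 x * F0 x with hG
  set A : F → ℝ := fun x => pA ρ (y i x) + pA ρ (-(y j x)) with hA
  set c1 : F → ℝ := fun x => cA ρ (y i x) with hc1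
  set c2 : F → ℝ := fun x => cA ρ (-(y j x)) with hc2
  set b1 : Fin n → F → ℝ := fun k x => tA ρ (y k x) with hb1
  set b2 : Fin n → F → ℝ := fun k x => tA ρ (-(y k x)) with hb2
  set si : Finset (Fin n) := Finset.univ.erase i with hsi
  set sj : Finset (Fin n) := Finset.univ.erase j with hsj
  set P : F → ℝ := fun x => A x - c1 x * (a * ∑ k ∈ si, b1 k x) - c2 x * (a * ∑ k ∈ sj, b2 k x) with hP
  set v0 : F → ℝ := fun x => G x * P x with hv0
  set u0 : F → ℝ := fun x => G x * max 0 (P x) with hu0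
  set up : Fin n → F → ℝ := fun k x => G x * (c1 x * (a * b1 k x)) with hup
  set um : Fin n → F → ℝ := fun k x => G x * (c2 x * (a * b2 k x)) with hum
  have hneg : ∀ {φ : ℝ → ℝ}, BL φ → ∀ k, BL (fun x : F => φ (-(y k x))) := fun hφ k =>
    hφ.clm (-(y k))
  have hGB : BL G := hF.mul hF
  have hAB : BL A := ((pA_BL hρ).clm (y i)).add (hneg (pA_BL hρ) j)
  have hc1B : BL c1 := (cA_BL hρ).clm (y i)
  have hc2B : BL c2 := hneg (cA_BL hρ) j
  have hb1B : ∀ k, BL (b1 k) := fun k => (tA_BL hρ).clm (y k)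
  have hb2B : ∀ k, BL (b2 k) := fun k => hneg (tA_BL hρ) k
  have hPB : BL P := (hAB.sub (hc1B.mul ((BL.const a).mul (BL.sum si fun k _ => hb1B k)))).sub
    (hc2B.mul ((BL.const a).mul (BL.sum sj fun k _ => hb2B k)))
  have hv0B : BL v0 := hGB.mul hPB
  have hu0B : BL u0 := hGB.mul (by
    obtain ⟨⟨L, hL⟩, A', hA'⟩ := hPB
    refine ⟨⟨L, hL.const_max 0⟩, A', fun x => ?_⟩
    rw [abs_of_nonneg (le_max_left _ _)]
    exact max_le ((abs_nonneg _).trans (hA' x)) ((le_abs_self _).trans (hA' x)))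
  have hupB : ∀ k, BL (up k) := fun k => hGB.mul (hc1B.mul ((BL.const a).mul (hb1B k)))
  have humB : ∀ k, BL (um k) := fun k => hGB.mul (hc2B.mul ((BL.const a).mul (hb2B k)))
  have hG0 : ∀ x, 0 ≤ G x := fun x => mul_self_nonneg _
  -- the directions
  have hdir : ∀ (k l : Fin n), k ≠ l → ∀ {u : F → ℝ}, BL u → (∀ x, 0 ≤ u x) →
      (∀ x, y k x ≤ y l x → u x = 0) → 0 ≤ ∫ x, fderiv ℝ u x (p k - p l) * h x := by
    intro k l hkl u hu h0 hzu
    obtain ⟨⟨L, hL⟩, A', hA'⟩ := hu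
    refine div_mono H (ℓ := innerSL ℝ (p k - p l)) ?_
      (mono_refl H.nonneg H.conc fun x => hI k l x) hL hA' h0 fun x hx => hzu x ?_
    · rw [innerSL_apply_apply, real_inner_self_eq_norm_sq, hp.norm_sub hkl]
    · rw [innerSL_apply_apply, inner_sub_left] at hx
      rw [hya, hya]
      linarith
  have d0 : 0 ≤ ∫ x, fderiv ℝ u0 x (p i - p j) * h x := by
    refine hdir i j hij hu0B (fun x => mul_nonneg (hG0 x) (le_max_left _ _)) fun x hx => ?_
    have : F0 x = 0 := by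
      apply hz
      rw [inner_sub_left]
      rw [hya, hya] at hx
      linarith
    simp only [hu0, hG, this, zero_mul]
  have dp : ∀ k ∈ si, 0 ≤ ∫ x, fderiv ℝ (up k) x (p i - p k) * h x := by
    intro k hk
    have hki : k ≠ i := Finset.ne_of_mem_erase hk
    refine hdir i k hki.symm (hupB k) (fun x => mul_nonneg (hG0 x) (mul_nonneg (cA_nonneg _ _)
      (mul_nonneg ha0.le (tA_nonneg _ _)))) fun x hx => ?_
    rcases le_total (y i x) (10 * ρ) with h1 | h1
    · simp only [hup, hc1, cA_zero hρ h1, zero_mul, mul_zero]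
    · simp only [hup, hb1, tA_zero (h1.trans hx), mul_zero]
  have dm : ∀ k ∈ sj, 0 ≤ ∫ x, fderiv ℝ (um k) x (p k - p j) * h x := by
    intro k hk
    have hkj : k ≠ j := Finset.ne_of_mem_erase hk
    refine hdir k j hkj (humB k) (fun x => mul_nonneg (hG0 x) (mul_nonneg (cA_nonneg _ _)
      (mul_nonneg ha0.le (tA_nonneg _ _)))) fun x hx => ?_
    rcases le_total (-(y j x)) (10 * ρ) with h1 | h1
    · simp only [hum, hc2, cA_zero hρ h1, zero_mul, mul_zero]
    · simp only [hum, hb2, tA_zero (h1.trans (neg_le_neg hx)), mul_zero]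
  -- integrability
  have hint : ∀ {u : F → ℝ}, BL u → ∀ w, Integrable fun x => fderiv ℝ u x w * h x := by
    intro u hu w
    obtain ⟨⟨L, hL⟩, A', hA'⟩ := hu
    refine bdd_int H.int (measurable_fderiv_apply_const ℝ u w) (M := L * ‖w‖) fun x => ?_
    rw [← Real.norm_eq_abs]
    exact (ContinuousLinearMap.le_opNorm _ _).trans
      (mul_le_mul_of_nonneg_right (norm_fderiv_le_of_lipschitz ℝ hL) (norm_nonneg _))
  have hFm : Measurable F0 := by
    obtain ⟨⟨L, hL⟩, -⟩ := hF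
    exact hL.continuous.measurable
  have hF2i : Integrable fun x => F0 x ^ 2 * h x := by
    obtain ⟨-, A', hA'⟩ := hF
    exact bdd_int H.int (hFm.pow_const 2) (Wt.sq_bdd hA')
  have hDi : Integrable fun x => ‖fderiv ℝ F0 x‖ ^ 2 * h x := by
    obtain ⟨⟨L, hL⟩, -⟩ := hF
    exact bdd_int H.int ((measurable_fderiv ℝ _).norm.pow_const 2) (sq_fderiv_bdd hL)
  -- the pointwise inequality
  have key : ∀ᵐ x : F, fderiv ℝ u0 x (p i - p j) * h x +
      (∑ k ∈ si, fderiv ℝ (up k) x (p i - p k) * h x +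
        ∑ k ∈ sj, fderiv ℝ (um k) x (p k - p j) * h x) ≤
      1587 * ρ * (‖fderiv ℝ F0 x‖ ^ 2 * h x) - 1 / (12 * ρ) * (F0 x ^ 2 * h x) := by
    have diff : ∀ {u : F → ℝ}, BL u → ∀ᵐ x : F, DifferentiableAt ℝ u x := by
      rintro u ⟨⟨L, hL⟩, -⟩
      exact hL.ae_differentiableAt
    have diffs : ∀ {u : Fin n → F → ℝ}, (∀ k, BL (u k)) →
        ∀ᵐ x : F, ∀ k, DifferentiableAt ℝ (u k) x := fun hu => ae_all_iff.2 fun k => diff (hu k)
    have kink : ∀ c : ℝ, ∀ᵐ x : F, ∀ k, y k x ≠ c := fun c => ae_all_iff.2 fun k => by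
      refine ae_ne_clm (v := p k) ?_ c
      have h1 : y k (p k) = 1 - 1 / n := by
        have := hp k k
        rw [if_pos rfl] at this
        exact this
      rw [h1]
      have h2 : 1 / (n : ℝ) ≤ 1 / 2 := one_div_le_one_div_of_le (by norm_num) hn2'
      linarith
    filter_upwards [diff hF, diff hv0B, diffs hupB, diffs humB, diff hc1B, diff hc2B,
      kink (-(2 * ρ)), kink (4 * ρ), kink (10 * ρ), kink (2 * ρ), kink (-(4 * ρ)),
      kink (-(10 * ρ)), kink (11 * ρ), kink (-(11 * ρ))]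
      with x hxF hxv hxp hxm hxc1 hxc2 k0 k1 k2 k3 k4 k5 k6 k7
    by_cases hx0 : h x = 0
    · simp [hx0]
    have hxN : NP p x ≤ ρ * n := by
      by_contra hc
      exact hx0 (hsup x (not_le.1 hc))
    have hNP : NP p x = ∑ k, |y k x| := rfl
    have hsumi : |y i x| + ∑ k ∈ si, |y k x| = NP p x := by
      rw [hsi, hNP]
      exact Finset.add_sum_erase Finset.univ (fun k => |y k x|) (Finset.mem_univ i)
    have hsumj : |y j x| + ∑ k ∈ sj, |y k x| = NP p x := by
      rw [hsj, hNP]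
      exact Finset.add_sum_erase Finset.univ (fun k => |y k x|) (Finset.mem_univ j)
    have hcard1 : (si.card : ℝ) = n - 1 := by
      rw [hsi, Finset.card_erase_of_mem (Finset.mem_univ i), Finset.card_univ, Fintype.card_fin,
        Nat.cast_sub hn]
      simp
    have hcard2 : (sj.card : ℝ) = n - 1 := by
      rw [hsj, Finset.card_erase_of_mem (Finset.mem_univ j), Finset.card_univ, Fintype.card_fin,
        Nat.cast_sub hn]
      simp
    have hb1s : a * ∑ k ∈ si, b1 k x < 1 := by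
      have h1 : ∑ k ∈ si, b1 k x ≤ ∑ k ∈ si, (|y k x| + 2 * ρ) :=
        Finset.sum_le_sum fun k _ => tA_le hρ _
      rw [Finset.sum_add_distrib, Finset.sum_const, nsmul_eq_mul, hcard1] at h1
      have h2 := abs_nonneg (y i x)
      have h3 : ∑ k ∈ si, b1 k x < 3 * ρ * n := by nlinarith
      calc a * ∑ k ∈ si, b1 k x < a * (3 * ρ * n) := mul_lt_mul_of_pos_left h3 ha0
        _ = 1 := by rw [ha]; field_simp
    have hb2s : a * ∑ k ∈ sj, b2 k x < 1 := by
      have h1 : ∑ k ∈ sj, b2 k x ≤ ∑ k ∈ sj, (|y k x| + 2 * ρ) :=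
        Finset.sum_le_sum fun k _ => by
          have := tA_le hρ (-(y k x))
          rwa [abs_neg] at this
      rw [Finset.sum_add_distrib, Finset.sum_const, nsmul_eq_mul, hcard2] at h1
      have h2 := abs_nonneg (y j x)
      have h3 : ∑ k ∈ sj, b2 k x < 3 * ρ * n := by nlinarith
      calc a * ∑ k ∈ sj, b2 k x < a * (3 * ρ * n) := mul_lt_mul_of_pos_left h3 ha0
        _ = 1 := by rw [ha]; field_simp
    have hb1s0 : 0 ≤ a * ∑ k ∈ si, b1 k x :=
      mul_nonneg ha0.le (Finset.sum_nonneg fun k _ => tA_nonneg _ _)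
    have hb2s0 : 0 ≤ a * ∑ k ∈ sj, b2 k x :=
      mul_nonneg ha0.le (Finset.sum_nonneg fun k _ => tA_nonneg _ _)
    -- the coefficient `P` is positive at `x`
    have hPpos : 0 < P x := by
      have h1 := pA_one_le hρ (y i x)
      have h2 := pA_one_le hρ (-(y j x))
      have h3 : c1 x * (a * ∑ k ∈ si, b1 k x) < 1 :=
        lt_of_le_of_lt (mul_le_of_le_one_left hb1s0 (cA_le_one _ _)) hb1s
      have h4 : c2 x * (a * ∑ k ∈ sj, b2 k x) < 1 :=
        lt_of_le_of_lt (mul_le_of_le_one_left hb2s0 (cA_le_one _ _)) hb2s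
      simp only [hP, hA]
      linarith
    have hu0v : fderiv ℝ u0 x = fderiv ℝ v0 x := by
      refine Filter.EventuallyEq.fderiv_eq ?_
      have hPc : Continuous P := by
        obtain ⟨⟨L, hL⟩, -⟩ := hPB
        exact hL.continuous
      filter_upwards [hPc.continuousAt.eventually (lt_mem_nhds hPpos)] with z hz'
      simp only [hu0, hv0, max_eq_right (le_of_lt hz')]
    rw [hu0v]
    set D := fderiv ℝ F0 x with hD
    set s : Finset (Fin n) := si.erase j with hs
    have hs' : s = sj.erase i := by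
      rw [hs, hsi, hsj, Finset.erase_right_comm]
    -- derivatives
    have hGd : HasFDerivAt G ((2 * F0 x) • D) x := by
      have := hxF.hasFDerivAt.mul hxF.hasFDerivAt
      refine this.congr_fderiv ?_
      rw [← hD, ← add_smul]; congr 1; ring
    have hnegd : ∀ {φ : ℝ → ℝ} {d : ℝ} (k : Fin n), HasDerivAt φ d (-(y k x)) →
        HasFDerivAt (fun z : F => φ (-(y k z))) (-(d • y k)) x := by
      intro φ d k hφ
      have h1 : HasFDerivAt (fun z : F => -(y k z)) (-(y k)) x := (y k).hasFDerivAt.neg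
      have := hφ.comp_hasFDerivAt x h1
      refine this.congr_fderiv ?_
      rw [smul_neg]
    obtain ⟨dI, hdI, hdI0, hdI1⟩ := pA_deriv hρ (k7 i) (k6 i)
    obtain ⟨dJ, hdJ, hdJ0, hdJ1⟩ := pA_deriv hρ (s := -(y j x)) (fun e => k6 j (by linarith))
      (fun e => k7 j (by linarith))
    have hAd : HasFDerivAt A (dI • y i + -(dJ • y j)) x :=
      (hdI.comp_hasFDerivAt x (y i).hasFDerivAt).add (hnegd j hdJ)
    have hVd : HasFDerivAt (fun z => G z * A z) (G x • (dI • y i + -(dJ • y j)) +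
        A x • ((2 * F0 x) • D)) x := hGd.mul hAd
    choose d1 hd1 hd1' using fun k => tA_deriv hρ (k0 k) (k1 k) (k2 k)
    choose d2 hd2 hd2' using fun k => tA_deriv hρ (s := -(y k x)) (fun e => k3 k (by linarith))
      (fun e => k4 k (by linarith)) (fun e => k5 k (by linarith))
    have hupd : ∀ k, HasFDerivAt (up k) (G x • (c1 x • (a • (d1 k • y k)) +
        (a * b1 k x) • fderiv ℝ c1 x) + (c1 x * (a * b1 k x)) • ((2 * F0 x) • D)) x := by
      intro k
      have h1 : HasFDerivAt (b1 k) (d1 k • y k) x :=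
        (hd1 k).comp_hasFDerivAt x (y k).hasFDerivAt
      exact hGd.mul (hxc1.hasFDerivAt.mul (h1.const_mul a))
    have humd : ∀ k, HasFDerivAt (um k) (G x • (c2 x • (a • (-(d2 k • y k))) +
        (a * b2 k x) • fderiv ℝ c2 x) + (c2 x * (a * b2 k x)) • ((2 * F0 x) • D)) x := by
      intro k
      have h1 : HasFDerivAt (b2 k) (-(d2 k • y k)) x := hnegd k (hd2 k)
      exact hGd.mul (hxc2.hasFDerivAt.mul (h1.const_mul a))
    have e1 : fderiv ℝ v0 x (p i - p j) + (∑ k ∈ si, fderiv ℝ (up k) x (p i - p k) +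
        ∑ k ∈ sj, fderiv ℝ (um k) x (p k - p j)) = fderiv ℝ (fun z => G z * A z) x (p i - p j) +
          (∑ k ∈ s, fderiv ℝ (up k) x (p j - p k) + ∑ k ∈ s, fderiv ℝ (um k) x (p k - p i)) := by
      have c1' : (fun z => G z * A z) = fun z => v0 z + (∑ k ∈ si, up k z + ∑ k ∈ sj, um k z) := by
        funext z
        simp only [hv0, hup, hum, hP, mul_sub, Finset.mul_sum]
        ring
      have c3 : HasFDerivAt (fun z => G z * A z) (fderiv ℝ v0 x + (∑ k ∈ si, fderiv ℝ (up k) x +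
          ∑ k ∈ sj, fderiv ℝ (um k) x)) x := by
        rw [c1']
        exact hxv.hasFDerivAt.add ((HasFDerivAt.fun_sum fun k _ => (hxp k).hasFDerivAt).add
          (HasFDerivAt.fun_sum fun k _ => (hxm k).hasFDerivAt))
      have c4 : ∑ k ∈ s, fderiv ℝ (up k) x (p j - p k) =
          ∑ k ∈ si, fderiv ℝ (up k) x (p j - p k) := by
        rw [hs]
        exact Finset.sum_erase _ (by simp)
      have c5 : ∑ k ∈ s, fderiv ℝ (um k) x (p k - p i) =
          ∑ k ∈ sj, fderiv ℝ (um k) x (p k - p i) := by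
        rw [hs']
        exact Finset.sum_erase _ (by simp)
      rw [c3.fderiv, c4, c5]
      simp only [add_apply, sum_apply]
      rw [add_assoc, add_assoc]
      congr 1
      have c6 : ∑ k ∈ si, fderiv ℝ (up k) x (p i - p k) =
          ∑ k ∈ si, (fderiv ℝ (up k) x (p i - p j) + fderiv ℝ (up k) x (p j - p k)) :=
        Finset.sum_congr rfl fun k _ => by rw [← map_add]; congr 1; abel
      have c7 : ∑ k ∈ sj, fderiv ℝ (um k) x (p k - p j) =
          ∑ k ∈ sj, (fderiv ℝ (um k) x (p i - p j) + fderiv ℝ (um k) x (p k - p i)) :=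
        Finset.sum_congr rfl fun k _ => by rw [← map_add]; congr 1; abel
      rw [c6, c7, Finset.sum_add_distrib, Finset.sum_add_distrib]
      ring
    have hmem : ∀ k ∈ s, k ≠ i ∧ k ≠ j := by
      intro k hk
      rw [hs, Finset.mem_erase, hsi, Finset.mem_erase] at hk
      exact ⟨hk.2.1, hk.1⟩
    have hc1d : ∀ k ∈ s, fderiv ℝ c1 x (p j - p k) = 0 := by
      intro k hk
      refine fderiv_zero_of_const hxc1 fun t => ?_
      have : y i (p j - p k) = 0 := by
        rw [hyw, if_neg hij, if_neg (hmem k hk).1.symm, sub_zero]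
      simp only [hc1, map_add, map_smul, this, smul_zero, add_zero]
    have hc2d : ∀ k ∈ s, fderiv ℝ c2 x (p k - p i) = 0 := by
      intro k hk
      refine fderiv_zero_of_const hxc2 fun t => ?_
      have : y j (p k - p i) = 0 := by
        rw [hyw, if_neg (hmem k hk).2.symm, if_neg hij.symm, sub_zero]
      simp only [hc2, map_add, map_smul, this, smul_zero, add_zero]
    set Z : ℝ := A x * D (p i - p j) + (∑ k ∈ s, (c1 x * (a * b1 k x)) * D (p j - p k) +
      ∑ k ∈ s, (c2 x * (a * b2 k x)) * D (p k - p i)) with hZ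
    set W : ℝ := dI + dJ - c1 x * (a * ∑ k ∈ s, d1 k) - c2 x * (a * ∑ k ∈ s, d2 k) with hW
    have e2 : fderiv ℝ (fun z => G z * A z) x (p i - p j) +
          (∑ k ∈ s, fderiv ℝ (up k) x (p j - p k) + ∑ k ∈ s, fderiv ℝ (um k) x (p k - p i)) =
        G x * W + (2 * F0 x) * Z := by
      rw [hVd.fderiv]
      have g1 : ∀ k ∈ s, fderiv ℝ (up k) x (p j - p k) = -(G x * (c1 x * (a * d1 k))) +
          (2 * F0 x) * ((c1 x * (a * b1 k x)) * D (p j - p k)) := by
        intro k hk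
        have h1 : y k (p j - p k) = -1 := by
          rw [hyw, if_neg (hmem k hk).2, if_pos rfl]; ring
        rw [(hupd k).fderiv]
        simp only [add_apply, smul_apply, smul_eq_mul, h1, hc1d k hk]
        ring
      have g2 : ∀ k ∈ s, fderiv ℝ (um k) x (p k - p i) = -(G x * (c2 x * (a * d2 k))) +
          (2 * F0 x) * ((c2 x * (a * b2 k x)) * D (p k - p i)) := by
        intro k hk
        have h1 : y k (p k - p i) = 1 := by
          rw [hyw, if_pos rfl, if_neg (hmem k hk).1]; ring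
        rw [(humd k).fderiv]
        simp only [add_apply, smul_apply, neg_apply, smul_eq_mul, h1, hc2d k hk]
        ring
      have h1 : y i (p i - p j) = 1 := by rw [hyw, if_pos rfl, if_neg hij]; ring
      have h2 : y j (p i - p j) = -1 := by rw [hyw, if_neg hij.symm, if_pos rfl]; ring
      rw [Finset.sum_congr rfl g1, Finset.sum_congr rfl g2, Finset.sum_add_distrib,
        Finset.sum_add_distrib, Finset.sum_neg_distrib, Finset.sum_neg_distrib,
        ← Finset.mul_sum, ← Finset.mul_sum, ← Finset.mul_sum, ← Finset.mul_sum, ← Finset.mul_sum,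
        ← Finset.mul_sum, ← Finset.mul_sum, ← Finset.mul_sum]
      simp only [add_apply, smul_apply, neg_apply, smul_eq_mul, h1, h2, hZ, hW]
      ring
    have e3 : fderiv ℝ v0 x (p i - p j) * h x +
        (∑ k ∈ si, fderiv ℝ (up k) x (p i - p k) * h x +
          ∑ k ∈ sj, fderiv ℝ (um k) x (p k - p j) * h x) = (G x * W + (2 * F0 x) * Z) * h x := by
      rw [← e2, ← e1, add_mul, add_mul, Finset.sum_mul, Finset.sum_mul]
    rw [e3]
    have hh := H.nonneg x
    by_cases hF0 : F0 x = 0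
    · have : G x = 0 := by simp only [hG, hF0, mul_zero]
      rw [this, hF0]
      have h1 : 0 ≤ 1587 * ρ * (‖D‖ ^ 2 * h x) := by positivity
      simpa using h1
    have hyij : y j x < y i x := by
      by_contra hc
      refine hF0 (hz x ?_)
      rw [inner_sub_left]
      have := not_lt.1 hc
      rw [hya, hya] at this
      linarith
    -- the divergence
    have hcs : (s.card : ℝ) = n - 2 := by
      have hjm : j ∈ si := by rw [hsi]; exact Finset.mem_erase.2 ⟨hij.symm, Finset.mem_univ j⟩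
      rw [hs, Finset.card_erase_of_mem hjm, hsi, Finset.card_erase_of_mem (Finset.mem_univ i),
        Finset.card_univ, Fintype.card_fin, Nat.sub_sub, Nat.cast_sub (by omega)]
      norm_num
    have hsums : |y j x| + ∑ k ∈ s, |y k x| = ∑ k ∈ si, |y k x| := by
      rw [hs]
      exact Finset.add_sum_erase si (fun k => |y k x|)
        (by rw [hsi]; exact Finset.mem_erase.2 ⟨hij.symm, Finset.mem_univ j⟩)
    have hbound : ∀ d : Fin n → ℝ, (∀ k, 1 - |y k x| / (2 * ρ) ≤ d k) →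
        10 * ρ < |y i x| + |y j x| → (n : ℝ) / 2 ≤ ∑ k ∈ s, d k := by
      intro d hd hbig
      have h1 : ∑ k ∈ s, (1 - |y k x| / (2 * ρ)) ≤ ∑ k ∈ s, d k :=
        Finset.sum_le_sum fun k _ => hd k
      rw [Finset.sum_sub_distrib, Finset.sum_const, nsmul_eq_mul, mul_one, hcs,
        ← Finset.sum_div] at h1
      have h2 : (∑ k ∈ s, |y k x|) / (2 * ρ) ≤ n / 2 - 5 := by
        rw [div_le_iff₀ (by positivity)]
        have : (n / 2 - 5 : ℝ) * (2 * ρ) = ρ * n - 10 * ρ := by ring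
        rw [this]
        linarith
      linarith
    have hbig1 : 10 * ρ < y i x → 10 * ρ < |y i x| + |y j x| := fun h1 => by
      have := le_abs_self (y i x)
      have := abs_nonneg (y j x)
      linarith
    have hbig2 : 10 * ρ < -(y j x) → 10 * ρ < |y i x| + |y j x| := fun h1 => by
      have := neg_le_abs (y j x)
      have := abs_nonneg (y i x)
      linarith
    have hd2'' : ∀ k, 1 - |y k x| / (2 * ρ) ≤ d2 k := fun k => by
      have := hd2' k
      rwa [abs_neg] at this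
    have hT1 : 0 ≤ c1 x * (a * ∑ k ∈ s, d1 k) := by
      rcases le_or_gt (y i x) (10 * ρ) with h1 | h1
      · simp only [hc1, cA_zero hρ h1, zero_mul, le_refl]
      · have := hbound d1 hd1' (hbig1 h1)
        exact mul_nonneg (cA_nonneg _ _) (mul_nonneg ha0.le (by linarith))
    have hT2 : 0 ≤ c2 x * (a * ∑ k ∈ s, d2 k) := by
      rcases le_or_gt (-(y j x)) (10 * ρ) with h1 | h1
      · simp only [hc2, cA_zero hρ h1, zero_mul, le_refl]
      · have := hbound d2 hd2'' (hbig2 h1)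
        exact mul_nonneg (cA_nonneg _ _) (mul_nonneg ha0.le (by linarith))
    have han : a * (n / 2) = 1 / (6 * ρ) := by rw [ha]; field_simp; norm_num
    have hWle : W ≤ -(1 / (6 * ρ)) := by
      rcases lt_or_gt_of_ne (k6 i) with h1 | h1
      · rcases lt_or_gt_of_ne (k7 i) with h2 | h2
        · have h3 : 11 * ρ < -(y j x) := by linarith
          have h4 : c2 x = 1 := cA_one hρ h3.le
          have h5 : 1 / (6 * ρ) ≤ c2 x * (a * ∑ k ∈ s, d2 k) := by
            rw [h4, one_mul, ← han]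
            exact mul_le_mul_of_nonneg_left (hbound d2 hd2'' (hbig2 (by linarith))) ha0.le
          rw [hW]; linarith
        · have := hdI1 h2 h1
          rw [hW]; linarith
      · have h4 : c1 x = 1 := cA_one hρ h1.le
        have h5 : 1 / (6 * ρ) ≤ c1 x * (a * ∑ k ∈ s, d1 k) := by
          rw [h4, one_mul, ← han]
          exact mul_le_mul_of_nonneg_left (hbound d1 hd1' (hbig1 (by linarith))) ha0.le
        rw [hW]; linarith
    -- the field
    have hDw : ∀ k l, |D (p k - p l)| ≤ 3 / 2 * ‖D‖ := fun k l => by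
      rw [← Real.norm_eq_abs]
      refine (D.le_opNorm _).trans ?_
      rw [mul_comm]
      exact mul_le_mul_of_nonneg_right (hp.norm_sub_le k l) (norm_nonneg _)
    have hA0 : 0 ≤ A x := by
      have h1 := pA_one_le hρ (y i x)
      have h2 := pA_one_le hρ (-(y j x))
      simp only [hA]; linarith
    have hA1 : A x ≤ 2 + 22 / 6 := pA_add_le hρ (by linarith)
    have hS1 : |∑ k ∈ s, (c1 x * (a * b1 k x)) * D (p j - p k)| ≤ 3 / 2 * ‖D‖ := by
      calc |∑ k ∈ s, (c1 x * (a * b1 k x)) * D (p j - p k)|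
          ≤ ∑ k ∈ s, |(c1 x * (a * b1 k x)) * D (p j - p k)| := Finset.abs_sum_le_sum_abs _ _
        _ ≤ ∑ k ∈ s, (a * b1 k x) * (3 / 2 * ‖D‖) := by
            refine Finset.sum_le_sum fun k _ => ?_
            have h1 : 0 ≤ a * b1 k x := mul_nonneg ha0.le (tA_nonneg _ _)
            rw [abs_mul, abs_of_nonneg (mul_nonneg (cA_nonneg _ _) h1)]
            exact mul_le_mul (mul_le_of_le_one_left h1 (cA_le_one _ _)) (hDw _ _) (abs_nonneg _) h1
        _ = (a * ∑ k ∈ s, b1 k x) * (3 / 2 * ‖D‖) := by rw [← Finset.sum_mul, ← Finset.mul_sum]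
        _ ≤ (a * ∑ k ∈ si, b1 k x) * (3 / 2 * ‖D‖) := by
            refine mul_le_mul_of_nonneg_right (mul_le_mul_of_nonneg_left ?_ ha0.le) (by positivity)
            exact Finset.sum_le_sum_of_subset_of_nonneg (Finset.erase_subset _ _)
              fun k _ _ => tA_nonneg _ _
        _ ≤ 1 * (3 / 2 * ‖D‖) := mul_le_mul_of_nonneg_right hb1s.le (by positivity)
        _ = _ := one_mul _
    have hS2 : |∑ k ∈ s, (c2 x * (a * b2 k x)) * D (p k - p i)| ≤ 3 / 2 * ‖D‖ := by
      calc |∑ k ∈ s, (c2 x * (a * b2 k x)) * D (p k - p i)|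
          ≤ ∑ k ∈ s, |(c2 x * (a * b2 k x)) * D (p k - p i)| := Finset.abs_sum_le_sum_abs _ _
        _ ≤ ∑ k ∈ s, (a * b2 k x) * (3 / 2 * ‖D‖) := by
            refine Finset.sum_le_sum fun k _ => ?_
            have h1 : 0 ≤ a * b2 k x := mul_nonneg ha0.le (tA_nonneg _ _)
            rw [abs_mul, abs_of_nonneg (mul_nonneg (cA_nonneg _ _) h1)]
            exact mul_le_mul (mul_le_of_le_one_left h1 (cA_le_one _ _)) (hDw _ _) (abs_nonneg _) h1
        _ = (a * ∑ k ∈ s, b2 k x) * (3 / 2 * ‖D‖) := by rw [← Finset.sum_mul, ← Finset.mul_sum]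
        _ ≤ (a * ∑ k ∈ sj, b2 k x) * (3 / 2 * ‖D‖) := by
            refine mul_le_mul_of_nonneg_right (mul_le_mul_of_nonneg_left ?_ ha0.le) (by positivity)
            rw [hs']
            exact Finset.sum_le_sum_of_subset_of_nonneg (Finset.erase_subset _ _)
              fun k _ _ => tA_nonneg _ _
        _ ≤ 1 * (3 / 2 * ‖D‖) := mul_le_mul_of_nonneg_right hb2s.le (by positivity)
        _ = _ := one_mul _
    have hZle : |Z| ≤ 23 / 2 * ‖D‖ := by
      have h1 : |A x * D (p i - p j)| ≤ (2 + 22 / 6) * (3 / 2 * ‖D‖) := by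
        rw [abs_mul, abs_of_nonneg hA0]
        exact mul_le_mul hA1 (hDw _ _) (abs_nonneg _) (by norm_num)
      calc |Z| ≤ |A x * D (p i - p j)| + |∑ k ∈ s, (c1 x * (a * b1 k x)) * D (p j - p k) +
            ∑ k ∈ s, (c2 x * (a * b2 k x)) * D (p k - p i)| := by rw [hZ]; exact abs_add_le _ _
        _ ≤ |A x * D (p i - p j)| + (|∑ k ∈ s, (c1 x * (a * b1 k x)) * D (p j - p k)| +
            |∑ k ∈ s, (c2 x * (a * b2 k x)) * D (p k - p i)|) := by
            gcongr; exact abs_add_le _ _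
        _ ≤ (2 + 22 / 6) * (3 / 2 * ‖D‖) + (3 / 2 * ‖D‖ + 3 / 2 * ‖D‖) :=
            add_le_add h1 (add_le_add hS1 hS2)
        _ = 23 / 2 * ‖D‖ := by ring
    have f1 : G x * W ≤ F0 x ^ 2 * (-(1 / (6 * ρ))) := by
      have : G x = F0 x ^ 2 := by simp only [hG]; ring
      rw [this]
      exact mul_le_mul_of_nonneg_left hWle (sq_nonneg _)
    have f2 : (2 * F0 x) * Z ≤ 2 * |F0 x| * (23 / 2 * ‖D‖) := by
      calc (2 * F0 x) * Z ≤ |(2 * F0 x) * Z| := le_abs_self _
        _ = 2 * |F0 x| * |Z| := by rw [abs_mul, abs_mul]; simp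
        _ ≤ _ := mul_le_mul_of_nonneg_left hZle (by positivity)
    have f3 : 2 * |F0 x| * (23 / 2 * ‖D‖) ≤ 1 / (12 * ρ) * F0 x ^ 2 + 1587 * ρ * ‖D‖ ^ 2 := by
      have h1 : 0 ≤ (1 / (12 * ρ)) * (|F0 x| - 138 * ρ * ‖D‖) ^ 2 := by positivity
      have h2 : (1 / (12 * ρ)) * (|F0 x| - 138 * ρ * ‖D‖) ^ 2 =
          1 / (12 * ρ) * F0 x ^ 2 - 2 * |F0 x| * (23 / 2 * ‖D‖) + 1587 * ρ * ‖D‖ ^ 2 := by
        rw [← sq_abs (F0 x)]
        field_simp
        ring
      linarith
    have f4 : F0 x ^ 2 * (-(1 / (6 * ρ))) = - (2 * (1 / (12 * ρ) * F0 x ^ 2)) := by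
      field_simp; ring
    have f5 : G x * W + (2 * F0 x) * Z ≤
        1587 * ρ * ‖D‖ ^ 2 - 1 / (12 * ρ) * F0 x ^ 2 := by linarith
    calc (G x * W + (2 * F0 x) * Z) * h x
        ≤ (1587 * ρ * ‖D‖ ^ 2 - 1 / (12 * ρ) * F0 x ^ 2) * h x :=
          mul_le_mul_of_nonneg_right f5 hh
      _ = _ := by ring
  have I1 : Integrable fun x => ∑ k ∈ si, fderiv ℝ (up k) x (p i - p k) * h x :=
    integrable_finsetSum si fun k _ => hint (hupB k) (p i - p k)
  have I2 : Integrable fun x => ∑ k ∈ sj, fderiv ℝ (um k) x (p k - p j) * h x :=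
    integrable_finsetSum sj fun k _ => hint (humB k) (p k - p j)
  have hsum : ∫ x, (fderiv ℝ u0 x (p i - p j) * h x +
      (∑ k ∈ si, fderiv ℝ (up k) x (p i - p k) * h x +
        ∑ k ∈ sj, fderiv ℝ (um k) x (p k - p j) * h x)) ≤
      ∫ x, (1587 * ρ * (‖fderiv ℝ F0 x‖ ^ 2 * h x) - 1 / (12 * ρ) * (F0 x ^ 2 * h x)) :=
    integral_mono_ae ((hint hu0B (p i - p j)).add (I1.add I2))
      ((hDi.const_mul (1587 * ρ)).sub (hF2i.const_mul (1 / (12 * ρ)))) key
  have hL : 0 ≤ ∫ x, (fderiv ℝ u0 x (p i - p j) * h x +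
      (∑ k ∈ si, fderiv ℝ (up k) x (p i - p k) * h x +
        ∑ k ∈ sj, fderiv ℝ (um k) x (p k - p j) * h x)) := by
    have I3 : Integrable fun x => (∑ k ∈ si, fderiv ℝ (up k) x (p i - p k) * h x +
        ∑ k ∈ sj, fderiv ℝ (um k) x (p k - p j) * h x) := I1.add I2
    rw [integral_add (hint hu0B (p i - p j)) I3, integral_add I1 I2,
      integral_finsetSum si fun k _ => hint (hupB k) (p i - p k),
      integral_finsetSum sj fun k _ => hint (humB k) (p k - p j)]
    exact add_nonneg d0 (add_nonneg (Finset.sum_nonneg fun k hk => dp k hk)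
      (Finset.sum_nonneg fun k hk => dm k hk))
  have hR : ∫ x, (1587 * ρ * (‖fderiv ℝ F0 x‖ ^ 2 * h x) - 1 / (12 * ρ) * (F0 x ^ 2 * h x)) =
      1587 * ρ * En h F0 - 1 / (12 * ρ) * ∫ x, F0 x ^ 2 * h x := by
    rw [integral_sub (hDi.const_mul _) (hF2i.const_mul _), integral_const_mul, integral_const_mul]
    rfl
  have hfin : 0 ≤ 1587 * ρ * En h F0 - 1 / (12 * ρ) * ∫ x, F0 x ^ 2 * h x := by
    rw [← hR]
    exact hL.trans hsum
  have h12 : 0 < 12 * ρ := by positivity
  have h1 : (12 * ρ) * (1 / (12 * ρ) * ∫ x, F0 x ^ 2 * h x) ≤ (12 * ρ) * (1587 * ρ * En h F0) :=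
    mul_le_mul_of_nonneg_left (by linarith) h12.le
  calc ∫ x, F0 x ^ 2 * h x = (12 * ρ) * (1 / (12 * ρ) * ∫ x, F0 x ^ 2 * h x) := by field_simp
    _ ≤ (12 * ρ) * (1587 * ρ * En h F0) := h1
    _ = _ := by ring

end

end Pool.Agent.Lib.MP_8d00da_gt.h42s
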