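import Pool.Agent.Lib.MP_8d00da_gt.h42s.Hardy
import Pool.Agent.Lib.MP_8d00da_gt.h42s.Even
import Pool.Agent.Lib.MP_8d00da_gt.h42s.Parity

/-!
# The Poincaré inequality for 1-symmetric weights of small support
-/

namespace Pool.Agent.Lib.MP_8d00da_gt.h42s

open MeasureTheory Set Filter
open Pool.Agent.Lib.MP_8d00da_gt.h25 Pool.Agent.Lib.MP_8d00da_gt.h42
open scoped Topology NNReal

variable {n : ℕ}

/-- Positive part of the `i`-th coordinate. -/
noncomputable def ps (i : Fin n) (x : Vn n) : Vn n :=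
  WithLp.toLp 2 fun j => if j = i then max 0 (x j) else x j

lemma ps_apply (i j : Fin n) (x : Vn n) : ps i x j = if j = i then max 0 (x j) else x j := rfl

lemma ps_lip (i : Fin n) : LipschitzWith 1 (ps i : Vn n → Vn n) := by
  refine LipschitzWith.of_dist_le_mul fun x y => ?_
  rw [NNReal.coe_one, one_mul, dist_eq_norm, dist_eq_norm, EuclideanSpace.norm_eq,
    EuclideanSpace.norm_eq]
  apply Real.sqrt_le_sqrt
  refine Finset.sum_le_sum fun j _ => ?_
  refine pow_le_pow_left₀ (norm_nonneg _) ?_ 2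
  simp only [PiLp.sub_apply, ps_apply, Real.norm_eq_abs]
  split_ifs
  · have := abs_max_sub_max_le_abs (x j) (y j) 0
    rwa [max_comm (x j), max_comm (y j)] at this
  · exact le_rfl

lemma ps_pos {i : Fin n} {x : Vn n} (hx : 0 ≤ x i) : ps i x = x := by
  ext j
  rw [ps_apply]
  split_ifs with hj
  · subst hj; exact max_eq_right hx
  · rfl

lemma fl_ps {i : Fin n} {x : Vn n} (hx : x i ≤ 0) : fl i (ps i x) = ps i x := by
  ext j
  rw [fl_apply]
  split_ifs with hj
  · subst hj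
    rw [ps_apply, if_pos rfl, max_eq_left hx]
    simp
  · rfl

lemma fderiv_comp_iso {F : Type*} [NormedAddCommGroup F] [InnerProductSpace ℝ F]
    (T : F ≃ₗᵢ[ℝ] F) (f : F → ℝ) (x : F) :
    ‖fderiv ℝ (fun y => f (T y)) x‖ = ‖fderiv ℝ f (T x)‖ := by
  have h1 : fderiv ℝ (fun y => f (T y)) x =
      (fderiv ℝ f (T x)).comp (T.toContinuousLinearEquiv : F →L[ℝ] F) :=
    T.toContinuousLinearEquiv.comp_right_fderiv
  rw [h1]
  exact ContinuousLinearMap.opNorm_comp_linearIsometryEquiv (fderiv ℝ f (T x)) T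

theorem odd_class {h : Vn n → ℝ} {r B : ℝ} (H : LCW h r B) (hS : SymW h) {ρ : ℝ} (hρ : 0 < ρ)
    (hsup : ∀ x, ρ * n < N1 x → h x = 0) : OddP (fun i : Fin n => fl i) h ((38 * ρ) ^ 2) := by
  intro i q L hq A hA hodd
  simp only at hodd
  set F0 : Vn n → ℝ := fun x => q (ps i x) with hF0
  have hFL : LipschitzWith L F0 := by
    have := hq.comp (ps_lip i)
    rwa [mul_one] at this
  have hFA : ∀ x, |F0 x| ≤ A := fun x => hA _
  have hF : BL F0 := ⟨⟨L, hFL⟩, A, hFA⟩
  have hz : ∀ x : Vn n, x i ≤ 0 → F0 x = 0 := by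
    intro x hx
    have h1 := hodd (ps i x)
    rw [fl_ps hx] at h1
    simp only [hF0]
    linarith
  have key := half_space H hS hρ hsup i hF hz
  have hpos : ∀ x : Vn n, 0 ≤ x i → F0 x = q x := fun x hx => by
    simp only [hF0, ps_pos hx]
  have hfi : ∀ x : Vn n, (fl i x) i = - x i := fun x => by rw [fl_apply, if_pos rfl]
  -- pointwise identities
  have e1 : ∀ x, q x ^ 2 = F0 x ^ 2 + F0 (fl i x) ^ 2 := by
    intro x
    rcases le_total 0 (x i) with hx | hx
    · rw [hpos x hx, hz (fl i x) (by rw [hfi]; linarith)]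
      ring
    · rw [hz x hx, hpos (fl i x) (by rw [hfi]; linarith), hodd]
      ring
  have e2 : ∀ᵐ x : Vn n, ‖fderiv ℝ F0 x‖ ^ 2 + ‖fderiv ℝ F0 (fl i x)‖ ^ 2 =
      ‖fderiv ℝ q x‖ ^ 2 := by
    have ppos : ∀ x : Vn n, 0 < x i → fderiv ℝ F0 x = fderiv ℝ q x := by
      intro x hx
      refine Filter.EventuallyEq.fderiv_eq ?_
      have h1 : {y : Vn n | 0 < y i} ∈ 𝓝 x :=
        (isOpen_lt continuous_const (co_lip i).continuous).mem_nhds hx
      filter_upwards [h1] with y hy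
      exact hpos y (le_of_lt hy)
    have pneg : ∀ x : Vn n, x i < 0 → fderiv ℝ F0 x = 0 := by
      intro x hx
      have h1 : {y : Vn n | y i < 0} ∈ 𝓝 x :=
        (isOpen_lt (co_lip i).continuous continuous_const).mem_nhds hx
      have h2 : F0 =ᶠ[𝓝 x] fun _ => 0 := by
        filter_upwards [h1] with y hy
        exact hz y (le_of_lt hy)
      rw [h2.fderiv_eq]; simp
    have hqn : ∀ x, ‖fderiv ℝ q (fl i x)‖ = ‖fderiv ℝ q x‖ := by
      intro x
      rw [← fderiv_comp_iso (fl i) q x]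
      have : (fun y => q (fl i y)) = fun y => - q y := funext hodd
      rw [this]
      have h3 : fderiv ℝ (fun y => - q y) x = - fderiv ℝ q x := by
        rw [fderiv_fun_neg]
      rw [h3, norm_neg]
    filter_upwards [ae_ne i 0] with x hx
    rcases lt_or_gt_of_ne hx with h1 | h1
    · rw [pneg x h1, ppos (fl i x) (by rw [hfi]; linarith), hqn, norm_zero]
      ring
    · rw [ppos x h1, pneg (fl i x) (by rw [hfi]; linarith), norm_zero]
      ring
  have hFm : Measurable F0 := hFL.continuous.measurable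
  have i1 : Integrable fun x => F0 x ^ 2 * h x := bdd_int H.int (hFm.pow_const 2) (Wt.sq_bdd hFA)
  have i2 : Integrable fun x => ‖fderiv ℝ F0 x‖ ^ 2 * h x :=
    bdd_int H.int ((measurable_fderiv ℝ _).norm.pow_const 2) (sq_fderiv_bdd hFL)
  have mp := (fl i : Vn n ≃ₗᵢ[ℝ] Vn n).measurePreserving
  have me := (fl i : Vn n ≃ₗᵢ[ℝ] Vn n).toHomeomorph.measurableEmbedding
  have j1 : ∫ x, F0 (fl i x) ^ 2 * h x = ∫ x, F0 x ^ 2 * h x := by
    rw [← mp.integral_comp me (fun x => F0 x ^ 2 * h x)]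
    exact integral_congr_ae (Eventually.of_forall fun x => by simp only [hS.flip])
  have j2 : ∫ x, ‖fderiv ℝ F0 (fl i x)‖ ^ 2 * h x = ∫ x, ‖fderiv ℝ F0 x‖ ^ 2 * h x := by
    rw [← mp.integral_comp me (fun x => ‖fderiv ℝ F0 x‖ ^ 2 * h x)]
    exact integral_congr_ae (Eventually.of_forall fun x => by simp only [hS.flip])
  have k1 : Integrable fun x => F0 (fl i x) ^ 2 * h x := by
    have := (mp.integrable_comp_emb me).2 i1
    refine this.congr (Eventually.of_forall fun x => ?_)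
    simp only [Function.comp_apply, hS.flip]
  have k2 : Integrable fun x => ‖fderiv ℝ F0 (fl i x)‖ ^ 2 * h x := by
    have := (mp.integrable_comp_emb me).2 i2
    refine this.congr (Eventually.of_forall fun x => ?_)
    simp only [Function.comp_apply, hS.flip]
  have s1 : ∫ x, q x ^ 2 * h x = 2 * ∫ x, F0 x ^ 2 * h x := by
    have : (fun x => q x ^ 2 * h x) = fun x => F0 x ^ 2 * h x + F0 (fl i x) ^ 2 * h x := by
      funext x; rw [e1 x]; ring
    rw [this, integral_add i1 k1, j1]; ring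
  have s2 : En h q = 2 * En h F0 := by
    have : ∫ x, ‖fderiv ℝ q x‖ ^ 2 * h x =
        ∫ x, (‖fderiv ℝ F0 x‖ ^ 2 * h x + ‖fderiv ℝ F0 (fl i x)‖ ^ 2 * h x) := by
      refine integral_congr_ae ?_
      filter_upwards [e2] with x hx
      rw [← hx]; ring
    unfold En
    rw [this, integral_add i2 k2, j2]; ring
  rw [s1, s2]
  linarith

lemma norm_sq_ee (D : Vn n →L[ℝ] ℝ) : ∑ i, (D (ee i)) ^ 2 = 1 * ‖D‖ ^ 2 := by
  rw [one_mul, norm_sq_fderiv (EuclideanSpace.basisFun (Fin n) ℝ) D]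
  refine Finset.sum_congr rfl fun i _ => ?_
  rw [EuclideanSpace.basisFun_apply]
  rfl

/-- **Poincaré inequality for 1-symmetric weights supported in `{‖x‖₁ ≤ ρ n}`.** -/
theorem small_support {h : Vn n → ℝ} {r B : ℝ} (H : LCW h r B) (hS : SymW h) {ρ : ℝ} (hρ : 0 < ρ)
    (hsup : ∀ x, ρ * n < N1 x → h x = 0) {f : Vn n → ℝ} {L : ℝ≥0} (hf : LipschitzWith L f) {A : ℝ}
    (hA : ∀ x, |f x| ≤ A) (hf0 : ∫ x, f x * h x = 0) :
    ∫ x, f x ^ 2 * h x ≤ 2 * (38 * ρ) ^ 2 * En h f := by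
  have hO := odd_class H hS hρ hsup
  refine parity H.meas H.nonneg H.int (fun i => fl i) fl_fl fl_comm hS.flip ?_ ?_ hf hA hf0
  · intro i q L' hq A' hA' hodd
    refine (hO i q L' hq A' hA' hodd).trans ?_
    have := En_nonneg H.wt (f := q)
    nlinarith [sq_nonneg (38 * ρ)]
  · intro f L hf A hA hev hm
    exact even_poincare H.wt H.int H.supp hf hA (fun i : Fin n => fl i) (fun i => ee i) one_pos
      norm_sq_ee (fun i => fl_ee i) hS.flip (by positivity) hO hev hm

end Pool.Agent.Lib.MP_8d00da_gt.h42s
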