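import Pool.Agent.Lib.MP_8d00da_gt.h42s.PDefs
import Pool.Agent.Lib.MP_8d00da_gt.h42s.Odd

/-!
# From a half space to the odd functions under a reflection
-/

namespace Pool.Agent.Lib.MP_8d00da_gt.h42s

open MeasureTheory Set Filter
open Pool.Agent.Lib.MP_8d00da_gt.h25 Pool.Agent.Lib.MP_8d00da_gt.h42
open scoped Topology NNReal

variable {F : Type*} [NormedAddCommGroup F] [InnerProductSpace ℝ F]
    [FiniteDimensional ℝ F] [MeasurableSpace F] [BorelSpace F] {n : ℕ}

private lemma ae_inner_ne {w : F} (hw : w ≠ 0) : ∀ᵐ x : F, (inner ℝ w x : ℝ) ≠ 0 := by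
  have h1 : (LinearMap.ker (innerSL ℝ w : F →L[ℝ] ℝ).toLinearMap) ≠ ⊤ := by
    intro h
    have h2 : w ∈ LinearMap.ker (innerSL ℝ w : F →L[ℝ] ℝ).toLinearMap := by
      rw [h]; trivial
    rw [LinearMap.mem_ker] at h2
    have h3 : (inner ℝ w w : ℝ) = 0 := h2
    exact hw (inner_self_eq_zero.1 h3)
  have h2 := Measure.addHaar_submodule (volume : Measure F) _ h1
  rw [ae_iff]
  refine le_antisymm ((measure_mono fun x hx => ?_).trans h2.le) zero_le
  simp only [ne_eq, not_not, mem_ofPred_eq] at hx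
  exact hx

/-- The projection to a half space. -/
private noncomputable def hQ (w x : F) : F := x - (min (inner ℝ w x : ℝ) 0 / 2) • w

private lemma hQ_lip {w : F} (hw : ‖w‖ ^ 2 = 2) : LipschitzWith 1 (hQ w : F → F) := by
  refine LipschitzWith.of_dist_le_mul fun x y => ?_
  rw [NNReal.coe_one, one_mul, dist_eq_norm, dist_eq_norm]
  set a : ℝ := inner ℝ w x with ha
  set b : ℝ := inner ℝ w y with hb
  set c : ℝ := min a 0 - min b 0 with hc
  have e1 : hQ w x - hQ w y = (x - y) - (c / 2) • w := by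
    simp only [hQ, ← ha, ← hb, hc]
    module
  have e2 : ‖(x - y) - (c / 2) • w‖ ^ 2 = ‖x - y‖ ^ 2 - c * (a - b) + c ^ 2 / 2 := by
    rw [norm_sub_sq_real, inner_smul_right, norm_smul, mul_pow, hw, inner_sub_left,
      real_inner_comm w x, real_inner_comm w y, ← ha, ← hb, Real.norm_eq_abs, sq_abs]
    ring
  have e3 : c ^ 2 ≤ c * (a - b) := by
    rcases le_total a 0 with h1 | h1 <;> rcases le_total b 0 with h2 | h2
    · rw [hc, min_eq_left h1, min_eq_left h2]; nlinarith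
    · rw [hc, min_eq_left h1, min_eq_right h2]; nlinarith
    · rw [hc, min_eq_right h1, min_eq_left h2]; nlinarith
    · rw [hc, min_eq_right h1, min_eq_right h2]; simp
  rw [e1]
  refine abs_le_of_sq_le_sq' ?_ (norm_nonneg _) |>.2
  rw [e2]
  nlinarith [sq_nonneg c]

private lemma hQ_pos {w x : F} (hx : 0 ≤ (inner ℝ w x : ℝ)) : hQ w x = x := by
  simp only [hQ, min_eq_right hx, zero_div, zero_smul, sub_zero]

private lemma inner_hQ {w x : F} (hw : ‖w‖ ^ 2 = 2) (hx : (inner ℝ w x : ℝ) ≤ 0) :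
    (inner ℝ w (hQ w x) : ℝ) = 0 := by
  simp only [hQ, min_eq_left hx]
  rw [inner_sub_right, inner_smul_right, real_inner_self_eq_norm_sq, hw]
  ring

theorem odd_of_half {h : F → ℝ} {r B : ℝ} (H : LCW h r B) {w : F} (hw : ‖w‖ ^ 2 = 2) {K : ℝ}
    (hh : ∀ F0 : F → ℝ, BL F0 → (∀ x, (inner ℝ w x : ℝ) ≤ 0 → F0 x = 0) →
      ∫ x, F0 x ^ 2 * h x ≤ K * En h F0)
    (S : F ≃ₗᵢ[ℝ] F) (hS : ∀ x, S x = x - (inner ℝ w x : ℝ) • w) (hSh : ∀ x, h (S x) = h x)
    {q : F → ℝ} {L : ℝ≥0} (hq : LipschitzWith L q) {A : ℝ} (hA : ∀ x, |q x| ≤ A)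
    (hodd : ∀ x, q (S x) = - q x) :
    ∫ x, q x ^ 2 * h x ≤ K * En h q := by
  have hw0 : w ≠ 0 := by
    rintro rfl
    simp at hw
  set F0 : F → ℝ := fun x => q (hQ w x) with hF0
  have hFL : LipschitzWith L F0 := by
    have := hq.comp (hQ_lip hw)
    rwa [mul_one] at this
  have hFA : ∀ x, |F0 x| ≤ A := fun x => hA _
  have hF : BL F0 := ⟨⟨L, hFL⟩, A, hFA⟩
  have hz : ∀ x : F, (inner ℝ w x : ℝ) ≤ 0 → F0 x = 0 := by
    intro x hx
    have h1 := hodd (hQ w x)
    rw [hS, inner_hQ hw hx, zero_smul, sub_zero] at h1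
    simp only [hF0]
    linarith
  have key := hh F0 hF hz
  have hpos : ∀ x : F, 0 ≤ (inner ℝ w x : ℝ) → F0 x = q x := fun x hx => by
    simp only [hF0, hQ_pos hx]
  have hfi : ∀ x : F, (inner ℝ w (S x) : ℝ) = - inner ℝ w x := fun x => by
    rw [hS, inner_sub_right, inner_smul_right, real_inner_self_eq_norm_sq, hw]
    ring
  have hcont : Continuous fun y : F => (inner ℝ w y : ℝ) := by fun_prop
  -- pointwise identities
  have e1 : ∀ x, q x ^ 2 = F0 x ^ 2 + F0 (S x) ^ 2 := by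
    intro x
    rcases le_total 0 (inner ℝ w x : ℝ) with hx | hx
    · rw [hpos x hx, hz (S x) (by rw [hfi]; linarith)]
      ring
    · rw [hz x hx, hpos (S x) (by rw [hfi]; linarith), hodd]
      ring
  have e2 : ∀ᵐ x : F, ‖fderiv ℝ F0 x‖ ^ 2 + ‖fderiv ℝ F0 (S x)‖ ^ 2 =
      ‖fderiv ℝ q x‖ ^ 2 := by
    have ppos : ∀ x : F, 0 < (inner ℝ w x : ℝ) → fderiv ℝ F0 x = fderiv ℝ q x := by
      intro x hx
      refine Filter.EventuallyEq.fderiv_eq ?_
      have h1 : {y : F | 0 < (inner ℝ w y : ℝ)} ∈ 𝓝 x :=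
        (isOpen_lt continuous_const hcont).mem_nhds hx
      filter_upwards [h1] with y hy
      exact hpos y (le_of_lt hy)
    have pneg : ∀ x : F, (inner ℝ w x : ℝ) < 0 → fderiv ℝ F0 x = 0 := by
      intro x hx
      have h1 : {y : F | (inner ℝ w y : ℝ) < 0} ∈ 𝓝 x :=
        (isOpen_lt hcont continuous_const).mem_nhds hx
      have h2 : F0 =ᶠ[𝓝 x] fun _ => 0 := by
        filter_upwards [h1] with y hy
        exact hz y (le_of_lt hy)
      rw [h2.fderiv_eq]; simp
    have hqn : ∀ x, ‖fderiv ℝ q (S x)‖ = ‖fderiv ℝ q x‖ := by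
      intro x
      rw [← fderiv_comp_iso S q x]
      have : (fun y => q (S y)) = fun y => - q y := funext hodd
      rw [this]
      have h3 : fderiv ℝ (fun y => - q y) x = - fderiv ℝ q x := by
        rw [fderiv_fun_neg]
      rw [h3, norm_neg]
    filter_upwards [ae_inner_ne hw0] with x hx
    rcases lt_or_gt_of_ne hx with h1 | h1
    · rw [pneg x h1, ppos (S x) (by rw [hfi]; linarith), hqn, norm_zero]
      ring
    · rw [ppos x h1, pneg (S x) (by rw [hfi]; linarith), norm_zero]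
      ring
  have hFm : Measurable F0 := hFL.continuous.measurable
  have i1 : Integrable fun x => F0 x ^ 2 * h x := bdd_int H.int (hFm.pow_const 2) (Wt.sq_bdd hFA)
  have i2 : Integrable fun x => ‖fderiv ℝ F0 x‖ ^ 2 * h x :=
    bdd_int H.int ((measurable_fderiv ℝ _).norm.pow_const 2) (sq_fderiv_bdd hFL)
  have mp := S.measurePreserving
  have me := S.toHomeomorph.measurableEmbedding
  have j1 : ∫ x, F0 (S x) ^ 2 * h x = ∫ x, F0 x ^ 2 * h x := by
    rw [← mp.integral_comp me (fun x => F0 x ^ 2 * h x)]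
    exact integral_congr_ae (Eventually.of_forall fun x => by simp only [hSh])
  have j2 : ∫ x, ‖fderiv ℝ F0 (S x)‖ ^ 2 * h x = ∫ x, ‖fderiv ℝ F0 x‖ ^ 2 * h x := by
    rw [← mp.integral_comp me (fun x => ‖fderiv ℝ F0 x‖ ^ 2 * h x)]
    exact integral_congr_ae (Eventually.of_forall fun x => by simp only [hSh])
  have k1 : Integrable fun x => F0 (S x) ^ 2 * h x := by
    have := (mp.integrable_comp_emb me).2 i1
    refine this.congr (Eventually.of_forall fun x => ?_)
    simp only [Function.comp_apply, hSh]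
  have k2 : Integrable fun x => ‖fderiv ℝ F0 (S x)‖ ^ 2 * h x := by
    have := (mp.integrable_comp_emb me).2 i2
    refine this.congr (Eventually.of_forall fun x => ?_)
    simp only [Function.comp_apply, hSh]
  have s1 : ∫ x, q x ^ 2 * h x = 2 * ∫ x, F0 x ^ 2 * h x := by
    have : (fun x => q x ^ 2 * h x) = fun x => F0 x ^ 2 * h x + F0 (S x) ^ 2 * h x := by
      funext x; rw [e1 x]; ring
    rw [this, integral_add i1 k1, j1]; ring
  have s2 : En h q = 2 * En h F0 := by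
    have : ∫ x, ‖fderiv ℝ q x‖ ^ 2 * h x =
        ∫ x, (‖fderiv ℝ F0 x‖ ^ 2 * h x + ‖fderiv ℝ F0 (S x)‖ ^ 2 * h x) := by
      refine integral_congr_ae ?_
      filter_upwards [e2] with x hx
      rw [← hx]; ring
    unfold En
    rw [this, integral_add i2 k2, j2]; ring
  rw [s1, s2]
  linarith

end Pool.Agent.Lib.MP_8d00da_gt.h42s
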