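import Pool.Agent.Lib.MP_8d00da_gt.h42s.PDefs
import Pool.Agent.Lib.MP_8d00da_gt.h25.Ent
import Pool.Agent.Lib.MP_8d00da_gt.h25.Far

/-!
# The far region for a general gauge
-/

namespace Pool.Agent.Lib.MP_8d00da_gt.h42s

open MeasureTheory Set Filter
open Pool.Agent.Lib.MP_8d00da_gt.h25 Pool.Agent.Lib.MP_8d00da_gt.h42
open scoped Topology NNReal

variable {n : ℕ}

theorem gauge_NG (hn : 0 < n) : Gauge (NG n) n where
  nonneg := fun x => le_max_of_le_left (NP_nonneg x)
  smul := by
    intro t x ht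
    unfold NG
    rw [NP_smul, inner_smul_right, abs_mul, abs_of_nonneg ht, mul_max_of_nonneg _ _ ht]
  lip := by
    have key0 : ∀ z : Vn n, NP pe z ≤ Real.sqrt n * ‖z‖ := by
      intro z
      have e1 : ∑ i : Fin n, (inner ℝ (pe i) z : ℝ) ^ 2 ≤ ‖z‖ ^ 2 := by
        have := parseval_pe hn z
        have h2 := sq_nonneg (inner ℝ (nu n) z : ℝ)
        linarith
      have e2 := Finset.sum_mul_sq_le_sq_mul_sq Finset.univ (fun _ : Fin n => (1 : ℝ))
        (fun i => |(inner ℝ (pe i) z : ℝ)|)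
      simp only [one_mul, one_pow, Finset.sum_const, Finset.card_univ, Fintype.card_fin,
        nsmul_eq_mul, mul_one, sq_abs] at e2
      have e3 : NP pe z ^ 2 ≤ (Real.sqrt n * ‖z‖) ^ 2 := by
        rw [mul_pow, Real.sq_sqrt (Nat.cast_nonneg n)]
        exact e2.trans (mul_le_mul_of_nonneg_left e1 (Nat.cast_nonneg n))
      exact (pow_le_pow_iff_left₀ (NP_nonneg z) (by positivity) two_ne_zero).1 e3
    have key1 : ∀ z : Vn n, |(inner ℝ (nu n) z : ℝ)| ≤ Real.sqrt n * ‖z‖ := by
      intro z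
      have e1 := abs_real_inner_le_norm (nu n) z
      rw [nu_norm hn, one_mul] at e1
      refine e1.trans ?_
      have e2 : (1 : ℝ) ≤ Real.sqrt n := by
        rw [Real.one_le_sqrt]; exact_mod_cast hn
      nlinarith [norm_nonneg z]
    have key : ∀ x y : Vn n, NG n x - NG n y ≤ Real.sqrt n * ‖x - y‖ := by
      intro x y
      rw [sub_le_iff_le_add]
      refine max_le ?_ ?_
      · have e1 := NP_add (p := pe) y (x - y)
        rw [add_sub_cancel] at e1
        have e2 := key0 (x - y)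
        have e3 : NP pe y ≤ NG n y := le_max_left _ _
        linarith
      · have e1 : (inner ℝ (nu n) x : ℝ) = inner ℝ (nu n) y + inner ℝ (nu n) (x - y) := by
          rw [← inner_add_right, add_sub_cancel]
        have e2 := abs_add_le (inner ℝ (nu n) y : ℝ) (inner ℝ (nu n) (x - y))
        rw [← e1] at e2
        have e3 : |(inner ℝ (nu n) y : ℝ)| ≤ NG n y := le_max_right _ _
        have e4 := key1 (x - y)
        linarith
    intro x y
    rw [abs_le]
    refine ⟨?_, key x y⟩
    have := key y x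
    rw [norm_sub_rev] at this
    linarith
  norm_le := by
    intro x
    have e1 := parseval_pe hn x
    have hN : 0 ≤ NG n x := le_max_of_le_left (NP_nonneg x)
    have e2 : ∑ i : Fin n, (inner ℝ (pe i) x : ℝ) ^ 2 ≤ NP pe x ^ 2 := by
      unfold NP
      rw [sq, Finset.sum_mul]
      refine Finset.sum_le_sum fun i _ => ?_
      rw [← sq_abs, sq]
      exact mul_le_mul_of_nonneg_left (abs_le_NP i x) (abs_nonneg _)
    have e3 : NP pe x ^ 2 ≤ NG n x ^ 2 :=
      pow_le_pow_left₀ (NP_nonneg x) (le_max_left _ _) 2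
    have e4 : (inner ℝ (nu n) x : ℝ) ^ 2 ≤ NG n x ^ 2 := by
      rw [← sq_abs]
      exact pow_le_pow_left₀ (abs_nonneg _) (le_max_right _ _) 2
    have e5 : ‖x‖ ^ 2 ≤ (2 * NG n x) ^ 2 := by
      rw [mul_pow]
      nlinarith [sq_nonneg (NG n x)]
    exact (pow_le_pow_iff_left₀ (norm_nonneg _) (by positivity) two_ne_zero).1 e5

variable {N : Vn n → ℝ}

lemma Gauge.cont (hN : Gauge N n) : Continuous N := by
  have : LipschitzWith ⟨Real.sqrt n, Real.sqrt_nonneg _⟩ N := by
    refine LipschitzWith.of_dist_le_mul fun x y => ?_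
    rw [Real.dist_eq, dist_eq_norm]
    exact hN.lip x y
  exact this.continuous

/-- The pointwise inequality on a ray. -/
lemma radial_pt_g {h : Vn n → ℝ} {r B : ℝ} (H : LCW h r B) {β : ℝ}
    (hg : ∀ x, β * n ≤ N x → h x ≤ h 0 * Real.exp (-(2 * N x / β)))
    {φ : Vn n → ℝ} (hφ0 : ∀ x, 0 ≤ φ x) (hφs : ∀ x, N x < β * n → φ x = 0)
    {t : ℝ} (ht0 : 0 < t) (ht1 : t < 1) (x : Vn n) :
    φ x * h x + (1 - t) * (2 * (φ x * (N x / β) * h x)) ≤ φ x * h (t • x) := by
  rcases lt_or_ge (N x) (β * n) with hxN | hxN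
  · rw [hφs x hxN]; simp
  have hx0 := H.nonneg x
  rcases eq_or_lt_of_le hx0 with h00 | hpos
  · rw [← h00]
    simp only [mul_zero, add_zero]
    exact mul_nonneg (hφ0 x) (H.nonneg _)
  have h1 := hg x hxN
  
  have h2 : h x * Real.exp (2 * N x / β) ≤ h 0 := by
    have e1 : h x * Real.exp (2 * N x / β) ≤
        h 0 * Real.exp (-(2 * N x / β)) * Real.exp (2 * N x / β) :=
      mul_le_mul_of_nonneg_right h1 (Real.exp_pos _).le
    rw [mul_assoc, ← Real.exp_add, neg_add_cancel, Real.exp_zero, mul_one] at e1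
    exact e1
  have h3 := H.conc t ht0 ht1 0 x
  rw [smul_zero, zero_add] at h3
  have h4 : h x * Real.exp ((1 - t) * (2 * N x / β)) ≤ h 0 ^ (1 - t) * h x ^ t := by
    have e1 : (h x * Real.exp (2 * N x / β)) ^ (1 - t) ≤ h 0 ^ (1 - t) :=
      Real.rpow_le_rpow (by positivity) h2 (by linarith)
    have e2 : (h x * Real.exp (2 * N x / β)) ^ (1 - t) =
        h x ^ (1 - t) * Real.exp ((1 - t) * (2 * N x / β)) := by
      rw [Real.mul_rpow hx0 (Real.exp_pos _).le, ← Real.exp_mul, mul_comm (2 * N x / β)]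
    have e3 : h x = h x ^ (1 - t) * h x ^ t := by
      rw [← Real.rpow_add hpos]
      simp
    calc h x * Real.exp ((1 - t) * (2 * N x / β))
        = (h x ^ (1 - t) * Real.exp ((1 - t) * (2 * N x / β))) * h x ^ t := by
          nth_rewrite 1 [e3]; ring
      _ ≤ h 0 ^ (1 - t) * h x ^ t := by
          rw [← e2]
          exact mul_le_mul_of_nonneg_right e1 (Real.rpow_nonneg hx0 _)
  have h5 : h x * (1 + (1 - t) * (2 * N x / β)) ≤ h (t • x) := by
    refine le_trans ?_ (h4.trans h3)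
    refine mul_le_mul_of_nonneg_left ?_ hx0
    have := Real.add_one_le_exp ((1 - t) * (2 * N x / β))
    linarith
  calc φ x * h x + (1 - t) * (2 * (φ x * (N x / β) * h x))
      = φ x * (h x * (1 + (1 - t) * (2 * N x / β))) := by ring
    _ ≤ φ x * h (t • x) := mul_le_mul_of_nonneg_left h5 (hφ0 x)

/-- the radial entropy inequality -/
theorem radial_ent_g (hN : Gauge N n) {h : Vn n → ℝ} {r B : ℝ} (H : LCW h r B) {β : ℝ} (hβ : 0 < β)
    (hg : ∀ x, β * n ≤ N x → h x ≤ h 0 * Real.exp (-(2 * N x / β)))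
    {φ : Vn n → ℝ} {L : ℝ≥0} (hφ : LipschitzWith L φ) (hφ0 : ∀ x, 0 ≤ φ x) {A : ℝ}
    (hφA : ∀ x, φ x ≤ A) (hφs : ∀ x, N x < β * n → φ x = 0) :
    ∫ x, φ x * (N x / β) * h x ≤ ∫ x, ‖x‖ * ‖fderiv ℝ φ x‖ * h x := by
  have hφc := hφ.continuous
  have hr0 := H.r_nonneg
  have hfdL : ∀ x, ‖fderiv ℝ φ x‖ ≤ L := fun x => norm_fderiv_le_of_lipschitz ℝ hφ
  have hfdm : Measurable fun x => ‖fderiv ℝ φ x‖ := (measurable_fderiv ℝ φ).norm
  have hIi : Integrable fun x => φ x * (N x / β) * h x :=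
    H.int_mul_cont (g := fun x => φ x * (N x / β)) (hφc.mul (hN.cont.div_const β))
  have hJi : Integrable fun x => φ x * h x := H.int_mul_cont hφc
  -- the inequality for a fixed dilation `s > 1`
  have hdil : ∀ s : ℝ, 1 < s →
      (∫ x, φ x * h x) + (1 - s⁻¹) * (2 * ∫ x, φ x * (N x / β) * h x) ≤
        s ^ n * ∫ x, φ (s • x) * h x := by
    intro s hs
    have hs0 : 0 < s := by linarith
    have hti : s⁻¹ < 1 := inv_lt_one_of_one_lt₀ hs
    have hcomp : Integrable fun x : Vn n => h (s⁻¹ • x) :=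
      H.int.comp_smul (inv_ne_zero hs0.ne')
    have hFi : Integrable fun x : Vn n => φ x * h (s⁻¹ • x) := by
      refine hcomp.bdd_mul hφc.aestronglyMeasurable (c := A) (Eventually.of_forall fun x => ?_)
      rw [Real.norm_eq_abs, abs_of_nonneg (hφ0 x)]
      exact hφA x
    have e1 : (∫ x, φ x * h x) + (1 - s⁻¹) * (2 * ∫ x, φ x * (N x / β) * h x) =
        ∫ x, (φ x * h x + (1 - s⁻¹) * (2 * (φ x * (N x / β) * h x))) := by
      rw [integral_add hJi ((hIi.const_mul _).const_mul _), integral_const_mul,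
        integral_const_mul]
    have e2 : ∫ x, φ (s • x) * h x = (s ^ n)⁻¹ * ∫ x, φ x * h (s⁻¹ • x) := by
      have := Measure.integral_comp_smul (volume : Measure (Vn n))
        (fun x => φ x * h (s⁻¹ • x)) s
      rw [finrank_euclideanSpace_fin, smul_eq_mul, abs_of_pos (by positivity)] at this
      rw [← this]
      refine integral_congr_ae (Eventually.of_forall fun x => ?_)
      simp only [smul_smul, inv_mul_cancel₀ hs0.ne', one_smul]
    rw [e1, e2, ← mul_assoc, mul_inv_cancel₀ (by positivity), one_mul]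
    exact integral_mono (hJi.add ((hIi.const_mul _).const_mul _)) hFi
      fun x => radial_pt_g H hg hφ0 hφs (inv_pos.2 hs0) hti x
  -- the sequence of dilations
  set ε : ℕ → ℝ := fun k => 1 / ((k : ℝ) + 1) with hε
  have hε0 : ∀ k, 0 < ε k := fun k => by positivity
  have hεlim : Tendsto ε atTop (𝓝 0) := tendsto_one_div_add_atTop_nhds_zero_nat
  set P : ℕ → ℝ := fun k => ∫ x, φ ((1 + ε k) • x) * h x with hP
  set D : ℕ → ℝ := fun k => ∫ x, (φ ((1 + ε k) • x) - φ x) / ε k * h x with hD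
  have hcont : ∀ k, Continuous fun x : Vn n => φ ((1 + ε k) • x) := fun k =>
    hφc.comp (continuous_const_smul _)
  have hPi : ∀ k, Integrable fun x => φ ((1 + ε k) • x) * h x := fun k =>
    H.int_mul_cont (hcont k)
  have hmain : ∀ k, (1 + ε k)⁻¹ * (2 * ∫ x, φ x * (N x / β) * h x) ≤
      ((1 + ε k) ^ n - 1) / ε k * P k + D k := by
    intro k
    have hk := hε0 k
    have e1 := hdil (1 + ε k) (by linarith)
    have e2 : D k = (P k - ∫ x, φ x * h x) / ε k := by
      rw [hD, hP]
      simp only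
      rw [← integral_sub (hPi k) hJi, ← integral_div]
      refine integral_congr_ae (Eventually.of_forall fun x => ?_)
      simp only
      ring
    have e3 : 1 - (1 + ε k)⁻¹ = ε k * (1 + ε k)⁻¹ := by
      have : (1 + ε k) ≠ 0 := by positivity
      field_simp
      ring
    rw [e3] at e1
    rw [e2]
    have e4 : ((1 + ε k) ^ n - 1) / ε k * P k + (P k - ∫ x, φ x * h x) / ε k =
        ((1 + ε k) ^ n * P k - ∫ x, φ x * h x) / ε k := by
      ring
    rw [e4, le_div_iff₀ hk]
    have e5 : (1 + ε k)⁻¹ * (2 * ∫ x, φ x * (N x / β) * h x) * ε k =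
        ε k * (1 + ε k)⁻¹ * (2 * ∫ x, φ x * (N x / β) * h x) := by ring
    rw [e5]
    change _ ≤ (1 + ε k) ^ n * (∫ x, φ ((1 + ε k) • x) * h x) - _
    linarith
  -- limits
  have hPlim : Tendsto P atTop (𝓝 (∫ x, φ x * h x)) := by
    refine tendsto_integral_of_dominated_convergence (fun x => A * h x)
      (fun k => (hPi k).aestronglyMeasurable) (H.int.const_mul _) ?_ ?_
    · intro k
      refine Eventually.of_forall fun x => ?_
      rw [norm_mul, Real.norm_eq_abs, Real.norm_eq_abs, abs_of_nonneg (H.nonneg x),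
        abs_of_nonneg (hφ0 _)]
      exact mul_le_mul_of_nonneg_right (hφA _) (H.nonneg x)
    · refine Eventually.of_forall fun x => ?_
      have e1 : Tendsto (fun k => (1 + ε k) • x) atTop (𝓝 x) := by
        have := (hεlim.const_add 1).smul_const x
        simpa using this
      exact ((hφc.tendsto x).comp e1).mul_const (h x)
  have hDlim : Tendsto D atTop (𝓝 (∫ x, fderiv ℝ φ x x * h x)) := by
    refine tendsto_integral_of_dominated_convergence (fun x => (L * r) * h x)
      (fun k => ?_) (H.int.const_mul _) ?_ ?_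
    · exact ((((hcont k).sub hφc).div_const _).measurable.mul H.meas).aestronglyMeasurable
    · intro k
      refine Eventually.of_forall fun x => ?_
      have hk := hε0 k
      rw [norm_mul, Real.norm_eq_abs, Real.norm_eq_abs, abs_of_nonneg (H.nonneg x)]
      refine H.mul_le_mul (f := fun x => |(φ ((1 + ε k) • x) - φ x) / ε k|)
        (g := fun _ => L * r) (fun x hx => ?_) x
      rw [abs_div, abs_of_pos hk, div_le_iff₀ hk]
      have e1 := hφ.dist_le_mul ((1 + ε k) • x) x
      rw [Real.dist_eq, dist_eq_norm] at e1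
      have e2 : (1 + ε k) • x - x = ε k • x := by
        rw [add_smul, one_smul, add_sub_cancel_left]
      rw [e2, norm_smul, Real.norm_eq_abs, abs_of_pos hk] at e1
      have e3 : (L : ℝ) * (ε k * ‖x‖) ≤ L * r * ε k := by
        have e4 : ε k * ‖x‖ ≤ ε k * r := mul_le_mul_of_nonneg_left hx hk.le
        have e5 := mul_le_mul_of_nonneg_left e4 L.coe_nonneg
        linarith
      linarith
    · filter_upwards [hφ.ae_differentiableAt (μ := (volume : Measure (Vn n)))] with x hx
      refine Tendsto.mul_const (h x) ?_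
      have e1 : HasDerivAt (fun t : ℝ => φ (x + t • x)) (fderiv ℝ φ x x) 0 := by
        have h1 : HasFDerivAt φ (fderiv ℝ φ x) (x + (0 : ℝ) • x) := by
          rw [zero_smul, add_zero]; exact hx.hasFDerivAt
        have h2 : HasDerivAt (fun t : ℝ => x + t • x) x 0 := by
          have := ((hasDerivAt_id (0 : ℝ)).smul_const x).const_add x
          simpa using this
        exact h1.comp_hasDerivAt (0 : ℝ) h2
      have e2 := e1.tendsto_slope_zero
      have e3 : Tendsto ε atTop (𝓝[≠] 0) :=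
        tendsto_nhdsWithin_of_tendsto_nhds_of_eventually_within _ hεlim
          (Eventually.of_forall fun k => (hε0 k).ne')
      have e4 := e2.comp e3
      refine e4.congr fun k => ?_
      simp only [Function.comp, zero_add, zero_smul, add_zero, smul_eq_mul]
      rw [add_smul, one_smul, div_eq_inv_mul]
  have hcoef : Tendsto (fun k => ((1 + ε k) ^ n - 1) / ε k) atTop (𝓝 (n : ℝ)) := by
    have e1 : HasDerivAt (fun t : ℝ => t ^ n) ((n : ℝ) * 1 ^ (n - 1)) 1 := hasDerivAt_pow n 1
    rw [one_pow, mul_one] at e1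
    have e2 := e1.tendsto_slope_zero
    have e3 : Tendsto ε atTop (𝓝[≠] 0) :=
      tendsto_nhdsWithin_of_tendsto_nhds_of_eventually_within _ hεlim
        (Eventually.of_forall fun k => (hε0 k).ne')
    have e4 := e2.comp e3
    refine e4.congr fun k => ?_
    simp only [Function.comp, one_pow, smul_eq_mul]
    rw [div_eq_inv_mul]
  have hinv : Tendsto (fun k => (1 + ε k)⁻¹) atTop (𝓝 1) := by
    have := (hεlim.const_add 1).inv₀ (by norm_num)
    simpa using this
  have hlim1 : Tendsto (fun k => (1 + ε k)⁻¹ * (2 * ∫ x, φ x * (N x / β) * h x)) atTop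
      (𝓝 (1 * (2 * ∫ x, φ x * (N x / β) * h x))) := hinv.mul_const _
  have hlim2 : Tendsto (fun k => ((1 + ε k) ^ n - 1) / ε k * P k + D k) atTop
      (𝓝 ((n : ℝ) * (∫ x, φ x * h x) + ∫ x, fderiv ℝ φ x x * h x)) :=
    (hcoef.mul hPlim).add hDlim
  have hfin := le_of_tendsto_of_tendsto' hlim1 hlim2 hmain
  -- the two terms on the right
  have h1 : (n : ℝ) * (∫ x, φ x * h x) ≤ ∫ x, φ x * (N x / β) * h x := by
    rw [← integral_const_mul]
    refine integral_mono (hJi.const_mul _) hIi fun x => ?_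
    simp only
    rcases lt_or_ge (N x) (β * n) with hxN | hxN
    · rw [hφs x hxN]; simp
    · have e1 : (n : ℝ) ≤ N x / β := by
        rw [le_div_iff₀ hβ]; linarith
      have e2 := mul_le_mul_of_nonneg_right e1 (mul_nonneg (hφ0 x) (H.nonneg x))
      linarith
  have hGi : Integrable fun x => ‖x‖ * ‖fderiv ℝ φ x‖ * h x := by
    refine H.int_mul (g := fun x => ‖x‖ * ‖fderiv ℝ φ x‖) (M := r * L)
      (continuous_norm.measurable.mul hfdm) fun x hx => ?_
    rw [abs_of_nonneg (by positivity)]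
    exact mul_le_mul hx (hfdL x) (norm_nonneg _) hr0
  have hDi : Integrable fun x => fderiv ℝ φ x x * h x := by
    have hm : Measurable fun x => fderiv ℝ φ x x := by
      have h1 := measurable_fderiv ℝ φ
      exact (ContinuousLinearMap.measurable_apply₂).comp (h1.prodMk measurable_id)
    refine H.int_mul (g := fun x => fderiv ℝ φ x x) (M := L * r) hm fun x hx => ?_
    rw [← Real.norm_eq_abs]
    exact ((fderiv ℝ φ x).le_opNorm x).trans
      (mul_le_mul (hfdL x) hx (norm_nonneg _) L.coe_nonneg)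
  have h2 : ∫ x, fderiv ℝ φ x x * h x ≤ ∫ x, ‖x‖ * ‖fderiv ℝ φ x‖ * h x := by
    refine integral_mono hDi hGi fun x => ?_
    simp only
    refine mul_le_mul_of_nonneg_right ?_ (H.nonneg x)
    have := (fderiv ℝ φ x).le_opNorm x
    rw [Real.norm_eq_abs] at this
    have := (abs_le.1 this).2
    linarith
  linarith

lemma LL_wfg (hN : Gauge N n) {R : ℝ} (hR : 0 < R) {x : Vn n} (hx : R ≤ N x) :
    LL (fun y => wf R (N y)) x (Real.sqrt n / N x ^ 2) := by
  intro ε hε
  have hN0 : 0 < N x := lt_of_lt_of_le hR hx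
  have hcont : Continuous N := hN.cont
  have h1 : ∀ᶠ y in 𝓝 x, Real.sqrt n / (max (N y) R * max (N x) R) <
      Real.sqrt n / N x ^ 2 + ε := by
    have t : Tendsto (fun y => Real.sqrt n / (max (N y) R * max (N x) R)) (𝓝 x)
        (𝓝 (Real.sqrt n / (max (N x) R * max (N x) R))) := by
      refine Tendsto.div tendsto_const_nhds ?_ ?_
      · exact (Continuous.tendsto (by fun_prop) x)
      · have : 0 < max (N x) R := lt_max_of_lt_right hR
        positivity
    refine t.eventually (gt_mem_nhds ?_)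
    rw [max_eq_left hx, ← sq]
    linarith
  filter_upwards [h1] with y hy
  have h2 := wf_sub hR (N y) (N x)
  have h3 := hN.lip y x
  have h4 : 0 < max (N y) R * max (N x) R :=
    mul_pos (lt_max_of_lt_right hR) (lt_max_of_lt_right hR)
  calc |wf R (N y) - wf R (N x)| ≤ |N y - N x| / (max (N y) R * max (N x) R) := h2
    _ ≤ (Real.sqrt n * ‖y - x‖) / (max (N y) R * max (N x) R) :=
        div_le_div_of_nonneg_right h3 h4.le
    _ = (Real.sqrt n / (max (N y) R * max (N x) R)) * ‖y - x‖ := by ring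
    _ ≤ (Real.sqrt n / N x ^ 2 + ε) * ‖y - x‖ :=
        mul_le_mul_of_nonneg_right hy.le (norm_nonneg _)

/-- The test function. -/
noncomputable def pg (N : Vn n → ℝ) (R : ℝ) (u : Vn n → ℝ) (x : Vn n) : ℝ := u x ^ 2 * wf R (N x)

lemma pg_nonneg (N : Vn n → ℝ) {R : ℝ} (hR : 0 < R) (u : Vn n → ℝ) (x : Vn n) : 0 ≤ pg N R u x :=
  mul_nonneg (sq_nonneg _) (wf_nonneg hR _)

lemma pg_lip (hN : Gauge N n) {R : ℝ} (hR : 0 < R) {u : Vn n → ℝ} {L : ℝ≥0} (hu : LipschitzWith L u) {A : ℝ}
    (hA : ∀ x, |u x| ≤ A) : ∃ L' : ℝ≥0, LipschitzWith L' (pg N R u) := by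
  have hA0 : 0 ≤ A := (abs_nonneg _).trans (hA 0)
  refine ⟨.mk (2 * A * L * (1 / R) + A ^ 2 * (1 / R ^ 2 * Real.sqrt n)) (by positivity), ?_⟩
  refine LipschitzWith.of_dist_le_mul fun x y => ?_
  rw [Real.dist_eq, NNReal.coe_mk, dist_eq_norm]
  unfold pg
  have e : u x ^ 2 * wf R (N x) - u y ^ 2 * wf R (N y) =
      (u x - u y) * (u x + u y) * wf R (N x) + u y ^ 2 * (wf R (N x) - wf R (N y)) := by ring
  rw [e]
  refine (abs_add_le _ _).trans ?_
  have h1 : |u x - u y| ≤ L * ‖x - y‖ := by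
    have := hu.dist_le_mul x y
    rwa [Real.dist_eq, dist_eq_norm] at this
  have h2 : |u x + u y| ≤ 2 * A := (abs_add_le _ _).trans (by linarith [hA x, hA y])
  have h3 : |wf R (N x) - wf R (N y)| ≤ 1 / R ^ 2 * (Real.sqrt n * ‖x - y‖) :=
    (wf_lip hR _ _).trans (mul_le_mul_of_nonneg_left (hN.lip x y) (by positivity))
  have h4 : |wf R (N x)| ≤ 1 / R := by
    rw [abs_of_nonneg (wf_nonneg hR _)]; exact wf_le hR _
  have h5 : u y ^ 2 ≤ A ^ 2 := by
    rw [← sq_abs]; exact pow_le_pow_left₀ (abs_nonneg _) (hA y) 2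
  rw [abs_mul, abs_mul, abs_mul, abs_of_nonneg (sq_nonneg (u y))]
  have h6 : |u x - u y| * |u x + u y| * |wf R (N x)| ≤ (L * ‖x - y‖) * (2 * A) * (1 / R) := by
    gcongr
  have h7 : u y ^ 2 * |wf R (N x) - wf R (N y)| ≤
      A ^ 2 * (1 / R ^ 2 * (Real.sqrt n * ‖x - y‖)) := by
    gcongr
  calc _ ≤ (L * ‖x - y‖) * (2 * A) * (1 / R) + A ^ 2 * (1 / R ^ 2 * (Real.sqrt n * ‖x - y‖)) :=
        add_le_add h6 h7
    _ = _ := by ring

lemma pg_fderiv_zero (hN : Gauge N n) {R : ℝ} (hR : 0 < R) {u : Vn n → ℝ} {x : Vn n} (hx : N x < R) :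
    fderiv ℝ (pg N R u) x = 0 := by
  have h1 : pg N R u =ᶠ[𝓝 x] fun _ => 0 := by
    have h2 : {y : Vn n | N y < R} ∈ 𝓝 x :=
      (isOpen_lt hN.cont continuous_const).mem_nhds hx
    filter_upwards [h2] with y hy
    unfold pg
    rw [wf_zero hR (le_of_lt hy), mul_zero]
  rw [h1.fderiv_eq]
  simp

lemma pg_fderiv_le (hN : Gauge N n) {R : ℝ} (hR : 0 < R) {u : Vn n → ℝ} {x : Vn n} (hx : R ≤ N x)
    (hu : DifferentiableAt ℝ u x) :
    ‖fderiv ℝ (pg N R u) x‖ ≤ 2 * |u x| * ‖fderiv ℝ u x‖ * wf R (N x) +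
      u x ^ 2 * (Real.sqrt n / N x ^ 2) := by
  have h1 := LL.of_diff hu
  have h2 := LL.mul (norm_nonneg _) h1 h1
  have h3 := LL.mul (by positivity : (0 : ℝ) ≤ Real.sqrt n / N x ^ 2) h2 (LL_wfg hN hR hx)
  have h4 : (fun y => u y * u y * wf R (N y)) = pg N R u := by
    ext y; unfold pg; ring
  rw [h4] at h3
  have h5 := h3.fderiv_le (by have := wf_nonneg hR (N x); positivity)
  refine h5.trans (le_of_eq ?_)
  rw [abs_of_nonneg (wf_nonneg hR _), abs_mul_self]
  ring

/-- The far region, from the radial entropy inequality. -/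
theorem far_region_g (hN : Gauge N n) {h : Vn n → ℝ} {r B : ℝ} (H : LCW h r B) (hn : 0 < n) {β : ℝ} (hβ : 0 < β)
    (hent : ∀ (φ : Vn n → ℝ) (L : ℝ≥0), LipschitzWith L φ → (∀ x, 0 ≤ φ x) →
      ∀ A : ℝ, (∀ x, φ x ≤ A) → (∀ x, N x < β * n → φ x = 0) →
      ∫ x, φ x * (N x / β) * h x ≤ ∫ x, ‖x‖ * ‖fderiv ℝ φ x‖ * h x)
    {u : Vn n → ℝ} {L : ℝ≥0} (hu : LipschitzWith L u) {A : ℝ} (hA : ∀ x, |u x| ≤ A) :
    ∫ x, u x ^ 2 * h x ≤ 32 * β ^ 2 * En h u +
      2 * ∫ x, u x ^ 2 * {x | N x ≤ 16 * β * n}.indicator h x := by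
  have hA0 : 0 ≤ A := (abs_nonneg _).trans (hA 0)
  have hn1 : (1 : ℝ) ≤ n := by exact_mod_cast hn
  have hn0 : (0 : ℝ) < n := by linarith
  obtain ⟨R, hRdef⟩ : ∃ R : ℝ, R = 8 * β * n := ⟨_, rfl⟩
  have hR : 0 < R := by rw [hRdef]; positivity
  have hβR : β * n ≤ R := by
    rw [hRdef]
    have : 0 < β * n := by positivity
    linarith
  obtain ⟨L', hL'⟩ := pg_lip hN hR hu hA
  have husq : ∀ x, u x ^ 2 ≤ A ^ 2 := fun x => by
    rw [← sq_abs]; exact pow_le_pow_left₀ (abs_nonneg _) (hA x) 2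
  have hφb : ∀ x, |pg N R u x| ≤ A ^ 2 * (1 / R) := by
    intro x
    unfold pg
    rw [abs_mul, abs_of_nonneg (sq_nonneg _), abs_of_nonneg (wf_nonneg hR _)]
    exact mul_le_mul (husq x) (wf_le hR _) (wf_nonneg hR _) (by positivity)
  have h1 := hent (pg N R u) L' hL' (pg_nonneg N hR u) (A ^ 2 * (1 / R))
    (fun x => (le_abs_self _).trans (hφb x)) (fun x hx => by
      unfold pg; rw [wf_zero hR (by linarith), mul_zero])
  have hφm : Measurable (pg N R u) := hL'.continuous.measurable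
  have hum : Measurable u := hu.continuous.measurable
  have hNm : Measurable N := hN.cont.measurable
  have hsup : ∀ x, h x ≠ 0 → ‖x‖ ≤ r := fun x hx => by
    by_contra hc
    exact hx (H.supp x (not_le.1 hc))
  -- integrability of products with a function bounded on the support
  have hint : ∀ {g : Vn n → ℝ}, Measurable g → ∀ M : ℝ, (∀ x, ‖x‖ ≤ r → |g x| ≤ M) →
      Integrable fun x => g x * h x := by
    intro g hg M hM
    refine (H.int.const_mul M).mono' (hg.mul H.meas).aestronglyMeasurable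
      (Eventually.of_forall fun x => ?_)
    by_cases hx : h x = 0
    · simp [hx]
    · rw [norm_mul, Real.norm_eq_abs, Real.norm_eq_abs, abs_of_nonneg (H.nonneg x)]
      exact mul_le_mul_of_nonneg_right (hM x (hsup x hx)) (H.nonneg x)
  have hNb : ∀ x : Vn n, ‖x‖ ≤ r → |N x| ≤ Real.sqrt n * r := fun x hx => by
    rw [abs_of_nonneg (hN.nonneg x)]
    have h00 : N 0 = 0 := by
      have := hN.smul 0 0 le_rfl
      simpa using this
    have h01 := hN.lip x 0
    rw [sub_zero, h00, sub_zero] at h01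
    exact ((le_abs_self _).trans h01).trans (mul_le_mul_of_nonneg_left hx (Real.sqrt_nonneg _))
  have hubd : ∀ x, ‖fderiv ℝ u x‖ ≤ L := fun x => norm_fderiv_le_of_lipschitz ℝ hu
  have hφbd : ∀ x, ‖fderiv ℝ (pg N R u) x‖ ≤ L' := fun x => norm_fderiv_le_of_lipschitz ℝ hL'
  have i1 : Integrable fun x => pg N R u x * (N x / β) * h x := by
    refine hint (hφm.mul (hNm.div_const β)) (A ^ 2 * (1 / R) * (Real.sqrt n * r / β))
      fun x hx => ?_
    rw [abs_mul, abs_div, abs_of_pos hβ]
    exact mul_le_mul (hφb x) (div_le_div_of_nonneg_right (hNb x hx) hβ.le) (by positivity)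
      (by positivity)
  have i3 : Integrable fun x => ‖x‖ * ‖fderiv ℝ (pg N R u) x‖ * h x := by
    refine hint (measurable_norm.mul (measurable_fderiv ℝ _).norm) (r * L')
      fun x hx => ?_
    rw [abs_mul, abs_norm, abs_norm]
    exact mul_le_mul hx (hφbd x) (norm_nonneg _) ((norm_nonneg x).trans hx)
  have iu : Integrable fun x => u x ^ 2 * h x := by
    refine hint (hum.pow_const 2) (A ^ 2) fun x _ => ?_
    rw [abs_of_nonneg (sq_nonneg _)]; exact husq x
  have iE : Integrable fun x => ‖fderiv ℝ u x‖ ^ 2 * h x := by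
    refine hint ((measurable_fderiv ℝ _).norm.pow_const 2) ((L : ℝ) ^ 2) fun x _ => ?_
    rw [abs_of_nonneg (sq_nonneg _)]
    exact pow_le_pow_left₀ (norm_nonneg _) (hubd x) 2
  -- the far and the near part
  obtain ⟨S, hS⟩ : ∃ S : Set (Vn n), S = {x | 2 * R ≤ N x} := ⟨_, rfl⟩
  have hSm : MeasurableSet S := by rw [hS]; exact measurableSet_le measurable_const hNm
  have iF : Integrable (S.indicator fun x => u x ^ 2 * h x) := iu.indicator hSm
  have iN : Integrable (Sᶜ.indicator fun x => u x ^ 2 * h x) := iu.indicator hSm.compl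
  have hsplit : ∫ x, u x ^ 2 * h x = (∫ x, S.indicator (fun x => u x ^ 2 * h x) x) +
      ∫ x, Sᶜ.indicator (fun x => u x ^ 2 * h x) x := by
    rw [← integral_add iF iN]
    refine integral_congr_ae (Eventually.of_forall fun x => ?_)
    simp only
    exact (congrFun (indicator_self_add_compl S (fun x => u x ^ 2 * h x)) x).symm
  -- the right-hand side
  have h2 : ∫ x, ‖x‖ * ‖fderiv ℝ (pg N R u) x‖ * h x ≤
      ∫ x, (1 / (2 * β) * (u x ^ 2 * h x) + 16 * β * (‖fderiv ℝ u x‖ ^ 2 * h x)) := by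
    refine integral_mono_ae i3 ((iu.const_mul _).add (iE.const_mul _)) ?_
    filter_upwards [hu.ae_differentiableAt] with x hx
    have hh := H.nonneg x
    rcases lt_or_ge (N x) R with hlt | hge
    · rw [pg_fderiv_zero hN hR hlt, norm_zero, mul_zero, zero_mul]
      positivity
    · have hN0 : 0 < N x := lt_of_lt_of_le hR hge
      have h3 := pg_fderiv_le hN hR hge hx
      have h4 : ‖x‖ ≤ 2 * N x := hN.norm_le x
      have hw := wf_nonneg hR (N x)
      have hsn : Real.sqrt n ≤ n := by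
        rw [Real.sqrt_le_left hn0.le]
        nlinarith
      have h6 : ‖x‖ * ‖fderiv ℝ (pg N R u) x‖ ≤
          1 / (2 * β) * u x ^ 2 + 16 * β * ‖fderiv ℝ u x‖ ^ 2 := by
        calc ‖x‖ * ‖fderiv ℝ (pg N R u) x‖ ≤ (2 * N x) *
              (2 * |u x| * ‖fderiv ℝ u x‖ * wf R (N x) + u x ^ 2 * (Real.sqrt n / N x ^ 2)) :=
              mul_le_mul h4 h3 (norm_nonneg _) (by positivity)
          _ = 4 * |u x| * ‖fderiv ℝ u x‖ * (N x * wf R (N x)) +
              u x ^ 2 * (2 * Real.sqrt n / N x) := by field_simp; ring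
          _ ≤ 4 * |u x| * ‖fderiv ℝ u x‖ * 1 + u x ^ 2 * (1 / (4 * β)) := by
              refine add_le_add ?_ ?_
              · exact mul_le_mul_of_nonneg_left (wf_mul_le hR hN0.le) (by positivity)
              · refine mul_le_mul_of_nonneg_left ?_ (sq_nonneg _)
                rw [div_le_div_iff₀ hN0 (by positivity)]
                calc 2 * Real.sqrt n * (4 * β) = Real.sqrt n * (8 * β) := by ring
                  _ ≤ n * (8 * β) :=
                      mul_le_mul_of_nonneg_right hsn (by positivity)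
                  _ = R := by rw [hRdef]; ring
                  _ ≤ 1 * N x := by rw [one_mul]; exact hge
          _ ≤ (1 / (4 * β) * u x ^ 2 + 16 * β * ‖fderiv ℝ u x‖ ^ 2) + u x ^ 2 * (1 / (4 * β)) := by
              refine add_le_add ?_ le_rfl
              have e1 : 1 / (4 * β) * u x ^ 2 + 16 * β * ‖fderiv ℝ u x‖ ^ 2 -
                  4 * |u x| * ‖fderiv ℝ u x‖ * 1 =
                  1 / (4 * β) * (|u x| - 8 * β * ‖fderiv ℝ u x‖) ^ 2 := by
                rw [← sq_abs (u x)]
                field_simp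
                ring
              have e2 : 0 ≤ 1 / (4 * β) * (|u x| - 8 * β * ‖fderiv ℝ u x‖) ^ 2 := by positivity
              linarith
          _ = _ := by field_simp; ring
      calc ‖x‖ * ‖fderiv ℝ (pg N R u) x‖ * h x ≤
          (1 / (2 * β) * u x ^ 2 + 16 * β * ‖fderiv ℝ u x‖ ^ 2) * h x :=
            mul_le_mul_of_nonneg_right h6 hh
        _ = _ := by ring
  -- the left-hand side
  have h3 : 1 / β * ∫ x, S.indicator (fun x => u x ^ 2 * h x) x ≤
      ∫ x, pg N R u x * (N x / β) * h x := by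
    rw [← integral_const_mul]
    refine integral_mono (iF.const_mul _) i1 fun x => ?_
    simp only
    have hh := H.nonneg x
    by_cases hmem : x ∈ S
    · rw [indicator_of_mem hmem]
      rw [hS] at hmem
      have h5 := wf_far hR hmem
      have e : pg N R u x * (N x / β) * h x = u x ^ 2 * (N x * wf R (N x)) / β * h x := by
        unfold pg; ring
      rw [e, h5]
      exact le_of_eq (by ring)
    · rw [indicator_of_notMem hmem, mul_zero]
      have h7 := pg_nonneg N hR u x
      have := hN.nonneg x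
      positivity
  -- the near part
  have h5 : ∫ x, Sᶜ.indicator (fun x => u x ^ 2 * h x) x ≤
      ∫ x, u x ^ 2 * {x | N x ≤ 16 * β * n}.indicator h x := by
    have hm : MeasurableSet {x : Vn n | N x ≤ 16 * β * n} := measurableSet_le hNm measurable_const
    refine integral_mono iN ?_ fun x => ?_
    · have e : (fun x => u x ^ 2 * {x : Vn n | N x ≤ 16 * β * n}.indicator h x) =
          {x : Vn n | N x ≤ 16 * β * n}.indicator (fun x => u x ^ 2 * h x) := by
        ext x
        by_cases hx : x ∈ {x : Vn n | N x ≤ 16 * β * n}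
        · rw [indicator_of_mem hx, indicator_of_mem hx]
        · rw [indicator_of_notMem hx, indicator_of_notMem hx, mul_zero]
      rw [e]
      exact iu.indicator hm
    · have hh := H.nonneg x
      by_cases hx : x ∈ S
      · rw [indicator_of_notMem (by simpa using hx)]
        exact mul_nonneg (sq_nonneg _) (indicator_nonneg (fun x _ => H.nonneg x) x)
      · rw [indicator_of_mem (by simpa using hx), indicator_of_mem]
        rw [hS, mem_ofPred_eq, not_le] at hx
        rw [mem_ofPred_eq]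
        rw [hRdef] at hx
        linarith
  rw [integral_add (iu.const_mul _) (iE.const_mul _), integral_const_mul, integral_const_mul] at h2
  have hE : ∫ x, ‖fderiv ℝ u x‖ ^ 2 * h x = En h u := rfl
  rw [hE] at h2
  have h6 := h3.trans (h1.trans h2)
  rw [hsplit] at h6 ⊢
  have h7 : ∫ x, S.indicator (fun x => u x ^ 2 * h x) x ≤
      1 / 2 * ((∫ x, S.indicator (fun x => u x ^ 2 * h x) x) +
        ∫ x, Sᶜ.indicator (fun x => u x ^ 2 * h x) x) + 16 * β ^ 2 * En h u := by
    have := mul_le_mul_of_nonneg_left h6 hβ.le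
    calc _ = β * (1 / β * ∫ x, S.indicator (fun x => u x ^ 2 * h x) x) := by field_simp
      _ ≤ _ := this
      _ = _ := by field_simp
  linarith


theorem far_gen {h : Vn n → ℝ} {r B : ℝ} (H : LCW h r B) (hn : 0 < n) {N : Vn n → ℝ}
    (hN : Gauge N n) {β : ℝ} (hβ : 0 < β)
    (hg : ∀ x, β * n ≤ N x → h x ≤ h 0 * Real.exp (-(2 * N x / β)))
    {u : Vn n → ℝ} (hu : BL u) :
    ∫ x, u x ^ 2 * h x ≤ 32 * β ^ 2 * En h u +
      2 * ∫ x, u x ^ 2 * {x | N x ≤ 16 * β * n}.indicator h x := by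
  obtain ⟨⟨L, hL⟩, A, hA⟩ := hu
  refine far_region_g hN H hn hβ ?_ hL hA
  intro φ L' hφ hφ0 A' hφA hφs
  exact radial_ent_g hN H hβ hg hφ hφ0 hφA hφs

end Pool.Agent.Lib.MP_8d00da_gt.h42s
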