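import Pool.Agent.Lib.MP_8d00da_gt.h42s.PDefs
import Pool.Agent.Lib.MP_8d00da_gt.h42s.Growth

/-!
# Points with large density are close to the barycentre
-/

namespace Pool.Agent.Lib.MP_8d00da_gt.h42s

open MeasureTheory Set Filter
open Pool.Agent.Lib.MP_8d00da_gt.h25 Pool.Agent.Lib.MP_8d00da_gt.h42
open scoped Topology NNReal

variable {n : ℕ}

lemma quarter_le_pow (hn : 2 ≤ n) : (1 / 4 : ℝ) ≤ (1 - 1 / n) ^ n := by
  have hn' : (0 : ℝ) < n := by exact_mod_cast (by omega : 0 < n)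
  have hn2 : (2 : ℝ) ≤ n := by exact_mod_cast hn
  have hinv : 1 / (n : ℝ) ≤ 1 / 2 := one_div_le_one_div_of_le (by norm_num) hn2
  have hbern : ∀ k : ℕ, 1 - (k : ℝ) / n ≤ (1 - 1 / n) ^ k := by
    intro k
    have h1 := one_add_mul_le_pow (a := -(1 / (n : ℝ))) (by linarith) k
    calc 1 - (k : ℝ) / n = 1 + (k : ℝ) * (-(1 / (n : ℝ))) := by ring
      _ ≤ (1 + (-(1 / (n : ℝ)))) ^ k := h1
      _ = _ := by ring
  rcases Nat.even_or_odd' n with ⟨k, hk | hk⟩
  · have hk' : (n : ℝ) = 2 * k := by exact_mod_cast hk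
    have hk0 : (0 : ℝ) < k := by linarith
    have h1 := hbern k
    have h2 : 1 - (k : ℝ) / n = 1 / 2 := by
      rw [hk']; field_simp; norm_num
    rw [h2] at h1
    have h3 : (1 - 1 / (n : ℝ)) ^ n = ((1 - 1 / (n : ℝ)) ^ k) ^ 2 := by
      rw [← pow_mul]; congr 1; omega
    rw [h3]
    calc (1 / 4 : ℝ) = (1 / 2) ^ 2 := by norm_num
      _ ≤ _ := pow_le_pow_left₀ (by norm_num) h1 2
  · have hk' : (n : ℝ) = 2 * k + 1 := by exact_mod_cast hk
    have hk1 : (1 : ℝ) ≤ k := by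
      have : 1 ≤ k := by omega
      exact_mod_cast this
    have h1 := hbern k
    have h2 : 1 - (k : ℝ) / n = (k + 1) / (2 * k + 1) := by
      rw [hk']; field_simp; ring
    rw [h2] at h1
    have h3 : (1 - 1 / (n : ℝ)) ^ n = ((1 - 1 / (n : ℝ)) ^ k) ^ 2 * (1 - 1 / n) := by
      rw [← pow_mul, ← pow_succ]; congr 1; omega
    have h4 : 1 - 1 / (n : ℝ) = 2 * k / (2 * k + 1) := by
      rw [hk']; field_simp; ring
    have h5 : ((k + 1 : ℝ) / (2 * k + 1)) ^ 2 ≤ ((1 - 1 / (n : ℝ)) ^ k) ^ 2 :=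
      pow_le_pow_left₀ (by positivity) h1 2
    have h6 : 0 ≤ 1 - 1 / (n : ℝ) := by linarith
    rw [h3]
    calc (1 / 4 : ℝ) ≤ ((k + 1 : ℝ) / (2 * k + 1)) ^ 2 * (2 * k / (2 * k + 1)) := by
          rw [div_pow, div_mul_div_comm, div_le_div_iff₀ (by norm_num) (by positivity)]
          nlinarith [mul_nonneg (by linarith : (0 : ℝ) ≤ k) (by linarith : (0 : ℝ) ≤ k - 1)]
      _ = ((k + 1 : ℝ) / (2 * k + 1)) ^ 2 * (1 - 1 / (n : ℝ)) := by rw [h4]
      _ ≤ _ := mul_le_mul_of_nonneg_right h5 h6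

theorem phi_trick {h : Vn n → ℝ} {r B : ℝ} (H : LCW h r B) (hn : 2 ≤ n)
    (h1 : ∀ θ : Vn n, ∫ x, (inner ℝ θ x : ℝ) * h x = 0)
    (h2 : ∀ θ : Vn n, ∫ x, (inner ℝ θ x : ℝ) ^ 2 * h x = ‖θ‖ ^ 2 * ∫ x, h x)
    {x0 x : Vn n} (hx0 : ∀ z, h z ≤ 2 * h x0) (hx : h x0 * Real.exp (-(2 * n)) ≤ h x)
    (θ : Vn n) : |(inner ℝ θ x : ℝ)| ≤ 8 * n * ‖θ‖ := by
  have hn' : (0 : ℝ) < n := by exact_mod_cast (by omega : 0 < n)
  have hn2 : (2 : ℝ) ≤ n := by exact_mod_cast hn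
  set M := ∫ x, h x with hM
  have hMpos : 0 < M := H.mass
  have hx0pos : 0 < h x0 := by
    by_contra hc
    have hz : h = 0 := by
      funext y
      refine le_antisymm ?_ (H.nonneg y)
      have := hx0 y
      simp only [Pi.zero_apply]
      linarith
    rw [hM, hz] at hMpos
    simp at hMpos
  set b : ℝ := 1 - 1 / n with hb
  have hinv : 1 / (n : ℝ) ≤ 1 / 2 := one_div_le_one_div_of_le (by norm_num) hn2
  have hinv0 : 0 < 1 / (n : ℝ) := by positivity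
  have hb0 : 0 < b := by rw [hb]; linarith
  -- pointwise inequality
  have hpt : ∀ z : Vn n, Real.exp (-2) / 2 * h z ≤ h (b • z + (1 / n : ℝ) • x) := by
    intro z
    have h3 := H.conc (1 / n) hinv0 (by linarith) z x
    refine le_trans ?_ h3
    rcases (H.nonneg z).eq_or_lt with hz | hz
    · rw [← hz, mul_zero]
      exact mul_nonneg (Real.rpow_nonneg le_rfl _) (Real.rpow_nonneg (H.nonneg x) _)
    · have h4 : (h x0 * Real.exp (-(2 * n))) ^ (1 / n : ℝ) ≤ h x ^ (1 / n : ℝ) :=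
        Real.rpow_le_rpow (by positivity) hx hinv0.le
      have h5 : (h x0 * Real.exp (-(2 * n))) ^ (1 / n : ℝ) =
          h x0 ^ (1 / n : ℝ) * Real.exp (-2) := by
        rw [Real.mul_rpow hx0pos.le (Real.exp_pos _).le, ← Real.exp_mul]
        congr 2
        field_simp
      have h6 : (h z / 2) ^ (1 / n : ℝ) ≤ h x0 ^ (1 / n : ℝ) :=
        Real.rpow_le_rpow (by positivity) (by linarith [hx0 z]) hinv0.le
      have h7 : (h z / 2) ^ (1 / n : ℝ) = h z ^ (1 / n : ℝ) * (1 / 2) ^ (1 / n : ℝ) := by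
        rw [← Real.mul_rpow hz.le (by norm_num)]
        congr 1
        ring
      have h8 : (1 / 2 : ℝ) ≤ (1 / 2) ^ (1 / n : ℝ) := by
        calc (1 / 2 : ℝ) = (1 / 2 : ℝ) ^ (1 : ℝ) := (Real.rpow_one _).symm
          _ ≤ _ := Real.rpow_le_rpow_of_exponent_ge (by norm_num) (by norm_num) (by linarith)
      have h9 : h z ^ (1 / n : ℝ) * (1 / 2) ≤ h x0 ^ (1 / n : ℝ) := by
        refine le_trans ?_ h6
        rw [h7]
        exact mul_le_mul_of_nonneg_left h8 (Real.rpow_nonneg hz.le _)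
      have h10 : h z ^ (1 / n : ℝ) * (1 / 2) * Real.exp (-2) ≤ h x ^ (1 / n : ℝ) := by
        refine le_trans ?_ h4
        rw [h5]
        exact mul_le_mul_of_nonneg_right h9 (Real.exp_pos _).le
      calc Real.exp (-2) / 2 * h z
          = h z ^ (1 - 1 / n : ℝ) * (h z ^ (1 / n : ℝ) * (1 / 2) * Real.exp (-2)) := by
            have h11 : h z = h z ^ (1 - 1 / n : ℝ) * h z ^ (1 / n : ℝ) := by
              rw [← Real.rpow_add hz]; simp
            calc Real.exp (-2) / 2 * h z = Real.exp (-2) / 2 *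
                  (h z ^ (1 - 1 / n : ℝ) * h z ^ (1 / n : ℝ)) := by rw [← h11]
              _ = _ := by ring
        _ ≤ _ := mul_le_mul_of_nonneg_left h10 (Real.rpow_nonneg hz.le _)
  -- integrability
  have hr0 : ∀ z : Vn n, ‖z‖ ≤ r → |(inner ℝ θ z : ℝ)| ≤ ‖θ‖ * |r| := fun z hz =>
    (abs_real_inner_le_norm θ z).trans
      (mul_le_mul_of_nonneg_left (hz.trans (le_abs_self r)) (norm_nonneg _))
  have hi1 : Integrable (fun z => (inner ℝ θ z : ℝ) * h z) :=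
    LCW_int_mul H (g := fun z : Vn n => (inner ℝ θ z : ℝ)) (by fun_prop) (C := ‖θ‖ * |r|) hr0
  have hi2 : Integrable (fun z => (inner ℝ θ z : ℝ) ^ 2 * h z) := by
    refine LCW_int_mul H (g := fun z : Vn n => (inner ℝ θ z : ℝ) ^ 2) (by fun_prop)
      (C := (‖θ‖ * |r|) ^ 2) ?_
    intro z hz
    rw [abs_pow]
    exact pow_le_pow_left₀ (abs_nonneg _) (hr0 z hz) 2
  set f : Vn n → ℝ := fun w => (inner ℝ θ w : ℝ) ^ 2 * h w with hf
  -- change of variables
  have hcv : ∫ z : Vn n, f (b • z + (1 / n : ℝ) • x) = (b ^ n)⁻¹ * ∫ w, f w := by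
    have h3 := Measure.integral_comp_smul (volume : Measure (Vn n))
      (fun w => f (w + (1 / n : ℝ) • x)) b
    rw [integral_add_right_eq_self f, finrank_euclideanSpace_fin,
      abs_of_pos (by positivity), smul_eq_mul] at h3
    exact h3
  have hicv : Integrable (fun z : Vn n => f (b • z + (1 / n : ℝ) • x)) := by
    have h3 : Integrable (fun w => f (w + (1 / n : ℝ) • x)) := hi2.comp_add_right _
    exact h3.comp_smul hb0.ne'
  set c : ℝ := (inner ℝ θ x : ℝ) / n with hc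
  -- lower bound
  have hexp : ∀ z : Vn n, (inner ℝ θ (b • z + (1 / n : ℝ) • x) : ℝ) = b * inner ℝ θ z + c := by
    intro z
    rw [inner_add_right, real_inner_smul_right, real_inner_smul_right, hc]
    ring
  have hlow : Real.exp (-2) / 2 * (b ^ 2 * (‖θ‖ ^ 2 * M) + c ^ 2 * M) ≤
      ∫ z : Vn n, f (b • z + (1 / n : ℝ) • x) := by
    have h3 : ∫ z : Vn n, (Real.exp (-2) / 2 * (b ^ 2 * ((inner ℝ θ z : ℝ) ^ 2 * h z) +
        2 * b * c * ((inner ℝ θ z : ℝ) * h z) + c ^ 2 * h z)) =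
        Real.exp (-2) / 2 * (b ^ 2 * (‖θ‖ ^ 2 * M) + c ^ 2 * M) := by
      rw [integral_const_mul, integral_add, integral_add, integral_const_mul, integral_const_mul,
        integral_const_mul, h1, h2]
      · ring
      · exact hi2.const_mul _
      · exact hi1.const_mul _
      · exact (hi2.const_mul _).add (hi1.const_mul _)
      · exact H.int.const_mul _
    rw [← h3]
    refine integral_mono ?_ hicv fun z => ?_
    · exact (((hi2.const_mul _).add (hi1.const_mul _)).add (H.int.const_mul _)).const_mul _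
    · simp only [hf]
      rw [hexp z]
      have h4 := hpt z
      have h5 : 0 ≤ (b * inner ℝ θ z + c) ^ 2 := sq_nonneg _
      calc Real.exp (-2) / 2 * (b ^ 2 * ((inner ℝ θ z : ℝ) ^ 2 * h z) +
            2 * b * c * ((inner ℝ θ z : ℝ) * h z) + c ^ 2 * h z)
          = (b * inner ℝ θ z + c) ^ 2 * (Real.exp (-2) / 2 * h z) := by ring
        _ ≤ _ := mul_le_mul_of_nonneg_left h4 h5
  rw [hcv] at hlow
  have hfin : ∫ w, f w = ‖θ‖ ^ 2 * M := h2 θ
  rw [hfin] at hlow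
  have hbn : (1 / 4 : ℝ) ≤ b ^ n := quarter_le_pow hn
  have hbn0 : 0 < b ^ n := by positivity
  -- conclusion
  have h3 : Real.exp (-2) / 2 * (c ^ 2 * M) ≤ 4 * (‖θ‖ ^ 2 * M) := by
    have h4 : (b ^ n)⁻¹ ≤ 4 := by
      rw [inv_le_comm₀ hbn0 (by norm_num)]
      linarith
    have h5 : 0 ≤ ‖θ‖ ^ 2 * M := by positivity
    calc Real.exp (-2) / 2 * (c ^ 2 * M)
        ≤ Real.exp (-2) / 2 * (b ^ 2 * (‖θ‖ ^ 2 * M) + c ^ 2 * M) := by
          apply mul_le_mul_of_nonneg_left _ (by positivity)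
          have : 0 ≤ b ^ 2 * (‖θ‖ ^ 2 * M) := by positivity
          linarith
      _ ≤ (b ^ n)⁻¹ * (‖θ‖ ^ 2 * M) := hlow
      _ ≤ 4 * (‖θ‖ ^ 2 * M) := mul_le_mul_of_nonneg_right h4 h5
  have h4 : Real.exp (-2) * c ^ 2 ≤ 8 * ‖θ‖ ^ 2 := by
    have h5 : Real.exp (-2) * c ^ 2 * M ≤ 8 * ‖θ‖ ^ 2 * M := by linarith
    exact le_of_mul_le_mul_right h5 hMpos
  have h5 : Real.exp 2 ≤ 8 := by
    have h6 : Real.exp 2 = Real.exp 1 ^ 2 := by
      rw [← Real.exp_nat_mul]; norm_num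
    rw [h6]
    have h7 := Real.exp_one_lt_d9
    calc Real.exp 1 ^ 2 ≤ 2.7182818286 ^ 2 := pow_le_pow_left₀ (Real.exp_pos _).le h7.le 2
      _ ≤ 8 := by norm_num
  have h6 : c ^ 2 ≤ 64 * ‖θ‖ ^ 2 := by
    have h7 : c ^ 2 = Real.exp 2 * (Real.exp (-2) * c ^ 2) := by
      rw [← mul_assoc, ← Real.exp_add]; simp
    rw [h7]
    calc Real.exp 2 * (Real.exp (-2) * c ^ 2) ≤ 8 * (8 * ‖θ‖ ^ 2) :=
          mul_le_mul h5 h4 (by positivity) (by norm_num)
      _ = _ := by ring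
  have h7 : (inner ℝ θ x : ℝ) = c * n := by rw [hc]; field_simp
  apply abs_le_of_sq_le_sq _ (by positivity)
  rw [h7]
  calc (c * n) ^ 2 = c ^ 2 * n ^ 2 := by ring
    _ ≤ 64 * ‖θ‖ ^ 2 * n ^ 2 := mul_le_mul_of_nonneg_right h6 (by positivity)
    _ = _ := by ring

end Pool.Agent.Lib.MP_8d00da_gt.h42s
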