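import Pool.Agent.Lib.MP_8d00da_gt.h42s.PDefs
import Pool.Agent.Lib.MP_8d00da_gt.h42s.Diag

/-!
# Quasi-concavity of permutation invariant log-concave weights: majorisation
-/

namespace Pool.Agent.Lib.MP_8d00da_gt.h42s

open MeasureTheory Set Filter
open Pool.Agent.Lib.MP_8d00da_gt.h25 Pool.Agent.Lib.MP_8d00da_gt.h42
open scoped Topology NNReal

variable {n : ℕ}

/-- Invariance under all permutations. -/
lemma exch_perm {h : Vn n → ℝ} (hS : Exch h) (π : Equiv.Perm (Fin n)) :
    ∀ x : Vn n, h (WithLp.toLp 2 fun i => x (π i)) = h x := by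
  induction π using Equiv.Perm.swap_induction_on with
  | one => intro x; rfl
  | swap_mul π a b hab ih =>
    intro x
    have h1 : (WithLp.toLp 2 fun i => x ((Equiv.swap a b * π) i) : Vn n) =
        WithLp.toLp 2 fun i => (sw a b x) (π i) := by
      ext i
      simp [sw_apply]
    rw [h1, ih, hS a b]

/-- sign -/
noncomputable def sgnr (a : ℝ) : ℝ := if 0 < a then 1 else if a < 0 then -1 else 0

lemma abs_sgnr_le (a : ℝ) : |sgnr a| ≤ 1 := by
  unfold sgnr
  split_ifs <;> norm_num

lemma sgnr_mul (a : ℝ) : sgnr a * a = |a| := by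
  unfold sgnr
  split_ifs with h1 h2
  · rw [abs_of_pos h1, one_mul]
  · rw [abs_of_neg h2]; ring
  · have : a = 0 := le_antisymm (not_lt.1 h1) (not_lt.1 h2)
    rw [this]; simp

/-- the vector of the means -/
lemma inner_nu_smul (hn : 0 < n) (x : Vn n) (i : Fin n) :
    ((inner ℝ (nu n) x : ℝ) • nu n) i = (1 / n) * ∑ j, x j := by
  have hn' : (0 : ℝ) < n := by exact_mod_cast hn
  rw [PiLp.smul_apply, smul_eq_mul, inner_nu, nu_apply]
  have h := Real.mul_self_sqrt hn'.le
  have hs : Real.sqrt n ≠ 0 := (Real.sqrt_pos.2 hn').ne'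
  calc 1 / Real.sqrt n * (∑ j, x j) * (1 / Real.sqrt n)
      = (1 / (Real.sqrt n * Real.sqrt n)) * ∑ j, x j := by field_simp
    _ = _ := by rw [h]

theorem major {h : Vn n → ℝ} (h0 : ∀ x, 0 ≤ h x) (hc : LogConc h) (hS : Exch h) (hn : 0 < n)
    (x v : Vn n) (hv0 : ∑ i, v i = 0) (hv : ∀ i, |v i| ≤ NP pe x / (2 * n)) :
    h x ≤ h ((inner ℝ (nu n) x : ℝ) • nu n + v) := by
  classical
  have hn' : (0 : ℝ) < n := by exact_mod_cast hn
  set m : ℝ := (1 / n) * ∑ j, x j with hm
  have hy : ∀ i, (inner ℝ (pe i) x : ℝ) = x i - m := fun i => inner_pe i x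
  set N : ℝ := NP pe x with hN
  have hN' : N = ∑ i, |x i - m| := by
    rw [hN]
    unfold NP
    exact Finset.sum_congr rfl fun i _ => by rw [hy]
  have hN0 : 0 ≤ N := NP_nonneg x
  have hsum : ∑ i, (x i - m) = 0 := by
    rw [Finset.sum_sub_distrib, Finset.sum_const, Finset.card_univ, Fintype.card_fin,
      nsmul_eq_mul, hm]
    field_simp
    ring
  rcases hN0.eq_or_lt with hz | hpos
  · have hx : (inner ℝ (nu n) x : ℝ) • nu n + v = x := by
      ext i
      rw [PiLp.add_apply, inner_nu_smul hn, ← hm]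
      have h1 : v i = 0 := by
        have := hv i
        rw [← hz, zero_div] at this
        exact abs_nonpos_iff.1 this
      have h2 : x i - m = 0 := by
        have h3 : |x i - m| ≤ N := by
          rw [hN']
          exact Finset.single_le_sum (f := fun j => |x j - m|) (fun _ _ => abs_nonneg _)
            (Finset.mem_univ i)
        rw [← hz] at h3
        exact abs_nonpos_iff.1 h3
      rw [h1]
      linarith
    rw [hx]
  · set sb : ℝ := (1 / n) * ∑ j, sgnr (x j - m) with hsb
    let t : Fin n → ℝ := fun j => (sgnr (x j - m) - sb) / N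
    have hsb1 : |sb| ≤ 1 := by
      rw [hsb, abs_mul, abs_of_pos (by positivity : (0 : ℝ) < 1 / n)]
      have h1 : |∑ j, sgnr (x j - m)| ≤ ∑ _j : Fin n, (1 : ℝ) :=
        (Finset.abs_sum_le_sum_abs _ _).trans (Finset.sum_le_sum fun j _ => abs_sgnr_le _)
      rw [Finset.sum_const, Finset.card_univ, Fintype.card_fin, nsmul_eq_mul, mul_one] at h1
      calc 1 / (n : ℝ) * |∑ j, sgnr (x j - m)| ≤ 1 / (n : ℝ) * n :=
            mul_le_mul_of_nonneg_left h1 (by positivity)
        _ = 1 := by field_simp
    have ht0 : ∑ j, t j = 0 := by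
      simp only [t]
      rw [← Finset.sum_div, Finset.sum_sub_distrib, Finset.sum_const, Finset.card_univ,
        Fintype.card_fin, nsmul_eq_mul, hsb]
      have : ∑ j, sgnr (x j - m) - (n : ℝ) * (1 / n * ∑ j, sgnr (x j - m)) = 0 := by
        field_simp
        ring
      rw [this, zero_div]
    have ht1 : ∀ j, |t j| ≤ 2 / N := by
      intro j
      simp only [t]
      rw [abs_div, abs_of_pos hpos]
      apply div_le_div_of_nonneg_right _ hpos.le
      calc |sgnr (x j - m) - sb| ≤ |sgnr (x j - m)| + |sb| := abs_sub _ _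
        _ ≤ 1 + 1 := add_le_add (abs_sgnr_le _) hsb1
        _ = 2 := by norm_num
    have htx : ∑ j, t j * x j = 1 := by
      have h1 : ∑ j, t j * x j = ∑ j, t j * (x j - m) := by
        have h2 : ∑ j, t j * (x j - m) = ∑ j, t j * x j - (∑ j, t j) * m := by
          rw [Finset.sum_mul, ← Finset.sum_sub_distrib]
          exact Finset.sum_congr rfl fun j _ => by ring
        rw [h2, ht0, zero_mul, sub_zero]
      rw [h1]
      have h3 : ∑ j, t j * (x j - m) = (∑ j, |x j - m| - sb * ∑ j, (x j - m)) / N := by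
        rw [Finset.mul_sum, ← Finset.sum_sub_distrib, Finset.sum_div]
        apply Finset.sum_congr rfl
        intro j _
        simp only [t]
        rw [← sgnr_mul (x j - m)]
        ring
      rw [h3, hsum, mul_zero, sub_zero, ← hN', div_self hpos.ne']
    let M : Matrix (Fin n) (Fin n) ℝ := fun i j => 1 / n + v i * t j
    have hM : M ∈ doublyStochastic ℝ (Fin n) := by
      rw [mem_doublyStochastic_iff_sum]
      refine ⟨fun i j => ?_, fun i => ?_, fun j => ?_⟩
      · have h1 : |v i * t j| ≤ 1 / n := by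
          rw [abs_mul]
          calc |v i| * |t j| ≤ N / (2 * n) * (2 / N) :=
                mul_le_mul (hv i) (ht1 j) (abs_nonneg _) (by positivity)
            _ = 1 / n := by field_simp
        have h2 := (abs_le.1 h1).1
        change 0 ≤ 1 / (n : ℝ) + v i * t j
        linarith
      · change ∑ j, (1 / (n : ℝ) + v i * t j) = 1
        rw [Finset.sum_add_distrib, Finset.sum_const, Finset.card_univ, Fintype.card_fin,
          nsmul_eq_mul, ← Finset.mul_sum, ht0, mul_zero, add_zero]
        field_simp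
      · change ∑ i, (1 / (n : ℝ) + v i * t j) = 1
        rw [Finset.sum_add_distrib, Finset.sum_const, Finset.card_univ, Fintype.card_fin,
          nsmul_eq_mul, ← Finset.sum_mul, hv0, zero_mul, add_zero]
        field_simp
    obtain ⟨w, hw0, hw1, hw2⟩ := exists_eq_sum_perm_of_mem_doublyStochastic hM
    have key : (inner ℝ (nu n) x : ℝ) • nu n + v =
        ∑ σ : Equiv.Perm (Fin n), w σ • (WithLp.toLp 2 fun i => x (σ i) : Vn n) := by
      ext i
      rw [PiLp.add_apply, inner_nu_smul hn]
      have h1 : ∑ j, M i j * x j = 1 / n * ∑ j, x j + v i := by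
        change ∑ j, (1 / (n : ℝ) + v i * t j) * x j = _
        have h2 : ∑ j, (1 / (n : ℝ) + v i * t j) * x j =
            1 / n * ∑ j, x j + v i * ∑ j, t j * x j := by
          rw [Finset.mul_sum, Finset.mul_sum, ← Finset.sum_add_distrib]
          exact Finset.sum_congr rfl fun j _ => by ring
        rw [h2, htx, mul_one]
      rw [← h1, ← hw2]
      rw [WithLp.ofLp_sum, Finset.sum_apply]
      have h3 : ∀ j, (∑ σ : Equiv.Perm (Fin n), w σ • σ.permMatrix ℝ) i j * x j =
          ∑ σ : Equiv.Perm (Fin n), w σ * (σ.permMatrix ℝ i j * x j) := by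
        intro j
        rw [Matrix.sum_apply, Finset.sum_mul]
        exact Finset.sum_congr rfl fun σ _ => by
          rw [Matrix.smul_apply, smul_eq_mul, mul_assoc]
      rw [Finset.sum_congr rfl fun j _ => h3 j, Finset.sum_comm]
      apply Finset.sum_congr rfl
      intro σ _
      rw [← Finset.mul_sum]
      have h4 : ∑ j, σ.permMatrix ℝ i j * x j = x (σ i) := by
        rw [Finset.sum_eq_single (σ i)]
        · simp [Equiv.Perm.permMatrix, PEquiv.toMatrix_apply, Equiv.toPEquiv_apply]
        · intro j _ hj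
          have : σ.permMatrix ℝ i j = 0 := by
            simp [Equiv.Perm.permMatrix, PEquiv.toMatrix_apply, Equiv.toPEquiv_apply, Ne.symm hj]
          rw [this, zero_mul]
        · intro hh
          exact absurd (Finset.mem_univ _) hh
      rw [h4]
      rfl
    rw [key]
    have h5 := (convex_super h0 hc (h x)).sum_mem (t := Finset.univ) (w := w)
      (z := fun σ : Equiv.Perm (Fin n) => (WithLp.toLp 2 fun i => x (σ i) : Vn n))
      (fun σ _ => hw0 σ) hw1 (fun σ _ => (exch_perm hS σ x).ge)
    exact h5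

end Pool.Agent.Lib.MP_8d00da_gt.h42s
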