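import Pool.Agent.Lib.MP_8d00da_gt.h42s.PDefs
import Pool.Agent.Lib.MP_8d00da_gt.h42s.Growth

/-!
# An upper bound for the mass of an isotropic weight
-/

namespace Pool.Agent.Lib.MP_8d00da_gt.h42s

open MeasureTheory Set Filter
open Pool.Agent.Lib.MP_8d00da_gt.h25 Pool.Agent.Lib.MP_8d00da_gt.h42
open scoped Topology NNReal

variable {n : ℕ}

theorem entropy_sup {h : Vn n → ℝ} {r B : ℝ} (H : LCW h r B) {S : ℝ} (hS : ∀ x, h x ≤ S)
    {σ : ℝ} (hσ : 0 < σ)
    (hlin : ∀ θ : Vn n, ∫ x, (inner ℝ θ x) ^ 2 * h x ≤ σ ^ 2 * ‖θ‖ ^ 2 * ∫ x, h x) :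
    Real.exp (-((n : ℝ) / 2)) * (∫ x, h x) ≤ S * Real.sqrt (2 * Real.pi * σ ^ 2) ^ n := by
  set M := ∫ x, h x with hM
  have hc2 : (0 : ℝ) < 2 * σ ^ 2 := by positivity
  -- integrability
  have hcoord : ∀ i : Fin n, Integrable (fun x : Vn n => (x i) ^ 2 * h x) := by
    intro i
    refine LCW_int_mul H (g := fun x : Vn n => (x i) ^ 2) (by fun_prop) (C := r ^ 2) ?_
    intro x hx
    rw [abs_of_nonneg (sq_nonneg _), ← sq_abs]
    have h1 : |x i| ≤ ‖x‖ := by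
      have := PiLp.norm_apply_le x i
      simpa using this
    exact pow_le_pow_left₀ (abs_nonneg _) (h1.trans hx) 2
  have hQint : Integrable (fun x : Vn n => ‖x‖ ^ 2 * h x) := by
    refine LCW_int_mul H (g := fun x : Vn n => ‖x‖ ^ 2) (by fun_prop) (C := r ^ 2) ?_
    intro x hx
    rw [abs_of_nonneg (sq_nonneg _)]
    exact pow_le_pow_left₀ (norm_nonneg _) hx 2
  have hQ : ∫ x : Vn n, ‖x‖ ^ 2 * h x ≤ n * σ ^ 2 * M := by
    have e1 : (fun x : Vn n => ‖x‖ ^ 2 * h x) = fun x => ∑ i, (x i) ^ 2 * h x := by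
      funext x
      rw [EuclideanSpace.norm_sq_eq, Finset.sum_mul]
      exact Finset.sum_congr rfl fun i _ => by rw [Real.norm_eq_abs, sq_abs]
    rw [e1, integral_finsetSum _ fun i _ => hcoord i]
    have h2 : ∀ i : Fin n, ∫ x : Vn n, (x i) ^ 2 * h x ≤ σ ^ 2 * M := by
      intro i
      have h3 := hlin (ee i)
      have h4 : ‖(ee i : Vn n)‖ = 1 := by simp [ee]
      rw [h4] at h3
      have h5 : ∀ x : Vn n, inner ℝ (ee i) x = x i := fun x => by
        rw [real_inner_comm, inner_ee]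
      simp only [h5] at h3
      linarith
    calc ∑ i : Fin n, ∫ x : Vn n, (x i) ^ 2 * h x ≤ ∑ _i : Fin n, σ ^ 2 * M :=
          Finset.sum_le_sum fun i _ => h2 i
      _ = n * σ ^ 2 * M := by
          rw [Finset.sum_const, Finset.card_univ, Fintype.card_fin, nsmul_eq_mul]; ring
  -- the Gaussian factor
  have hgint : Integrable (fun x : Vn n => Real.exp (-(1 / (2 * σ ^ 2)) * ‖x‖ ^ 2)) := by
    have := GaussianFourier.integrable_cexp_neg_mul_sq_norm_add (V := Vn n)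
      (b := ((1 / (2 * σ ^ 2) : ℝ) : ℂ)) (by rw [Complex.ofReal_re]; positivity) 0 0
    refine (this.norm).congr ?_
    refine Eventually.of_forall fun x => ?_
    simp only [Complex.norm_exp]
    congr 1
    simp only [zero_mul, add_zero]
    rw [← Complex.ofReal_neg, ← Complex.ofReal_pow, ← Complex.ofReal_mul, Complex.ofReal_re]
  have hg := GaussianFourier.integral_rexp_neg_mul_sq_norm (V := Vn n)
    (b := 1 / (2 * σ ^ 2)) (by positivity)
  have hval : (Real.pi / (1 / (2 * σ ^ 2))) ^ (Module.finrank ℝ (Vn n) / 2 : ℝ) =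
      Real.sqrt (2 * Real.pi * σ ^ 2) ^ n := by
    have e1 : Real.pi / (1 / (2 * σ ^ 2)) = 2 * Real.pi * σ ^ 2 := by
      field_simp
    rw [e1, finrank_euclideanSpace_fin, Real.sqrt_eq_rpow,
      ← Real.rpow_natCast ((2 * Real.pi * σ ^ 2) ^ (1 / 2 : ℝ)) n,
      ← Real.rpow_mul (by positivity)]
    congr 1
    ring
  rw [hval] at hg
  -- upper bound
  have hint1 : Integrable (fun x : Vn n => Real.exp (-(1 / (2 * σ ^ 2)) * ‖x‖ ^ 2) * h x) := by
    refine LCW_int_mul H (g := fun x : Vn n => Real.exp (-(1 / (2 * σ ^ 2)) * ‖x‖ ^ 2))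
      (by fun_prop) (C := 1) ?_
    intro x _
    rw [abs_of_pos (Real.exp_pos _)]
    refine Real.exp_le_one_iff.2 ?_
    have : 0 ≤ 1 / (2 * σ ^ 2) * ‖x‖ ^ 2 := by positivity
    linarith
  have hup : ∫ x : Vn n, Real.exp (-(1 / (2 * σ ^ 2)) * ‖x‖ ^ 2) * h x ≤
      S * Real.sqrt (2 * Real.pi * σ ^ 2) ^ n := by
    rw [← hg, ← integral_const_mul]
    refine integral_mono hint1 (hgint.const_mul _) fun x => ?_
    have := hS x
    simp only
    rw [mul_comm S]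
    exact mul_le_mul_of_nonneg_left this (Real.exp_pos _).le
  -- lower bound
  have hlow : Real.exp (-((n : ℝ) / 2)) * M ≤
      ∫ x : Vn n, Real.exp (-(1 / (2 * σ ^ 2)) * ‖x‖ ^ 2) * h x := by
    have h1 : ∀ x : Vn n, Real.exp (-((n : ℝ) / 2)) *
        ((1 + n / 2) * h x - (1 / (2 * σ ^ 2)) * (‖x‖ ^ 2 * h x)) ≤
        Real.exp (-(1 / (2 * σ ^ 2)) * ‖x‖ ^ 2) * h x := by
      intro x
      have h2 := Real.add_one_le_exp (-(1 / (2 * σ ^ 2)) * ‖x‖ ^ 2 + n / 2)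
      have h3 : Real.exp (-(1 / (2 * σ ^ 2)) * ‖x‖ ^ 2) =
          Real.exp (-((n : ℝ) / 2)) * Real.exp (-(1 / (2 * σ ^ 2)) * ‖x‖ ^ 2 + n / 2) := by
        rw [← Real.exp_add]; congr 1; ring
      rw [h3, mul_assoc]
      refine mul_le_mul_of_nonneg_left ?_ (Real.exp_pos _).le
      have h4 := mul_le_mul_of_nonneg_right h2 (H.nonneg x)
      linarith
    have h5 : ∫ x : Vn n, Real.exp (-((n : ℝ) / 2)) *
        ((1 + n / 2) * h x - (1 / (2 * σ ^ 2)) * (‖x‖ ^ 2 * h x)) ≤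
        ∫ x : Vn n, Real.exp (-(1 / (2 * σ ^ 2)) * ‖x‖ ^ 2) * h x := by
      refine integral_mono ?_ hint1 h1
      exact ((H.int.const_mul _).sub (hQint.const_mul _)).const_mul _
    refine le_trans ?_ h5
    rw [integral_const_mul, integral_sub (H.int.const_mul _) (hQint.const_mul _),
      integral_const_mul, integral_const_mul]
    refine mul_le_mul_of_nonneg_left ?_ (Real.exp_pos _).le
    have h6 : 1 / (2 * σ ^ 2) * ∫ x : Vn n, ‖x‖ ^ 2 * h x ≤ 1 / (2 * σ ^ 2) * (n * σ ^ 2 * M) :=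
      mul_le_mul_of_nonneg_left hQ (by positivity)
    have h7 : 1 / (2 * σ ^ 2) * (n * σ ^ 2 * M) = n / 2 * M := by
      field_simp
    rw [h7] at h6
    rw [← hM]
    linarith
  exact hlow.trans hup

theorem mass_le {h : Vn n → ℝ} {r B : ℝ} (H : LCW h r B)
    (hlin : ∀ θ : Vn n, ∫ x, (inner ℝ θ x) ^ 2 * h x ≤ ‖θ‖ ^ 2 * ∫ x, h x) {S : ℝ}
    (hS : ∀ x, h x ≤ S) :
    ∫ x, h x ≤ S * (Real.exp (1 / 2) * Real.sqrt (2 * Real.pi)) ^ n := by
  have h1 := entropy_sup H hS (σ := 1) one_pos (fun θ => by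
    rw [one_pow, one_mul]; exact hlin θ)
  rw [one_pow, mul_one] at h1
  have h7 : Real.exp ((n : ℝ) / 2) * (Real.exp (-((n : ℝ) / 2)) * ∫ x, h x) ≤
      Real.exp ((n : ℝ) / 2) * (S * Real.sqrt (2 * Real.pi) ^ n) :=
    mul_le_mul_of_nonneg_left h1 (Real.exp_pos _).le
  have h8 : Real.exp ((n : ℝ) / 2) * (Real.exp (-((n : ℝ) / 2)) * ∫ x, h x) = ∫ x, h x := by
    rw [← mul_assoc, ← Real.exp_add]; simp
  rw [h8] at h7
  refine h7.trans (le_of_eq ?_)
  have e4 : Real.exp ((n : ℝ) / 2) = Real.exp (1 / 2) ^ n := by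
    rw [← Real.exp_nat_mul]; congr 1; ring
  rw [e4, mul_pow]
  ring

end Pool.Agent.Lib.MP_8d00da_gt.h42s
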