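import Pool.Agent.Lib.MP_8d00da_gt.h42s.PMarg
import Pool.Agent.Lib.MP_8d00da_gt.h42s.PDefs
import Pool.Agent.Lib.MP_8d00da_gt.LogConc
import Pool.Agent.Lib.MP_8d00da_gt.Bodies

/-!
# Functions of one linear coordinate
-/

namespace Pool.Agent.Lib.MP_8d00da_gt.h42s

open MeasureTheory Set Filter
open Pool.Agent.Lib.MP_8d00da_gt.h25 Pool.Agent.Lib.MP_8d00da_gt.h42
open scoped Topology NNReal

variable {F : Type*} [NormedAddCommGroup F] [InnerProductSpace ℝ F]
    [FiniteDimensional ℝ F] [MeasurableSpace F] [BorelSpace F]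

/-- Continuous functions are integrable against a weight of bounded support. -/
private lemma od_int {h : F → ℝ} {r B : ℝ} (H : LCW h r B) {φ : F → ℝ} (hφ : Continuous φ) :
    Integrable fun x => φ x * h x := by
  obtain ⟨C, hC⟩ := (isCompact_closedBall (0 : F) r).exists_bound_of_continuousOn hφ.continuousOn
  refine (H.int.const_mul |C|).mono' (hφ.measurable.mul H.meas).aestronglyMeasurable
    (Eventually.of_forall fun x => ?_)
  rw [norm_mul, Real.norm_eq_abs (h x), abs_of_nonneg (H.nonneg x)]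
  rcases le_or_gt ‖x‖ r with hx | hx
  · refine mul_le_mul_of_nonneg_right ?_ (H.nonneg x)
    exact (hC x (by rwa [mem_closedBall_zero_iff])).trans (le_abs_self _)
  · rw [H.supp x hx, mul_zero, mul_zero]

/-- The primitive of a compactly supported continuous function is bounded and Lipschitz. -/
private lemma od_BL {a g : ℝ → ℝ} (hg : Continuous g) (hc : HasCompactSupport g)
    (had : ∀ s, HasDerivAt a (g s) s) :
    (∃ L : ℝ≥0, LipschitzWith L a) ∧ ∃ C : ℝ, ∀ s, |a s| ≤ C := by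
  have hsub : ∀ s t : ℝ, a t - a s = ∫ u in s..t, g u := fun s t =>
    (intervalIntegral.integral_eq_sub_of_hasDerivAt (fun x _ => had x)
      (hg.intervalIntegrable _ _)).symm
  obtain ⟨G, hG⟩ := hc.exists_bound_of_continuous hg
  refine ⟨⟨Real.toNNReal G, ?_⟩, |a 0| + ∫ t, ‖g t‖, ?_⟩
  · refine LipschitzWith.of_dist_le_mul fun x y => ?_
    have hG0 : 0 ≤ G := (norm_nonneg _).trans (hG 0)
    rw [Real.coe_toNNReal _ hG0, Real.dist_eq, hsub, ← Real.norm_eq_abs]
    refine (intervalIntegral.norm_integral_le_of_norm_le_const fun t _ => hG t).trans ?_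
    rw [Real.dist_eq]
  · intro s
    have h1 : |a s - a 0| ≤ ∫ t, ‖g t‖ := by
      rw [hsub, ← Real.norm_eq_abs]
      refine intervalIntegral.norm_integral_le_integral_norm_uIoc.trans ?_
      exact setIntegral_le_integral (hg.integrable_of_hasCompactSupport hc).norm
        (Eventually.of_forall fun t => norm_nonneg _)
    have h2 : |a s| ≤ |a 0| + |a s - a 0| := by
      have := abs_add_le (a 0) (a s - a 0)
      rwa [add_sub_cancel] at this
    linarith

theorem h1d_of {h : F → ℝ} {r B : ℝ} (H : LCW h r B) {ν : F} (hν : ‖ν‖ = 1) {V b : ℝ}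
    (hV : 0 ≤ V) (hvar : ∫ x, (inner ℝ ν x - b) ^ 2 * h x ≤ V * ∫ x, h x)
    {a g : ℝ → ℝ} (hg : Continuous g) (hgc : HasCompactSupport g)
    (ha : ∀ s, HasDerivAt a (g s) s) :
    ∃ m : ℝ, ∫ x, (a (inner ℝ ν x) - m) ^ 2 * h x ≤ 48 * V * ∫ x, g (inner ℝ ν x) ^ 2 * h x := by
  have hM : 0 < ∫ x, h x := H.mass
  obtain ⟨HL, HP⟩ := marg_LCD H hν
  set D : ℝ → ℝ := fun s => marg ν h s / ∫ x, h x with hD
  have := HP
  obtain ⟨M0, hM0, hr, hle, hsup⟩ := HL.median
  set c := D M0 with hc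
  have hmom : Integrable (fun x : ℝ => x ^ 2) (dens D) := integrable_sq_of_hazard HL.meas hM0 hr hle
  have hP1 : P1 (dens D) (1 / c) := P1_of_hazard HL.meas hM0 hr hle
  obtain ⟨haL, haB⟩ := od_BL hg hgc ha
  have hac : Continuous a := by
    obtain ⟨L, hL⟩ := haL
    exact hL.continuous
  have hlc : Continuous fun x : F => (inner ℝ ν x : ℝ) := by fun_prop
  -- the variance
  have hmb : Integrable (fun x : ℝ => (x - b) ^ 2) (dens D) := by
    have hid : MemLp (fun x : ℝ => x) 2 (dens D) := by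
      rw [memLp_two_iff_integrable_sq (by fun_prop)]
      exact hmom
    exact (hid.sub (memLp_const _)).integrable_sq
  have hvb : ∫ s, (s - b) ^ 2 ∂(dens D) ≤ V := by
    have h1 := marg_int H hν (φ := fun s => (s - b) ^ 2) (by fun_prop)
      (od_int H (φ := fun x => ((inner ℝ ν x : ℝ) - b) ^ 2) (by fun_prop))
    rw [h1, mul_comm V] at hvar
    exact le_of_mul_le_mul_left hvar hM
  have hlow : 1 / (12 * (2 * c) ^ 2) ≤ V := by
    have h1 := var_lower HL.meas (S := 2 * c) (by positivity) hsup b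
    rw [← ofReal_integral_eq_lintegral_ofReal hmb (Eventually.of_forall fun x => sq_nonneg _)] at h1
    exact ((ENNReal.ofReal_le_ofReal_iff (integral_nonneg fun x => sq_nonneg _)).1 h1).trans hvb
  have hcV : (1 / c) ^ 2 ≤ 48 * V := by
    have e : 1 / (12 * (2 * c) ^ 2) = (1 / 48) * (1 / c) ^ 2 := by
      field_simp
      norm_num
    rw [e] at hlow
    linarith
  have hp := hP1 a haL haB
  have hder : ∀ x, deriv a x = g x := fun x => (ha x).deriv
  simp only [hder] at hp
  refine ⟨∫ y, a y ∂(dens D), ?_⟩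
  have hg2 : 0 ≤ ∫ x, g x ^ 2 ∂(dens D) := integral_nonneg fun x => sq_nonneg _
  have h2 := marg_int H hν (φ := fun s => (a s - ∫ y, a y ∂(dens D)) ^ 2)
    ((hac.measurable.sub_const _).pow_const 2)
    (od_int H (φ := fun x => (a (inner ℝ ν x) - ∫ y, a y ∂(dens D)) ^ 2)
      (((hac.comp hlc).sub continuous_const).pow 2))
  have h3 := marg_int H hν (φ := fun s => g s ^ 2) (hg.measurable.pow_const 2)
    (od_int H (φ := fun x => g (inner ℝ ν x) ^ 2) ((hg.comp hlc).pow 2))
  rw [h2, h3]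
  calc (∫ x, h x) * ∫ s, (a s - ∫ y, a y ∂(dens D)) ^ 2 ∂(dens D)
      ≤ (∫ x, h x) * ((1 / c) ^ 2 * ∫ x, g x ^ 2 ∂(dens D)) :=
        mul_le_mul_of_nonneg_left hp hM.le
    _ ≤ (∫ x, h x) * ((48 * V) * ∫ x, g x ^ 2 ∂(dens D)) :=
        mul_le_mul_of_nonneg_left (mul_le_mul_of_nonneg_right hcV hg2) hM.le
    _ = _ := by ring

theorem marg_sup {h : F → ℝ} {r B : ℝ} (H : LCW h r B) {ν : F} (hν : ‖ν‖ = 1)
    (h1 : ∫ x, (inner ℝ ν x : ℝ) * h x = 0)
    (h2 : ∫ x, (inner ℝ ν x : ℝ) ^ 2 * h x = ∫ x, h x) (s : ℝ) :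
    marg ν h s ≤ 2 * ∫ x, h x := by
  have hM : 0 < ∫ x, h x := H.mass
  obtain ⟨HL, HP⟩ := marg_LCD H hν
  set D : ℝ → ℝ := fun s => marg ν h s / ∫ x, h x with hD
  have := HP
  obtain ⟨M0, hM0, hr, hle, hsup⟩ := HL.median
  set c := D M0 with hc
  have hmom : Integrable (fun x : ℝ => x ^ 2) (dens D) := integrable_sq_of_hazard HL.meas hM0 hr hle
  have hid : MemLp (fun x : ℝ => x) 2 (dens D) := by
    rw [memLp_two_iff_integrable_sq (by fun_prop)]
    exact hmom
  have hi1 : Integrable (fun x : ℝ => x) (dens D) := hid.integrable (by norm_num)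
  have hm2 : Integrable (fun x : ℝ => (x - M0) ^ 2) (dens D) :=
    (hid.sub (memLp_const _)).integrable_sq
  have k1 : ∫ s, s ∂(dens D) = 0 := by
    have k := marg_int H hν (φ := fun s => s) (by fun_prop)
      (od_int H (φ := fun x => (inner ℝ ν x : ℝ)) (by fun_prop))
    rw [h1] at k
    rcases mul_eq_zero.1 k.symm with k | k
    · exact absurd k hM.ne'
    · exact k
  have k2 : ∫ s, s ^ 2 ∂(dens D) = 1 := by
    have k := marg_int H hν (φ := fun s => s ^ 2) (by fun_prop)
      (od_int H (φ := fun x => (inner ℝ ν x : ℝ) ^ 2) (by fun_prop))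
    rw [h2] at k
    have k' : (∫ x, h x) * ∫ s, s ^ 2 ∂(dens D) = (∫ x, h x) * 1 := by rw [mul_one]; exact k.symm
    exact mul_left_cancel₀ hM.ne' k'
  have k3 : ∫ s, (s - M0) ^ 2 ∂(dens D) = 1 + M0 ^ 2 := by
    have e : (fun s : ℝ => (s - M0) ^ 2) = fun s => s ^ 2 - 2 * M0 * s + M0 ^ 2 := by
      funext s; ring
    have i1 : Integrable (fun s : ℝ => s ^ 2 - 2 * M0 * s) (dens D) := hmom.sub (hi1.const_mul _)
    rw [e, integral_add i1 (integrable_const _), integral_sub hmom (hi1.const_mul _),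
      integral_const_mul, k1, k2, integral_const]
    simp
  have k4 : 1 + M0 ^ 2 ≤ (1 / c) ^ 2 := by
    have k := second_moment HL.meas hM0 hr hle
    rw [← ofReal_integral_eq_lintegral_ofReal hm2 (Eventually.of_forall fun x => sq_nonneg _), k3] at k
    exact (ENNReal.ofReal_le_ofReal_iff (by positivity)).1 k
  have hc1 : c ≤ 1 := by
    have k5 : 1 ≤ (1 / c) ^ 2 := by nlinarith [sq_nonneg M0]
    have k6 : 1 ≤ 1 / c := by
      by_contra hcon
      rw [not_le] at hcon
      have : (1 / c) ^ 2 < 1 := by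
        have : 0 < 1 / c := by positivity
        nlinarith
      linarith
    rw [le_div_iff₀ hM0] at k6
    linarith
  have h3 := hsup s
  have h4 : marg ν h s / ∫ x, h x ≤ 2 := by
    refine le_trans h3 ?_
    linarith
  rwa [div_le_iff₀ hM] at h4

end Pool.Agent.Lib.MP_8d00da_gt.h42s
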