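import Pool.Agent.Lib.MP_8d00da_gt.h42s.PDefs
import Pool.Agent.Lib.MP_8d00da_gt.h42.Slice

/-!
# Splitting along a unit vector
-/

namespace Pool.Agent.Lib.MP_8d00da_gt.h42s

open MeasureTheory Set Filter
open Pool.Agent.Lib.MP_8d00da_gt.h25 Pool.Agent.Lib.MP_8d00da_gt.h42
open scoped Topology NNReal

variable {F : Type*} [NormedAddCommGroup F] [InnerProductSpace ℝ F]
    [FiniteDimensional ℝ F] [MeasurableSpace F] [BorelSpace F] {n : ℕ}

lemma slice_mp {ν : F} (hν : ‖ν‖ = 1) :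
    MeasurePreserving (fun p : ℝ × (ℝ ∙ ν)ᗮ => p.1 • ν + (p.2 : F))
      ((volume : Measure ℝ).prod (volume : Measure (ℝ ∙ ν)ᗮ)) volume := by
  have h1 := split_mp (ℝ ∙ ν)
  have h2 := (LinearIsometryEquiv.toSpanUnitSingleton (𝕜 := ℝ) ν hν).measurePreserving
  have h3 : MeasurePreserving (id : (ℝ ∙ ν)ᗮ → (ℝ ∙ ν)ᗮ) volume volume := MeasurePreserving.id _
  have h4 := h1.comp (h2.prod h3)
  have e : (fun p : ℝ × (ℝ ∙ ν)ᗮ => p.1 • ν + (p.2 : F)) =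
      (fun p : (ℝ ∙ ν) × (ℝ ∙ ν)ᗮ => ((p.1 : F) + (p.2 : F))) ∘
        (Prod.map (LinearIsometryEquiv.toSpanUnitSingleton (𝕜 := ℝ) ν hν) id) := by
    ext p
    simp
  rw [e]
  exact h4

lemma slice_emb {ν : F} (hν : ‖ν‖ = 1) :
    MeasurableEmbedding (fun p : ℝ × (ℝ ∙ ν)ᗮ => p.1 • ν + (p.2 : F)) := by
  have h1 := split_emb (ℝ ∙ ν)
  have h2 : MeasurableEmbedding
      (Prod.map (LinearIsometryEquiv.toSpanUnitSingleton (𝕜 := ℝ) ν hν)
        (id : (ℝ ∙ ν)ᗮ → (ℝ ∙ ν)ᗮ)) := by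
    have := ((LinearIsometryEquiv.toSpanUnitSingleton (𝕜 := ℝ) ν hν).toHomeomorph.prodCongr
      (Homeomorph.refl ((ℝ ∙ ν)ᗮ : Submodule ℝ F))).measurableEmbedding
    exact this
  have e : (fun p : ℝ × (ℝ ∙ ν)ᗮ => p.1 • ν + (p.2 : F)) =
      (fun p : (ℝ ∙ ν) × (ℝ ∙ ν)ᗮ => ((p.1 : F) + (p.2 : F))) ∘
        (Prod.map (LinearIsometryEquiv.toSpanUnitSingleton (𝕜 := ℝ) ν hν) id) := by
    ext p
    simp
  rw [e]
  exact h1.comp h2

omit [FiniteDimensional ℝ F] [MeasurableSpace F] [BorelSpace F] in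
lemma slice_orth {ν : F} (y : (ℝ ∙ ν)ᗮ) : (inner ℝ ν (y : F) : ℝ) = 0 :=
  (Submodule.mem_orthogonal_singleton_iff_inner_right).1 y.2

omit [FiniteDimensional ℝ F] [MeasurableSpace F] [BorelSpace F] in
lemma slice_inner {ν : F} (hν : ‖ν‖ = 1) (s : ℝ) (y : (ℝ ∙ ν)ᗮ) :
    (inner ℝ ν (s • ν + (y : F)) : ℝ) = s := by
  rw [inner_add_right, inner_smul_right, slice_orth, real_inner_self_eq_norm_sq, hν]
  ring

omit [FiniteDimensional ℝ F] [MeasurableSpace F] [BorelSpace F] in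
lemma slice_norm {ν : F} (hν : ‖ν‖ = 1) (s : ℝ) (y : (ℝ ∙ ν)ᗮ) :
    ‖(y : F)‖ ≤ ‖s • ν + (y : F)‖ ∧ |s| ≤ ‖s • ν + (y : F)‖ := by
  have h1 : ‖s • ν + (y : F)‖ ^ 2 = s ^ 2 + ‖(y : F)‖ ^ 2 := by
    rw [norm_add_sq_real, inner_smul_left, slice_orth, norm_smul, hν]
    simp
  constructor
  · refine (pow_le_pow_iff_left₀ (norm_nonneg _) (norm_nonneg _) two_ne_zero).1 ?_
    rw [h1]; nlinarith [sq_nonneg s]
  · refine (pow_le_pow_iff_left₀ (abs_nonneg _) (norm_nonneg _) two_ne_zero).1 ?_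
    rw [h1, sq_abs]; nlinarith [sq_nonneg ‖(y : F)‖]

/-- Fubini. -/
lemma slice_int {ν : F} (hν : ‖ν‖ = 1) {Φ : F → ℝ} (hΦ : Integrable Φ) :
    ∫ x, Φ x = ∫ s : ℝ, ∫ y : (ℝ ∙ ν)ᗮ, Φ (s • ν + (y : F)) := by
  rw [← (slice_mp hν).integral_comp (slice_emb hν)]
  exact integral_prod _ ((slice_mp hν).integrable_comp_of_integrable hΦ)

lemma slice_integrable {ν : F} (hν : ‖ν‖ = 1) {Φ : F → ℝ} (hΦ : Integrable Φ) :
    (∀ᵐ s : ℝ, Integrable fun y : (ℝ ∙ ν)ᗮ => Φ (s • ν + (y : F))) ∧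
      Integrable fun s : ℝ => ∫ y : (ℝ ∙ ν)ᗮ, Φ (s • ν + (y : F)) := by
  have h1 := (slice_mp hν).integrable_comp_of_integrable hΦ
  exact ⟨h1.prod_right_ae, h1.integral_prod_left⟩

/-- The section is integrable for every `s` (bounded with bounded support). -/
lemma sec_int {h : F → ℝ} {r B : ℝ} (H : LCW h r B) {ν : F} (hν : ‖ν‖ = 1) (s : ℝ) :
    Integrable fun y : (ℝ ∙ ν)ᗮ => h (s • ν + (y : F)) := by
  have hm : Measurable fun y : (ℝ ∙ ν)ᗮ => h (s • ν + (y : F)) := H.meas.comp (by fun_prop)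
  have h1 : Integrable ((Metric.closedBall (0 : (ℝ ∙ ν)ᗮ) r).indicator fun _ => B) := by
    rw [integrable_indicator_iff measurableSet_closedBall]
    exact integrableOn_const (measure_closedBall_lt_top.ne)
  refine h1.mono' hm.aestronglyMeasurable (Eventually.of_forall fun y => ?_)
  rw [Real.norm_eq_abs, abs_of_nonneg (H.nonneg _)]
  by_cases hy : y ∈ Metric.closedBall (0 : (ℝ ∙ ν)ᗮ) r
  · rw [indicator_of_mem hy]; exact H.bdd _
  · rw [indicator_of_notMem hy]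
    have h2 : r < ‖y‖ := by rwa [mem_closedBall_zero_iff, not_le] at hy
    have h3 : r < ‖s • ν + (y : F)‖ := lt_of_lt_of_le h2 (slice_norm hν s y).1
    rw [H.supp _ h3]

lemma sec_LCW {h : F → ℝ} {r B : ℝ} (H : LCW h r B) {ν : F} (hν : ‖ν‖ = 1) (s : ℝ)
    (hpos : 0 < marg ν h s) : LCW (fun y : (ℝ ∙ ν)ᗮ => h (s • ν + (y : F))) r B where
  meas := H.meas.comp (by fun_prop)
  nonneg := fun _ => H.nonneg _
  bdd := fun _ => H.bdd _
  conc := by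
    intro a ha0 ha1 y y'
    have h1 := H.conc a ha0 ha1 (s • ν + (y : F)) (s • ν + (y' : F))
    refine h1.trans (le_of_eq ?_)
    congr 1
    simp only [Submodule.coe_add, Submodule.coe_smul, smul_add, smul_smul]
    have e : s • ν = ((1 - a) * s) • ν + (a * s) • ν := by
      rw [← add_smul]; congr 1; ring
    rw [e]
    abel
  supp := by
    intro y hy
    exact H.supp _ (lt_of_lt_of_le hy (slice_norm hν s y).1)
  mass := hpos

end Pool.Agent.Lib.MP_8d00da_gt.h42s
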