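import Pool.Agent.Lib.MP_8d00da_gt.h42s.PDefs
import Pool.Agent.Lib.MP_8d00da_gt.h42s.Growth
import Pool.Agent.Lib.MP_8d00da_gt.h42s.PSlice
import Pool.Agent.Lib.MP_8d00da_gt.h42s.POneD
import Pool.Agent.Lib.MP_8d00da_gt.h42s.PMajor
import Pool.Agent.Lib.MP_8d00da_gt.h42s.PMass

/-!
# The volume trick
-/

namespace Pool.Agent.Lib.MP_8d00da_gt.h42s

open MeasureTheory Set Filter
open Pool.Agent.Lib.MP_8d00da_gt.h25 Pool.Agent.Lib.MP_8d00da_gt.h42
open scoped Topology NNReal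

variable {F : Type*} [NormedAddCommGroup F] [InnerProductSpace ℝ F]
    [FiniteDimensional ℝ F] [MeasurableSpace F] [BorelSpace F] {n : ℕ}

/-- The central section of the cube of side `2 t`. -/
private def Dt (n : ℕ) (t : ℝ) : Set (ℝ ∙ nu n)ᗮ := {y : (ℝ ∙ nu n)ᗮ | ∀ i, |(y : Vn n) i| ≤ t}

private lemma Dt_meas (t : ℝ) : MeasurableSet (Dt n t) := by
  have : Dt n t = ⋂ i, {y : (ℝ ∙ nu n)ᗮ | |(y : Vn n) i| ≤ t} := by
    ext x; simp [Dt]
  rw [this]
  refine MeasurableSet.iInter fun i => ?_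
  exact measurableSet_le (by fun_prop) measurable_const

private lemma Dt_fin (t : ℝ) : volume (Dt n t) ≠ ⊤ := by
  have hsub : Dt n t ⊆ Metric.closedBall 0 (n * t) := by
    intro y hy
    rw [mem_closedBall_zero_iff]
    change ‖(y : Vn n)‖ ≤ n * t
    refine (norm_le_N1 (y : Vn n)).trans ?_
    unfold N1
    calc ∑ i, |(y : Vn n) i| ≤ ∑ _i : Fin n, t := Finset.sum_le_sum fun i _ => hy i
      _ = n * t := by simp
  exact ((measure_mono hsub).trans_lt measure_closedBall_lt_top).ne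

/-- The volume of the central section of the cube. -/
theorem cube_section (hn : 0 < n) {t : ℝ} (ht : 0 < t) :
    t ^ n ≤ Real.sqrt n * t *
      (volume {y : (ℝ ∙ nu n)ᗮ | ∀ i, |(y : Vn n) i| ≤ t}).toReal := by
  have hn' : (0 : ℝ) < n := by exact_mod_cast hn
  have hν : ‖nu n‖ = 1 := nu_norm hn
  set C : Set (Vn n) := {x : Vn n | ∀ i, |x i| ≤ t / 2} with hC
  have hCm : MeasurableSet C := by
    have : C = ⋂ i, {x : Vn n | |x i| ≤ t / 2} := by
      ext x; simp [hC]
    rw [this]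
    refine MeasurableSet.iInter fun i => ?_
    exact measurableSet_le (by fun_prop) measurable_const
  have hvol : (volume C).toReal = t ^ n := by
    rw [hC, cube_volume (t / 2) (by positivity)]
    congr 1
    ring
  have hmp := slice_mp (F := Vn n) hν
  have h1 : volume C = ((volume : Measure ℝ).prod (volume : Measure (ℝ ∙ nu n)ᗮ))
      ((fun p : ℝ × (ℝ ∙ nu n)ᗮ => p.1 • nu n + (p.2 : Vn n)) ⁻¹' C) :=
    (hmp.measure_preimage hCm.nullMeasurableSet).symm
  have hpm : MeasurableSet ((fun p : ℝ × (ℝ ∙ nu n)ᗮ => p.1 • nu n + (p.2 : Vn n)) ⁻¹' C) :=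
    hmp.measurable hCm
  rw [Measure.prod_apply hpm] at h1
  have h2 : ∀ s : ℝ, volume (Prod.mk s ⁻¹'
      ((fun p : ℝ × (ℝ ∙ nu n)ᗮ => p.1 • nu n + (p.2 : Vn n)) ⁻¹' C)) ≤
      (Icc (-(Real.sqrt n * t / 2)) (Real.sqrt n * t / 2)).indicator
        (fun _ => volume (Dt n t)) s := by
    intro s
    have hsn : 0 < Real.sqrt n := Real.sqrt_pos.2 hn'
    have key : ∀ y : (ℝ ∙ nu n)ᗮ, s • nu n + (y : Vn n) ∈ C →
        |s| ≤ Real.sqrt n * t / 2 ∧ y ∈ Dt n t := by
      intro y hy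
      have e1 : s = (1 / Real.sqrt n) * ∑ j, (s • nu n + (y : Vn n)) j := by
        rw [← inner_nu, slice_inner hν]
      have e2 : |∑ j, (s • nu n + (y : Vn n)) j| ≤ n * (t / 2) := by
        calc |∑ j, (s • nu n + (y : Vn n)) j| ≤ ∑ j, |(s • nu n + (y : Vn n)) j| :=
              Finset.abs_sum_le_sum_abs _ _
          _ ≤ ∑ _j : Fin n, t / 2 := Finset.sum_le_sum fun j _ => hy j
          _ = n * (t / 2) := by simp
      have e3 : |s| ≤ Real.sqrt n * t / 2 := by
        rw [e1, abs_mul, abs_of_pos (by positivity)]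
        have e4 : (1 / Real.sqrt n) * |∑ j, (s • nu n + (y : Vn n)) j| ≤
            (1 / Real.sqrt n) * (n * (t / 2)) := mul_le_mul_of_nonneg_left e2 (by positivity)
        refine e4.trans (le_of_eq ?_)
        have e5 : (n : ℝ) = Real.sqrt n * Real.sqrt n := (Real.mul_self_sqrt hn'.le).symm
        rw [show (1 / Real.sqrt n) * ((n : ℝ) * (t / 2)) = (n : ℝ) / Real.sqrt n * (t / 2) by ring,
          Real.div_sqrt]
        ring
      refine ⟨e3, fun i => ?_⟩
      have e6 := hy i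
      have e7 : (y : Vn n) i = (s • nu n + (y : Vn n)) i - s * (1 / Real.sqrt n) := by
        simp only [PiLp.add_apply, PiLp.smul_apply, nu_apply, smul_eq_mul]
        ring
      have e8 : |s * (1 / Real.sqrt n)| ≤ t / 2 := by
        rw [abs_mul, abs_of_pos (show (0 : ℝ) < 1 / Real.sqrt n by positivity), mul_one_div,
          div_le_iff₀ hsn]
        linarith
      rw [e7]
      refine (abs_sub _ _).trans ?_
      linarith
    by_cases hs : s ∈ Icc (-(Real.sqrt n * t / 2)) (Real.sqrt n * t / 2)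
    · rw [indicator_of_mem hs]
      exact measure_mono fun y hy => (key y hy).2
    · rw [indicator_of_notMem hs]
      refine le_of_eq ?_
      rw [show (Prod.mk s ⁻¹' ((fun p : ℝ × (ℝ ∙ nu n)ᗮ => p.1 • nu n + (p.2 : Vn n)) ⁻¹' C)) =
        (∅ : Set (ℝ ∙ nu n)ᗮ) from ?_, measure_empty]
      rw [eq_empty_iff_forall_notMem]
      intro y hy
      exact hs (abs_le.1 (key y hy).1)
  have h3 : volume C ≤ volume (Dt n t) * ENNReal.ofReal (Real.sqrt n * t) := by
    rw [h1]
    refine (lintegral_mono h2).trans (le_of_eq ?_)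
    rw [lintegral_indicator measurableSet_Icc, setLIntegral_const, Real.volume_Icc]
    congr 2
    ring
  have h4 : (volume C).toReal ≤ (volume (Dt n t) * ENNReal.ofReal (Real.sqrt n * t)).toReal :=
    ENNReal.toReal_mono (ENNReal.mul_ne_top (Dt_fin t) ENNReal.ofReal_ne_top) h3
  rw [hvol, ENNReal.toReal_mul, ENNReal.toReal_ofReal (by positivity)] at h4
  calc t ^ n ≤ (volume (Dt n t)).toReal * (Real.sqrt n * t) := h4
    _ = _ := by rw [mul_comm]; rfl

private lemma pow_num (m : ℕ) (hm : 10 ≤ m) : 16384 * m < 4 ^ (m - 1) := by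
  induction m, hm using Nat.le_induction with
  | base => norm_num
  | succ k hk ih =>
    obtain ⟨j, rfl⟩ : ∃ j, k = j + 1 := ⟨k - 1, by omega⟩
    simp only [Nat.add_sub_cancel] at ih ⊢
    rw [pow_succ]
    omega

theorem vol_trick {h : Vn n → ℝ} {r B : ℝ} (H : LCW h r B) (hS : Exch h) (hn : 10 ≤ n)
    (h1 : ∀ θ : Vn n, ∫ x, (inner ℝ θ x : ℝ) * h x = 0)
    (h2 : ∀ θ : Vn n, ∫ x, (inner ℝ θ x : ℝ) ^ 2 * h x = ‖θ‖ ^ 2 * ∫ x, h x)
    {x0 x : Vn n} (hx0 : ∀ z, h z ≤ 2 * h x0) (hx : h x0 * Real.exp (-(2 * n)) ≤ h x) :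
    NP pe x ≤ 128 * n := by
  by_contra hcon
  rw [not_le] at hcon
  have hn0 : 0 < n := by omega
  have hn' : (0 : ℝ) < n := by exact_mod_cast hn0
  have hν : ‖nu n‖ = 1 := nu_norm hn0
  set M := ∫ x, h x with hM
  have hMpos : 0 < M := H.mass
  have hx0pos : 0 < h x0 := by
    by_contra hc
    have hz : h = 0 := by
      funext y
      refine le_antisymm ((hx0 y).trans ?_) (H.nonneg y)
      simp only [Pi.zero_apply]
      linarith [not_lt.1 hc]
    rw [hM, hz] at hMpos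
    simp at hMpos
  set t := NP pe x / (2 * n) with ht
  have ht64 : 64 < t := by
    rw [ht, lt_div_iff₀ (by positivity)]; linarith
  set s : ℝ := inner ℝ (nu n) x with hs
  have hsum : ∀ y : (ℝ ∙ nu n)ᗮ, ∑ i, (y : Vn n) i = 0 := by
    intro y
    have e1 : (inner ℝ (nu n) (y : Vn n) : ℝ) = 0 :=
      Submodule.mem_orthogonal_singleton_iff_inner_right.1 y.2
    rw [inner_nu] at e1
    rcases mul_eq_zero.1 e1 with e2 | e2
    · exact absurd e2 (by positivity)
    · exact e2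
  have hge : ∀ y ∈ Dt n t, h x ≤ h (s • nu n + (y : Vn n)) := fun y hy =>
    major H.nonneg H.conc hS hn0 x y (hsum y) hy
  have hsec := sec_int H hν s
  have hmg : h x * (volume (Dt n t)).toReal ≤ 2 * M := by
    have e1 : ∫ _y in Dt n t, h x ≤ ∫ y in Dt n t, h (s • nu n + (y : Vn n)) :=
      setIntegral_mono_on (integrableOn_const (Dt_fin t)) hsec.integrableOn (Dt_meas t) hge
    have e2 : ∫ y in Dt n t, h (s • nu n + (y : Vn n)) ≤ marg (nu n) h s :=
      setIntegral_le_integral hsec (Eventually.of_forall fun y => H.nonneg _)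
    have e3 : ∫ _y in Dt n t, h x = h x * (volume (Dt n t)).toReal := by
      rw [setIntegral_const, smul_eq_mul, mul_comm]; rfl
    have e4 := marg_sup H hν (h1 (nu n)) (by rw [h2, hν]; ring) s
    linarith
  have hsq : 0 ≤ Real.sqrt n := Real.sqrt_nonneg _
  have hc1 : t ^ n ≤ Real.sqrt n * t * (volume (Dt n t)).toReal := cube_section hn0 (by linarith)
  have htn : t ^ n = t ^ (n - 1) * t := by rw [← pow_succ]; congr 1; omega
  have hc2 : t ^ (n - 1) ≤ Real.sqrt n * (volume (Dt n t)).toReal := by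
    have e1 : t ^ (n - 1) * t ≤ Real.sqrt n * (volume (Dt n t)).toReal * t := by
      rw [← htn]; linarith
    exact le_of_mul_le_mul_right e1 (by linarith)
  have hc3 : h x * t ^ (n - 1) ≤ Real.sqrt n * (2 * M) := by
    calc h x * t ^ (n - 1) ≤ h x * (Real.sqrt n * (volume (Dt n t)).toReal) :=
          mul_le_mul_of_nonneg_left hc2 (H.nonneg x)
      _ = Real.sqrt n * (h x * (volume (Dt n t)).toReal) := by ring
      _ ≤ _ := mul_le_mul_of_nonneg_left hmg hsq
  have hml := mass_le H (fun θ => (h2 θ).le) hx0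
  rw [← hM] at hml
  set c := Real.exp (1 / 2) * Real.sqrt (2 * Real.pi) with hc
  have hcpos : 0 < c := by positivity
  have hnum : c * Real.exp 2 ≤ 32 := num_bound
  have hee : Real.exp (-(2 * (n : ℝ))) * Real.exp 2 ^ n = 1 := by
    rw [← Real.exp_nat_mul, ← Real.exp_add]
    rw [show -(2 * (n : ℝ)) + n * 2 = 0 by ring, Real.exp_zero]
  have hc4 : h x0 * t ^ (n - 1) ≤ h x0 * (4 * Real.sqrt n * 32 ^ n) := by
    have e0 : 0 < Real.exp 2 ^ n := by positivity
    have e1 : h x0 * Real.exp (-(2 * n)) * t ^ (n - 1) ≤ Real.sqrt n * (2 * (2 * h x0 * c ^ n)) := by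
      calc h x0 * Real.exp (-(2 * n)) * t ^ (n - 1) ≤ h x * t ^ (n - 1) :=
            mul_le_mul_of_nonneg_right hx (by positivity)
        _ ≤ Real.sqrt n * (2 * M) := hc3
        _ ≤ _ := mul_le_mul_of_nonneg_left (by linarith) hsq
    have e2 := mul_le_mul_of_nonneg_right e1 e0.le
    have e3 : h x0 * Real.exp (-(2 * (n : ℝ))) * t ^ (n - 1) * Real.exp 2 ^ n =
        h x0 * t ^ (n - 1) * (Real.exp (-(2 * (n : ℝ))) * Real.exp 2 ^ n) := by ring
    rw [e3, hee, mul_one] at e2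
    refine e2.trans ?_
    have e4 : Real.sqrt n * (2 * (2 * h x0 * c ^ n)) * Real.exp 2 ^ n =
        h x0 * (4 * Real.sqrt n * (c * Real.exp 2) ^ n) := by rw [mul_pow]; ring
    rw [e4]
    have e5 : (c * Real.exp 2) ^ n ≤ 32 ^ n := pow_le_pow_left₀ (by positivity) hnum n
    gcongr
  have hc5 : t ^ (n - 1) ≤ 4 * Real.sqrt n * 32 ^ n := le_of_mul_le_mul_left hc4 hx0pos
  have hc6 : (64 : ℝ) ^ (n - 1) ≤ 4 * Real.sqrt n * 32 ^ n :=
    (pow_le_pow_left₀ (by norm_num) ht64.le _).trans hc5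
  have hc7 : (2 : ℝ) ^ (n - 1) ≤ 128 * Real.sqrt n := by
    have e1 : (64 : ℝ) ^ (n - 1) = 2 ^ (n - 1) * 32 ^ (n - 1) := by rw [← mul_pow]; norm_num
    have e2 : (32 : ℝ) ^ n = 32 ^ (n - 1) * 32 := by rw [← pow_succ]; congr 1; omega
    rw [e1, e2] at hc6
    have e3 : (0 : ℝ) < 32 ^ (n - 1) := by positivity
    refine le_of_mul_le_mul_right ?_ e3
    linarith
  have hc8 : (4 : ℝ) ^ (n - 1) ≤ 16384 * n := by
    have e1 := pow_le_pow_left₀ (by positivity) hc7 2
    rw [mul_pow, Real.sq_sqrt hn'.le, ← pow_mul, mul_comm (n - 1) 2, pow_mul] at e1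
    norm_num at e1
    linarith
  have hc9 : 16384 * (n : ℝ) < 4 ^ (n - 1) := by exact_mod_cast pow_num n hn
  linarith

end Pool.Agent.Lib.MP_8d00da_gt.h42s
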