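import Pool.Agent.Lib.MP_8d00da_gt.h42s.PMajor
import Pool.Agent.Lib.MP_8d00da_gt.h42s.PPhi
import Pool.Agent.Lib.MP_8d00da_gt.h42s.PVol

/-!
# The growth of `-log h` for isotropic permutation invariant weights
-/

namespace Pool.Agent.Lib.MP_8d00da_gt.h42s

open MeasureTheory Set Filter
open Pool.Agent.Lib.MP_8d00da_gt.h25 Pool.Agent.Lib.MP_8d00da_gt.h42
open scoped Topology NNReal

variable {n : ℕ}

/-- a vector which realizes the `ℓ₁` norm -/
lemma exists_theta (x : Vn n) : ∃ θ : Vn n, ‖θ‖ ≤ Real.sqrt n ∧ (inner ℝ θ x : ℝ) = NP pe x := by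
  set e : Fin n → ℝ := fun i => if 0 ≤ (inner ℝ (pe i) x : ℝ) then 1 else -1 with he
  have he2 : ∀ i, e i ^ 2 = 1 := fun i => by
    simp only [he]; split_ifs <;> norm_num
  have hea : ∀ i, e i * (inner ℝ (pe i) x : ℝ) = |(inner ℝ (pe i) x : ℝ)| := fun i => by
    simp only [he]
    split_ifs with h1
    · rw [abs_of_nonneg h1, one_mul]
    · rw [abs_of_neg (not_le.1 h1)]; ring
  refine ⟨∑ i, e i • pe i, ?_, ?_⟩
  · have h1 : ‖∑ i, e i • (pe i : Vn n)‖ ^ 2 ≤ (n : ℝ) := by
      rw [← real_inner_self_eq_norm_sq, sum_inner]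
      have g : ∀ i j : Fin n, (inner ℝ (pe i : Vn n) (pe j) : ℝ) = (if i = j then (1 : ℝ) else 0) - 1 / n := gram_pe
      simp only [inner_sum, inner_smul_left, inner_smul_right, g]
      have e1 : ∀ i j : Fin n, e j * (e i * ((if i = j then (1 : ℝ) else 0) - 1 / n)) =
          (if i = j then e i * e j else 0) - (1 / n) * (e i * e j) := fun i j => by
        split_ifs <;> ring
      simp only [conj_trivial, e1, Finset.sum_sub_distrib, Finset.sum_ite_eq, Finset.mem_univ, if_true,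
        ← Finset.mul_sum, ← Finset.sum_mul]
      have e2 : ∑ i, e i * e i = n := by
        have : ∀ i, e i * e i = 1 := fun i => by rw [← sq]; exact he2 i
        simp [this]
      rw [e2]
      have e3 : 0 ≤ 1 / (n : ℝ) * ((∑ i, e i) * ∑ i, e i) :=
        mul_nonneg (by positivity) (mul_self_nonneg _)
      linarith
    exact Real.le_sqrt_of_sq_le h1
  · rw [sum_inner]
    simp only [inner_smul_left, conj_trivial, hea]
    rfl

/-- the level set -/
lemma level_P {h : Vn n → ℝ} {r B : ℝ} (H : LCW h r B) (hS : Exch h) (hn : 2 ≤ n)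
    (h1 : ∀ θ : Vn n, ∫ x, (inner ℝ θ x : ℝ) * h x = 0)
    (h2 : ∀ θ : Vn n, ∫ x, (inner ℝ θ x : ℝ) ^ 2 * h x = ‖θ‖ ^ 2 * ∫ x, h x)
    {c0 : ℝ} {x : Vn n} (hx0 : ∀ z, h z ≤ 2 * h (c0 • nu n))
    (hx : h (c0 • nu n) * Real.exp (-(2 * n)) ≤ h x) :
    NG n (x - c0 • nu n) ≤ 128 * n := by
  have hn0 : 0 < n := by omega
  have hn' : (2 : ℝ) ≤ n := by exact_mod_cast hn
  have hν := nu_norm hn0
  have hpos : 0 ≤ h (c0 • nu n) := H.nonneg _
  have hself : h (c0 • nu n) * Real.exp (-(2 * n)) ≤ h (c0 • nu n) := by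
    refine mul_le_of_le_one_right hpos ?_
    rw [Real.exp_le_one_iff]
    linarith
  have e1 : NP pe (x - c0 • nu n) = NP pe x := by
    unfold NP
    refine Finset.sum_congr rfl fun i _ => ?_
    rw [inner_sub_right, inner_smul_right, inner_pe_nu, mul_zero, sub_zero]
  have e2 : (inner ℝ (nu n) (x - c0 • nu n) : ℝ) = inner ℝ (nu n) x - inner ℝ (nu n) (c0 • nu n) := by
    rw [inner_sub_right]
  unfold NG
  rw [e1, e2]
  refine max_le ?_ ?_
  · rcases le_or_gt 10 n with h10 | h10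
    · exact vol_trick H hS h10 h1 h2 hx0 hx
    · obtain ⟨θ, hθ1, hθ2⟩ := exists_theta x
      have h3 := phi_trick H hn h1 h2 hx0 hx θ
      rw [hθ2, abs_of_nonneg (NP_nonneg x)] at h3
      have h4 : Real.sqrt n ≤ 4 := by
        rw [Real.sqrt_le_left (by norm_num)]
        have : (n : ℝ) < 10 := by exact_mod_cast h10
        linarith
      have h5 : ‖θ‖ ≤ 4 := hθ1.trans h4
      calc NP pe x ≤ 8 * n * ‖θ‖ := h3
        _ ≤ 8 * n * 4 := mul_le_mul_of_nonneg_left h5 (by positivity)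
        _ ≤ 128 * n := by linarith
  · have h3 := phi_trick H hn h1 h2 hx0 hx (nu n)
    have h4 := phi_trick H hn h1 h2 hx0 hself (nu n)
    rw [hν, mul_one] at h3 h4
    have h5 := abs_sub (inner ℝ (nu n) x : ℝ) (inner ℝ (nu n) (c0 • nu n))
    linarith

theorem growth_P {h : Vn n → ℝ} {r B : ℝ} (H : LCW h r B) (hS : Exch h) (hn : 2 ≤ n)
    (h1 : ∀ θ : Vn n, ∫ x, (inner ℝ θ x : ℝ) * h x = 0)
    (h2 : ∀ θ : Vn n, ∫ x, (inner ℝ θ x : ℝ) ^ 2 * h x = ‖θ‖ ^ 2 * ∫ x, h x)
    (hG : Gauge (NG n) n) :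
    ∃ c0 : ℝ, ∀ x, 130 * n ≤ NG n (x - c0 • nu n) →
      h x ≤ h (c0 • nu n) * Real.exp (-(2 * NG n (x - c0 • nu n) / 130)) := by
  have hn0 : 0 < n := by omega
  have hn' : (2 : ℝ) ≤ n := by exact_mod_cast hn
  -- a nearly maximal point
  have hbdd : BddAbove (range h) := ⟨B, by rintro _ ⟨x, rfl⟩; exact H.bdd x⟩
  have hsup : 0 < ⨆ x, h x := by
    by_contra hc
    have hz : ∀ y, h y = 0 := fun y => le_antisymm ((le_ciSup hbdd y).trans (not_lt.1 hc)) (H.nonneg y)
    have := H.mass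
    simp only [hz, integral_zero] at this
    exact lt_irrefl _ this
  obtain ⟨z, hz⟩ := exists_lt_of_lt_ciSup (show (⨆ x, h x) / 2 < ⨆ x, h x by linarith)
  refine ⟨inner ℝ (nu n) z, ?_⟩
  set c0 : ℝ := inner ℝ (nu n) z with hc0
  have hmaj : h z ≤ h (c0 • nu n) := by
    have h3 := major H.nonneg H.conc hS hn0 z 0 (by simp) (fun i => by
      simp only [PiLp.zero_apply, abs_zero]
      exact div_nonneg (NP_nonneg z) (by positivity))
    rwa [add_zero] at h3
  have hx0 : ∀ y, h y ≤ 2 * h (c0 • nu n) := fun y => by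
    have := le_ciSup hbdd y
    linarith
  have hpos : 0 < h (c0 • nu n) := by linarith
  intro x hx
  set x0 : Vn n := c0 • nu n with hx0def
  set N : ℝ := NG n (x - x0) with hN
  have hNpos : 0 < N := lt_of_lt_of_le (by positivity) hx
  by_contra hcon
  rw [not_le] at hcon
  -- the point on the segment
  have hex : ∃ y : Vn n, h x0 * Real.exp (-(2 * n)) ≤ h y ∧ NG n (y - x0) = 130 * n := by
    rcases hx.eq_or_lt with heq | hlt
    · refine ⟨x, ?_, by rw [← hN]; exact heq.symm⟩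
      have e : 2 * N / 130 = 2 * n := by rw [← heq]; ring
      rw [e] at hcon
      exact hcon.le
    · set t : ℝ := 130 * n / N with ht
      have ht0 : 0 < t := by positivity
      have ht1 : t < 1 := (div_lt_one hNpos).2 hlt
      refine ⟨(1 - t) • x0 + t • x, ?_, ?_⟩
      · have h3 := H.conc t ht0 ht1 x0 x
        refine le_trans ?_ h3
        have h4 : (h x0 * Real.exp (-(2 * N / 130))) ^ t ≤ h x ^ t :=
          Real.rpow_le_rpow (by positivity) hcon.le ht0.le
        rw [Real.mul_rpow hpos.le (Real.exp_pos _).le, ← Real.exp_mul] at h4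
        have h5 : -(2 * N / 130) * t = -(2 * n) := by rw [ht]; field_simp
        rw [h5] at h4
        have h6 : h x0 = h x0 ^ (1 - t) * h x0 ^ t := by
          rw [← Real.rpow_add hpos]; simp
        calc h x0 * Real.exp (-(2 * n)) = h x0 ^ (1 - t) * (h x0 ^ t * Real.exp (-(2 * n))) := by
              nth_rewrite 1 [h6]; ring
          _ ≤ h x0 ^ (1 - t) * h x ^ t :=
              mul_le_mul_of_nonneg_left h4 (Real.rpow_nonneg hpos.le _)
      · have e : (1 - t) • x0 + t • x - x0 = t • (x - x0) := by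
          rw [sub_smul, one_smul, smul_sub]; abel
        rw [e, hG.smul t _ ht0.le, ← hN, ht]
        field_simp
  obtain ⟨y, hy1, hy2⟩ := hex
  have h7 := level_P H hS hn h1 h2 hx0 hy1
  rw [← hx0def, hy2] at h7
  linarith

end Pool.Agent.Lib.MP_8d00da_gt.h42s
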