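import Pool.Agent.Lib.MP_8d00da_gt.h42s.PDefs
import Pool.Agent.Lib.MP_8d00da_gt.h42s.PSlice

/-!
# Functions are close to functions of one coordinate if the sections satisfy a Poincaré inequality
-/

namespace Pool.Agent.Lib.MP_8d00da_gt.h42s

open MeasureTheory Set Filter
open Pool.Agent.Lib.MP_8d00da_gt.h25 Pool.Agent.Lib.MP_8d00da_gt.h42
open scoped Topology NNReal

variable {F : Type*} [NormedAddCommGroup F] [InnerProductSpace ℝ F]
    [FiniteDimensional ℝ F] [MeasurableSpace F] [BorelSpace F] {n : ℕ}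

/-- measurability of integrals over the sections -/
lemma psec_meas {ν : F} {Φ : F → ℝ} (hΦ : Measurable Φ) :
    Measurable fun s : ℝ => ∫ y : (ℝ ∙ ν)ᗮ, Φ (s • ν + (y : F)) := by
  have h1 : Measurable fun p : ℝ × (ℝ ∙ ν)ᗮ => Φ (p.1 • ν + (p.2 : F)) :=
    hΦ.comp (by fun_prop)
  exact (h1.stronglyMeasurable.integral_prod_right').measurable

/-- bounded measurable times integrable -/
lemma psec_int_mul {X : Type*} [MeasurableSpace X] {μ : Measure X} {h g : X → ℝ}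
    (hi : Integrable h μ) (hh : ∀ x, 0 ≤ h x) (hhm : Measurable h) (hg : Measurable g) {C : ℝ}
    (hC : ∀ x, |g x| ≤ C) : Integrable (fun x => g x * h x) μ := by
  refine Integrable.mono' (hi.const_mul C) (hg.mul hhm).aestronglyMeasurable ?_
  refine Eventually.of_forall fun x => ?_
  rw [Real.norm_eq_abs, abs_mul, abs_of_nonneg (hh x)]
  exact mul_le_mul_of_nonneg_right (hC x) (hh x)

theorem hsec_of {h : F → ℝ} {r B : ℝ} (H : LCW h r B) {ν : F} (hν : ‖ν‖ = 1) {K' : ℝ}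
    (hK' : 0 ≤ K')
    (hP : ∀ s : ℝ, 0 < marg ν h s → ∀ u : (ℝ ∙ ν)ᗮ → ℝ, BL u → ∀ m : ℝ,
      ∫ y : (ℝ ∙ ν)ᗮ, u y * h (s • ν + (y : F)) = m * ∫ y : (ℝ ∙ ν)ᗮ, h (s • ν + (y : F)) →
      ∫ y : (ℝ ∙ ν)ᗮ, (u y - m) ^ 2 * h (s • ν + (y : F)) ≤
        K' * ∫ y : (ℝ ∙ ν)ᗮ, ‖fderiv ℝ u y‖ ^ 2 * h (s • ν + (y : F)))
    {q : F → ℝ} (hq : BL q) (hd : Differentiable ℝ q) {δ : ℝ} (hδ : 0 < δ) :
    ∃ g : ℝ → ℝ, Continuous g ∧ HasCompactSupport g ∧
      ∫ x, (q x - g (inner ℝ ν x)) ^ 2 * h x ≤ K' * En h q + δ := by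
  obtain ⟨⟨L, hL⟩, A, hA⟩ := id hq
  have hA0 : 0 ≤ A := (abs_nonneg _).trans (hA 0)
  have hqc : Continuous q := hL.continuous
  -- notation
  set Mg : ℝ → ℝ := marg ν h with hMg
  have hMg0 : ∀ s, 0 ≤ Mg s := fun s => integral_nonneg fun y => H.nonneg _
  have hMgm : Measurable Mg := psec_meas H.meas
  have hMgi : Integrable Mg := (slice_integrable hν H.int).2
  have hsm : ∀ s : ℝ, Measurable fun y : (ℝ ∙ ν)ᗮ => h (s • ν + (y : F)) := fun s =>
    H.meas.comp (by fun_prop)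
  have hqm : ∀ s : ℝ, Continuous fun y : (ℝ ∙ ν)ᗮ => q (s • ν + (y : F)) := fun s =>
    hqc.comp (by fun_prop)
  set m : ℝ → ℝ := fun s => (∫ y : (ℝ ∙ ν)ᗮ, q (s • ν + (y : F)) * h (s • ν + (y : F))) / Mg s
    with hm
  have hmm : Measurable m := (psec_meas (Φ := fun x => q x * h x)
    (hqc.measurable.mul H.meas)).div hMgm
  have hqh : ∀ s : ℝ, Integrable fun y : (ℝ ∙ ν)ᗮ =>
      q (s • ν + (y : F)) * h (s • ν + (y : F)) := fun s =>
    psec_int_mul (sec_int H hν s) (fun y => H.nonneg _) (hsm s) (hqm s).measurable (fun y => hA _)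
  have hnum : ∀ s, |∫ y : (ℝ ∙ ν)ᗮ, q (s • ν + (y : F)) * h (s • ν + (y : F))| ≤ A * Mg s := by
    intro s
    calc |∫ y : (ℝ ∙ ν)ᗮ, q (s • ν + (y : F)) * h (s • ν + (y : F))|
        ≤ ∫ y : (ℝ ∙ ν)ᗮ, |q (s • ν + (y : F)) * h (s • ν + (y : F))| :=
          abs_integral_le_integral_abs
      _ ≤ ∫ y : (ℝ ∙ ν)ᗮ, A * h (s • ν + (y : F)) := by
          refine integral_mono (hqh s).abs ((sec_int H hν s).const_mul A) fun y => ?_
          simp only
          rw [abs_mul, abs_of_nonneg (H.nonneg _)]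
          exact mul_le_mul_of_nonneg_right (hA _) (H.nonneg _)
      _ = A * Mg s := by rw [integral_const_mul]; rfl
  have hmA : ∀ s, |m s| ≤ A := by
    intro s
    rcases (hMg0 s).eq_or_lt with h0 | h0
    · simp only [hm]
      rw [← h0, div_zero, abs_zero]
      exact hA0
    · simp only [hm]
      rw [abs_div, abs_of_pos h0, div_le_iff₀ h0]
      exact hnum s
  have hmq : ∀ s, ∫ y : (ℝ ∙ ν)ᗮ, q (s • ν + (y : F)) * h (s • ν + (y : F)) = m s * Mg s := by
    intro s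
    rcases (hMg0 s).eq_or_lt with h0 | h0
    · have h1 := hnum s
      rw [← h0, mul_zero] at h1
      rw [← h0, mul_zero]
      exact abs_nonpos_iff.1 h1
    · simp only [hm]
      rw [div_mul_cancel₀ _ h0.ne']
  -- expansions
  have hsq : ∀ (s t : ℝ), Integrable fun y : (ℝ ∙ ν)ᗮ =>
      (q (s • ν + (y : F)) - t) ^ 2 * h (s • ν + (y : F)) := fun s t => by
    refine psec_int_mul (sec_int H hν s) (fun y => H.nonneg _) (hsm s)
      (((hqm s).sub continuous_const).pow 2).measurable (C := (A + |t|) ^ 2) (fun y => ?_)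
    rw [abs_pow]
    exact pow_le_pow_left₀ (abs_nonneg _)
      ((abs_sub _ _).trans (add_le_add (hA _) le_rfl)) 2
  have step2 : ∀ (s t : ℝ), ∫ y : (ℝ ∙ ν)ᗮ, (q (s • ν + (y : F)) - t) ^ 2 * h (s • ν + (y : F)) =
      (∫ y : (ℝ ∙ ν)ᗮ, (q (s • ν + (y : F)) - m s) ^ 2 * h (s • ν + (y : F))) +
        (m s - t) ^ 2 * Mg s := by
    intro s t
    have e1 : ∀ y : (ℝ ∙ ν)ᗮ, (q (s • ν + (y : F)) - t) ^ 2 * h (s • ν + (y : F)) =
        (q (s • ν + (y : F)) - m s) ^ 2 * h (s • ν + (y : F)) +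
          (2 * (m s - t) * (q (s • ν + (y : F)) * h (s • ν + (y : F))) +
            ((m s - t) ^ 2 - 2 * (m s - t) * m s) * h (s • ν + (y : F))) := fun y => by ring
    rw [integral_congr_ae (Eventually.of_forall e1), integral_add (hsq s (m s)),
      integral_add, integral_const_mul, integral_const_mul, hmq]
    · have e2 : ∫ y : (ℝ ∙ ν)ᗮ, h (s • ν + (y : F)) = Mg s := rfl
      rw [e2]
      ring
    · exact (hqh s).const_mul _
    · exact (sec_int H hν s).const_mul _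
    · exact ((hqh s).const_mul _).add ((sec_int H hν s).const_mul _)
  -- step 1
  have hfd : Measurable fun x => ‖fderiv ℝ q x‖ ^ 2 := ((measurable_fderiv ℝ q).norm).pow_const 2
  have hfL : ∀ x, |‖fderiv ℝ q x‖ ^ 2| ≤ (L : ℝ) ^ 2 := fun x => sq_fderiv_bdd hL x
  have hfdi : ∀ s : ℝ, Integrable fun y : (ℝ ∙ ν)ᗮ =>
      ‖fderiv ℝ q (s • ν + (y : F))‖ ^ 2 * h (s • ν + (y : F)) := fun s =>
    psec_int_mul (sec_int H hν s) (fun y => H.nonneg _) (hsm s)
      (hfd.comp (by fun_prop : Measurable fun y : (ℝ ∙ ν)ᗮ => s • ν + (y : F))) (fun y => hfL _)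
  have step1 : ∀ s, ∫ y : (ℝ ∙ ν)ᗮ, (q (s • ν + (y : F)) - m s) ^ 2 * h (s • ν + (y : F)) ≤
      K' * ∫ y : (ℝ ∙ ν)ᗮ, ‖fderiv ℝ q (s • ν + (y : F))‖ ^ 2 * h (s • ν + (y : F)) := by
    intro s
    rcases (hMg0 s).eq_or_lt with h0 | h0
    · have h1 : (fun y : (ℝ ∙ ν)ᗮ => h (s • ν + (y : F))) =ᵐ[volume] 0 :=
        (integral_eq_zero_iff_of_nonneg (fun y => H.nonneg _) (sec_int H hν s)).1 h0.symm
      have h2 : ∫ y : (ℝ ∙ ν)ᗮ, (q (s • ν + (y : F)) - m s) ^ 2 * h (s • ν + (y : F)) = 0 := by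
        have h3 : (fun y : (ℝ ∙ ν)ᗮ => (q (s • ν + (y : F)) - m s) ^ 2 * h (s • ν + (y : F)))
            =ᵐ[volume] fun _ => 0 := by
          filter_upwards [h1] with y hy
          simp only [Pi.zero_apply] at hy
          rw [hy, mul_zero]
        rw [integral_congr_ae h3, integral_zero]
      rw [h2]
      exact mul_nonneg hK' (integral_nonneg fun y => mul_nonneg (sq_nonneg _) (H.nonneg _))
    · have hlip : LipschitzWith 1 (fun y : (ℝ ∙ ν)ᗮ => s • ν + (y : F)) := by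
        refine LipschitzWith.of_dist_le_mul fun y y' => ?_
        rw [dist_add_left, NNReal.coe_one, one_mul]
        rfl
      have h1 := hP s h0 (fun y => q (s • ν + (y : F))) (hq.comp hlip) (m s) (hmq s)
      refine h1.trans (mul_le_mul_of_nonneg_left ?_ hK')
      have hder : ∀ y : (ℝ ∙ ν)ᗮ, ‖fderiv ℝ (fun y : (ℝ ∙ ν)ᗮ => q (s • ν + (y : F))) y‖ ≤
          ‖fderiv ℝ q (s • ν + (y : F))‖ := by
        intro y
        have h2 : HasFDerivAt (fun y : (ℝ ∙ ν)ᗮ => s • ν + (y : F)) ((ℝ ∙ ν)ᗮ.subtypeL) y :=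
          ((ℝ ∙ ν)ᗮ.subtypeL.hasFDerivAt).const_add (s • ν)
        have h3 := ((hd (s • ν + (y : F))).hasFDerivAt.comp y h2).fderiv
        have h4 : fderiv ℝ (fun y : (ℝ ∙ ν)ᗮ => q (s • ν + (y : F))) y =
            (fderiv ℝ q (s • ν + (y : F))).comp (ℝ ∙ ν)ᗮ.subtypeL := h3
        rw [h4]
        calc _ ≤ ‖fderiv ℝ q (s • ν + (y : F))‖ * ‖(ℝ ∙ ν)ᗮ.subtypeL‖ :=
              ContinuousLinearMap.opNorm_comp_le _ _
          _ ≤ ‖fderiv ℝ q (s • ν + (y : F))‖ * 1 :=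
              mul_le_mul_of_nonneg_left (Submodule.norm_subtypeL_le _) (norm_nonneg _)
          _ = _ := mul_one _
      have hder2 : ∀ y : (ℝ ∙ ν)ᗮ, ‖fderiv ℝ (fun y : (ℝ ∙ ν)ᗮ => q (s • ν + (y : F))) y‖ ^ 2 ≤
          ‖fderiv ℝ q (s • ν + (y : F))‖ ^ 2 := by
        intro y
        have h5 := hder y
        have h6 : 0 ≤ ‖fderiv ℝ (fun y : (ℝ ∙ ν)ᗮ => q (s • ν + (y : F))) y‖ :=
          ContinuousLinearMap.opNorm_nonneg _
        exact pow_le_pow_left₀ h6 h5 2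
      refine integral_mono ?_ (hfdi s) fun y => ?_
      · refine psec_int_mul (sec_int H hν s) (fun y => H.nonneg _) (hsm s)
          (((measurable_fderiv ℝ _).norm).pow_const 2) (C := (L : ℝ) ^ 2) (fun y => ?_)
        rw [abs_of_nonneg (sq_nonneg _)]
        exact (hder2 y).trans ((le_abs_self _).trans (hfL (s • ν + (y : F))))
      · exact mul_le_mul_of_nonneg_right (hder2 y) (H.nonneg _)
  -- step 3
  set κ : Measure ℝ := volume.withDensity fun s => ENNReal.ofReal (Mg s) with hκ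
  have hκf : IsFiniteMeasure κ := isFiniteMeasure_withDensity_ofReal hMgi.2
  have hκint : ∀ f : ℝ → ℝ, ∫ s, f s ∂κ = ∫ s, f s * Mg s := by
    intro f
    rw [hκ, integral_withDensity_eq_integral_toReal_smul hMgm.ennreal_ofReal
      (Eventually.of_forall fun s => ENNReal.ofReal_lt_top)]
    refine integral_congr_ae (Eventually.of_forall fun s => ?_)
    simp only
    rw [ENNReal.toReal_ofReal (hMg0 s), smul_eq_mul, mul_comm]
  have hmL : MemLp m (ENNReal.ofReal 2) κ := by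
    refine MemLp.of_bound hmm.aestronglyMeasurable A (Eventually.of_forall fun s => ?_)
    rw [Real.norm_eq_abs]
    exact hmA s
  obtain ⟨g, hgc, hgi, hgcont, _⟩ := hmL.exists_hasCompactSupport_integral_rpow_sub_le
    (by norm_num : (0 : ℝ) < 2) hδ
  have hgi' : ∫ s, (m s - g s) ^ 2 * Mg s ≤ δ := by
    rw [← hκint]
    refine le_trans (le_of_eq ?_) hgi
    refine integral_congr_ae (Eventually.of_forall fun s => ?_)
    simp only
    rw [Real.norm_eq_abs, show (2 : ℝ) = ((2 : ℕ) : ℝ) by norm_num, Real.rpow_natCast, sq_abs]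
  obtain ⟨Cg, hCg⟩ : ∃ C : ℝ, ∀ s, |g s| ≤ C := by
    obtain ⟨C, hC⟩ := hgc.exists_bound_of_continuous hgcont
    exact ⟨C, fun s => by rw [← Real.norm_eq_abs]; exact hC s⟩
  refine ⟨g, hgcont, hgc, ?_⟩
  -- step 4
  have hinner : Continuous fun x : F => (inner ℝ ν x : ℝ) := by fun_prop
  have hΦ : Integrable fun x => (q x - g (inner ℝ ν x)) ^ 2 * h x := by
    refine psec_int_mul H.int H.nonneg H.meas
      ((hqc.sub (hgcont.comp hinner)).pow 2).measurable (C := (A + Cg) ^ 2) (fun x => ?_)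
    rw [abs_pow]
    exact pow_le_pow_left₀ (abs_nonneg _) ((abs_sub _ _).trans (add_le_add (hA _) (hCg _))) 2
  have hΦ1 : Integrable fun x => (q x - m (inner ℝ ν x)) ^ 2 * h x := by
    refine psec_int_mul H.int H.nonneg H.meas
      ((hqc.measurable.sub (hmm.comp hinner.measurable)).pow_const 2) (C := (A + A) ^ 2)
      (fun x => ?_)
    rw [abs_pow]
    exact pow_le_pow_left₀ (abs_nonneg _) ((abs_sub _ _).trans (add_le_add (hA _) (hmA _))) 2
  have hI1 : Integrable fun s : ℝ =>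
      ∫ y : (ℝ ∙ ν)ᗮ, (q (s • ν + (y : F)) - m s) ^ 2 * h (s • ν + (y : F)) := by
    have h1 := (slice_integrable hν hΦ1).2
    refine h1.congr (Eventually.of_forall fun s => ?_)
    simp only
    refine integral_congr_ae (Eventually.of_forall fun y => ?_)
    simp only
    rw [slice_inner hν]
  have hI2 : Integrable fun s : ℝ => (m s - g s) ^ 2 * Mg s := by
    refine psec_int_mul hMgi hMg0 hMgm ((hmm.sub hgcont.measurable).pow_const 2)
      (C := (A + Cg) ^ 2) (fun s => ?_)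
    rw [abs_pow]
    exact pow_le_pow_left₀ (abs_nonneg _) ((abs_sub _ _).trans (add_le_add (hmA _) (hCg _))) 2
  have hΦ3 : Integrable fun x => ‖fderiv ℝ q x‖ ^ 2 * h x :=
    psec_int_mul H.int H.nonneg H.meas hfd hfL
  calc ∫ x, (q x - g (inner ℝ ν x)) ^ 2 * h x
      = ∫ s : ℝ, ∫ y : (ℝ ∙ ν)ᗮ, (q (s • ν + (y : F)) - g s) ^ 2 * h (s • ν + (y : F)) := by
        rw [slice_int hν hΦ]
        refine integral_congr_ae (Eventually.of_forall fun s => ?_)
        simp only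
        refine integral_congr_ae (Eventually.of_forall fun y => ?_)
        simp only
        rw [slice_inner hν]
    _ = ∫ s : ℝ, ((∫ y : (ℝ ∙ ν)ᗮ, (q (s • ν + (y : F)) - m s) ^ 2 * h (s • ν + (y : F))) +
          (m s - g s) ^ 2 * Mg s) := by
        refine integral_congr_ae (Eventually.of_forall fun s => ?_)
        simp only
        exact step2 s (g s)
    _ = (∫ s : ℝ, ∫ y : (ℝ ∙ ν)ᗮ, (q (s • ν + (y : F)) - m s) ^ 2 * h (s • ν + (y : F))) +
          ∫ s : ℝ, (m s - g s) ^ 2 * Mg s := integral_add hI1 hI2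
    _ ≤ (∫ s : ℝ, K' * ∫ y : (ℝ ∙ ν)ᗮ, ‖fderiv ℝ q (s • ν + (y : F))‖ ^ 2 *
          h (s • ν + (y : F))) + δ := by
        refine add_le_add (integral_mono hI1 ?_ step1) hgi'
        exact ((slice_integrable hν hΦ3).2).const_mul K'
    _ = K' * En h q + δ := by
        rw [integral_const_mul]
        unfold En
        rw [slice_int hν hΦ3]

end Pool.Agent.Lib.MP_8d00da_gt.h42s
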