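import Pool.Agent.Lib.MP_8d00da_gt.h42s.HalfA
import Pool.Agent.Lib.MP_8d00da_gt.h42s.OddA
import Pool.Agent.Lib.MP_8d00da_gt.h42s.NearExt

/-!
# The Poincaré inequality for weights invariant under the symmetries of a simplex
-/

namespace Pool.Agent.Lib.MP_8d00da_gt.h42s

open MeasureTheory Set Filter
open Pool.Agent.Lib.MP_8d00da_gt.h25 Pool.Agent.Lib.MP_8d00da_gt.h42
open scoped Topology NNReal

variable {F : Type*} [NormedAddCommGroup F] [InnerProductSpace ℝ F]
    [FiniteDimensional ℝ F] [MeasurableSpace F] [BorelSpace F] {n : ℕ}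

theorem odd_class_A {h : F → ℝ} {r B : ℝ} (H : LCW h r B) {p : Fin n → F} (hp : Gram p)
    (hI : PInv p h) {ρ : ℝ} (hρ : 0 < ρ) (hsup : ∀ x, ρ * n < NP p x → h x = 0) :
    OddP (rf p) h ((138 * ρ) ^ 2) := by
  rintro ⟨i, j⟩ q L hq A hA hodd
  by_cases hij : i = j
  · subst hij
    have h0 : ∀ x, q x = 0 := by
      intro x
      have h1 := hodd x
      rw [hp.rf_apply] at h1
      simp only [sub_self, inner_zero_left, zero_smul, sub_zero] at h1
      linarith
    simp only [h0]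
    have := En_nonneg H.wt (f := q)
    have h2 : 0 ≤ (138 * ρ) ^ 2 * En h q := by positivity
    simpa using h2
  · exact odd_of_half H (hp.norm_sub hij)
      (fun F0 hF hz => half_space_A H hp hI hρ hsup hij hF hz) (rf p (i, j))
      (hp.rf_apply i j) (PInv.rf hp hI (i, j)) hq hA hodd

/-- From functions with mean zero to all functions. -/
lemma centre {h : F → ℝ} {r B : ℝ} (H : LCW h r B) {C : ℝ}
    (hc : ∀ u : F → ℝ, BL u → ∫ x, u x * h x = 0 → ∫ x, u x ^ 2 * h x ≤ C * En h u)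
    {f : F → ℝ} (hf : BL f) {m : ℝ} (hm : ∫ x, f x * h x = m * ∫ x, h x) :
    ∫ x, (f x - m) ^ 2 * h x ≤ C * En h f := by
  have h1 : BL fun x => f x - m := hf.sub (BL.const m)
  have h2 : ∫ x, (f x - m) * h x = 0 := by
    obtain ⟨⟨L, hL⟩, A, hA⟩ := hf
    have i1 : Integrable fun x => f x * h x := bdd_int H.int hL.continuous.measurable hA
    have e : (fun x => (f x - m) * h x) = fun x => f x * h x - m * h x := by funext x; ring
    rw [e, integral_sub i1 (H.int.const_mul _), integral_const_mul, hm, sub_self]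
  have h3 := hc _ h1 h2
  have h4 : En h (fun x => f x - m) = En h f := by
    unfold En
    refine integral_congr_ae (Eventually.of_forall fun x => ?_)
    simp only [fderiv_sub_const]
  rwa [h4] at h3

theorem typeA {h : F → ℝ} {r B : ℝ} (H : LCW h r B) {p : Fin n → F} (hp : Gram p)
    (hfr : ∀ D : F →L[ℝ] ℝ, ∑ i, (D (p i)) ^ 2 = ‖D‖ ^ 2) (hn : 0 < n) (hI : PInv p h) {ρ : ℝ}
    (hρ : 0 < ρ) (hsup : ∀ x, ρ * n < NP p x → h x = 0) {f : F → ℝ} (hf : BL f) {m : ℝ}
    (hm : ∫ x, f x * h x = m * ∫ x, h x) :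
    ∫ x, (f x - m) ^ 2 * h x ≤ 2 * (138 * ρ) ^ 2 * En h f := by
  refine centre H (fun u hu hu0 => ?_) hf hm
  have hn' : (0 : ℝ) < n := by exact_mod_cast hn
  have key := near_extremal H (rf p) (fun ij : Fin n × Fin n => p ij.1 - p ij.2) 0
    (c := 2 * n) (by positivity) (fun D => by
      rw [frame_diff (D := D) (fun i j => map_sub D _ _) (by rw [← map_sum, hp.sum_eq_zero, map_zero]),
        hfr, map_zero]
      ring) rf_rf hp.rf_w (PInv.rf hp hI) (K := (138 * ρ) ^ 2) (K' := 0) (τ := 0)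
    (by positivity) le_rfl le_rfl (odd_class_A H hp hI hρ hsup) (Or.inl rfl) hu hu0
  rw [max_eq_left (by positivity)] at key
  linarith

end Pool.Agent.Lib.MP_8d00da_gt.h42s
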