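import Pool.Agent.Lib.MP_8d00da_gt.h42s.Core
import Pool.Agent.Lib.MP_8d00da_gt.h42s.TypeA
import Pool.Agent.Lib.MP_8d00da_gt.h42s.PSec
import Pool.Agent.Lib.MP_8d00da_gt.h42s.POneD
import Pool.Agent.Lib.MP_8d00da_gt.h42s.PFar
import Pool.Agent.Lib.MP_8d00da_gt.h42s.PGrowth

/-!
# The Poincaré inequality for isotropic permutation invariant weights of bounded support
-/

namespace Pool.Agent.Lib.MP_8d00da_gt.h42s

open MeasureTheory Set Filter
open Pool.Agent.Lib.MP_8d00da_gt.h25 Pool.Agent.Lib.MP_8d00da_gt.h42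
open scoped Topology NNReal

section nearP

variable {n : ℕ}

/-- the centred basis vectors as elements of the hyperplane -/
noncomputable def qe (i : Fin n) : (ℝ ∙ nu n)ᗮ :=
  ⟨pe i, by
    rw [Submodule.mem_orthogonal_singleton_iff_inner_right]
    exact inner_nu_pe i⟩

lemma coe_qe (i : Fin n) : ((qe i : (ℝ ∙ nu n)ᗮ) : Vn n) = pe i := rfl

lemma gram_qe : Gram (qe : Fin n → (ℝ ∙ nu n)ᗮ) := by
  intro i j
  rw [Submodule.coe_inner]
  exact gram_pe i j

lemma inner_nu_coe (y : (ℝ ∙ nu n)ᗮ) : (inner ℝ (nu n) (y : Vn n) : ℝ) = 0 :=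
  (Submodule.mem_orthogonal_singleton_iff_inner_right).1 y.2

lemma frame_qe (hn : 0 < n) (D : (ℝ ∙ nu n)ᗮ →L[ℝ] ℝ) : ∑ i, (D (qe i)) ^ 2 = ‖D‖ ^ 2 := by
  set v := (InnerProductSpace.toDual ℝ (ℝ ∙ nu n)ᗮ).symm D with hv
  have h1 : ‖D‖ = ‖v‖ := ((InnerProductSpace.toDual ℝ (ℝ ∙ nu n)ᗮ).symm.norm_map D).symm
  have h2 : ∀ w, D w = inner ℝ w v := fun w => by
    rw [real_inner_comm, hv, InnerProductSpace.toDual_symm_apply]
  have h3 : ‖v‖ = ‖(v : Vn n)‖ := rfl
  rw [h1, h3, ← parseval_pe hn (v : Vn n), inner_nu_coe]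
  simp only [h2, Submodule.coe_inner, coe_qe]
  ring

lemma inner_pe_slice (i : Fin n) (s : ℝ) (y : (ℝ ∙ nu n)ᗮ) :
    (inner ℝ (pe i) (s • nu n + (y : Vn n)) : ℝ) = inner ℝ (qe i) y := by
  rw [inner_add_right, inner_smul_right, inner_pe_nu, mul_zero, zero_add, Submodule.coe_inner]
  rfl

lemma NP_slice (s : ℝ) (y : (ℝ ∙ nu n)ᗮ) : NP pe (s • nu n + (y : Vn n)) = NP qe y := by
  unfold NP
  exact Finset.sum_congr rfl fun i _ => by rw [inner_pe_slice]

lemma PInv_slice {h : Vn n → ℝ} (hI : PInv pe h) (s : ℝ) :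
    PInv qe (fun y : (ℝ ∙ nu n)ᗮ => h (s • nu n + (y : Vn n))) := by
  intro i j y
  simp only
  have e : (inner ℝ (pe i - pe j) (s • nu n + (y : Vn n)) : ℝ) = inner ℝ (qe i - qe j) y := by
    rw [inner_sub_left, inner_pe_slice, inner_pe_slice, ← inner_sub_left]
  rw [← hI i j (s • nu n + (y : Vn n)), e]
  congr 1
  simp only [Submodule.coe_sub, Submodule.coe_smul, coe_qe]
  abel

theorem near_P {h : Vn n → ℝ} {r B : ℝ} (H : LCW h r B) (hS : Exch h) (hn : 0 < n) {ρ : ℝ}
    (hρ : 0 < ρ) (hsup : ∀ x, ρ * n < NP pe x → h x = 0) {V b : ℝ} (hV : 0 ≤ V)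
    (hvar : ∫ x, (inner ℝ (nu n) x - b) ^ 2 * h x ≤ V * ∫ x, h x) {f : Vn n → ℝ} (hf : BL f)
    (hm : ∫ x, f x * h x = 0) :
    ∫ x, f x ^ 2 * h x ≤ (4 * (138 * ρ) ^ 2 + 48 * V) * En h f := by
  have hn' : (0 : ℝ) < n := by exact_mod_cast hn
  have hI := hS.pinv
  have hν := nu_norm hn
  set K : ℝ := (138 * ρ) ^ 2 with hK
  have hK0 : 0 ≤ K := sq_nonneg _
  have hnu : NuP (nu n) h (2 * K) (48 * V) := by
    refine Or.inr ⟨hν, ?_, ?_⟩
    · intro q hq hd δ hδ
      refine hsec_of H hν (by positivity) (fun s hs u hu m hum => ?_) hq hd hδ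
      have := typeA (sec_LCW H hν s hs) gram_qe (frame_qe hn) hn (PInv_slice hI s) hρ
        (fun y hy => hsup _ (by rw [NP_slice]; exact hy)) hu hum
      exact this
    · intro a g hg hgc ha
      exact h1d_of H hν hV hvar hg hgc ha
  have key := near_extremal H (rf pe) (fun ij : Fin n × Fin n => pe ij.1 - pe ij.2) (nu n)
    (c := 2 * n) (by positivity) (fun D => by
      rw [frame_diff (D := D) (fun i j => map_sub D _ _)
        (by rw [← map_sum, gram_pe.sum_eq_zero, map_zero]), ← frame_pe hn D]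
      ring) rf_rf gram_pe.rf_w (PInv.rf gram_pe hI) hK0 (by positivity : 0 ≤ 2 * K)
    (by positivity : 0 ≤ 48 * V) (odd_class_A H gram_pe hI hρ hsup) hnu hf hm
  rw [max_eq_right (by linarith)] at key
  refine key.trans (le_of_eq ?_)
  ring

end nearP

section truncation

variable {F : Type*} [NormedAddCommGroup F] [InnerProductSpace ℝ F]
    [FiniteDimensional ℝ F] [MeasurableSpace F] [BorelSpace F]

/-- From bounded Lipschitz functions to Lipschitz functions. -/
theorem trunc_BL {h : F → ℝ} {r B : ℝ} (H : LCW h r B) {C : ℝ}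
    (hc : ∀ u : F → ℝ, BL u → ∀ m : ℝ, ∫ x, u x * h x = m * ∫ x, h x →
      ∫ x, (u x - m) ^ 2 * h x ≤ C * En h u)
    {f : F → ℝ} {L : ℝ≥0} (hf : LipschitzWith L f) {m : ℝ}
    (hm : ∫ x, f x * h x = m * ∫ x, h x) :
    ∫ x, (f x - m) ^ 2 * h x ≤ C * En h f := by
  obtain ⟨A, hA⟩ : ∃ A : ℝ, ∀ x : F, ‖x‖ ≤ r + 1 → |f x| ≤ A := by
    obtain ⟨A, hA⟩ := (isCompact_closedBall (0 : F) (r + 1)).exists_bound_of_continuousOn
      hf.continuous.continuousOn
    exact ⟨A, fun x hx => hA x (by rwa [mem_closedBall_zero_iff])⟩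
  set g : F → ℝ := fun x => max (-A) (min (f x) A) with hg
  have hgL : LipschitzWith L g := ((hf.min_const A).const_max (-A))
  have hfg : ∀ x : F, ‖x‖ ≤ r + 1 → g x = f x := by
    intro x hx
    have h1 := abs_le.1 (hA x hx)
    simp only [hg]
    rw [min_eq_left h1.2, max_eq_right h1.1]
  have hgA : ∀ x, |g x| ≤ |A| := by
    intro x
    rw [abs_le]
    refine ⟨?_, ?_⟩
    · have h1 : -A ≤ g x := le_max_left _ _
      linarith [le_abs_self A]
    · exact max_le (neg_le_abs A) ((min_le_right _ _).trans (le_abs_self A))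
  have hsup : ∀ x, h x ≠ 0 → ‖x‖ ≤ r := fun x hx => by
    by_contra hc
    exact hx (H.supp x (not_le.1 hc))
  have e1 : ∀ φ : ℝ → ℝ, ∀ x, φ (g x) * h x = φ (f x) * h x := by
    intro φ x
    by_cases hx : h x = 0
    · simp [hx]
    · rw [hfg x ((hsup x hx).trans (by linarith))]
  have e2 : En h g = En h f := by
    unfold En
    refine integral_congr_ae (Eventually.of_forall fun x => ?_)
    simp only
    by_cases hx : h x = 0
    · simp [hx]
    · have h1 : g =ᶠ[𝓝 x] f := by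
        have h2 : {y : F | ‖y‖ < r + 1} ∈ 𝓝 x :=
          (isOpen_lt continuous_norm continuous_const).mem_nhds
            (lt_of_le_of_lt (hsup x hx) (by linarith))
        filter_upwards [h2] with y hy
        exact hfg y (le_of_lt hy)
      rw [h1.fderiv_eq]
  have h1 := hc g ⟨⟨L, hgL⟩, |A|, hgA⟩ m (by
    rw [← hm]
    exact integral_congr_ae (Eventually.of_forall fun x => e1 id x))
  rw [e2] at h1
  refine le_trans (le_of_eq ?_) h1
  exact integral_congr_ae (Eventually.of_forall fun x => (e1 (fun t => (t - m) ^ 2) x).symm)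

end truncation

section core

variable {n : ℕ}

lemma inner_pe_sw (i j k : Fin n) (x : Vn n) :
    (inner ℝ (pe k) (sw i j x) : ℝ) = inner ℝ (pe (Equiv.swap i j k)) x := by
  rw [inner_pe, inner_pe, sw_apply]
  congr 2
  simp only [sw_apply]
  exact Equiv.sum_comp (Equiv.swap i j) fun l => x l

lemma inner_nu_sw (i j : Fin n) (x : Vn n) :
    (inner ℝ (nu n) (sw i j x) : ℝ) = inner ℝ (nu n) x := by
  rw [inner_nu, inner_nu]
  congr 1
  simp only [sw_apply]
  exact Equiv.sum_comp (Equiv.swap i j) fun l => x l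

lemma NP_sw (i j : Fin n) (x : Vn n) : NP pe (sw i j x) = NP pe x := by
  unfold NP
  simp only [inner_pe_sw]
  exact Equiv.sum_comp (Equiv.swap i j) fun k => |(inner ℝ (pe k) x : ℝ)|

lemma NG_sw (i j : Fin n) (x : Vn n) : NG n (sw i j x) = NG n x := by
  unfold NG
  rw [NP_sw, inner_nu_sw]

lemma sw_nu (i j : Fin n) : sw i j (nu n) = nu n := by
  ext k
  rw [sw_apply, nu_apply, nu_apply]

lemma Exch.indicator {h : Vn n → ℝ} (hS : Exch h) {A : Set (Vn n)}
    (hA : ∀ i j x, sw i j x ∈ A ↔ x ∈ A) : Exch (A.indicator h) := by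
  intro i j x
  by_cases hx : x ∈ A
  · rw [indicator_of_mem hx, indicator_of_mem ((hA i j x).2 hx), hS]
  · rw [indicator_of_notMem hx, indicator_of_notMem fun hc => hx ((hA i j x).1 hc)]

lemma NG_convex (R : ℝ) : Convex ℝ {x : Vn n | NG n x ≤ R} := by
  intro x hx y hy a b ha hb hab
  simp only [mem_ofPred_eq, NG, max_le_iff] at hx hy ⊢
  refine ⟨NP_convex R hx.1 hy.1 ha hb hab, ?_⟩
  rw [inner_add_right, inner_smul_right, inner_smul_right]
  refine (abs_add_le _ _).trans ?_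
  rw [abs_mul, abs_mul, abs_of_nonneg ha, abs_of_nonneg hb]
  have h4 := mul_le_mul_of_nonneg_left hx.2 ha
  have h5 := mul_le_mul_of_nonneg_left hy.2 hb
  have : a * R + b * R = R := by rw [← add_mul, hab, one_mul]
  linarith

/-- The core theorem when the growth point is the origin. -/
theorem core_zero {h : Vn n → ℝ} {r B : ℝ} (H : LCW h r B) (hS : Exch h) (hn : 0 < n) {c0 : ℝ}
    (hvar : ∫ x, (inner ℝ (nu n) x - c0) ^ 2 * h x ≤ ∫ x, h x)
    (hg : ∀ x, 130 * n ≤ NG n x → h x ≤ h 0 * Real.exp (-(2 * NG n x / 130)))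
    {f : Vn n → ℝ} (hf : BL f) {m : ℝ} (hm : ∫ x, f x * h x = m * ∫ x, h x) :
    ∫ x, (f x - m) ^ 2 * h x ≤ (10 ^ 6) ^ 2 * En h f := by
  have hG := gauge_NG hn
  have hfar : ∀ {u : Vn n → ℝ}, BL u → ∫ x, u x ^ 2 * h x ≤ 32 * 130 ^ 2 * En h u +
      2 * ∫ x, u x ^ 2 * {x | NG n x ≤ 16 * 130 * n}.indicator h x := fun hu =>
    far_gen H hn hG (by norm_num) hg hu
  set S : Set (Vn n) := {x | NG n x ≤ 16 * 130 * n} with hSdef
  have hSm : MeasurableSet S := (isClosed_le hG.cont continuous_const).measurableSet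
  set h1 : Vn n → ℝ := S.indicator h with hh1
  have hmass : ∫ x, h x ≤ 2 * ∫ x, h1 x := by
    have h2 := hfar (BL.const 1)
    have h3 : En h (fun _ : Vn n => (1 : ℝ)) = 0 := by
      unfold En; simp
    rw [h3] at h2
    simpa using h2
  have hpos : 0 < ∫ x in S, h x := by
    rw [← integral_indicator hSm]
    have := H.mass
    linarith
  have H1 : LCW h1 r B := H.restrict (NG_convex _) hSm hpos
  have hS1 : Exch h1 := hS.indicator fun i j x => by
    simp only [hSdef, mem_ofPred_eq, NG_sw]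
  have hM1 : 0 < ∫ x, h1 x := H1.mass
  have hle : ∀ x, h1 x ≤ h x := fun x => indicator_le_self' (fun y _ => H.nonneg y) x
  obtain ⟨⟨L, hL⟩, A, hA⟩ := hf
  set m1 : ℝ := (∫ x, f x * h1 x) / ∫ x, h1 x with hm1
  have hfm : Measurable f := hL.continuous.measurable
  set u : Vn n → ℝ := fun x => f x - m1 with hu
  have huB : BL u := BL.sub ⟨⟨L, hL⟩, A, hA⟩ (BL.const m1)
  have hu0 : ∫ x, u x * h1 x = 0 := by
    have i1 : Integrable fun x => f x * h1 x := bdd_int H1.int hfm hA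
    have e : (fun x => u x * h1 x) = fun x => f x * h1 x - m1 * h1 x := by funext x; ring
    rw [e, integral_sub i1 (H1.int.const_mul _), integral_const_mul, hm1,
      div_mul_cancel₀ _ hM1.ne', sub_self]
  have hdu : ∀ x, fderiv ℝ u x = fderiv ℝ f x := fun x => by
    simp only [hu]
    exact fderiv_sub_const _
  have hEu : En h u = En h f := by
    unfold En; simp only [hdu]
  have hE1 : En h1 u ≤ En h f := by
    unfold En
    simp only [hdu]
    refine integral_mono (bdd_int H1.int ((measurable_fderiv ℝ _).norm.pow_const 2)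
      (sq_fderiv_bdd hL)) (bdd_int H.int ((measurable_fderiv ℝ _).norm.pow_const 2)
      (sq_fderiv_bdd hL)) fun x => ?_
    exact mul_le_mul_of_nonneg_left (hle x) (sq_nonneg _)
  -- the variance in the direction `nu`
  have hvar1 : ∫ x, (inner ℝ (nu n) x - c0) ^ 2 * h1 x ≤ 2 * ∫ x, h1 x := by
    have hmeas : Measurable fun x : Vn n => ((inner ℝ (nu n) x : ℝ) - c0) ^ 2 := by fun_prop
    have hb : ∀ x : Vn n, ‖x‖ ≤ r → |((inner ℝ (nu n) x : ℝ) - c0) ^ 2| ≤
        (‖nu n‖ * r + |c0|) ^ 2 := by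
      intro x hx
      rw [abs_pow]
      refine pow_le_pow_left₀ (abs_nonneg _) ?_ 2
      refine (abs_sub _ _).trans (add_le_add ?_ le_rfl)
      exact (abs_real_inner_le_norm _ _).trans (mul_le_mul_of_nonneg_left hx (norm_nonneg _))
    have h2 : ∫ x, (inner ℝ (nu n) x - c0) ^ 2 * h1 x ≤ ∫ x, (inner ℝ (nu n) x - c0) ^ 2 * h x :=
      integral_mono (LCW_int_mul H1 hmeas hb) (LCW_int_mul H hmeas hb) fun x =>
        mul_le_mul_of_nonneg_left (hle x) (sq_nonneg _)
    linarith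
  have hnear := near_P H1 hS1 hn (ρ := 16 * 130) (by norm_num) (fun x hx => by
    refine indicator_of_notMem (fun hc => ?_) _
    simp only [hSdef, mem_ofPred_eq, NG, max_le_iff] at hc
    linarith [hc.1]) (by norm_num : (0 : ℝ) ≤ 2) hvar1 huB hu0
  have hfin := hfar huB
  have hv : ∫ x, (f x - m) ^ 2 * h x ≤ ∫ x, u x ^ 2 * h x :=
    var_le H.int (bdd_int H.int hfm hA) (bdd_int H.int (hfm.pow_const 2) (Wt.sq_bdd hA))
      H.mass.le hm m1
  have hE0 : 0 ≤ En h f := En_nonneg H.wt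
  rw [hEu] at hfin
  have h5 : (4 * (138 * (16 * 130)) ^ 2 + 48 * 2) * En h1 u ≤
      (4 * (138 * (16 * 130)) ^ 2 + 48 * 2) * En h f :=
    mul_le_mul_of_nonneg_left hE1 (by norm_num)
  calc ∫ x, (f x - m) ^ 2 * h x ≤ ∫ x, u x ^ 2 * h x := hv
    _ ≤ 32 * 130 ^ 2 * En h f + 2 * ∫ x, u x ^ 2 * h1 x := hfin
    _ ≤ 32 * 130 ^ 2 * En h f + 2 * ((4 * (138 * (16 * 130)) ^ 2 + 48 * 2) * En h f) := by linarith
    _ = (32 * 130 ^ 2 + 2 * (4 * (138 * (16 * 130)) ^ 2 + 48 * 2)) * En h f := by ring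
    _ ≤ (10 ^ 6) ^ 2 * En h f := mul_le_mul_of_nonneg_right (by norm_num) hE0

/-- translation of a weight -/
lemma LCW_translate {F : Type*} [NormedAddCommGroup F] [InnerProductSpace ℝ F]
    [FiniteDimensional ℝ F] [MeasurableSpace F] [BorelSpace F] {h : F → ℝ} {r B : ℝ}
    (H : LCW h r B) (v : F) : LCW (fun x => h (x + v)) (r + ‖v‖) B where
  meas := H.meas.comp (measurable_id.add_const v)
  nonneg := fun x => H.nonneg _
  bdd := fun x => H.bdd _
  conc := by
    intro a ha0 ha1 x y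
    have h1 := H.conc a ha0 ha1 (x + v) (y + v)
    have e : (1 - a) • (x + v) + a • (y + v) = (1 - a) • x + a • y + v := by
      rw [smul_add, smul_add]
      have : v = (1 - a) • v + a • v := by rw [← add_smul]; simp
      nth_rewrite 3 [this]
      abel
    rw [e] at h1
    exact h1
  supp := by
    intro x hx
    apply H.supp
    have h1 : ‖x‖ ≤ ‖x + v‖ + ‖v‖ := by
      have := norm_sub_le (x + v) v
      rwa [add_sub_cancel_right] at this
    linarith
  mass := by
    rw [integral_add_right_eq_self (μ := (volume : Measure F)) h v]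
    exact H.mass

theorem core_iso {h : Vn n → ℝ} {r B : ℝ} (H : LCW h r B) (hS : Exch h) (hn : 0 < n)
    (h1 : ∀ θ : Vn n, ∫ x, (inner ℝ θ x : ℝ) * h x = 0)
    (h2 : ∀ θ : Vn n, ∫ x, (inner ℝ θ x : ℝ) ^ 2 * h x = ‖θ‖ ^ 2 * ∫ x, h x)
    {f : Vn n → ℝ} {L : ℝ≥0} (hf : LipschitzWith L f) {m : ℝ}
    (hm : ∫ x, f x * h x = m * ∫ x, h x) :
    ∫ x, (f x - m) ^ 2 * h x ≤ (10 ^ 6) ^ 2 * En h f := by
  refine trunc_BL H (fun u hu m hm => ?_) hf hm
  have hν := nu_norm hn
  have hE0 : 0 ≤ En h u := En_nonneg H.wt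
  rcases Nat.lt_or_ge n 2 with hn1 | hn2
  · -- dimension one
    have hn1' : n = 1 := by omega
    subst hn1'
    have hNP : ∀ x : Vn 1, NP pe x = 0 := by
      intro x
      unfold NP
      simp [inner_pe]
    have key : ∀ w : Vn 1 → ℝ, BL w → ∫ x, w x * h x = 0 →
        ∫ x, w x ^ 2 * h x ≤ (4 * (138 * 1) ^ 2 + 48 * 1) * En h w := by
      intro w hw hw0
      refine near_P H hS hn one_pos (fun x hx => ?_) zero_le_one (b := 0) ?_ hw hw0
      · rw [hNP] at hx
        norm_num at hx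
      · simp only [sub_zero]
        rw [h2, hν]
        simp
    refine (centre H key hu hm).trans (mul_le_mul_of_nonneg_right (by norm_num) hE0)
  · obtain ⟨c0, hc0⟩ := growth_P H hS hn2 h1 h2 (gauge_NG hn)
    set x0 : Vn n := c0 • nu n with hx0
    set h' : Vn n → ℝ := fun x => h (x + x0) with hh'
    have H' : LCW h' (r + ‖x0‖) B := LCW_translate H x0
    have hS' : Exch h' := by
      intro i j x
      have e : sw i j x + x0 = sw i j (x + x0) := by
        rw [map_add, hx0, map_smul, sw_nu]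
      simp only [hh', e, hS i j]
    have htr : ∀ g : Vn n → ℝ, ∫ x, g (x + x0) = ∫ x, g x := fun g =>
      integral_add_right_eq_self (μ := (volume : Measure (Vn n))) g x0
    have hM : ∫ x, h' x = ∫ x, h x := htr h
    have hin : ∀ x : Vn n, (inner ℝ (nu n) x : ℝ) - -c0 = inner ℝ (nu n) (x + x0) := by
      intro x
      rw [inner_add_right, hx0, inner_smul_right, real_inner_self_eq_norm_sq, hν]
      ring
    have hvar : ∫ x, ((inner ℝ (nu n) x : ℝ) - -c0) ^ 2 * h' x ≤ ∫ x, h' x := by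
      simp only [hin]
      rw [hM]
      have e : ∫ x, (inner ℝ (nu n) (x + x0) : ℝ) ^ 2 * h' x = ∫ x, (inner ℝ (nu n) x : ℝ) ^ 2 * h x :=
        htr fun x => (inner ℝ (nu n) x : ℝ) ^ 2 * h x
      rw [e, h2, hν]
      simp
    have hgr : ∀ x, 130 * n ≤ NG n x → h' x ≤ h' 0 * Real.exp (-(2 * NG n x / 130)) := by
      intro x hx
      have h3 := hc0 (x + x0)
      rw [add_sub_cancel_right] at h3
      simp only [hh', zero_add]
      exact h3 hx
    have huB : BL fun x => u (x + x0) := by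
      obtain ⟨⟨L', hL'⟩, A, hA⟩ := hu
      refine ⟨⟨L', ?_⟩, A, fun x => hA _⟩
      refine LipschitzWith.of_dist_le_mul fun x y => ?_
      have := hL'.dist_le_mul (x + x0) (y + x0)
      rwa [dist_add_right] at this
    have hm' : ∫ x, u (x + x0) * h' x = m * ∫ x, h' x := by
      rw [hM, ← hm]
      exact htr fun x => u x * h x
    have key := core_zero H' hS' hn hvar hgr huB hm'
    have e1 : ∫ x, (u (x + x0) - m) ^ 2 * h' x = ∫ x, (u x - m) ^ 2 * h x :=
      htr fun x => (u x - m) ^ 2 * h x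
    have e2 : En h' (fun x => u (x + x0)) = En h u := by
      unfold En
      simp only [fderiv_comp_add_right]
      exact htr fun x => ‖fderiv ℝ u x‖ ^ 2 * h x
    rw [e1, e2] at key
    exact key

end core

end Pool.Agent.Lib.MP_8d00da_gt.h42s
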