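import Pool.Agent.Lib.MP_8d00da_gt.h42s.PDefs
import Pool.Agent.Lib.MP_8d00da_gt.h42s.Growth

/-!
# The second moments of exchangeable weights
-/

namespace Pool.Agent.Lib.MP_8d00da_gt.h42s

open MeasureTheory Set Filter
open Pool.Agent.Lib.MP_8d00da_gt.h25 Pool.Agent.Lib.MP_8d00da_gt.h42
open scoped Topology NNReal

variable {n : ℕ}

/-- affine hyperplanes are null -/
lemma mom_null {θ : Vn n} (hθ : θ ≠ 0) (t : ℝ) :
    volume {x : Vn n | (inner ℝ θ x : ℝ) = t} = 0 := by
  set L : Vn n →ₗ[ℝ] ℝ := (innerSL ℝ θ : Vn n →L[ℝ] ℝ).toLinearMap with hL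
  by_cases hne : ∃ x0 : Vn n, (inner ℝ θ x0 : ℝ) = t
  · obtain ⟨x0, hx0⟩ := hne
    have h1 : (LinearMap.ker L) ≠ ⊤ := by
      intro h2
      have h3 : θ ∈ LinearMap.ker L := by rw [h2]; trivial
      rw [LinearMap.mem_ker] at h3
      have h4 : (inner ℝ θ θ : ℝ) = 0 := h3
      exact hθ (inner_self_eq_zero.1 h4)
    have h2 := Measure.addHaar_submodule (volume : Measure (Vn n)) _ h1
    have h3 : {x : Vn n | (inner ℝ θ x : ℝ) = t} =
        (fun y => x0 + y) '' ((LinearMap.ker L : Submodule ℝ (Vn n)) : Set (Vn n)) := by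
      ext x
      simp only [mem_ofPred_eq, mem_image, SetLike.mem_coe, LinearMap.mem_ker]
      constructor
      · intro hx
        refine ⟨x - x0, ?_, by abel⟩
        show (inner ℝ θ (x - x0) : ℝ) = 0
        rw [inner_sub_right, hx, hx0, sub_self]
      · rintro ⟨y, hy, rfl⟩
        have hy' : (inner ℝ θ y : ℝ) = 0 := hy
        rw [inner_add_right, hx0, hy', add_zero]
    rw [h3, image_add_left, measure_preimage_add, h2]
  · have h3 : {x : Vn n | (inner ℝ θ x : ℝ) = t} = ∅ := by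
      ext x
      simp only [mem_ofPred_eq, mem_empty_iff_false, iff_false]
      exact fun hx => hne ⟨x, hx⟩
    rw [h3, measure_empty]

lemma mom_pos {h : Vn n → ℝ} {r B : ℝ} (H : LCW h r B) {θ : Vn n} (hθ : θ ≠ 0) (t : ℝ)
    (hi : Integrable fun x => ((inner ℝ θ x : ℝ) - t) ^ 2 * h x) :
    0 < ∫ x, ((inner ℝ θ x : ℝ) - t) ^ 2 * h x := by
  have h0 : ∀ x, 0 ≤ ((inner ℝ θ x : ℝ) - t) ^ 2 * h x := fun x =>
    mul_nonneg (sq_nonneg _) (H.nonneg x)
  have h00 : 0 ≤ ∫ x, ((inner ℝ θ x : ℝ) - t) ^ 2 * h x := integral_nonneg h0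
  rcases h00.lt_or_eq with h1 | h1
  · exact h1
  · exfalso
    have h2 := (integral_eq_zero_iff_of_nonneg h0 hi).1 h1.symm
    have h3 : h =ᵐ[volume] 0 := by
      have h4 : ∀ᵐ x : Vn n, (inner ℝ θ x : ℝ) ≠ t := by
        rw [ae_iff]
        simp only [not_not]
        exact mom_null hθ t
      filter_upwards [h2, h4] with x hx hx4
      simp only [Pi.zero_apply] at hx ⊢
      rcases mul_eq_zero.1 hx with h5 | h5
      · exact absurd (sub_eq_zero.1 (pow_eq_zero_iff two_ne_zero |>.1 h5)) hx4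
      · exact h5
    have h5 := H.mass
    rw [integral_congr_ae h3] at h5
    simp at h5

theorem exch_moments {h : Vn n → ℝ} {r B : ℝ} (H : LCW h r B) (hS : Exch h) (hn : 0 < n) :
    ∃ b τ σ : ℝ, 0 < τ ∧ 0 < σ ∧
      (∀ θ : Vn n, ∫ x, (inner ℝ θ (x - b • nu n) : ℝ) * h x = 0) ∧
      ∀ θ : Vn n, ∫ x, (inner ℝ θ (x - b • nu n) : ℝ) ^ 2 * h x =
        (τ ^ 2 * (inner ℝ (nu n) θ : ℝ) ^ 2 +
          σ ^ 2 * (‖θ‖ ^ 2 - (inner ℝ (nu n) θ : ℝ) ^ 2)) * ∫ x, h x := by
  have hn' : (0 : ℝ) < n := by exact_mod_cast hn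
  set M := ∫ x, h x with hM
  have hM0 : 0 < M := H.mass
  set i0 : Fin n := ⟨0, hn⟩ with hi0
  have habs : ∀ (x : Vn n) (i : Fin n), ‖x‖ ≤ r → |x i| ≤ r := by
    intro x i hx
    have := PiLp.norm_apply_le x i
    exact (by simpa using this : |x i| ≤ ‖x‖).trans hx
  have hswap : ∀ (i j : Fin n) (G : Vn n → ℝ), ∫ x, G (sw i j x) * h x = ∫ x, G x * h x := by
    intro i j G
    have h1 := MeasureTheory.integral_comp (sw i j) (fun x => G x * h x)
    rw [← h1]
    refine integral_congr_ae (Eventually.of_forall fun x => ?_)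
    simp only [hS i j x]
  -- first moments
  have hint1 : ∀ i : Fin n, Integrable (fun x : Vn n => x i * h x) := fun i =>
    LCW_int_mul H (g := fun x : Vn n => x i) (by fun_prop) (C := r) fun x hx => habs x i hx
  have hc : ∀ i j : Fin n, ∫ x : Vn n, x i * h x = ∫ x : Vn n, x j * h x := by
    intro i j
    have h1 := hswap i j (fun x => x i)
    simp only [sw_apply, Equiv.swap_apply_left] at h1
    exact h1.symm
  set c : ℝ := (∫ x : Vn n, x i0 * h x) / M with hcdef
  have hcM : ∀ i : Fin n, ∫ x : Vn n, (x i - c) * h x = 0 := by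
    intro i
    simp only [sub_mul]
    rw [integral_sub (hint1 i) (H.int.const_mul c), integral_const_mul, hc i i0, hcdef,
      div_mul_cancel₀ _ hM0.ne', sub_self]
  have hint1' : ∀ i : Fin n, Integrable (fun x : Vn n => (x i - c) * h x) := by
    intro i
    simp only [sub_mul]
    exact (hint1 i).sub (H.int.const_mul c)
  have hint2 : ∀ i j : Fin n, Integrable (fun x : Vn n => (x i - c) * (x j - c) * h x) := by
    intro i j
    refine LCW_int_mul H (g := fun x : Vn n => (x i - c) * (x j - c)) (by fun_prop)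
      (C := (r + |c|) * (r + |c|)) fun x hx => ?_
    rw [abs_mul]
    have h1 : ∀ k, |x k - c| ≤ r + |c| := fun k =>
      (abs_sub _ _).trans (add_le_add_left (habs x k hx) _)
    have h2 : 0 ≤ r + |c| := (abs_nonneg _).trans (h1 i)
    exact mul_le_mul (h1 i) (h1 j) (abs_nonneg _) h2
  have hE : ∃ E : Fin n → Fin n → ℝ, (∀ i j, E i j = ∫ x : Vn n, (x i - c) * (x j - c) * h x) :=
    ⟨_, fun _ _ => rfl⟩
  obtain ⟨E, hE⟩ := hE
  have hEs : ∀ i j k l : Fin n, E (Equiv.swap i j k) (Equiv.swap i j l) = E k l := by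
    intro i j k l
    have h1 := hswap i j (fun x => (x k - c) * (x l - c))
    simp only [sw_apply] at h1
    rw [hE, hE]
    exact h1
  have hEA : ∀ i, E i i = E i0 i0 := by
    intro i
    have h1 := hEs i0 i i0 i0
    rwa [Equiv.swap_apply_left] at h1
  have hEB : ∀ i j k l : Fin n, i ≠ j → k ≠ l → E i j = E k l := by
    intro i j k l hij hkl
    have h1 := hEs i k i j
    rw [Equiv.swap_apply_left] at h1
    set j' := Equiv.swap i k j with hj'
    have hj'k : j' ≠ k := by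
      intro h2
      have h3 : Equiv.swap i k j = Equiv.swap i k i := by
        rw [Equiv.swap_apply_left]; exact h2
      exact hij ((Equiv.swap i k).injective h3).symm
    have h2 := hEs j' l k j'
    rw [Equiv.swap_apply_left, Equiv.swap_apply_of_ne_of_ne (Ne.symm hj'k) hkl] at h2
    rw [← h1, ← h2]
  obtain ⟨Bc, hBc⟩ : ∃ Bc : ℝ, ∀ i j, i ≠ j → E i j = Bc := by
    by_cases hp : ∃ i j : Fin n, i ≠ j
    · obtain ⟨k, l, hkl⟩ := hp
      exact ⟨E k l, fun i j hij => hEB i j k l hij hkl⟩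
    · push Not at hp
      exact ⟨0, fun i j hij => absurd (hp i j) hij⟩
  set A : ℝ := E i0 i0 with hA
  have hEij : ∀ i j, E i j = Bc + (if i = j then A - Bc else 0) := by
    intro i j
    by_cases hij : i = j
    · subst hij; rw [if_pos rfl, hEA i]; ring
    · rw [if_neg hij, hBc i j hij, add_zero]
  have hQ : ∀ θ : Vn n, ∫ x : Vn n, (∑ i, θ i * (x i - c)) ^ 2 * h x =
      Bc * (∑ i, θ i) ^ 2 + (A - Bc) * ∑ i, θ i ^ 2 := by
    intro θ
    have e1 : (fun x : Vn n => (∑ i, θ i * (x i - c)) ^ 2 * h x) =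
        fun x => ∑ i, ∑ j, (θ i * θ j) * ((x i - c) * (x j - c) * h x) := by
      funext x
      rw [sq, Finset.sum_mul_sum, Finset.sum_mul]
      refine Finset.sum_congr rfl fun i _ => ?_
      rw [Finset.sum_mul]
      refine Finset.sum_congr rfl fun j _ => ?_
      ring
    rw [e1, integral_finsetSum _ fun i _ => integrable_finsetSum _ fun j _ =>
      (hint2 i j).const_mul _]
    have e2 : ∀ i, ∫ x : Vn n, ∑ j, (θ i * θ j) * ((x i - c) * (x j - c) * h x) =
        ∑ j, θ i * θ j * E i j := by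
      intro i
      rw [integral_finsetSum _ fun j _ => (hint2 i j).const_mul _]
      refine Finset.sum_congr rfl fun j _ => ?_
      rw [integral_const_mul, hE]
    simp only [e2, hEij, mul_add, Finset.sum_add_distrib, mul_ite, mul_zero, Finset.sum_ite_eq,
      Finset.mem_univ, if_true]
    rw [sq, Finset.sum_mul_sum, Finset.mul_sum, Finset.mul_sum]
    congr 1
    · refine Finset.sum_congr rfl fun i _ => ?_
      rw [Finset.mul_sum]
      refine Finset.sum_congr rfl fun j _ => ?_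
      ring
    · refine Finset.sum_congr rfl fun i _ => ?_
      ring
  have hpos : ∀ θ : Vn n, θ ≠ 0 → 0 < Bc * (∑ i, θ i) ^ 2 + (A - Bc) * ∑ i, θ i ^ 2 := by
    intro θ hθ
    rw [← hQ θ]
    have e1 : ∀ x : Vn n, ∑ i, θ i * (x i - c) = (inner ℝ θ x : ℝ) - c * ∑ i, θ i := by
      intro x
      rw [inner_Vn, Finset.mul_sum, ← Finset.sum_sub_distrib]
      exact Finset.sum_congr rfl fun i _ => by ring
    simp only [e1]
    refine mom_pos H hθ _ ?_
    refine LCW_int_mul H (g := fun x : Vn n => ((inner ℝ θ x : ℝ) - c * ∑ i, θ i) ^ 2) (by fun_prop)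
      (C := (‖θ‖ * r + |c * ∑ i, θ i|) ^ 2) fun x hx => ?_
    rw [abs_of_nonneg (sq_nonneg _), ← sq_abs]
    refine pow_le_pow_left₀ (abs_nonneg _) ?_ 2
    refine (abs_sub _ _).trans (add_le_add_left ?_ _)
    exact (abs_real_inner_le_norm θ x).trans (mul_le_mul_of_nonneg_left hx (norm_nonneg _))
  -- positivity of the two eigenvalues
  have hτ0 : 0 < A - Bc + n * Bc := by
    have h1 := hpos (WithLp.toLp 2 fun _ => 1) (by
      intro h2
      have h3 := congrFun (congrArg (fun v : Vn n => v.ofLp) h2) i0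
      simp at h3)
    simp at h1
    have h2 : 0 < (n : ℝ) * (A - Bc + n * Bc) := by nlinarith
    exact (mul_pos_iff_of_pos_left hn').1 h2
  have hfin : ∀ θ : Vn n, ∀ x : Vn n,
      (inner ℝ θ (x - (Real.sqrt n * c) • nu n) : ℝ) = ∑ i, θ i * (x i - c) := by
    intro θ x
    rw [inner_Vn]
    refine Finset.sum_congr rfl fun i _ => ?_
    have h1 : Real.sqrt n ≠ 0 := (Real.sqrt_pos.2 hn').ne'
    simp only [PiLp.sub_apply, PiLp.smul_apply, nu_apply, smul_eq_mul]
    field_simp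
  have hs2 : ∀ θ : Vn n, (inner ℝ (nu n) θ : ℝ) ^ 2 = (∑ i, θ i) ^ 2 / n := by
    intro θ
    rw [inner_nu, mul_pow, div_pow, one_pow, Real.sq_sqrt hn'.le]
    ring
  have hnorm : ∀ θ : Vn n, ‖θ‖ ^ 2 = ∑ i, θ i ^ 2 := by
    intro θ
    rw [EuclideanSpace.norm_sq_eq]
    exact Finset.sum_congr rfl fun i _ => by rw [Real.norm_eq_abs, sq_abs]
  have hmean : ∀ θ : Vn n, ∫ x, (inner ℝ θ (x - (Real.sqrt n * c) • nu n) : ℝ) * h x = 0 := by
    intro θ
    simp only [hfin, Finset.sum_mul]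
    rw [integral_finsetSum _ fun i _ => ?_]
    · refine Finset.sum_eq_zero fun i _ => ?_
      simp only [mul_assoc]
      rw [integral_const_mul, hcM, mul_zero]
    · simp only [mul_assoc]
      exact (hint1' i).const_mul _
  by_cases hp : ∃ i j : Fin n, i ≠ j
  · obtain ⟨k, l, hkl⟩ := hp
    have hσ0 : 0 < A - Bc := by
      have hne : ee k - ee l ≠ (0 : Vn n) := by
        intro h2
        have h3 := congrFun (congrArg (fun v : Vn n => v.ofLp) h2) k
        simp [ee_apply, hkl] at h3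
      have h1 := hpos (ee k - ee l) hne
      have e1 : ∑ i, (ee k - ee l : Vn n) i = 0 := by
        simp only [PiLp.sub_apply, ee_apply, Finset.sum_sub_distrib, Finset.sum_ite_eq',
          Finset.mem_univ, if_true, sub_self]
      have e2 : 0 ≤ ∑ i, (ee k - ee l : Vn n) i ^ 2 := Finset.sum_nonneg fun _ _ => sq_nonneg _
      rw [e1] at h1
      have h2 : 0 < (A - Bc) * ∑ i, (ee k - ee l : Vn n) i ^ 2 := by simpa using h1
      exact pos_of_mul_pos_left h2 e2
    refine ⟨Real.sqrt n * c, Real.sqrt ((A - Bc + n * Bc) / M), Real.sqrt ((A - Bc) / M),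
      Real.sqrt_pos.2 (div_pos hτ0 hM0), Real.sqrt_pos.2 (div_pos hσ0 hM0), hmean, fun θ => ?_⟩
    simp only [hfin]
    rw [hQ θ, Real.sq_sqrt (div_pos hτ0 hM0).le, Real.sq_sqrt (div_pos hσ0 hM0).le, hs2, hnorm]
    field_simp
    ring
  · push Not at hp
    refine ⟨Real.sqrt n * c, Real.sqrt ((A - Bc + n * Bc) / M), 1,
      Real.sqrt_pos.2 (div_pos hτ0 hM0), one_pos, hmean, fun θ => ?_⟩
    have hn1 : n = 1 := by
      by_contra hne
      have h2 : 1 < n := by omega
      have := hp ⟨0, hn⟩ ⟨1, h2⟩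
      simp at this
    simp only [hfin]
    rw [hQ θ, Real.sq_sqrt (div_pos hτ0 hM0).le, hs2, hnorm]
    subst hn1
    have e1 : (∑ i : Fin 1, θ i) ^ 2 = ∑ i : Fin 1, θ i ^ 2 := by simp
    rw [e1]
    push_cast
    field_simp
    ring

end Pool.Agent.Lib.MP_8d00da_gt.h42s
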