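import Pool.Agent.Lib.MP_8d00da_gt.h42s.PCore
import Pool.Agent.Lib.MP_8d00da_gt.h42s.PMom

/-!
# Linear images of permutation invariant weights of bounded support
-/

namespace Pool.Agent.Lib.MP_8d00da_gt.h42s

open MeasureTheory Set Filter
open Pool.Agent.Lib.MP_8d00da_gt.h25 Pool.Agent.Lib.MP_8d00da_gt.h42
open scoped Topology NNReal

variable {n : ℕ}

/-- The linear map which multiplies the diagonal direction by `τ` and the orthogonal complement
by `σ`. -/
noncomputable def RR (n : ℕ) (τ σ : ℝ) : Vn n →L[ℝ] Vn n :=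
  (τ - σ) • ((innerSL ℝ (nu n) : Vn n →L[ℝ] ℝ).smulRight (nu n)) + σ • ContinuousLinearMap.id ℝ (Vn n)

lemma RR_apply (τ σ : ℝ) (z : Vn n) :
    RR n τ σ z = ((τ - σ) * (inner ℝ (nu n) z : ℝ)) • nu n + σ • z := by
  simp only [RR, add_apply, smul_apply, ContinuousLinearMap.smulRight_apply, innerSL_apply_apply,
    ContinuousLinearMap.id_apply, smul_smul]

lemma inner_nu_RR (hn : 0 < n) (τ σ : ℝ) (z : Vn n) :
    (inner ℝ (nu n) (RR n τ σ z) : ℝ) = τ * inner ℝ (nu n) z := by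
  rw [RR_apply, inner_add_right, inner_smul_right, inner_smul_right, real_inner_self_eq_norm_sq,
    nu_norm hn]
  ring

lemma RR_comp (hn : 0 < n) {τ σ : ℝ} (hτ : τ ≠ 0) (hσ : σ ≠ 0) (z : Vn n) :
    RR n τ σ (RR n τ⁻¹ σ⁻¹ z) = z := by
  rw [RR_apply, inner_nu_RR hn, RR_apply]
  rw [smul_add, smul_smul, smul_smul, mul_inv_cancel₀ hσ, one_smul, ← add_assoc, ← add_smul]
  have : (τ - σ) * (τ⁻¹ * (inner ℝ (nu n) z : ℝ)) + σ * ((τ⁻¹ - σ⁻¹) * (inner ℝ (nu n) z : ℝ)) = 0 := by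
    field_simp
    ring
  rw [this, zero_smul, zero_add]

lemma RR_symm (τ σ : ℝ) (w z : Vn n) :
    (inner ℝ (RR n τ σ w) z : ℝ) = inner ℝ w (RR n τ σ z) := by
  rw [RR_apply, RR_apply, inner_add_left, inner_add_right, inner_smul_left, inner_smul_right,
    inner_smul_left, inner_smul_right, real_inner_comm w (nu n)]
  simp only [conj_trivial]
  ring

lemma RR_norm (hn : 0 < n) (τ σ : ℝ) (w : Vn n) :
    ‖RR n τ σ w‖ ^ 2 = τ ^ 2 * (inner ℝ (nu n) w : ℝ) ^ 2 +
      σ ^ 2 * (‖w‖ ^ 2 - (inner ℝ (nu n) w : ℝ) ^ 2) := by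
  rw [RR_apply, norm_add_sq_real, inner_smul_left, inner_smul_right, norm_smul, norm_smul,
    nu_norm hn, mul_one, mul_pow, Real.norm_eq_abs, Real.norm_eq_abs, sq_abs, sq_abs]
  simp only [conj_trivial]
  ring

lemma RR_sw (i j : Fin n) (τ σ : ℝ) (z : Vn n) :
    RR n τ σ (sw i j z) = sw i j (RR n τ σ z) := by
  rw [RR_apply, RR_apply, inner_nu_sw, map_add, map_smul, map_smul, sw_nu]

/-- change of variables -/
lemma RR_jac (hn : 0 < n) {τ σ : ℝ} (hτ : τ ≠ 0) (hσ : σ ≠ 0) (v : Vn n) :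
    ∃ c : ℝ, 0 < c ∧ ∀ φ : Vn n → ℝ, ∫ z, φ (RR n τ σ z + v) = c * ∫ x, φ x := by
  have hdet : LinearMap.det (RR n τ σ : Vn n →ₗ[ℝ] Vn n) ≠ 0 := by
    have h1 : (RR n τ σ : Vn n →ₗ[ℝ] Vn n) ∘ₗ (RR n τ⁻¹ σ⁻¹ : Vn n →ₗ[ℝ] Vn n) = LinearMap.id := by
      ext1 z
      exact RR_comp hn hτ hσ z
    have h2 := congrArg LinearMap.det h1
    rw [LinearMap.det_comp, LinearMap.det_id] at h2
    intro hc
    rw [hc, zero_mul] at h2
    exact zero_ne_one h2
  refine ⟨|(LinearMap.det (RR n τ σ : Vn n →ₗ[ℝ] Vn n))⁻¹|, by positivity, fun φ => ?_⟩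
  have hmap := Measure.map_linearMap_addHaar_eq_smul_addHaar (volume : Measure (Vn n)) hdet
  have hinj : Function.Injective (RR n τ σ) := by
    refine Function.LeftInverse.injective (g := RR n τ⁻¹ σ⁻¹) fun z => ?_
    have := RR_comp hn (inv_ne_zero hτ) (inv_ne_zero hσ) z
    rwa [inv_inv, inv_inv] at this
  have hemb : MeasurableEmbedding (RR n τ σ) := by
    have h3 : Topology.IsClosedEmbedding (RR n τ σ : Vn n →ₗ[ℝ] Vn n) :=
      LinearMap.isClosedEmbedding_of_injective (LinearMap.ker_eq_bot.2 hinj)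
    exact h3.measurableEmbedding
  have h4 : ∫ z, φ (RR n τ σ z + v) = ∫ x, φ (x + v) ∂(Measure.map (RR n τ σ) volume) :=
    (hemb.integral_map fun x => φ (x + v)).symm
  have h5 : Measure.map (RR n τ σ) (volume : Measure (Vn n)) =
      ENNReal.ofReal |(LinearMap.det (RR n τ σ : Vn n →ₗ[ℝ] Vn n))⁻¹| • volume := hmap
  rw [h4, h5, integral_smul_measure, ENNReal.toReal_ofReal (abs_nonneg _), smul_eq_mul,
    integral_add_right_eq_self (μ := (volume : Measure (Vn n))) φ v]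

section image

variable {G : Type*} [NormedAddCommGroup G] [InnerProductSpace ℝ G]
    [FiniteDimensional ℝ G] [MeasurableSpace G] [BorelSpace G]

theorem core_T {h : Vn n → ℝ} {r B : ℝ} (H : LCW h r B) (hS : Exch h) (hn : 0 < n)
    (T : Vn n →L[ℝ] G) (hT : Function.Surjective T) (c : G) {D : ℝ} (hD : 0 ≤ D)
    (hlin : ∀ v : G, ∫ x, (inner ℝ v (T x - c) : ℝ) ^ 2 * h x ≤ D ^ 2 * ‖v‖ ^ 2 * ∫ x, h x)
    {f : G → ℝ} {L : ℝ≥0} (hf : LipschitzWith L f) {m : ℝ}
    (hm : ∫ x, f (T x) * h x = m * ∫ x, h x) :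
    ∫ x, (f (T x) - m) ^ 2 * h x ≤ (10 ^ 6 * D) ^ 2 * ∫ x, ‖fderiv ℝ f (T x)‖ ^ 2 * h x := by
  obtain ⟨b, τ, σ, hτ, hσ, hm1, hm2⟩ := exch_moments H hS hn
  set M : ℝ := ∫ x, h x with hM
  have hM0 : 0 < M := H.mass
  set b0 : Vn n := b • nu n with hb0
  set R := RR n τ σ with hR
  set Ri := RR n τ⁻¹ σ⁻¹ with hRi
  have hRRi : ∀ z, R (Ri z) = z := RR_comp hn hτ.ne' hσ.ne'
  have hRiR : ∀ z, Ri (R z) = z := fun z => by
    have := RR_comp hn (inv_ne_zero hτ.ne') (inv_ne_zero hσ.ne') z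
    rwa [inv_inv, inv_inv] at this
  obtain ⟨cJ, hcJ, hJ⟩ := RR_jac hn hτ.ne' hσ.ne' b0
  rw [← hR] at hJ
  set h' : Vn n → ℝ := fun z => h (R z + b0) with hh'
  have hM' : ∫ z, h' z = cJ * M := hJ h
  -- the new weight
  have H' : LCW h' (‖Ri‖ * (r + ‖b0‖)) B :=
    { meas := H.meas.comp (R.continuous.measurable.add_const b0)
      nonneg := fun x => H.nonneg _
      bdd := fun x => H.bdd _
      conc := by
        intro a ha0 ha1 x y
        have h1 := H.conc a ha0 ha1 (R x + b0) (R y + b0)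
        have e : (1 - a) • (R x + b0) + a • (R y + b0) = R ((1 - a) • x + a • y) + b0 := by
          rw [smul_add, smul_add, map_add, map_smul, map_smul]
          have : b0 = (1 - a) • b0 + a • b0 := by rw [← add_smul]; simp
          nth_rewrite 3 [this]
          abel
        rw [e] at h1
        exact h1
      supp := by
        intro x hx
        apply H.supp
        by_contra hc
        rw [not_lt] at hc
        have h3 : ‖R x‖ ≤ r + ‖b0‖ := by
          have := norm_sub_le (R x + b0) b0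
          rw [add_sub_cancel_right] at this
          linarith
        have h4 : ‖x‖ ≤ ‖Ri‖ * (r + ‖b0‖) := by
          calc ‖x‖ = ‖Ri (R x)‖ := by rw [hRiR]
            _ ≤ ‖Ri‖ * ‖R x‖ := Ri.le_opNorm _
            _ ≤ _ := mul_le_mul_of_nonneg_left h3 (norm_nonneg _)
        linarith
      mass := by rw [hM']; positivity }
  have hS' : Exch h' := by
    intro i j x
    have e : R (sw i j x) + b0 = sw i j (R x + b0) := by
      rw [hR, RR_sw, map_add, hb0, map_smul, sw_nu]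
    simp only [hh', e, hS i j]
  have hinner : ∀ θ z : Vn n, (inner ℝ (Ri θ) (R z + b0 - b0) : ℝ) = inner ℝ θ z := by
    intro θ z
    rw [add_sub_cancel_right, hRi, RR_symm, ← hRi, hRiR]
  have h1' : ∀ θ : Vn n, ∫ z, (inner ℝ θ z : ℝ) * h' z = 0 := by
    intro θ
    have e := hJ fun x => (inner ℝ (Ri θ) (x - b0) : ℝ) * h x
    simp only [hinner] at e
    rw [hm1, mul_zero] at e
    exact e
  have h2' : ∀ θ : Vn n, ∫ z, (inner ℝ θ z : ℝ) ^ 2 * h' z = ‖θ‖ ^ 2 * ∫ z, h' z := by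
    intro θ
    have e := hJ fun x => (inner ℝ (Ri θ) (x - b0) : ℝ) ^ 2 * h x
    simp only [hinner] at e
    rw [hm2, ← RR_norm hn, ← hR, hRRi] at e
    rw [hM']
    refine Eq.trans e ?_
    ring
  -- the test function
  set TR : Vn n →L[ℝ] G := T.comp R with hTR
  have hTRn : ‖TR‖ ≤ D := by
    refine ContinuousLinearMap.opNorm_le_bound _ hD fun z => ?_
    set v : G := TR z with hv
    set w : Vn n := ContinuousLinearMap.adjoint T v with hw
    have hRw : ‖R w‖ ≤ D * ‖v‖ := by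
      have i1 : Integrable fun x => (inner ℝ w (x - b0) : ℝ) * h x := by
        refine LCW_int_mul H (C := ‖w‖ * (r + ‖b0‖)) (by fun_prop) fun x hx => ?_
        refine (abs_real_inner_le_norm _ _).trans (mul_le_mul_of_nonneg_left ?_ (norm_nonneg _))
        exact (norm_sub_le _ _).trans (by linarith)
      have i2 : Integrable fun x => (inner ℝ w (x - b0) : ℝ) ^ 2 * h x := by
        refine LCW_int_mul H (C := (‖w‖ * (r + ‖b0‖)) ^ 2) (by fun_prop) fun x hx => ?_
        rw [abs_pow]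
        refine pow_le_pow_left₀ (abs_nonneg _) ?_ 2
        refine (abs_real_inner_le_norm _ _).trans (mul_le_mul_of_nonneg_left ?_ (norm_nonneg _))
        exact (norm_sub_le _ _).trans (by linarith)
      have e1 : ∀ x, (inner ℝ v (T x - c) : ℝ) ^ 2 * h x =
          (inner ℝ w (x - b0) : ℝ) ^ 2 * h x + 2 * ((inner ℝ w b0 : ℝ) - inner ℝ v c) *
            ((inner ℝ w (x - b0) : ℝ) * h x) + ((inner ℝ w b0 : ℝ) - inner ℝ v c) ^ 2 * h x := by
        intro x
        have e2 : (inner ℝ v (T x - c) : ℝ) = inner ℝ w (x - b0) + ((inner ℝ w b0 : ℝ) - inner ℝ v c) := by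
          rw [inner_sub_right, inner_sub_right, hw, ContinuousLinearMap.adjoint_inner_left]
          ring
        rw [e2]; ring
      have e3 := hlin v
      simp only [e1] at e3
      have i3 : Integrable fun x => (inner ℝ w (x - b0) : ℝ) ^ 2 * h x +
          2 * ((inner ℝ w b0 : ℝ) - inner ℝ v c) * ((inner ℝ w (x - b0) : ℝ) * h x) :=
        i2.add (i1.const_mul _)
      rw [integral_add i3 (H.int.const_mul _), integral_add i2 (i1.const_mul _), integral_const_mul,
        integral_const_mul, hm1, hm2, ← RR_norm hn, ← hR, ← hM] at e3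
      have e4 : ‖R w‖ ^ 2 * M ≤ (D * ‖v‖) ^ 2 * M := by
        have := mul_nonneg (sq_nonneg ((inner ℝ w b0 : ℝ) - inner ℝ v c)) hM0.le
        calc ‖R w‖ ^ 2 * M ≤ D ^ 2 * ‖v‖ ^ 2 * M := by linarith
          _ = _ := by ring
      have e5 := le_of_mul_le_mul_right e4 hM0
      exact (pow_le_pow_iff_left₀ (norm_nonneg _) (by positivity) two_ne_zero).1 e5
    have e6 : ‖v‖ ^ 2 ≤ (D * ‖z‖) * ‖v‖ := by
      calc ‖v‖ ^ 2 = inner ℝ v v := (real_inner_self_eq_norm_sq v).symm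
        _ = inner ℝ v (T (R z)) := rfl
        _ = inner ℝ w (R z) := by rw [hw, ContinuousLinearMap.adjoint_inner_left]
        _ = inner ℝ (R w) z := by rw [hR, RR_symm]
        _ ≤ ‖R w‖ * ‖z‖ := real_inner_le_norm _ _
        _ ≤ (D * ‖v‖) * ‖z‖ := mul_le_mul_of_nonneg_right hRw (norm_nonneg _)
        _ = _ := by ring
    rcases (norm_nonneg v).eq_or_lt with h0 | h0
    · rw [← h0]; positivity
    · rw [sq] at e6
      exact le_of_mul_le_mul_right e6 h0
  set u : Vn n → ℝ := fun z => f (T (R z + b0)) with hu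
  have haff : ∀ z, T (R z + b0) = TR z + T b0 := fun z => by
    rw [map_add]; rfl
  have huL : LipschitzWith (L * ‖TR‖₊) u := by
    refine LipschitzWith.of_dist_le_mul fun x y => ?_
    have e1 := hf.dist_le_mul (T (R x + b0)) (T (R y + b0))
    refine e1.trans ?_
    rw [NNReal.coe_mul, coe_nnnorm, mul_assoc]
    refine mul_le_mul_of_nonneg_left ?_ L.2
    rw [haff, haff, dist_add_right, dist_eq_norm, dist_eq_norm, ← map_sub]
    exact TR.le_opNorm _
  have hum : ∫ z, u z * h' z = m * ∫ z, h' z := by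
    rw [hM']
    have e := hJ fun x => f (T x) * h x
    rw [hm] at e
    refine Eq.trans e ?_
    ring
  have key := core_iso H' hS' hn h1' h2' huL hum
  have e1 : ∫ z, (u z - m) ^ 2 * h' z = cJ * ∫ x, (f (T x) - m) ^ 2 * h x :=
    hJ fun x => (f (T x) - m) ^ 2 * h x
  have e2 : cJ * ∫ x, ‖fderiv ℝ f (T x)‖ ^ 2 * h x =
      ∫ z, ‖fderiv ℝ f (T (R z + b0))‖ ^ 2 * h' z :=
    (hJ fun x => ‖fderiv ℝ f (T x)‖ ^ 2 * h x).symm
  have hTRs : Function.Surjective TR := by
    intro y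
    obtain ⟨x, hx⟩ := hT y
    exact ⟨Ri x, by rw [← hx]; exact congrArg T (hRRi x)⟩
  have hgc : Continuous fun z : Vn n => T (R z + b0) := by fun_prop
  have e3 : En h' u ≤ D ^ 2 * ∫ z, ‖fderiv ℝ f (T (R z + b0))‖ ^ 2 * h' z := by
    unfold En
    rw [← integral_const_mul]
    have hbf : ∀ y, ‖fderiv ℝ f y‖ ≤ L := fun y => norm_fderiv_le_of_lipschitz ℝ hf
    refine integral_mono_ae ?_ ?_ ?_
    · exact bdd_int H'.int ((measurable_fderiv ℝ u).norm.pow_const 2) (sq_fderiv_bdd huL)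
    · refine Integrable.const_mul ?_ _
      refine bdd_int H'.int (φ := fun z => ‖fderiv ℝ f (T (R z + b0))‖ ^ 2) (M := (L : ℝ) ^ 2)
        (((measurable_fderiv ℝ f).norm.pow_const 2).comp hgc.measurable) fun z => ?_
      exact sq_fderiv_bdd hf _
    · have hDf : ∀ᵐ z : Vn n, DifferentiableAt ℝ f (TR z + T b0) := by
        have h3 : ∀ᵐ y : G, DifferentiableAt ℝ f y := hf.ae_differentiableAt
        have h4 : ∀ᵐ y : G, DifferentiableAt ℝ f (y + T b0) :=
          (measurePreserving_add_right (volume : Measure G) (T b0)).quasiMeasurePreserving.ae h3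
        have hms : MeasurableSet {y : G | DifferentiableAt ℝ f (y + T b0)} :=
          (measurableSet_of_differentiableAt ℝ f).preimage (measurable_id.add_const (T b0))
        exact (ae_comp_linearMap_mem_iff (L := (TR : Vn n →ₗ[ℝ] G)) (μ := volume) (ν := volume)
          hTRs hms).2 h4
      filter_upwards [hDf] with z hz
      have h6 : HasFDerivAt u ((fderiv ℝ f (TR z + T b0)).comp TR) z := by
        have h7 : HasFDerivAt (fun z => f (TR z + T b0)) ((fderiv ℝ f (TR z + T b0)).comp TR) z :=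
          hz.hasFDerivAt.comp z (TR.hasFDerivAt.add_const (T b0))
        refine h7.congr_of_eventuallyEq (Eventually.of_forall fun y => ?_)
        simp only [hu, haff]
      rw [h6.fderiv, haff, ← mul_assoc]
      refine mul_le_mul_of_nonneg_right ?_ (H'.nonneg z)
      calc ‖(fderiv ℝ f (TR z + T b0)).comp TR‖ ^ 2 ≤ (‖fderiv ℝ f (TR z + T b0)‖ * ‖TR‖) ^ 2 :=
            pow_le_pow_left₀ (norm_nonneg _) (ContinuousLinearMap.opNorm_comp_le _ _) 2
        _ ≤ (‖fderiv ℝ f (TR z + T b0)‖ * D) ^ 2 :=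
            pow_le_pow_left₀ (by positivity) (mul_le_mul_of_nonneg_left hTRn (norm_nonneg _)) 2
        _ = _ := by ring
  rw [e1] at key
  rw [← e2] at e3
  have e4 : cJ * ∫ x, (f (T x) - m) ^ 2 * h x ≤
      cJ * ((10 ^ 6 * D) ^ 2 * ∫ x, ‖fderiv ℝ f (T x)‖ ^ 2 * h x) := by
    refine key.trans ((mul_le_mul_of_nonneg_left e3 (by norm_num)).trans (le_of_eq ?_))
    ring
  exact le_of_mul_le_mul_left e4 hcJ

end image

end Pool.Agent.Lib.MP_8d00da_gt.h42s
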