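import Pool.Agent.Lib.MP_8d00da_gt.h42s.PCoreT
import Pool.Agent.Lib.MP_8d00da_gt.h42s.FinalGT

/-!
# The KLS inequality for linear images of permutation invariant log-concave probability measures
-/

namespace Pool.Agent.Lib.MP_8d00da_gt.h42s

open MeasureTheory Set Filter
open Pool.Agent.Lib.MP_8d00da_gt.h42
open Pool.Agent.Lib.MP_8d00da_gt.h25 (LCW Wt En PoincareWith LinPoincareWith logConc_bdd)
open scoped Topology NNReal

variable {n : ℕ}

section image

variable {G : Type*} [NormedAddCommGroup G] [InnerProductSpace ℝ G]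
    [FiniteDimensional ℝ G] [MeasurableSpace G] [BorelSpace G]

theorem perm_invariant {h : Vn n → ℝ} (h0 : ∀ x, 0 ≤ h x) (hm : Measurable h) (hLC : LogConc h)
    (hS : Exch h) {μ : Measure (Vn n)}
    (hμ : μ = volume.withDensity fun x => ENNReal.ofReal (h x)) [IsProbabilityMeasure μ]
    (T : Vn n →L[ℝ] G) (hT : Function.Surjective T) (b : G) {D : ℝ}
    (hD : LinPoincareWith (μ.map fun x => T x + b) D) :
    PoincareWith (μ.map fun x => T x + b) (10 ^ 6 * D) := by
  have hcont : Continuous fun x => T x + b := T.continuous.add continuous_const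
  have hme : AEMeasurable (fun x => T x + b) μ := hcont.measurable.aemeasurable
  have hprob : IsProbabilityMeasure (μ.map fun x => T x + b) :=
    Measure.isProbabilityMeasure_map hme
  obtain ⟨c, -, hlin⟩ := lin_props hD
  have hD'0 : 0 ≤ max D 0 := le_max_right _ _
  -- the trivial case
  rcases Nat.eq_zero_or_pos n with hn | hn
  · subst hn
    have hT1 : ∀ y : G, y = 0 := by
      intro y
      obtain ⟨x, hx⟩ := hT y
      have h1 : x = 0 := by ext i; exact i.elim0
      rw [← hx, h1, map_zero]
    rintro f ⟨L, hf⟩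
    have h2 : ∀ y, f y = f 0 := fun y => by rw [hT1 y]
    have h3 : (fun x => f x - ∫ y, f y ∂(μ.map fun x => T x + b)) = fun _ => 0 := by
      funext x
      simp only [h2 x, h2, integral_const, probReal_univ, smul_eq_mul, one_mul, sub_self]
    rw [h3]
    simp
  refine poincare_of_var (by norm_num) fun f L hf => ?_
  have hfL : LipschitzWith L fun y => f (y + b) := by
    refine LipschitzWith.of_dist_le_mul fun x y => ?_
    have := hf.dist_le_mul (x + b) (y + b)
    rwa [dist_add_right] at this
  have hcore : CoreT (fun h : Vn n → ℝ => Exch h) (10 ^ 6) T := by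
    intro h r B H hS c' σ hσ hl f L hf m hm
    exact core_T H hS hn T hT c' hσ.le hl hf hm
  have hP : ∀ (h : Vn n → ℝ) (R : ℝ), Exch h → Exch ((Metric.closedBall (0 : Vn n) R).indicator h) := by
    intro h R hh
    refine hh.indicator fun i j x => ?_
    rw [mem_closedBall_zero_iff, mem_closedBall_zero_iff, LinearIsometryEquiv.norm_map]
  have hlin' : ∀ v : G, MemLp (fun x => inner ℝ v (T x - (c - b))) 2 μ ∧
      ∫ x, (inner ℝ v (T x - (c - b))) ^ 2 ∂μ ≤ (max D 0) ^ 2 * ‖v‖ ^ 2 := by
    intro v
    obtain ⟨h1, h2⟩ := hlin v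
    have hvm : Measurable fun y : G => (inner ℝ v (y - c) : ℝ) :=
      (continuous_const.inner (continuous_id.sub continuous_const)).measurable
    have h3 := (memLp_map_measure_iff hvm.aestronglyMeasurable hme).1 h1
    rw [integral_map hme (hvm.pow_const 2).aestronglyMeasurable] at h2
    have e : ∀ x, T x + b - c = T x - (c - b) := fun x => by abel
    simp only [e] at h2
    refine ⟨?_, h2⟩
    refine (memLp_congr_ae (Eventually.of_forall fun x => ?_)).1 h3
    simp only [Function.comp_apply, e]
  obtain ⟨h1, h2⟩ := var_of_coreT T hP hcore h h0 hm hLC hS μ hμ (c - b) hD'0 hlin' hfL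
  have hfm : Measurable f := hf.continuous.measurable
  have i1 : ∀ {φ : G → ℝ}, Measurable φ →
      ∫ y, φ y ∂(μ.map fun x => T x + b) = ∫ x, φ (T x + b) ∂μ := fun hφ =>
    integral_map hme hφ.aestronglyMeasurable
  refine ⟨(memLp_map_measure_iff hfm.aestronglyMeasurable hme).2 h1, ?_⟩
  rw [i1 hfm, i1 ((hfm.sub_const _).pow_const 2), i1 ((measurable_fderiv ℝ f).norm.pow_const 2)]
  refine h2.trans (le_of_eq ?_)
  simp only [fderiv_comp_add_right]

end image

end Pool.Agent.Lib.MP_8d00da_gt.h42s
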