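import Pool.Agent.Lib.MP_8d00da_gt.h42s.PSlice
import Pool.Agent.Lib.MP_8d00da_gt.LogConc
import Pool.Agent.Lib.MP_8d00da_gt.h42.PLReal

/-!
# Marginals of log-concave weights
-/

namespace Pool.Agent.Lib.MP_8d00da_gt.h42s

open MeasureTheory Set Filter
open Pool.Agent.Lib.MP_8d00da_gt.h25 Pool.Agent.Lib.MP_8d00da_gt.h42
open scoped Topology NNReal

variable {F : Type*} [NormedAddCommGroup F] [InnerProductSpace ℝ F]
    [FiniteDimensional ℝ F] [MeasurableSpace F] [BorelSpace F] {n : ℕ}

lemma marg_meas {h : F → ℝ} {r B : ℝ} (H : LCW h r B) (ν : F) : Measurable (marg ν h) := by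
  have hm : Measurable (fun p : ℝ × (ℝ ∙ ν)ᗮ => h (p.1 • ν + (p.2 : F))) :=
    H.meas.comp (by fun_prop)
  exact (hm.stronglyMeasurable.integral_prod_right').measurable

lemma marg_nonneg {h : F → ℝ} {r B : ℝ} (H : LCW h r B) (ν : F) (s : ℝ) : 0 ≤ marg ν h s :=
  integral_nonneg fun _ => H.nonneg _

lemma marg_lc {h : F → ℝ} {r B : ℝ} (H : LCW h r B) {ν : F} (hν : ‖ν‖ = 1) {a : ℝ} (ha0 : 0 < a)
    (ha1 : a < 1) (s s' : ℝ) :
    marg ν h s ^ (1 - a) * marg ν h s' ^ a ≤ marg ν h ((1 - a) * s + a * s') := by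
  have hm : ∀ t : ℝ, Measurable fun y : (ℝ ∙ ν)ᗮ => h (t • ν + (y : F)) := fun t =>
    H.meas.comp (by fun_prop)
  refine pl_integral ha0 ha1 (fun _ => H.nonneg _) (fun _ => H.nonneg _) (fun _ => H.nonneg _)
    (hm s) (hm s') (hm _) (sec_int H hν s) (sec_int H hν s') (sec_int H hν _) fun y y' => ?_
  have h1 := H.conc a ha0 ha1 (s • ν + (y : F)) (s' • ν + (y' : F))
  refine h1.trans (le_of_eq ?_)
  congr 1
  simp only [Submodule.coe_add, Submodule.coe_smul, smul_add, smul_smul, add_smul]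
  abel

lemma marg_integrable {h : F → ℝ} {r B : ℝ} (H : LCW h r B) {ν : F} (hν : ‖ν‖ = 1) :
    Integrable (marg ν h) := (slice_integrable hν H.int).2

lemma marg_total {h : F → ℝ} {r B : ℝ} (H : LCW h r B) {ν : F} (hν : ‖ν‖ = 1) :
    ∫ s, marg ν h s = ∫ x, h x := (slice_int hν H.int).symm

theorem marg_LCD {h : F → ℝ} {r B : ℝ} (H : LCW h r B) {ν : F} (hν : ‖ν‖ = 1) :
    LCD (fun s => marg ν h s / ∫ x, h x) ∧
      IsProbabilityMeasure (dens fun s => marg ν h s / ∫ x, h x) := by
  have hM := H.mass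
  set M := ∫ x, h x with hMdef
  have hnn : ∀ s, 0 ≤ marg ν h s / M := fun s => div_nonneg (marg_nonneg H ν s) hM.le
  refine ⟨⟨(marg_meas H ν).div_const _, hnn, ?_⟩, ⟨?_⟩⟩
  · intro x y a b ha hb hab
    rcases ha.eq_or_lt with ha | ha
    · subst ha
      have hb1 : b = 1 := by linarith
      subst hb1
      simp
    rcases hb.eq_or_lt with hb | hb
    · subst hb
      have ha1 : a = 1 := by linarith
      subst ha1
      simp
    have h1 := marg_lc H hν (a := b) hb (by linarith) x y
    have e1 : 1 - b = a := by linarith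
    rw [e1] at h1
    rw [Real.div_rpow (marg_nonneg H ν x) hM.le, Real.div_rpow (marg_nonneg H ν y) hM.le,
      div_mul_div_comm, ← Real.rpow_add hM, hab, Real.rpow_one]
    exact div_le_div_of_nonneg_right h1 hM.le
  · have hi : Integrable (fun s => marg ν h s / M) := (marg_integrable H hν).div_const _
    unfold dens
    rw [withDensity_apply _ MeasurableSet.univ, Measure.restrict_univ,
      ← ofReal_integral_eq_lintegral_ofReal hi (Eventually.of_forall hnn), integral_div,
      marg_total H hν, div_self hM.ne', ENNReal.ofReal_one]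

theorem marg_int {h : F → ℝ} {r B : ℝ} (H : LCW h r B) {ν : F} (hν : ‖ν‖ = 1) {φ : ℝ → ℝ}
    (hφ : Measurable φ) (hi : Integrable fun x => φ (inner ℝ ν x) * h x) :
    ∫ x, φ (inner ℝ ν x) * h x = (∫ x, h x) * ∫ s, φ s ∂(dens fun s => marg ν h s / ∫ x, h x) := by
  have hM := H.mass
  set M := ∫ x, h x with hMdef
  have hnn : ∀ s, 0 ≤ marg ν h s / M := fun s => div_nonneg (marg_nonneg H ν s) hM.le
  have e1 : ∫ x, φ (inner ℝ ν x) * h x = ∫ s, φ s * marg ν h s := by
    rw [slice_int hν hi]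
    refine integral_congr_ae (Eventually.of_forall fun s => ?_)
    simp only [slice_inner hν]
    unfold marg
    rw [integral_const_mul]
  have e2 : ∫ s, φ s ∂(dens fun s => marg ν h s / M) = ∫ s, φ s * (marg ν h s / M) := by
    unfold dens
    have := integral_withDensity_eq_integral_toReal_smul (μ := (volume : Measure ℝ))
      (f := fun s => ENNReal.ofReal (marg ν h s / M))
      ((marg_meas H ν).div_const M).ennreal_ofReal (Eventually.of_forall fun _ => ENNReal.ofReal_lt_top)
      φ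
    rw [this]
    refine integral_congr_ae (Eventually.of_forall fun s => ?_)
    simp only [smul_eq_mul]
    rw [ENNReal.toReal_ofReal (hnn s), mul_comm]
  rw [e1, e2]
  have e3 : (fun s => φ s * (marg ν h s / M)) = fun s => (φ s * marg ν h s) / M := by
    ext s; ring
  rw [e3, integral_div]
  field_simp

end Pool.Agent.Lib.MP_8d00da_gt.h42s
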